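import Pool.Agent.H533.GE.Code

/-!
Linear forms `u n + v q`: the cells.
-/

set_option autoImplicit false

open Finset Filter Topology

namespace Pool.Agent.H533.GE

open Pool.Agent.H361R2.PP
open Pool.Agent.H533.QM
open Pool.Agent.H533.QS
open Pool.Agent.H533.QA

theorem mem_pf {X q b n : ℕ} {f : ℕ × ℕ} (hq : 1 ≤ q) (hqX : q ≤ X) (hf : IsF q f) :
    (n ∈ Sc X q b ∧ Pf X q f n) ↔ ((X ≤ n ∧ n < 2 * X) ∧ n % Wq X q = b) ∧ (ff q f n).Prime ∧
      ∀ p ∈ Ru X f.1, ¬ p ∣ n := by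
  rw [mem_Sc]
  unfold Pf
  have hR : (∀ p : ℕ, p.Prime → p ∣ f.1 → HH X < p → ¬ p ∣ n) ↔ ∀ p ∈ Ru X f.1, ¬ p ∣ n := by
    constructor
    · intro h p hp
      rw [mem_Ru hf.1] at hp
      exact h p hp.1 hp.2.1 hp.2.2
    · intro h p h1 h2 h3
      exact h p ((mem_Ru hf.1).2 ⟨h1, h2, h3⟩)
  rw [hR]
  constructor
  · rintro ⟨⟨h1, h2, -⟩, h3, h4⟩
    exact ⟨⟨h1, h2⟩, h3, h4⟩
  · rintro ⟨⟨h1, h2⟩, h3, h4⟩
    refine ⟨⟨h1, h2, ?_⟩, h3, h4⟩
    rw [Nat.coprime_iff_gcd_eq_one]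
    by_contra hcon
    obtain ⟨p, hp, hpd⟩ := Nat.exists_prime_and_dvd hcon
    have hpn : p ∣ n := hpd.trans (Nat.gcd_dvd_left _ _)
    have hpq : p ∣ q := hpd.trans (Nat.gcd_dvd_right _ _)
    have h5 : p ∣ ff q f n := by
      unfold ff
      exact dvd_add (hpn.mul_left _) (hpq.mul_left _)
    have h6 := (Nat.prime_dvd_prime_iff_eq hp h3).1 h5
    have h7 := Nat.le_of_dvd hq hpq
    have h8 : n + 1 ≤ ff q f n := by
      unfold ff
      have e1 : 1 * n ≤ f.1 * n := Nat.mul_le_mul_right n hf.1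
      have e2 : 1 * 1 ≤ f.2 * q := Nat.mul_le_mul hf.2.1 hq
      omega
    omega

theorem card_cell (X q u v M n0 r : ℕ) (hu : 1 ≤ u) (D : Finset ℕ)
    (hD : ∀ p ∈ D, p.Prime ∧ ¬ p ∣ u) :
    ((Ico X (2 * X)).filter (fun n => n % M = n0 ∧ (u * n + v * q).Prime ∧
      ∀ p ∈ D, n % p = r % p)).card =
    ((Spr (Sk (u * X) (u * M) (u * n0)) (v * q)).filter
      (fun n => ∀ p ∈ D, n % p = (u * r) % p)).card := by
  have hu0 : 0 < u := hu
  apply card_nbij' (fun n => u * n) (fun n => n / u)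
  · intro n hn
    rw [mem_coe, mem_filter, mem_Ico] at hn
    obtain ⟨⟨h1, h2⟩, h3, h4, h5⟩ := hn
    rw [mem_coe, mem_filter, mem_Spr, mem_Sk]
    refine ⟨⟨⟨⟨Nat.mul_le_mul_left u h1, ?_⟩, ?_⟩, h4⟩, ?_⟩
    · calc u * n < u * (2 * X) := Nat.mul_lt_mul_of_pos_left h2 hu0
        _ = 2 * (u * X) := by ring
    · rw [Nat.mul_mod_mul_left, h3]
    · intro p hp
      have h6 : n ≡ r [MOD p] := h5 p hp
      exact h6.mul_left u
  · intro n hn
    rw [mem_coe, mem_filter, mem_Spr, mem_Sk] at hn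
    obtain ⟨⟨⟨⟨h1, h2⟩, h3⟩, h4⟩, h5⟩ := hn
    have hdvd : u ∣ n := by
      have h6 := Nat.mod_add_div n (u * M)
      rw [h3] at h6
      rw [← h6]
      exact dvd_add (dvd_mul_right _ _) ((dvd_mul_right u M).mul_right _)
    obtain ⟨m, rfl⟩ := hdvd
    rw [mem_coe, mem_filter, mem_Ico]
    simp only
    rw [Nat.mul_div_cancel_left _ hu0]
    refine ⟨⟨Nat.le_of_mul_le_mul_left h1 hu0, ?_⟩, ?_, h4, ?_⟩
    · have h6 : u * m < u * (2 * X) := by
        calc u * m < 2 * (u * X) := h2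
          _ = u * (2 * X) := by ring
      exact Nat.lt_of_mul_lt_mul_left h6
    · rw [Nat.mul_mod_mul_left] at h3
      exact Nat.eq_of_mul_eq_mul_left hu0 h3
    · intro p hp
      have h6 : u * m ≡ u * r [MOD p] := h5 p hp
      have hc : Nat.gcd p u = 1 := (Nat.Prime.coprime_iff_not_dvd (hD p hp).1).2 (hD p hp).2
      exact Nat.ModEq.cancel_left_of_coprime hc h6
  · intro n _
    exact Nat.mul_div_cancel_left _ hu0
  · intro n hn
    rw [mem_coe, mem_filter, mem_Spr, mem_Sk] at hn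
    obtain ⟨⟨⟨⟨h1, h2⟩, h3⟩, h4⟩, h5⟩ := hn
    have hdvd : u ∣ n := by
      have h6 := Nat.mod_add_div n (u * M)
      rw [h3] at h6
      rw [← h6]
      exact dvd_add (dvd_mul_right _ _) ((dvd_mul_right u M).mul_right _)
    exact Nat.mul_div_cancel' hdvd

/-- the cells -/
noncomputable def E0 (X q u b : ℕ) : Finset ℕ :=
  (range (Wq X q * ∏ p ∈ Ru X u, p)).filter
    (fun n => n % Wq X q = b ∧ ∀ p ∈ Ru X u, ¬ p ∣ n)

theorem mem_E0 {X q u b n : ℕ} : n ∈ E0 X q u b ↔ n < Wq X q * ∏ p ∈ Ru X u, p ∧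
    n % Wq X q = b ∧ ∀ p ∈ Ru X u, ¬ p ∣ n := by
  unfold E0
  rw [mem_filter, mem_range]

theorem cop_W_R {X q u : ℕ} (hu : 1 ≤ u) : (Wq X q).Coprime (∏ p ∈ Ru X u, p) := by
  apply Nat.Coprime.prod_right
  intro p hp
  rw [mem_Ru hu] at hp
  exact ((Nat.Prime.coprime_iff_not_dvd hp.1).2 (not_dvd_Wq hp.1 hp.2.2)).symm

open Classical in
theorem card_E0 {X q u b r : ℕ} (hu : 1 ≤ u) (hb : b < Wq X q) (D : Finset ℕ)
    (hr : ∀ p ∈ D, p ∈ Ru X u → ¬ p ∣ r) :
    (((E0 X q u b).filter (fun n => ∀ p ∈ D, p ∈ Ru X u → n % p = r % p)).card : ℝ) =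
      ∏ p ∈ (Ru X u) \ D, ((p : ℝ) - 1) := by
  have hW0 := Wq_pos X q
  have hRp : ∀ p ∈ Ru X u, p.Prime := fun p hp => ((mem_Ru hu).1 hp).1
  have hρ0 : 0 < ∏ p ∈ Ru X u, p := prod_pos fun p hp => (hRp p hp).pos
  obtain ⟨C, hC⟩ : ∃ C : ℕ → ℕ → Prop, C = fun p x => (p ∈ D → x = r % p) ∧ ¬ p ∣ x := ⟨_, rfl⟩
  have h1 : (E0 X q u b).filter (fun n => ∀ p ∈ D, p ∈ Ru X u → n % p = r % p) =
      (range (Wq X q * ∏ p ∈ Ru X u, p)).filter (fun n => (n % Wq X q = b) ∧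
        (fun y => ∀ p ∈ Ru X u, C p (y % p)) (n % ∏ p ∈ Ru X u, p)) := by
    ext n
    rw [mem_filter, mem_E0, mem_filter, mem_range, hC]
    have hmod : ∀ p ∈ Ru X u, n % (∏ p ∈ Ru X u, p) % p = n % p := fun p hp =>
      Nat.mod_mod_of_dvd n (dvd_prod_of_mem _ hp)
    constructor
    · rintro ⟨⟨h1, h2, h3⟩, h4⟩
      refine ⟨h1, h2, fun p hp => ?_⟩
      rw [hmod p hp]
      refine ⟨fun hD => h4 p hD hp, fun h => h3 p hp ?_⟩
      exact (Nat.dvd_mod_iff dvd_rfl).1 h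
    · rintro ⟨h1, h2, h3⟩
      refine ⟨⟨h1, h2, fun p hp h => ?_⟩, fun p hD hp => ?_⟩
      · have h4 := (h3 p hp).2
        rw [hmod p hp] at h4
        exact h4 ((Nat.dvd_mod_iff dvd_rfl).2 h)
      · have h4 := (h3 p hp).1 hD
        rwa [hmod p hp] at h4
  rw [h1, crt2 (cop_W_R hu) hW0 hρ0 (fun x => x = b) (fun y => ∀ p ∈ Ru X u, C p (y % p)),
    crt_count (Ru X u) hRp C]
  have h2 : ((range (Wq X q)).filter (fun x => x = b)).card = 1 := by
    rw [filter_eq' (range (Wq X q)) b, if_pos (mem_range.2 hb), card_singleton]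
  rw [h2, one_mul]
  push_cast
  have h3 : ∀ p ∈ Ru X u, (((range p).filter (C p)).card : ℝ) = if p ∈ D then 1 else (p : ℝ) - 1 := by
    intro p hp
    have hpp := hRp p hp
    split_ifs with hD
    · have : (range p).filter (C p) = {r % p} := by
        ext x
        rw [mem_filter, mem_range, mem_singleton, hC]
        constructor
        · rintro ⟨_, h4, _⟩
          exact h4 hD
        · rintro rfl
          refine ⟨Nat.mod_lt _ hpp.pos, fun _ => rfl, fun h => hr p hD hp ?_⟩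
          exact (Nat.dvd_mod_iff dvd_rfl).1 h
      rw [this, card_singleton, Nat.cast_one]
    · have : (range p).filter (C p) = (range p).erase 0 := by
        ext x
        rw [mem_filter, mem_erase, mem_range, hC]
        constructor
        · rintro ⟨h4, _, h5⟩
          refine ⟨fun h => h5 ?_, h4⟩
          rw [h]
          exact dvd_zero p
        · rintro ⟨h4, h5⟩
          exact ⟨h5, fun h => absurd h hD, fun h => by
            have := Nat.le_of_dvd (Nat.pos_of_ne_zero h4) h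
            omega⟩
      rw [this, card_erase_of_mem (mem_range.2 hpp.pos), card_range, Nat.cast_sub hpp.one_le,
        Nat.cast_one]
  rw [prod_congr rfl h3, prod_ite, prod_const_one, one_mul, ← sdiff_eq_filter]

/-- the totient of the modulus of a cell -/
theorem phi_cell {X q u v : ℕ} (hu : 1 ≤ u) (hc : u.Coprime (v * q)) :
    (Nat.totient (u * (Wq X q * ∏ p ∈ Ru X u, p)) : ℝ) =
      u * Nat.totient (Wq X q) * ∏ p ∈ Ru X u, ((p : ℝ) - 1) := by
  classical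
  have hW0 := Wq_pos X q
  have hRp : ∀ p ∈ Ru X u, p.Prime := fun p hp => ((mem_Ru hu).1 hp).1
  have hSp : ∀ p ∈ Sm X q, p.Prime := fun p hp => (mem_Sm.1 hp).2.1
  have hρ0 : 0 < ∏ p ∈ Ru X u, p := prod_pos fun p hp => (hRp p hp).pos
  have hM0 : 0 < u * (Wq X q * ∏ p ∈ Ru X u, p) := by positivity
  have h1 : (u * (Wq X q * ∏ p ∈ Ru X u, p)).primeFactors = Sm X q ∪ Ru X u := by
    ext p
    rw [Nat.mem_primeFactors, mem_union, mem_Sm, mem_Ru hu]
    constructor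
    · rintro ⟨h1, h2, -⟩
      rcases (h1.dvd_mul).1 h2 with h | h
      · by_cases h3 : HH X < p
        · exact Or.inr ⟨h1, h, h3⟩
        · refine Or.inl ⟨by omega, h1, fun h4 => ?_⟩
          have h5 := Nat.dvd_gcd h (h4.mul_left v)
          rw [hc] at h5
          exact h1.one_lt.ne' (Nat.dvd_one.1 h5)
      · rcases (h1.dvd_mul).1 h with h | h
        · unfold Wq at h
          rw [Prime.dvd_finsetProd_iff h1.prime] at h
          obtain ⟨p', h5, h6⟩ := h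
          rw [Nat.prime_dvd_prime_iff_eq h1 (hSp p' h5)] at h6
          rw [h6]
          exact Or.inl (mem_Sm.1 h5)
        · rw [Prime.dvd_finsetProd_iff h1.prime] at h
          obtain ⟨p', h5, h6⟩ := h
          rw [Nat.prime_dvd_prime_iff_eq h1 (hRp p' h5)] at h6
          rw [h6]
          exact Or.inr ((mem_Ru hu).1 h5)
    · rintro (h | h)
      · refine ⟨h.2.1, ?_, hM0.ne'⟩
        have : p ∣ Wq X q := by
          unfold Wq
          exact dvd_prod_of_mem _ (mem_Sm.2 h)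
        exact (this.mul_right _).mul_left _
      · exact ⟨h.1, h.2.1.mul_right _, hM0.ne'⟩
  have hdis : Disjoint (Sm X q) (Ru X u) := by
    rw [Finset.disjoint_left]
    intro p hp hp'
    have h2 := (mem_Sm.1 hp).1
    have h3 := ((mem_Ru hu).1 hp').2.2
    omega
  have h2 := fr_prod (q := u * (Wq X q * ∏ p ∈ Ru X u, p)) hM0
  rw [h1, prod_union hdis, ← frW] at h2
  unfold fr at h2
  have hMr : (0 : ℝ) < ((u * (Wq X q * ∏ p ∈ Ru X u, p) : ℕ) : ℝ) := by exact_mod_cast hM0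
  rw [div_eq_iff hMr.ne'] at h2
  rw [h2]
  push_cast
  have hWr : (0 : ℝ) < Wq X q := by exact_mod_cast hW0
  have h3 : ∏ p ∈ Ru X u, ((p : ℝ) - 1) = (∏ p ∈ Ru X u, (1 - 1 / (p : ℝ))) *
      ∏ p ∈ Ru X u, (p : ℝ) := by
    rw [← prod_mul_distrib]
    apply prod_congr rfl
    intro p hp
    have : (0 : ℝ) < p := by exact_mod_cast (hRp p hp).pos
    field_simp
  rw [h3]
  field_simp

/-- the cell modulus and the start of a cell -/
theorem cell_cop {X q u v b n0 : ℕ} (hu : 1 ≤ u) (hc : u.Coprime (v * q))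
    (hb : (u * b + v * q).Coprime (Wq X q)) (hn : n0 % Wq X q = b) :
    (u * n0 + v * q).Coprime (u * (Wq X q * ∏ p ∈ Ru X u, p)) := by
  have h1 : (u * n0 + v * q).Coprime u := by
    rw [Nat.Coprime, Nat.gcd_comm, Nat.gcd_mul_left_add_right]
    exact hc
  have h2 : (u * n0 + v * q).Coprime (Wq X q) := by
    have h3 : u * n0 + v * q ≡ u * b + v * q [MOD Wq X q] := by
      apply Nat.ModEq.add_right
      apply Nat.ModEq.mul_left
      rw [← hn]
      exact (Nat.mod_modEq _ _).symm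
    rw [Nat.Coprime, h3.gcd_eq]
    exact hb
  have h3 : (u * n0 + v * q).Coprime (∏ p ∈ Ru X u, p) :=
    Nat.Coprime.coprime_dvd_right (prod_Ru_dvd hu) h1
  exact Nat.Coprime.mul_right h1 (Nat.Coprime.mul_right h2 h3)

end Pool.Agent.H533.GE
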