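import Pool.Agent.H533.GE.Mast
import Pool.Agent.H533.QA.InstA

/-!
Linear forms `u n + v q`: the codes of the forms.
-/

set_option autoImplicit false

open Finset Filter Topology

namespace Pool.Agent.H533.GE

open Pool.Agent.H361R2.PP
open Pool.Agent.H533.QM
open Pool.Agent.H533.QS
open Pool.Agent.H533.QA

/-- the value of the form `f` -/
def ff (q : ℕ) (f : ℕ × ℕ) (n : ℕ) : ℕ := f.1 * n + f.2 * q

/-- the forms without a fixed divisor -/
def IsF (q : ℕ) (f : ℕ × ℕ) : Prop := 1 ≤ f.1 ∧ 1 ≤ f.2 ∧ f.1.Coprime (f.2 * q)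

theorem crt_set (S : Finset ℕ) (hS : ∀ p ∈ S, p.Prime) (r : ℕ → ℕ) :
    ∃ a : ℕ, ∀ p ∈ S, a ≡ r p [MOD p] := by
  obtain ⟨a, ha⟩ := Nat.chineseRemainderOfFinset r (fun p => p) S
    (fun p hp => (hS p hp).ne_zero) (by
    intro p hp p' hp' hne
    exact (Nat.coprime_primes (hS p hp) (hS p' hp')).2 hne)
  exact ⟨a, ha⟩

/-- the primes which matter -/
noncomputable def Rel (X q : ℕ) : Finset ℕ := by
  classical exact (range (X + 1)).filter (fun p => p.Prime ∧ HH X < p ∧ ¬ p ∣ q)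

theorem mem_Rel {X q p : ℕ} : p ∈ Rel X q ↔ p ≤ X ∧ p.Prime ∧ HH X < p ∧ ¬ p ∣ q := by
  unfold Rel
  rw [mem_filter, mem_range, Nat.lt_succ_iff]

theorem exists_res {p u y : ℕ} (hp : p.Prime) (hu : ¬ p ∣ u) : ∃ r, u * r ≡ y [MOD p] := by
  haveI := Fact.mk hp
  refine ⟨((y : ZMod p) * (u : ZMod p)⁻¹).val, ?_⟩
  rw [← ZMod.natCast_eq_natCast_iff]
  push_cast
  rw [ZMod.natCast_zmod_val]
  have h : (u : ZMod p) ≠ 0 := by rwa [Ne, ZMod.natCast_eq_zero_iff]
  field_simp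

theorem exists_code (X q : ℕ) : ∃ c : ℕ × ℕ → ℕ, Function.Injective c ∧
    ∀ f : ℕ × ℕ, ∀ p : ℕ, p.Prime → HH X < p → p ≤ X → ¬ p ∣ q →
      (¬ p ∣ f.1 → ∀ n : ℕ, (p ∣ n + c f ↔ p ∣ ff q f n)) ∧ (p ∣ f.1 → p ∣ c f) := by
  classical
  have h1 : ∀ f : ℕ × ℕ, ∃ a : ℕ, ∀ p ∈ Rel X q,
      (¬ p ∣ f.1 → f.1 * a ≡ f.2 * q [MOD p]) ∧ (p ∣ f.1 → p ∣ a) := by
    intro f
    have h2 : ∀ p : ℕ, ∃ r : ℕ, p.Prime →
        (¬ p ∣ f.1 → f.1 * r ≡ f.2 * q [MOD p]) ∧ (p ∣ f.1 → p ∣ r) := by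
      intro p
      by_cases hp : p.Prime
      · by_cases hd : p ∣ f.1
        · exact ⟨0, fun _ => ⟨fun h => absurd hd h, fun _ => dvd_zero p⟩⟩
        · obtain ⟨r, hr⟩ := exists_res (y := f.2 * q) hp hd
          exact ⟨r, fun _ => ⟨fun _ => hr, fun h => absurd h hd⟩⟩
      · exact ⟨0, fun h => absurd h hp⟩
    choose r hr using h2
    obtain ⟨a, ha⟩ := crt_set (Rel X q) (fun p hp => (mem_Rel.1 hp).2.1) r
    refine ⟨a, fun p hp => ?_⟩
    have hpp := (mem_Rel.1 hp).2.1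
    obtain ⟨h3, h4⟩ := hr p hpp
    refine ⟨fun h => ((ha p hp).mul_left f.1).trans (h3 h), fun h => ?_⟩
    exact ((ha p hp).dvd_iff dvd_rfl).2 (h4 h)
  choose a ha using h1
  obtain ⟨M, hM⟩ : ∃ M, M = ∏ p ∈ Rel X q, p := ⟨_, rfl⟩
  have hM0 : 0 < M := by
    rw [hM]
    exact prod_pos fun p hp => (mem_Rel.1 hp).2.1.pos
  refine ⟨fun f => a f % M + M * Nat.pair f.1 f.2, ?_, ?_⟩
  · intro f f' h
    have h5 : ∀ f : ℕ × ℕ, (a f % M + M * Nat.pair f.1 f.2) / M = Nat.pair f.1 f.2 := by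
      intro f
      rw [Nat.add_mul_div_left _ _ hM0, Nat.div_eq_of_lt (Nat.mod_lt _ hM0), zero_add]
    have h6 : Nat.pair f.1 f.2 = Nat.pair f'.1 f'.2 := by
      rw [← h5 f, ← h5 f']
      exact congrArg (fun x => x / M) h
    rw [Nat.pair_eq_pair] at h6
    exact Prod.ext h6.1 h6.2
  · intro f p hp h1 h2 h3
    have hpR : p ∈ Rel X q := mem_Rel.2 ⟨h2, hp, h1, h3⟩
    have hpM : p ∣ M := by rw [hM]; exact dvd_prod_of_mem _ hpR
    have key : a f % M + M * Nat.pair f.1 f.2 ≡ a f [MOD p] := by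
      have h4 : M * Nat.pair f.1 f.2 ≡ 0 [MOD p] := (Nat.modEq_zero_iff_dvd).2 (hpM.mul_right _)
      have h5 : a f % M ≡ a f [MOD p] := (Nat.mod_modEq (a f) M).of_dvd hpM
      exact h5.add h4
    obtain ⟨h4, h5⟩ := ha f p hpR
    refine ⟨fun hd n => ?_, fun hd => (key.dvd_iff dvd_rfl).2 (h5 hd)⟩
    have hcop : p.Coprime f.1 := (Nat.Prime.coprime_iff_not_dvd hp).2 hd
    have h6 : f.1 * (n + (a f % M + M * Nat.pair f.1 f.2)) ≡ ff q f n [MOD p] := by
      unfold ff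
      rw [mul_add]
      exact (Nat.ModEq.refl _).add ((key.mul_left f.1).trans (h4 hd))
    constructor
    · intro h7
      exact (h6.dvd_iff dvd_rfl).1 (h7.mul_left _)
    · intro h7
      exact hcop.dvd_of_dvd_mul_left ((h6.dvd_iff dvd_rfl).2 h7)

/-- the value of the form is prime and no large prime factor of the leading coefficient divides `n` -/
def Pf (X q : ℕ) (f : ℕ × ℕ) (n : ℕ) : Prop :=
  (ff q f n).Prime ∧ ∀ p : ℕ, p.Prime → p ∣ f.1 → HH X < p → ¬ p ∣ n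

/-- the condition for the code of a form -/
def TF (X q : ℕ) (c : ℕ × ℕ → ℕ) (a n : ℕ) : Prop := ∃ f, c f = a ∧ Pf X q f n

theorem TF_code {X q : ℕ} {c : ℕ × ℕ → ℕ} (hc : Function.Injective c) (f : ℕ × ℕ) (n : ℕ) :
    TF X q c (c f) n ↔ Pf X q f n := by
  constructor
  · rintro ⟨g, hg, h⟩
    rwa [hc hg] at h
  · intro h
    exact ⟨f, rfl, h⟩

theorem crt2 {a b : ℕ} (h : a.Coprime b) (ha : 0 < a) (hb : 0 < b) (P Q : ℕ → Prop)
    [DecidablePred P] [DecidablePred Q] :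
    ((range (a * b)).filter (fun n => P (n % a) ∧ Q (n % b))).card =
      ((range a).filter P).card * ((range b).filter Q).card := by
  rw [← card_product]
  apply card_nbij' (fun n => (n % a, n % b)) (fun x => (Nat.chineseRemainder h x.1 x.2 : ℕ))
  · intro n hn
    rw [mem_coe, mem_filter, mem_range] at hn
    rw [mem_coe, mem_product, mem_filter, mem_filter, mem_range, mem_range]
    exact ⟨⟨Nat.mod_lt _ ha, hn.2.1⟩, ⟨Nat.mod_lt _ hb, hn.2.2⟩⟩
  · intro x hx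
    rw [mem_coe, mem_product, mem_filter, mem_filter, mem_range, mem_range] at hx
    rw [mem_coe, mem_filter, mem_range]
    have h1 := (Nat.chineseRemainder h x.1 x.2).2
    have e1 : (Nat.chineseRemainder h x.1 x.2 : ℕ) % a = x.1 := by
      have := h1.1
      unfold Nat.ModEq at this
      rw [this, Nat.mod_eq_of_lt hx.1.1]
    have e2 : (Nat.chineseRemainder h x.1 x.2 : ℕ) % b = x.2 := by
      have := h1.2
      unfold Nat.ModEq at this
      rw [this, Nat.mod_eq_of_lt hx.2.1]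
    rw [e1, e2]
    exact ⟨Nat.chineseRemainder_lt_mul h x.1 x.2 ha.ne' hb.ne', hx.1.2, hx.2.2⟩
  · intro n hn
    rw [mem_coe, mem_filter, mem_range] at hn
    have h1 := (Nat.chineseRemainder h (n % a) (n % b)).2
    have h2 : (Nat.chineseRemainder h (n % a) (n % b) : ℕ) ≡ n [MOD a * b] := by
      rw [← Nat.modEq_and_modEq_iff_modEq_mul h]
      exact ⟨h1.1.trans (Nat.mod_modEq _ _), h1.2.trans (Nat.mod_modEq _ _)⟩
    have h3 := Nat.chineseRemainder_lt_mul h (n % a) (n % b) ha.ne' hb.ne'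
    unfold Nat.ModEq at h2
    rwa [Nat.mod_eq_of_lt h3, Nat.mod_eq_of_lt hn.1] at h2
  · intro x hx
    rw [mem_coe, mem_product, mem_filter, mem_filter, mem_range, mem_range] at hx
    have h1 := (Nat.chineseRemainder h x.1 x.2).2
    have e1 : (Nat.chineseRemainder h x.1 x.2 : ℕ) % a = x.1 := by
      have := h1.1
      unfold Nat.ModEq at this
      rw [this, Nat.mod_eq_of_lt hx.1.1]
    have e2 : (Nat.chineseRemainder h x.1 x.2 : ℕ) % b = x.2 := by
      have := h1.2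
      unfold Nat.ModEq at this
      rw [this, Nat.mod_eq_of_lt hx.2.1]
    exact Prod.ext e1 e2

theorem crt_count (S : Finset ℕ) (hS : ∀ p ∈ S, p.Prime) (C : ℕ → ℕ → Prop)
    [∀ p, DecidablePred (C p)] :
    ((range (∏ p ∈ S, p)).filter (fun n => ∀ p ∈ S, C p (n % p))).card =
      ∏ p ∈ S, ((range p).filter (C p)).card := by
  induction S using Finset.induction_on with
  | empty => simp
  | insert p S hp ih =>
    rw [prod_insert hp, prod_insert hp]
    have hc : p.Coprime (∏ q ∈ S, q) := by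
      apply Nat.Coprime.prod_right
      intro q hq
      rw [Nat.coprime_primes (hS p (mem_insert_self _ _)) (hS q (mem_insert_of_mem hq))]
      rintro rfl
      exact hp hq
    have hM0 : 0 < ∏ q ∈ S, q := prod_pos fun q hq => (hS q (mem_insert_of_mem hq)).pos
    rw [← ih (fun q hq => hS q (mem_insert_of_mem hq)),
      ← crt2 hc (hS p (mem_insert_self _ _)).pos hM0]
    congr 1
    apply filter_congr
    intro n _
    have hmod : ∀ q ∈ S, n % (∏ q ∈ S, q) % q = n % q := fun q hq =>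
      Nat.mod_mod_of_dvd n (dvd_prod_of_mem _ hq)
    constructor
    · intro h
      exact ⟨h p (mem_insert_self _ _), fun q hq => by
        rw [hmod q hq]; exact h q (mem_insert_of_mem hq)⟩
    · rintro ⟨h1, h2⟩ q hq
      rw [mem_insert] at hq
      rcases hq with rfl | hq
      · exact h1
      · have := h2 q hq
        rwa [hmod q hq] at this

/-- the large prime factors of `u` -/
noncomputable def Ru (X u : ℕ) : Finset ℕ := by
  classical exact u.primeFactors.filter (fun p => HH X < p)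

theorem mem_Ru {X u p : ℕ} (hu : 1 ≤ u) : p ∈ Ru X u ↔ p.Prime ∧ p ∣ u ∧ HH X < p := by
  unfold Ru
  rw [mem_filter, Nat.mem_primeFactors]
  constructor
  · rintro ⟨⟨h1, h2, -⟩, h3⟩; exact ⟨h1, h2, h3⟩
  · rintro ⟨h1, h2, h3⟩; exact ⟨⟨h1, h2, by omega⟩, h3⟩

theorem prod_Ru_dvd {X u : ℕ} (hu : 1 ≤ u) : ∏ p ∈ Ru X u, p ∣ u := by
  apply Finset.prod_primes_dvd
  · intro p hp
    exact ((mem_Ru hu).1 hp).1.prime
  · intro p hp
    exact ((mem_Ru hu).1 hp).2.1

end Pool.Agent.H533.GE
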