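import Pool.Agent.H533.GE.Gmom
import Pool.Graph.R_seed8.Y840.PT.Avg

/-!
The singular series of the forms `q r + 1` on average.
-/

set_option autoImplicit false

open Finset Filter Topology

namespace Pool.Agent.H533.GE

open Pool.Agent.H533.QM
open Pool.Agent.W218.MU (em SD ND wD SL Prim disc res disc_ne SL_le SL_map prim_map SL_nonneg)
open Pool.Agent.H386R2.HL (tt)

theorem gg_one : gg 1 = 1 := by unfold gg; simp

theorem gg_mul_le {a b : ℕ} (ha : 1 ≤ a) (hb : 1 ≤ b) : gg (a * b) ≤ gg a * gg b := by
  classical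
  have hab : 1 ≤ a * b := Nat.mul_pos ha hb
  rw [gg_prod hab, gg_prod ha, gg_prod hb, Nat.primeFactors_mul (by omega) (by omega),
    ← prod_union_inter]
  have h1 : ∀ s : Finset ℕ, (∀ p ∈ s, p.Prime) → 1 ≤ ∏ p ∈ s, (1 - 1 / (p : ℝ))⁻¹ := by
    intro s hs
    calc (1 : ℝ) = ∏ _p ∈ s, (1 : ℝ) := by simp
      _ ≤ _ := Finset.prod_le_prod (fun _ _ => zero_le_one)
        (fun p hp => Pool.Agent.H386R2.HL.one_le_inv (hs p hp))
  have h2 := h1 (a.primeFactors ∪ b.primeFactors) (fun p hp => by
    rcases mem_union.1 hp with h | h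
    · exact Nat.prime_of_mem_primeFactors h
    · exact Nat.prime_of_mem_primeFactors h)
  have h3 := h1 (a.primeFactors ∩ b.primeFactors)
    (fun p hp => Nat.prime_of_mem_primeFactors (mem_inter.1 hp).1)
  exact le_mul_of_one_le_right (by linarith) h3

theorem gg_prod_le {ι : Type*} (s : Finset ι) (f : ι → ℕ) (h : ∀ i ∈ s, 1 ≤ f i) :
    gg (∏ i ∈ s, f i) ≤ ∏ i ∈ s, gg (f i) := by
  classical
  induction s using Finset.induction_on with
  | empty => simp [gg_one]
  | insert i s hi ih =>
    rw [prod_insert hi, prod_insert hi]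
    have h1 : ∀ j ∈ s, 1 ≤ f j := fun j hj => h j (mem_insert_of_mem hj)
    refine (gg_mul_le (h i (mem_insert_self _ _)) (Nat.pos_of_ne_zero
      (Finset.prod_ne_zero_iff.2 fun j hj => by have := h1 j hj; omega))).trans ?_
    exact mul_le_mul_of_nonneg_left (ih h1) (gg_nonneg _)

theorem tt_zero {n : ℕ} (hn : 1 ≤ n) : tt 0 n = gg n := by
  unfold tt
  rw [gg_prod hn, filter_true_of_mem]
  intro p hp
  exact (Nat.prime_of_mem_primeFactors hp).pos

/-- the differences -/
def dvl (T : Finset ℕ) : Finset ℕ := T.offDiag.image (fun q => Nat.dist q.1 q.2)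

theorem dist_pos' {a b : ℕ} (h : a ≠ b) : 1 ≤ Nat.dist a b :=
  Nat.pos_of_ne_zero fun h0 => h (Nat.eq_of_dist_eq_zero h0)

/-- pointwise bound for the square of the singular series -/
theorem SD_sq_le {T : Finset ℕ} {l : ℕ} (hl : 1 ≤ l) (hc : T.card = l) (hT : ∀ r ∈ T, 1 ≤ r) :
    SD T ^ 2 ≤ ∑ r ∈ T, gg r ^ (((l + l * l) * l) * 2) +
      ∑ q ∈ T.offDiag, gg (Nat.dist q.1 q.2) ^ (((l + l * l) * l) * 2) := by
  classical
  have hP := prim_map hT
  have hne : T.Nonempty := by rw [← card_pos]; omega
  obtain ⟨v, hv, hmax⟩ := exists_max_image (T ∪ dvl T) gg (by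
    obtain ⟨r, hr⟩ := hne
    exact ⟨r, mem_union_left _ hr⟩)
  have hv1 : 1 ≤ v := by
    rcases mem_union.1 hv with h | h
    · exact hT v h
    · unfold dvl at h
      rw [mem_image] at h
      obtain ⟨q, hq, rfl⟩ := h
      rw [mem_offDiag] at hq
      exact dist_pos' hq.2.2
  have hgv := gg_ge hv1
  have h1 : SD T ≤ gg (disc (T.map em)) ^ l := by
    have := SL_le hP 0
    rw [SL_map, card_map, hc, tt_zero (Nat.pos_of_ne_zero (disc_ne hP))] at this
    have e0 : (0 + 1 : ℕ).primesBelow = ∅ := by decide
    rw [e0, prod_empty, one_mul] at this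
    exact this
  have h2 : gg (disc (T.map em)) ≤ gg v ^ (l + l * l) := by
    unfold disc
    have hpos1 : ∀ L ∈ T.map em, 1 ≤ L.1 := fun L hL => (hP L hL).1
    have hpos2 : ∀ q ∈ (T.map em) ×ˢ (T.map em), 1 ≤ (if q.1 = q.2 then 1 else res q.1 q.2) := by
      intro q hq
      rw [mem_product, Finset.mem_map, Finset.mem_map] at hq
      obtain ⟨⟨a, ha, e1⟩, ⟨b, hb, e2⟩⟩ := hq
      split_ifs with h
      · exact le_rfl
      · rw [← e1, ← e2]
        show 1 ≤ Nat.dist (a * 1) (b * 1)
        rw [mul_one, mul_one]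
        apply dist_pos'
        intro h3
        rw [← e1, ← e2, h3] at h
        exact h rfl
    refine (gg_mul_le (Nat.pos_of_ne_zero (Finset.prod_ne_zero_iff.2 fun j hj => by
      have := hpos1 j hj; omega)) (Nat.pos_of_ne_zero (Finset.prod_ne_zero_iff.2 fun j hj => by
      have := hpos2 j hj; omega))).trans ?_
    rw [pow_add]
    apply mul_le_mul _ _ (gg_nonneg _) (by positivity)
    · refine (gg_prod_le _ _ hpos1).trans ?_
      calc ∏ L ∈ T.map em, gg L.1 ≤ ∏ _L ∈ T.map em, gg v := by
            apply Finset.prod_le_prod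
            · intro L _; exact gg_nonneg _
            · intro L hL
              rw [Finset.mem_map] at hL
              obtain ⟨r, hr, rfl⟩ := hL
              exact hmax r (mem_union_left _ hr)
        _ = gg v ^ l := by rw [prod_const, card_map, hc]
    · refine (gg_prod_le _ _ hpos2).trans ?_
      calc ∏ q ∈ (T.map em) ×ˢ (T.map em), gg (if q.1 = q.2 then 1 else res q.1 q.2) ≤
            ∏ _q ∈ (T.map em) ×ˢ (T.map em), gg v := by
            apply Finset.prod_le_prod
            · intro L _; exact gg_nonneg _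
            · intro q hq
              rw [mem_product, Finset.mem_map, Finset.mem_map] at hq
              obtain ⟨⟨a, ha, e1⟩, ⟨b, hb, e2⟩⟩ := hq
              split_ifs with h
              · rw [gg_one]; exact hgv
              · rw [← e1, ← e2]
                show gg (Nat.dist (a * 1) (b * 1)) ≤ gg v
                rw [mul_one, mul_one]
                apply hmax
                apply mem_union_right
                unfold dvl
                rw [mem_image]
                refine ⟨(a, b), ?_, rfl⟩
                rw [mem_offDiag]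
                refine ⟨ha, hb, fun h3 => ?_⟩
                have h3' : a = b := h3
                rw [← e1, ← e2, h3'] at h
                exact h rfl
        _ = gg v ^ (l * l) := by rw [prod_const, card_product, card_map, hc]
  have hSD0 : 0 ≤ SD T := by
    rw [← SL_map]; exact SL_nonneg hP
  have h3 : SD T ^ 2 ≤ gg v ^ (((l + l * l) * l) * 2) := by
    rw [pow_mul, pow_mul]
    apply pow_le_pow_left₀ hSD0
    exact h1.trans (pow_le_pow_left₀ (gg_nonneg _) h2 l)
  refine h3.trans ?_
  have hn1 : ∀ r ∈ T, 0 ≤ gg r ^ (((l + l * l) * l) * 2) := fun r _ => pow_nonneg (gg_nonneg _) _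
  have hn2 : ∀ q ∈ T.offDiag, 0 ≤ gg (Nat.dist q.1 q.2) ^ (((l + l * l) * l) * 2) :=
    fun q _ => pow_nonneg (gg_nonneg _) _
  rcases mem_union.1 hv with h | h
  · have h4 := single_le_sum hn1 h
    have h5 := sum_nonneg hn2
    linarith
  · unfold dvl at h
    rw [mem_image] at h
    obtain ⟨q, hq, rfl⟩ := h
    have h4 := single_le_sum hn2 hq
    have h5 := sum_nonneg hn1
    linarith

/-- the number of the sets which contain a given set -/
theorem card_contain {l : ℕ} {S U : Finset ℕ} (hU : U.card ≤ l) :
    ((S.powersetCard l).filter (fun T => U ⊆ T)).card ≤ S.card ^ (l - U.card) := by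
  classical
  calc ((S.powersetCard l).filter (fun T => U ⊆ T)).card ≤
        (S.powersetCard (l - U.card)).card := by
        apply card_le_card_of_injOn (fun T => T \ U)
        · intro T hT
          rw [mem_coe, mem_filter, mem_powersetCard] at hT
          rw [mem_coe, mem_powersetCard]
          refine ⟨Finset.sdiff_subset.trans hT.1.1, ?_⟩
          rw [card_sdiff_of_subset hT.2, hT.1.2]
        · intro T hT T' hT' h
          rw [mem_coe, mem_filter] at hT hT'
          have h' : T \ U = T' \ U := h
          rw [← Finset.sdiff_union_of_subset hT.2, h', Finset.sdiff_union_of_subset hT'.2]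
    _ = S.card.choose (l - U.card) := card_powersetCard _ _
    _ ≤ _ := Nat.choose_le_pow _ _

/-- differences from a given integer -/
theorem sum_dist {N a : ℕ} (f : ℕ → ℝ) (hf : ∀ n, 0 ≤ f n) (ha : a ∈ Icc 1 N) :
    ∑ b ∈ (Icc 1 N).erase a, f (Nat.dist a b) ≤ 2 * ∑ n ∈ Icc 1 N, f n := by
  classical
  rw [mem_Icc] at ha
  rw [← sum_filter_add_sum_filter_not ((Icc 1 N).erase a) (fun b => b < a), two_mul]
  apply add_le_add
  · calc ∑ b ∈ ((Icc 1 N).erase a).filter (fun b => b < a), f (Nat.dist a b) =
          ∑ n ∈ (((Icc 1 N).erase a).filter (fun b => b < a)).image (fun b => Nat.dist a b), f n := by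
          rw [sum_image]
          intro b hb b' hb' h
          rw [mem_coe, mem_filter, mem_erase, mem_Icc] at hb hb'
          unfold Nat.dist at h
          simp only at h
          omega
      _ ≤ _ := by
          apply sum_le_sum_of_subset_of_nonneg
          · intro n hn
            rw [mem_image] at hn
            obtain ⟨b, hb, rfl⟩ := hn
            rw [mem_filter, mem_erase, mem_Icc] at hb
            rw [mem_Icc]
            unfold Nat.dist
            omega
          · intro n _ _; exact hf n
  · calc ∑ b ∈ ((Icc 1 N).erase a).filter (fun b => ¬ b < a), f (Nat.dist a b) =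
          ∑ n ∈ (((Icc 1 N).erase a).filter (fun b => ¬ b < a)).image (fun b => Nat.dist a b), f n := by
          rw [sum_image]
          intro b hb b' hb' h
          rw [mem_coe, mem_filter, mem_erase, mem_Icc] at hb hb'
          unfold Nat.dist at h
          simp only at h
          omega
      _ ≤ _ := by
          apply sum_le_sum_of_subset_of_nonneg
          · intro n hn
            rw [mem_image] at hn
            obtain ⟨b, hb, rfl⟩ := hn
            rw [mem_filter, mem_erase, mem_Icc] at hb
            rw [mem_Icc]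
            unfold Nat.dist
            omega
          · intro n _ _; exact hf n

/-- **the second moment of the singular series** -/
theorem SD2sum (l : ℕ) (hl : 1 ≤ l) : ∃ C : ℝ, 1 ≤ C ∧ ∀ N : ℕ,
    ∑ T ∈ (Icc 1 N).powersetCard l, SD T ^ 2 ≤ C * (N : ℝ) ^ l := by
  classical
  obtain ⟨K, hK⟩ : ∃ K, K = ((l + l * l) * l) * 2 := ⟨_, rfl⟩
  obtain ⟨C, hC, hm⟩ := gmom K
  refine ⟨C + 2 * C, by linarith, fun N => ?_⟩
  obtain ⟨S, hS⟩ : ∃ S, S = Icc 1 N := ⟨_, rfl⟩
  have hSc : S.card = N := by rw [hS, Nat.card_Icc]; omega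
  have hN0 : (0 : ℝ) ≤ N := Nat.cast_nonneg N
  rw [← hS]
  have h1 : ∀ T ∈ S.powersetCard l, SD T ^ 2 ≤ ∑ r ∈ T, gg r ^ K +
      ∑ q ∈ T.offDiag, gg (Nat.dist q.1 q.2) ^ K := by
    intro T hT
    rw [mem_powersetCard] at hT
    rw [hK]
    refine SD_sq_le hl hT.2 fun r hr => ?_
    have := hT.1 hr
    rw [hS, mem_Icc] at this
    exact this.1
  refine (sum_le_sum h1).trans ?_
  rw [sum_add_distrib, add_mul]
  apply add_le_add
  · have e1 : ∑ T ∈ S.powersetCard l, ∑ r ∈ T, gg r ^ K =
        ∑ r ∈ S, ∑ T ∈ (S.powersetCard l).filter (fun T => ({r} : Finset ℕ) ⊆ T), gg r ^ K := by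
      apply sum_comm'
      intro T r
      rw [mem_filter, singleton_subset_iff, mem_powersetCard]
      constructor
      · rintro ⟨a, b⟩
        exact ⟨⟨a, b⟩, a.1 b⟩
      · rintro ⟨⟨a, b⟩, _⟩
        exact ⟨a, b⟩
    rw [e1]
    calc ∑ r ∈ S, ∑ T ∈ (S.powersetCard l).filter (fun T => ({r} : Finset ℕ) ⊆ T), gg r ^ K
        ≤ ∑ r ∈ S, (N : ℝ) ^ (l - 1) * gg r ^ K := by
          apply sum_le_sum
          intro r _
          rw [sum_const, nsmul_eq_mul]
          apply mul_le_mul_of_nonneg_right _ (pow_nonneg (gg_nonneg _) _)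
          have := card_contain (l := l) (S := S) (U := {r}) (by rw [card_singleton]; exact hl)
          rw [card_singleton, hSc] at this
          exact_mod_cast this
      _ = (N : ℝ) ^ (l - 1) * ∑ r ∈ S, gg r ^ K := by rw [mul_sum]
      _ ≤ (N : ℝ) ^ (l - 1) * (C * N) := by
          apply mul_le_mul_of_nonneg_left _ (by positivity)
          rw [hS]
          exact hm N
      _ = C * (N : ℝ) ^ l := by
          obtain ⟨k, rfl⟩ : ∃ k, l = k + 1 := ⟨l - 1, by omega⟩
          rw [Nat.add_sub_cancel, pow_succ]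
          ring
  · rcases Nat.lt_or_ge l 2 with h2 | h2
    · have hl1 : l = 1 := by omega
      have e2 : ∑ T ∈ S.powersetCard l, ∑ q ∈ T.offDiag, gg (Nat.dist q.1 q.2) ^ K = 0 := by
        apply sum_eq_zero
        intro T hT
        rw [mem_powersetCard, hl1, card_eq_one] at hT
        obtain ⟨_, a, rfl⟩ := hT
        simp
      rw [e2]
      positivity
    · have e1 : ∑ T ∈ S.powersetCard l, ∑ q ∈ T.offDiag, gg (Nat.dist q.1 q.2) ^ K =
          ∑ q ∈ S.offDiag, ∑ T ∈ (S.powersetCard l).filter (fun T => ({q.1, q.2} : Finset ℕ) ⊆ T),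
            gg (Nat.dist q.1 q.2) ^ K := by
        apply sum_comm'
        intro T q
        rw [mem_filter, insert_subset_iff, singleton_subset_iff, mem_powersetCard, mem_offDiag,
          mem_offDiag]
        constructor
        · rintro ⟨a, b, c, d⟩
          exact ⟨⟨a, b, c⟩, a.1 b, a.1 c, d⟩
        · rintro ⟨⟨a, b, c⟩, _, _, d⟩
          exact ⟨a, b, c, d⟩
      rw [e1]
      calc ∑ q ∈ S.offDiag, ∑ T ∈ (S.powersetCard l).filter
            (fun T => ({q.1, q.2} : Finset ℕ) ⊆ T), gg (Nat.dist q.1 q.2) ^ K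
          ≤ ∑ q ∈ S.offDiag, (N : ℝ) ^ (l - 2) * gg (Nat.dist q.1 q.2) ^ K := by
            apply sum_le_sum
            intro q hq
            rw [mem_offDiag] at hq
            rw [sum_const, nsmul_eq_mul]
            apply mul_le_mul_of_nonneg_right _ (pow_nonneg (gg_nonneg _) _)
            have hc : ({q.1, q.2} : Finset ℕ).card = 2 := card_pair hq.2.2
            have := card_contain (l := l) (S := S) (U := {q.1, q.2}) (by rw [hc]; exact h2)
            rw [hc, hSc] at this
            exact_mod_cast this
        _ = (N : ℝ) ^ (l - 2) * ∑ q ∈ S.offDiag, gg (Nat.dist q.1 q.2) ^ K := by rw [mul_sum]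
        _ ≤ (N : ℝ) ^ (l - 2) * (N * (2 * (C * N))) := by
            apply mul_le_mul_of_nonneg_left _ (by positivity)
            have e3 : ∑ q ∈ S.offDiag, gg (Nat.dist q.1 q.2) ^ K =
                ∑ a ∈ S, ∑ b ∈ S.erase a, gg (Nat.dist a b) ^ K := by
              rw [sum_sigma']
              apply sum_bij' (fun q _ => (⟨q.1, q.2⟩ : Σ _ : ℕ, ℕ)) (fun s _ => (s.1, s.2))
              · intro q hq
                rw [mem_offDiag] at hq
                rw [mem_sigma, mem_erase]
                exact ⟨hq.1, hq.2.2.symm, hq.2.1⟩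
              · intro s hs
                rw [mem_sigma, mem_erase] at hs
                rw [mem_offDiag]
                exact ⟨hs.1, hs.2.2, hs.2.1.symm⟩
              · intro q _; rfl
              · intro s _; rfl
              · intro q _; rfl
            rw [e3]
            calc ∑ a ∈ S, ∑ b ∈ S.erase a, gg (Nat.dist a b) ^ K ≤ ∑ _a ∈ S, 2 * (C * N) := by
                  apply sum_le_sum
                  intro a ha
                  rw [hS] at ha ⊢
                  refine (sum_dist (fun n => gg n ^ K) (fun n => pow_nonneg (gg_nonneg _) _)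
                    ha).trans ?_
                  exact mul_le_mul_of_nonneg_left (hm N) (by norm_num)
              _ = _ := by rw [sum_const, hSc, nsmul_eq_mul]
        _ = 2 * C * (N : ℝ) ^ l := by
            obtain ⟨k, rfl⟩ : ∃ k, l = k + 2 := ⟨l - 2, by omega⟩
            rw [Nat.add_sub_cancel, pow_add]
            ring

end Pool.Agent.H533.GE
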