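import Pool.Agent.H533.GE.Dil

/-!
Exact prime tuplets `q r + 1`.
-/

set_option autoImplicit false

open Finset Filter Topology

namespace Pool.Agent.H533.GE

open Pool.Agent.H533.QM
open Pool.Agent.W218.MU (em SD ND SL_map prim_map SL_nonneg)

/-- the `r ≤ N` with `q r + 1` prime -/
def TT (N q : ℕ) : Finset ℕ := (Icc 1 N).filter (fun r => (q * r + 1).Prime)

theorem mem_TT {N q r : ℕ} : r ∈ TT N q ↔ (1 ≤ r ∧ r ≤ N) ∧ (q * r + 1).Prime := by
  unfold TT; rw [mem_filter, mem_Icc]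

theorem upsum (l : ℕ) (hl : 1 ≤ l) : ∃ C : ℝ, 0 < C ∧ ∃ x₀ : ℕ, ∀ x : ℕ, x₀ ≤ x → ∀ N : ℕ,
    ∀ F : Finset (Finset ℕ), F ⊆ (Icc 1 N).powersetCard l →
    (∑ T ∈ F, (ND x T : ℝ)) ^ 2 ≤ C * (F.card * (N : ℝ) ^ l) * (x / Real.log x ^ l) ^ 2 := by
  obtain ⟨C1, hC1, x0, h1⟩ := Pool.Agent.Y840.PT.dil_up l
  obtain ⟨C2, hC2, h2⟩ := SD2sum l hl
  refine ⟨C1 ^ 2 * C2, by positivity, x0, fun x hx N F hF => ?_⟩
  have hlog : 0 ≤ Real.log x := Real.log_natCast_nonneg x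
  have hT : ∀ T ∈ F, T.card = l ∧ ∀ r ∈ T, 1 ≤ r := by
    intro T hT
    have := hF hT
    rw [mem_powersetCard] at this
    exact ⟨this.2, fun r hr => (mem_Icc.1 (this.1 hr)).1⟩
  have h3 : ∑ T ∈ F, (ND x T : ℝ) ≤ C1 * (x / Real.log x ^ l) * ∑ T ∈ F, SD T := by
    rw [mul_sum]
    apply sum_le_sum
    intro T hTF
    have := h1 x hx T (hT T hTF).1 (hT T hTF).2
    calc _ ≤ _ := this
      _ = _ := by ring
  have h4 : (∑ T ∈ F, SD T) ^ 2 ≤ F.card * (C2 * (N : ℝ) ^ l) := by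
    refine (sq_sum_le_card_mul_sum_sq).trans ?_
    apply mul_le_mul_of_nonneg_left _ (Nat.cast_nonneg _)
    refine le_trans ?_ (h2 N)
    exact sum_le_sum_of_subset_of_nonneg hF (fun _ _ _ => sq_nonneg _)
  have h5 : 0 ≤ ∑ T ∈ F, (ND x T : ℝ) := sum_nonneg fun _ _ => Nat.cast_nonneg _
  calc (∑ T ∈ F, (ND x T : ℝ)) ^ 2 ≤ (C1 * (x / Real.log x ^ l) * ∑ T ∈ F, SD T) ^ 2 :=
        pow_le_pow_left₀ h5 h3 2
    _ = C1 ^ 2 * (x / Real.log x ^ l) ^ 2 * (∑ T ∈ F, SD T) ^ 2 := by ring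
    _ ≤ C1 ^ 2 * (x / Real.log x ^ l) ^ 2 * (F.card * (C2 * (N : ℝ) ^ l)) :=
        mul_le_mul_of_nonneg_left h4 (by positivity)
    _ = _ := by ring

open Classical in
/-- the number of `q` at which the primes are exactly those of `T` -/
noncomputable def EE (x N : ℕ) (T : Finset ℕ) : ℕ :=
  ((Ico x (2 * x)).filter (fun q => TT N q = T)).card

theorem EE_le (x N : ℕ) (T : Finset ℕ) : EE x N T ≤ ND x T := by
  classical
  unfold EE ND
  apply card_le_card
  intro q hq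
  rw [mem_filter] at hq ⊢
  refine ⟨hq.1, fun r hr => ?_⟩
  rw [← hq.2, mem_TT] at hr
  exact hr.2

open Classical in
/-- from the number of the `q` to the number of the sets `T` -/
theorem core (l : ℕ) (hl : 1 ≤ l) (b c : ℝ) (hb : 0 < b) (hc : 0 < c) : ∃ κ : ℝ, 0 < κ ∧ ∃ x₀ : ℕ,
    ∀ x : ℕ, x₀ ≤ x → ∀ N : ℕ, (N : ℝ) ≤ b * Real.log x → ∀ R : Finset ℕ,
    c * x ≤ (((Ico x (2 * x)).filter (fun q => (TT N q).card = l ∧ TT N q ⊆ R)).card : ℝ) →
    κ * Real.log x ^ l ≤ ((((R.filter (fun r => r ∈ Icc 1 N)).powersetCard l).filter (fun T =>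
      κ * max 1 (SD T) * (x / Real.log x ^ l) ≤ (EE x N T : ℝ))).card : ℝ) := by
  obtain ⟨C1, hC1, x1, h1⟩ := upsum l hl
  obtain ⟨C2, hC2, h2⟩ := SD2sum l hl
  obtain ⟨κ, hκ⟩ : ∃ κ, κ = min (c / (2 * (1 + C2) * b ^ l)) (c ^ 2 / (4 * C1 * b ^ l)) := ⟨_, rfl⟩
  have hκ0 : 0 < κ := by
    rw [hκ]
    exact lt_min (by positivity) (by positivity)
  have hκ1 : κ ≤ c / (2 * (1 + C2) * b ^ l) := by rw [hκ]; exact min_le_left _ _
  have hκ2 : κ ≤ c ^ 2 / (4 * C1 * b ^ l) := by rw [hκ]; exact min_le_right _ _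
  refine ⟨κ, hκ0, max x1 3, fun x hx N hN R hR => ?_⟩
  have hx1 : x1 ≤ x := (le_max_left _ _).trans hx
  have hx3 : 3 ≤ x := (le_max_right _ _).trans hx
  have hx0 : (0 : ℝ) < x := by exact_mod_cast (by omega : 0 < x)
  have hL : 0 < Real.log x := Real.log_pos (by exact_mod_cast (by omega : 1 < x))
  have hNl : (N : ℝ) ^ l ≤ b ^ l * Real.log x ^ l := by
    rw [← mul_pow]
    exact pow_le_pow_left₀ (Nat.cast_nonneg _) hN l
  obtain ⟨P, hP⟩ : ∃ P, P = (R.filter (fun r => r ∈ Icc 1 N)).powersetCard l := ⟨_, rfl⟩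
  rw [← hP]
  have hPs : P ⊆ (Icc 1 N).powersetCard l := by
    intro T hT
    rw [hP, mem_powersetCard] at hT
    rw [mem_powersetCard]
    exact ⟨fun r hr => (mem_filter.1 (hT.1 hr)).2, hT.2⟩
  have hsum : c * x ≤ ∑ T ∈ P, (EE x N T : ℝ) := by
    refine hR.trans ?_
    have hmaps : ∀ q ∈ (Ico x (2 * x)).filter (fun q => (TT N q).card = l ∧ TT N q ⊆ R),
        TT N q ∈ P := by
      intro q hq
      rw [mem_filter] at hq
      rw [hP, mem_powersetCard]
      refine ⟨fun r hr => ?_, hq.2.1⟩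
      rw [mem_filter]
      refine ⟨hq.2.2 hr, ?_⟩
      rw [mem_TT] at hr
      rw [mem_Icc]
      exact hr.1
    rw [card_eq_sum_card_fiberwise hmaps]
    push_cast
    apply sum_le_sum
    intro T _
    rw [Nat.cast_le]
    unfold EE
    apply card_le_card
    intro q hq
    rw [mem_filter, mem_filter] at hq
    rw [mem_filter]
    exact ⟨hq.1.1, hq.2⟩
  obtain ⟨G, hG⟩ : ∃ G, G = P.filter (fun T =>
      κ * max 1 (SD T) * (x / Real.log x ^ l) ≤ (EE x N T : ℝ)) := ⟨_, rfl⟩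
  rw [← hG]
  have hsplit := sum_filter_add_sum_filter_not P (fun T =>
      κ * max 1 (SD T) * (x / Real.log x ^ l) ≤ (EE x N T : ℝ)) (fun T => (EE x N T : ℝ))
  rw [← hG] at hsplit
  have hM : 0 < (x : ℝ) / Real.log x ^ l := by positivity
  have hbad : ∑ T ∈ P.filter (fun T => ¬ κ * max 1 (SD T) * (x / Real.log x ^ l) ≤
      (EE x N T : ℝ)), (EE x N T : ℝ) ≤ c / 2 * x := by
    calc _ ≤ ∑ T ∈ P.filter (fun T => ¬ κ * max 1 (SD T) * (x / Real.log x ^ l) ≤
          (EE x N T : ℝ)), κ * (1 + SD T ^ 2) * (x / Real.log x ^ l) := by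
          apply sum_le_sum
          intro T hT
          rw [mem_filter, not_le] at hT
          refine hT.2.le.trans ?_
          apply mul_le_mul_of_nonneg_right _ hM.le
          apply mul_le_mul_of_nonneg_left _ hκ0.le
          apply max_le
          · nlinarith [sq_nonneg (SD T)]
          · nlinarith [sq_nonneg (SD T - 1)]
      _ ≤ ∑ T ∈ (Icc 1 N).powersetCard l, κ * (1 + SD T ^ 2) * (x / Real.log x ^ l) := by
          apply sum_le_sum_of_subset_of_nonneg ((filter_subset _ _).trans hPs)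
          intro T _ _
          positivity
      _ = κ * (x / Real.log x ^ l) * (((Icc 1 N).powersetCard l).card +
          ∑ T ∈ (Icc 1 N).powersetCard l, SD T ^ 2) := by
          rw [card_eq_sum_ones]
          push_cast
          rw [← sum_add_distrib, mul_sum]
          apply sum_congr rfl
          intro T _
          ring
      _ ≤ κ * (x / Real.log x ^ l) * ((N : ℝ) ^ l + C2 * (N : ℝ) ^ l) := by
          apply mul_le_mul_of_nonneg_left _ (by positivity)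
          apply add_le_add _ (h2 N)
          rw [card_powersetCard, Nat.card_Icc, Nat.add_sub_cancel]
          exact_mod_cast Nat.choose_le_pow _ _
      _ = κ * (x / Real.log x ^ l) * (1 + C2) * (N : ℝ) ^ l := by ring
      _ ≤ κ * (x / Real.log x ^ l) * (1 + C2) * (b ^ l * Real.log x ^ l) :=
          mul_le_mul_of_nonneg_left hNl (by positivity)
      _ = κ * ((1 + C2) * b ^ l * x) := by
          field_simp
      _ ≤ c / (2 * (1 + C2) * b ^ l) * ((1 + C2) * b ^ l * x) :=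
          mul_le_mul_of_nonneg_right hκ1 (by positivity)
      _ = c / 2 * x := by
          field_simp
  have hgood : c / 2 * x ≤ ∑ T ∈ G, (ND x T : ℝ) := by
    have h3 : ∑ T ∈ G, (EE x N T : ℝ) ≤ ∑ T ∈ G, (ND x T : ℝ) :=
      sum_le_sum fun T _ => by exact_mod_cast EE_le x N T
    linarith
  have hGs : G ⊆ (Icc 1 N).powersetCard l := by
    rw [hG]; exact (filter_subset _ _).trans hPs
  have h4 := h1 x hx1 N G hGs
  have h5 : (c / 2 * x) ^ 2 ≤ C1 * (G.card * (b ^ l * Real.log x ^ l)) *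
      (x / Real.log x ^ l) ^ 2 := by
    calc (c / 2 * x) ^ 2 ≤ (∑ T ∈ G, (ND x T : ℝ)) ^ 2 := pow_le_pow_left₀ (by positivity) hgood 2
      _ ≤ _ := h4
      _ ≤ _ := by gcongr
  have h6 : x ^ 2 * (c ^ 2 / (4 * C1 * b ^ l) * Real.log x ^ l) ≤ (x : ℝ) ^ 2 * G.card := by
    have e1 : (x : ℝ) ^ 2 * (c ^ 2 / (4 * C1 * b ^ l) * Real.log x ^ l) =
        (c / 2 * x) ^ 2 * (Real.log x ^ l / (C1 * b ^ l)) := by
      field_simp
      ring
    rw [e1]
    calc (c / 2 * x) ^ 2 * (Real.log x ^ l / (C1 * b ^ l)) ≤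
          (C1 * (G.card * (b ^ l * Real.log x ^ l)) * (x / Real.log x ^ l) ^ 2) *
            (Real.log x ^ l / (C1 * b ^ l)) := mul_le_mul_of_nonneg_right h5 (by positivity)
      _ = _ := by field_simp
  have h7 := le_of_mul_le_mul_left h6 (by positivity)
  exact (mul_le_mul_of_nonneg_right hκ2 (by positivity)).trans h7

end Pool.Agent.H533.GE
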