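import Pool.Agent.H533.GE.DilF

/-!
Exact prime tuplets `q r + 1`: the good integers.
-/

set_option autoImplicit false

open Finset Filter Topology

namespace Pool.Agent.H533.GE

open Pool.Agent.H533.QM
open Pool.Agent.H533.QS
open Pool.Agent.H533.QA
open Pool.Agent.W218.MU (em SD ND SL_map prim_map SL_nonneg)

theorem fr_one : fr 1 = 1 := by unfold fr; simp

open Classical in
/-- arbitrary sets of multipliers -/
theorem gen1 (m : ℕ) (ρ Λ C : ℝ) (hρ : 0 < ρ) (hΛ : 0 < Λ) (hC : 0 < C) :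
    ∃ c : ℝ, 0 < c ∧ ∀ B : ℕ, ∃ x₀ : ℕ, ∀ x : ℕ, x₀ ≤ x → ∀ A J : Finset ℕ, A ⊆ J →
    (∀ r ∈ J, 1 ≤ r ∧ (r : ℝ) ≤ Real.log x ^ B) →
    ρ * Real.log x ≤ ∑ r ∈ A, gg r → ∑ r ∈ J, gg r ≤ Λ * Real.log x →
    ∑ a ∈ A, ∑ b ∈ A.erase a, gg a * gg b * gg (Nat.dist a b) ≤ C * (∑ r ∈ A, gg r) ^ 2 →
    c * x ≤ (((Ico x (2 * x)).filter (fun q => m ≤ (A.filter (fun r => (q * r + 1).Prime)).card ∧
      ∀ r ∈ J, (q * r + 1).Prime → r ∈ A)).card : ℝ) := by
  obtain ⟨c, hc, H⟩ := arbF m ρ Λ C hρ hΛ hC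
  refine ⟨c, hc, fun B => ?_⟩
  obtain ⟨X0, h⟩ := H B
  refine ⟨max X0 3, fun x hx A J hAJ hJ h1 h2 h3 => ?_⟩
  have hx0 : X0 ≤ x := (le_max_left _ _).trans hx
  have hx3 : 3 ≤ x := (le_max_right _ _).trans hx
  have hlog1 : 1 ≤ Real.log x := by
    rw [Real.le_log_iff_exp_le (by exact_mod_cast (by omega : 0 < x))]
    have := Real.exp_one_lt_d9
    have h4 : (3 : ℝ) ≤ x := by exact_mod_cast hx3
    linarith
  have key := h x hx0 1 le_rfl (by omega) (A.map em) (J.map em) (by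
      intro f hf
      rw [Finset.mem_map] at hf ⊢
      obtain ⟨r, hr, rfl⟩ := hf
      exact ⟨r, hAJ hr, rfl⟩) (by
      intro f hf
      rw [Finset.mem_map] at hf
      obtain ⟨r, hr, rfl⟩ := hf
      obtain ⟨g1, g2⟩ := hJ r hr
      refine ⟨⟨g1, le_rfl, ?_⟩, g2, ?_⟩
      · show Nat.Coprime r (1 * 1)
        simp
      · show ((1 : ℕ) : ℝ) ≤ _
        rw [Nat.cast_one]
        exact one_le_pow₀ hlog1) (by
      rw [sum_map]
      unfold Ls
      rw [fr_one, one_mul]
      exact h1) (by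
      rw [sum_map]
      unfold Ls
      rw [fr_one, one_mul]
      exact h2) (by
      have e1 : pairF (A.map em) = ∑ a ∈ A, ∑ b ∈ A.erase a, gg a * gg b * gg (Nat.dist a b) := by
        unfold pairF
        rw [sum_map]
        apply sum_congr rfl
        intro a _
        rw [← map_erase, sum_map]
        apply sum_congr rfl
        intro b _
        have e2 : Dl (em a) (em b) = Nat.dist a b := by
          show (((1 : ℕ) : ℤ) * (b : ℤ) - ((1 : ℕ) : ℤ) * (a : ℤ)).natAbs = Nat.dist a b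
          rw [Nat.cast_one, one_mul, one_mul]
          unfold Nat.dist
          omega
        rw [e2]
        rfl
      rw [e1, sum_map]
      exact h3)
  rw [fr_one, one_mul] at key
  refine key.trans ?_
  rw [Nat.cast_le]
  apply card_le_card
  intro q hq
  rw [mem_filter] at hq ⊢
  obtain ⟨g1, _, g3, g4⟩ := hq
  have e3 : ∀ r : ℕ, ff 1 (em r) q = q * r + 1 := by
    intro r
    show r * q + 1 * 1 = q * r + 1
    rw [mul_one, mul_comm]
  refine ⟨g1, ?_, ?_⟩
  · refine g3.trans ?_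
    rw [filter_map, card_map]
    apply card_le_card
    intro r hr
    rw [mem_filter] at hr ⊢
    refine ⟨hr.1, ?_⟩
    have h5 : (ff 1 (em r) q).Prime := hr.2
    rwa [e3] at h5
  · intro r hr hp
    have h5 := g4 (em r) (mem_map_of_mem em hr) (by rw [e3]; exact hp)
    rw [Finset.mem_map] at h5
    obtain ⟨r', hr', e⟩ := h5
    rwa [em.injective e] at hr'

theorem cube_le {a b c : ℝ} (ha : 0 ≤ a) (hb : 0 ≤ b) (hc : 0 ≤ c) :
    a * b * c ≤ a ^ 3 + b ^ 3 + c ^ 3 := by
  have h1 : 0 ≤ a ^ 3 := by positivity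
  have h2 : 0 ≤ b ^ 3 := by positivity
  have h3 : 0 ≤ c ^ 3 := by positivity
  have h4 : a * b * c ≤ (max a (max b c)) ^ 3 := by
    have e : (max a (max b c)) ^ 3 = max a (max b c) * max a (max b c) * max a (max b c) := by ring
    rw [e]
    apply mul_le_mul (mul_le_mul (le_max_left _ _) ((le_max_left _ _).trans (le_max_right _ _)) hb
      (ha.trans (le_max_left _ _))) ((le_max_right _ _).trans (le_max_right _ _)) hc
    exact mul_nonneg (ha.trans (le_max_left _ _)) (ha.trans (le_max_left _ _))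
  rcases max_choice a (max b c) with h | h
  · rw [h] at h4; linarith
  · rw [h] at h4
    rcases max_choice b c with h' | h'
    · rw [h'] at h4; linarith
    · rw [h'] at h4; linarith

/-- the pairs of integers up to `N` -/
theorem pairN : ∃ C : ℝ, 1 ≤ C ∧ ∀ N : ℕ,
    ∑ a ∈ Icc 1 N, ∑ b ∈ (Icc 1 N).erase a, gg a * gg b * gg (Nat.dist a b) ≤ C * (N : ℝ) ^ 2 := by
  obtain ⟨C, hC, hm⟩ := gmom 3
  refine ⟨4 * C, by linarith, fun N => ?_⟩
  have hN0 : (0 : ℝ) ≤ N := Nat.cast_nonneg N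
  have hcard : ((Icc 1 N).card : ℝ) = N := by rw [Nat.card_Icc]; norm_num
  calc ∑ a ∈ Icc 1 N, ∑ b ∈ (Icc 1 N).erase a, gg a * gg b * gg (Nat.dist a b)
      ≤ ∑ a ∈ Icc 1 N, (N * gg a ^ 3 + C * N + 2 * (C * N)) := by
        apply sum_le_sum
        intro a ha
        calc ∑ b ∈ (Icc 1 N).erase a, gg a * gg b * gg (Nat.dist a b) ≤
              ∑ b ∈ (Icc 1 N).erase a, (gg a ^ 3 + gg b ^ 3 + gg (Nat.dist a b) ^ 3) :=
              sum_le_sum fun b _ => cube_le (gg_nonneg _) (gg_nonneg _) (gg_nonneg _)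
          _ = ((Icc 1 N).erase a).card * gg a ^ 3 + ∑ b ∈ (Icc 1 N).erase a, gg b ^ 3 +
              ∑ b ∈ (Icc 1 N).erase a, gg (Nat.dist a b) ^ 3 := by
              rw [sum_add_distrib, sum_add_distrib, sum_const, nsmul_eq_mul]
          _ ≤ _ := by
              have hg : 0 ≤ gg a ^ 3 := pow_nonneg (gg_nonneg _) _
              apply add_le_add (add_le_add _ _) _
              · apply mul_le_mul_of_nonneg_right _ hg
                rw [← hcard]
                exact_mod_cast card_le_card (erase_subset _ _)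
              · refine le_trans ?_ (hm N)
                exact sum_le_sum_of_subset_of_nonneg (erase_subset _ _)
                  (fun _ _ _ => pow_nonneg (gg_nonneg _) _)
              · refine (sum_dist (fun n => gg n ^ 3) (fun n => pow_nonneg (gg_nonneg _) _)
                  ha).trans ?_
                exact mul_le_mul_of_nonneg_left (hm N) (by norm_num)
    _ = N * ∑ a ∈ Icc 1 N, gg a ^ 3 + N * (C * N + 2 * (C * N)) := by
        simp only [add_assoc]
        rw [sum_add_distrib, ← mul_sum, sum_const, nsmul_eq_mul, hcard]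
    _ ≤ N * (C * N) + N * (C * N + 2 * (C * N)) := by
        have := mul_le_mul_of_nonneg_left (hm N) hN0
        linarith
    _ = _ := by ring

open Classical in
/-- many integers with many primes, all in `R` -/
theorem base (m : ℕ) (b ρ : ℝ) (hb : 0 < b) (hρ : 0 < ρ) : ∃ c : ℝ, 0 < c ∧ ∃ x₀ : ℕ,
    ∀ x : ℕ, x₀ ≤ x → ∀ R : Finset ℕ, R ⊆ Icc 1 ⌊b * Real.log x⌋₊ → ρ * Real.log x ≤ R.card →
    c * x ≤ (((Ico x (2 * x)).filter (fun q => m ≤ (TT ⌊b * Real.log x⌋₊ q).card ∧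
      TT ⌊b * Real.log x⌋₊ q ⊆ R)).card : ℝ) := by
  obtain ⟨C1, hC1, hm1⟩ := gmom 1
  obtain ⟨C3, hC3, hm3⟩ := pairN
  obtain ⟨c, hc, H⟩ := gen1 m ρ (C1 * b) (C3 * b ^ 2 / ρ ^ 2) hρ (by positivity) (by positivity)
  obtain ⟨x0, h⟩ := H 2
  have t1 : Tendsto (fun X : ℕ => Real.log (X : ℝ)) atTop atTop :=
    Real.tendsto_log_atTop.comp tendsto_natCast_atTop_atTop
  obtain ⟨x1, hx1⟩ := eventually_atTop.1 (t1.eventually_ge_atTop (max b 1))
  refine ⟨c, hc, max x0 x1, fun x hx R hR hRc => ?_⟩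
  have hL := hx1 x ((le_max_right _ _).trans hx)
  have hLb : b ≤ Real.log x := (le_max_left _ _).trans hL
  have hL1 : 1 ≤ Real.log x := (le_max_right _ _).trans hL
  have hL0 : 0 < Real.log x := by linarith
  obtain ⟨N, hN⟩ : ∃ N, N = ⌊b * Real.log x⌋₊ := ⟨_, rfl⟩
  have hNle : (N : ℝ) ≤ b * Real.log x := by rw [hN]; exact Nat.floor_le (by positivity)
  rw [← hN] at hR ⊢
  have hRg : (R.card : ℝ) ≤ ∑ r ∈ R, gg r := by
    rw [card_eq_sum_ones]
    push_cast
    apply sum_le_sum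
    intro r hr
    exact gg_ge (mem_Icc.1 (hR hr)).1
  have key := h x ((le_max_left _ _).trans hx) R (Icc 1 N) hR (by
      intro r hr
      rw [mem_Icc] at hr
      refine ⟨hr.1, ?_⟩
      calc (r : ℝ) ≤ N := by exact_mod_cast hr.2
        _ ≤ b * Real.log x := hNle
        _ ≤ Real.log x * Real.log x := mul_le_mul_of_nonneg_right hLb hL0.le
        _ = _ := by ring) (hRc.trans hRg) (by
      have := hm1 N
      simp only [pow_one] at this
      refine this.trans ?_
      rw [mul_assoc]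
      exact mul_le_mul_of_nonneg_left hNle (by linarith)) (by
      have h1 : ∑ a ∈ R, ∑ b ∈ R.erase a, gg a * gg b * gg (Nat.dist a b) ≤
          ∑ a ∈ Icc 1 N, ∑ b ∈ (Icc 1 N).erase a, gg a * gg b * gg (Nat.dist a b) := by
        have hnn : ∀ a b : ℕ, 0 ≤ gg a * gg b * gg (Nat.dist a b) := fun a b =>
          mul_nonneg (mul_nonneg (gg_nonneg _) (gg_nonneg _)) (gg_nonneg _)
        calc _ ≤ ∑ a ∈ R, ∑ b ∈ (Icc 1 N).erase a, gg a * gg b * gg (Nat.dist a b) := by
              apply sum_le_sum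
              intro a _
              exact sum_le_sum_of_subset_of_nonneg (erase_subset_erase _ hR) (fun _ _ _ => hnn _ _)
          _ ≤ _ := sum_le_sum_of_subset_of_nonneg hR
              (fun a _ _ => sum_nonneg fun _ _ => hnn _ _)
      refine h1.trans ((hm3 N).trans ?_)
      have h2 : (N : ℝ) ^ 2 ≤ b ^ 2 * Real.log x ^ 2 := by
        rw [← mul_pow]
        exact pow_le_pow_left₀ (Nat.cast_nonneg _) hNle 2
      have h3 : ρ ^ 2 * Real.log x ^ 2 ≤ (∑ r ∈ R, gg r) ^ 2 := by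
        rw [← mul_pow]
        exact pow_le_pow_left₀ (by positivity) (hRc.trans hRg) 2
      calc C3 * (N : ℝ) ^ 2 ≤ C3 * (b ^ 2 * Real.log x ^ 2) :=
            mul_le_mul_of_nonneg_left h2 (by linarith)
        _ = C3 * b ^ 2 / ρ ^ 2 * (ρ ^ 2 * Real.log x ^ 2) := by field_simp
        _ ≤ _ := mul_le_mul_of_nonneg_left h3 (by positivity))
  refine key.trans ?_
  rw [Nat.cast_le]
  apply card_le_card
  intro q hq
  rw [mem_filter] at hq ⊢
  obtain ⟨g1, g2, g3⟩ := hq
  refine ⟨g1, g2.trans (card_le_card ?_), ?_⟩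
  · intro r hr
    rw [mem_filter] at hr
    rw [mem_TT]
    exact ⟨mem_Icc.1 (hR hr.1), hr.2⟩
  · intro r hr
    rw [mem_TT] at hr
    exact g3 r (mem_Icc.2 hr.1) hr.2

/-- a family of sets of `r` and the `q` -/
theorem hit_le (x N : ℕ) (F : Finset (Finset ℕ)) (G : Finset ℕ) (hG : G ⊆ Ico x (2 * x))
    (h : ∀ q ∈ G, ∃ T ∈ F, T ⊆ TT N q) : (G.card : ℝ) ≤ ∑ T ∈ F, (ND x T : ℝ) := by
  classical
  have h1 : G ⊆ F.biUnion (fun T => (Ico x (2 * x)).filter (fun q => ∀ r ∈ T, (q * r + 1).Prime)) := by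
    intro q hq
    obtain ⟨T, hT, hs⟩ := h q hq
    rw [mem_biUnion]
    refine ⟨T, hT, mem_filter.2 ⟨hG hq, fun r hr => ?_⟩⟩
    have := hs hr
    rw [mem_TT] at this
    exact this.2
  have h2 := (card_le_card h1).trans card_biUnion_le
  have h3 : ∀ T ∈ F, ((Ico x (2 * x)).filter (fun q => ∀ r ∈ T, (q * r + 1).Prime)).card ≤
      ND x T := by
    intro T _
    unfold ND
    apply card_le_card
    intro q hq
    rw [mem_filter] at hq ⊢
    exact hq
  have h4 := h2.trans (sum_le_sum h3)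
  exact_mod_cast h4

/-- the total number of the primes -/
theorem tot1 (x N : ℕ) : ∑ q ∈ Ico x (2 * x), ((TT N q).card : ℝ) =
    ∑ T ∈ (Icc 1 N).powersetCard 1, (ND x T : ℝ) := by
  classical
  have h1 : ∀ q ∈ Ico x (2 * x), ((TT N q).card : ℝ) =
      ∑ r ∈ Icc 1 N, if (q * r + 1).Prime then (1 : ℝ) else 0 := by
    intro q _
    unfold TT
    rw [card_filter]
    push_cast
    rfl
  rw [sum_congr rfl h1, sum_comm, powersetCard_one, sum_map]
  apply sum_congr rfl
  intro r _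
  unfold ND
  rw [← Nat.cast_one (R := ℝ), ← Nat.cast_zero (R := ℝ)]
  simp only [← Nat.cast_ite]
  rw [← Nat.cast_sum, ← card_filter]
  congr 2
  apply filter_congr
  intro q _
  show (q * r + 1).Prime ↔ ∀ r' ∈ ({r} : Finset ℕ), (q * r' + 1).Prime
  simp

end Pool.Agent.H533.GE
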