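import Pool.Agent.H533.GE.DilG

/-!
Exact prime tuplets `q r + 1`: the two theorems.
-/

set_option autoImplicit false

open Finset Filter Topology

namespace Pool.Agent.H533.GE

open Pool.Agent.H533.QM
open Pool.Agent.W218.MU (em SD ND SL_map prim_map SL_nonneg)

open Classical in
/-- the good sets -/
noncomputable def GT (x N l : ℕ) (κ : ℝ) (R : Finset ℕ) : Finset (Finset ℕ) :=
  ((R.filter (fun r => r ∈ Icc 1 N)).powersetCard l).filter (fun T =>
      κ * max 1 (SD T) * (x / Real.log x ^ l) ≤ (EE x N T : ℝ))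

theorem GT_mono {x N l : ℕ} {κ κ' : ℝ} {R : Finset ℕ} (h : κ ≤ κ') : GT x N l κ' R ⊆ GT x N l κ R := by
  intro T hT
  unfold GT at hT ⊢
  rw [mem_filter] at hT ⊢
  refine ⟨hT.1, le_trans ?_ hT.2⟩
  have h1 : (0 : ℝ) ≤ max 1 (SD T) := zero_le_one.trans (le_max_left _ _)
  have h2 : (0 : ℝ) ≤ x / Real.log x ^ l :=
    div_nonneg (Nat.cast_nonneg _) (pow_nonneg (Real.log_natCast_nonneg x) _)
  exact mul_le_mul_of_nonneg_right (mul_le_mul_of_nonneg_right h h1) h2

theorem fin_min (M : ℕ) (κ : ℕ → ℝ) (h : ∀ l, 0 < κ l) :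
    ∃ κ0 : ℝ, 0 < κ0 ∧ ∀ l, l ≤ M → κ0 ≤ κ l := by
  induction M with
  | zero => exact ⟨κ 0, h 0, fun l hl => by rw [Nat.le_zero.1 hl]⟩
  | succ M ih =>
    obtain ⟨a, ha, h1⟩ := ih
    refine ⟨min a (κ (M + 1)), lt_min ha (h _), fun l hl => ?_⟩
    rcases Nat.lt_or_ge l (M + 1) with h2 | h2
    · exact (min_le_left _ _).trans (h1 l (by omega))
    · have : l = M + 1 := by omega
      rw [this]
      exact min_le_right _ _

/-- `core` for all sizes up to `M` -/
theorem coreM (M : ℕ) (b c : ℝ) (hb : 0 < b) (hc : 0 < c) : ∃ κ : ℝ, 0 < κ ∧ ∃ x₀ : ℕ,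
    ∀ l : ℕ, 1 ≤ l → l ≤ M →
    ∀ x : ℕ, x₀ ≤ x → ∀ N : ℕ, (N : ℝ) ≤ b * Real.log x → ∀ R : Finset ℕ,
    c * x ≤ (((Ico x (2 * x)).filter (fun q => (TT N q).card = l ∧ TT N q ⊆ R)).card : ℝ) →
    κ * Real.log x ^ l ≤ ((GT x N l κ R).card : ℝ) := by
  classical
  have hex : ∀ l : ℕ, ∃ κ : ℝ, 0 < κ ∧ ∃ x₀ : ℕ, 1 ≤ l →
    ∀ x : ℕ, x₀ ≤ x → ∀ N : ℕ, (N : ℝ) ≤ b * Real.log x → ∀ R : Finset ℕ,
    c * x ≤ (((Ico x (2 * x)).filter (fun q => (TT N q).card = l ∧ TT N q ⊆ R)).card : ℝ) →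
    κ * Real.log x ^ l ≤ ((GT x N l κ R).card : ℝ) := by
    intro l
    rcases Nat.lt_or_ge l 1 with h | h
    · exact ⟨1, one_pos, 0, fun h' => by omega⟩
    · obtain ⟨κ, hκ, x0, h0⟩ := core l h b c hb hc
      refine ⟨κ, hκ, x0, fun _ x hx N hN R hR => ?_⟩
      have h1 := h0 x hx N hN R (by
        refine hR.trans (le_of_eq ?_)
        congr!)
      unfold GT
      refine h1.trans (le_of_eq ?_)
      congr!
  choose κ hκ x0 h0 using hex
  obtain ⟨k0, hk0, hk⟩ := fin_min M κ hκ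
  refine ⟨k0, hk0, ∑ l ∈ range (M + 1), x0 l, fun l hl hlM x hx N hN R hR => ?_⟩
  have hxl : x0 l ≤ x := (single_le_sum (f := x0) (fun _ _ => Nat.zero_le _)
    (mem_range.2 (by omega))).trans hx
  have h1 := h0 l hl x hxl N hN R hR
  have h2 : (0 : ℝ) ≤ Real.log x ^ l := pow_nonneg (Real.log_natCast_nonneg x) _
  calc k0 * Real.log x ^ l ≤ κ l * Real.log x ^ l := mul_le_mul_of_nonneg_right (hk l hlM) h2
    _ ≤ _ := h1
    _ ≤ _ := by exact_mod_cast card_le_card (GT_mono (hk l hlM))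

open Classical in
/-- **exact tuplets of a bounded size** -/
theorem part2 (b ρ : ℝ) (hb : 0 < b) (hρ : 0 < ρ) (m : ℕ) (hm : 1 ≤ m) : ∃ M : ℕ, ∃ κ : ℝ, 0 < κ ∧
    ∃ x₀ : ℕ, ∀ x : ℕ, x₀ ≤ x → ∀ R : Finset ℕ, R ⊆ Icc 1 ⌊b * Real.log x⌋₊ →
    ρ * Real.log x ≤ R.card → ∃ l : ℕ, m ≤ l ∧ l ≤ M ∧
    κ * Real.log x ^ l ≤ ((GT x ⌊b * Real.log x⌋₊ l κ R).card : ℝ) := by
  obtain ⟨c, hc, x0, h0⟩ := base m b ρ hb hρ
  obtain ⟨C1, hC1, x1, h1⟩ := upsum 1 le_rfl
  obtain ⟨K, hK⟩ : ∃ K : ℝ, K = (C1 + 1) * b := ⟨_, rfl⟩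
  have hK0 : 0 < K := by rw [hK]; positivity
  obtain ⟨M, hM⟩ := exists_nat_ge (2 * K / c)
  have hM0 : (0 : ℝ) < M := lt_of_lt_of_le (by positivity) hM
  obtain ⟨κ, hκ, x2, h2⟩ := coreM M b (c / (2 * (M + 1))) hb (by positivity)
  refine ⟨M, κ, hκ, x0 + x1 + x2 + 3, fun x hx R hR hRc => ?_⟩
  have hx0 : (0 : ℝ) < x := by exact_mod_cast (by omega : 0 < x)
  have hL : 0 < Real.log x := Real.log_pos (by exact_mod_cast (by omega : 1 < x))
  have hb0 := h0 x (by omega) R hR hRc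
  obtain ⟨N, hN⟩ : ∃ N, N = ⌊b * Real.log x⌋₊ := ⟨_, rfl⟩
  have hNle : (N : ℝ) ≤ b * Real.log x := by rw [hN]; exact Nat.floor_le (by positivity)
  rw [← hN] at hR hb0 ⊢
  have htot : ∑ q ∈ Ico x (2 * x), ((TT N q).card : ℝ) ≤ K * x := by
    rw [tot1]
    have h3 := h1 x (by omega) N ((Icc 1 N).powersetCard 1) (Subset.refl _)
    rw [card_powersetCard, Nat.card_Icc, Nat.add_sub_cancel, Nat.choose_one_right, pow_one,
      pow_one] at h3
    have h4 : (∑ T ∈ (Icc 1 N).powersetCard 1, (ND x T : ℝ)) ^ 2 ≤ (K * x) ^ 2 := by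
      refine h3.trans ?_
      have h5 : (N : ℝ) * N ≤ (b * Real.log x) * (b * Real.log x) :=
        mul_le_mul hNle hNle (Nat.cast_nonneg _) (by positivity)
      calc C1 * ((N : ℝ) * N) * (x / Real.log x) ^ 2 ≤
            C1 * ((b * Real.log x) * (b * Real.log x)) * (x / Real.log x) ^ 2 := by gcongr
        _ = C1 * (b * x) ^ 2 := by field_simp
        _ ≤ (C1 + 1) ^ 2 * (b * x) ^ 2 := by
            apply mul_le_mul_of_nonneg_right _ (by positivity)
            nlinarith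
        _ = (K * x) ^ 2 := by rw [hK]; ring
    exact (abs_le_of_sq_le_sq' h4 (by positivity)).2
  obtain ⟨G, hG⟩ : ∃ G, G = (Ico x (2 * x)).filter (fun q => m ≤ (TT N q).card ∧ TT N q ⊆ R) :=
    ⟨_, rfl⟩
  rw [← hG] at hb0
  have hbig : ((G.filter (fun q => M < (TT N q).card)).card : ℝ) ≤ c / 2 * x := by
    have h3 : ((G.filter (fun q => M < (TT N q).card)).card : ℝ) * M ≤ K * x := by
      refine le_trans ?_ htot
      rw [← nsmul_eq_mul, ← sum_const]
      calc ∑ _q ∈ G.filter (fun q => M < (TT N q).card), (M : ℝ) ≤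
            ∑ q ∈ G.filter (fun q => M < (TT N q).card), ((TT N q).card : ℝ) := by
            apply sum_le_sum
            intro q hq
            exact_mod_cast (mem_filter.1 hq).2.le
        _ ≤ _ := by
            apply sum_le_sum_of_subset_of_nonneg
            · rw [hG]
              exact (filter_subset _ _).trans (filter_subset _ _)
            · intro _ _ _; positivity
    have h4 : K ≤ c / 2 * M := by
      rw [div_le_iff₀ hc] at hM
      linarith
    have h5 : ((G.filter (fun q => M < (TT N q).card)).card : ℝ) * M ≤ (c / 2 * x) * M := by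
      calc _ ≤ K * x := h3
        _ ≤ (c / 2 * M) * x := mul_le_mul_of_nonneg_right h4 hx0.le
        _ = _ := by ring
    exact le_of_mul_le_mul_right h5 hM0
  have hsplit := card_filter_add_card_filter_not (s := G) (fun q => M < (TT N q).card)
  have hsplit' : ((G.filter (fun q => M < (TT N q).card)).card : ℝ) +
      (G.filter (fun q => ¬ M < (TT N q).card)).card = G.card := by exact_mod_cast hsplit
  have hmaps : ∀ q ∈ G.filter (fun q => ¬ M < (TT N q).card), (TT N q).card ∈ Icc m M := by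
    intro q hq
    rw [mem_filter, hG, mem_filter] at hq
    rw [mem_Icc]
    exact ⟨hq.1.2.1, not_lt.1 hq.2⟩
  by_contra hcon
  push Not at hcon
  have hlt : ∀ l ∈ Icc m M, (((G.filter (fun q => ¬ M < (TT N q).card)).filter
      (fun q => (TT N q).card = l)).card : ℝ) < c / (2 * (M + 1)) * x := by
    intro l hl
    rw [mem_Icc] at hl
    have h3 := hcon l hl.1 hl.2
    by_contra h4
    rw [not_lt] at h4
    refine absurd (h2 l (by omega) hl.2 x (by omega) N hNle R (h4.trans ?_)) (not_le.2 h3)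
    rw [Nat.cast_le]
    apply card_le_card
    intro q hq
    rw [mem_filter, mem_filter, hG, mem_filter] at hq
    rw [mem_filter]
    exact ⟨hq.1.1.1, hq.2, hq.1.1.2.2⟩
  have hc1 := card_eq_sum_card_fiberwise hmaps
  have hc2 : ((G.filter (fun q => ¬ M < (TT N q).card)).card : ℝ) ≤ (c / 2 * x) * (M / (M + 1)) := by
    rw [hc1]
    push_cast
    calc _ ≤ ∑ l ∈ Icc m M, c / (2 * (M + 1)) * x := sum_le_sum fun l hl => (hlt l hl).le
      _ = ((Icc m M).card : ℝ) * (c / (2 * (M + 1)) * x) := by rw [sum_const, nsmul_eq_mul]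
      _ ≤ M * (c / (2 * (M + 1)) * x) := by
          apply mul_le_mul_of_nonneg_right _ (by positivity)
          rw [Nat.card_Icc]
          exact_mod_cast (by omega : M + 1 - m ≤ M)
      _ = _ := by field_simp
  have hc3 : (c / 2 * x) * (M / (M + 1)) < c / 2 * x := by
    have h3 : (M : ℝ) / (M + 1) < 1 := by rw [div_lt_one (by positivity)]; linarith
    have h4 : 0 < c / 2 * (x : ℝ) := by positivity
    nlinarith
  linarith

/-- discrete intermediate values -/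
theorem ivt (f : ℕ → ℕ) (h l : ℕ) (h0 : f 0 = 0) (hs : ∀ j, j < h → f (j + 1) ≤ f j + 1)
    (hl : l ≤ f h) : ∃ j, j ≤ h ∧ f j = l := by
  induction h with
  | zero => exact ⟨0, le_rfl, by omega⟩
  | succ h ih =>
    by_cases h1 : f (h + 1) = l
    · exact ⟨h + 1, le_rfl, h1⟩
    · have h2 := hs h (by omega)
      obtain ⟨j, hj, e⟩ := ih (fun j hj => hs j (by omega)) (by omega)
      exact ⟨j, by omega, e⟩

theorem TT_sub {N N' q : ℕ} (h : N ≤ N') : TT N q ⊆ TT N' q := by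
  intro r hr
  rw [mem_TT] at hr ⊢
  exact ⟨⟨hr.1.1, hr.1.2.trans h⟩, hr.2⟩

open Classical in
/-- **exact tuplets of every size** -/
theorem part3 (b ρ : ℝ) (hb : 0 < b) (hρ : 0 < ρ) (l : ℕ) (hl : 1 ≤ l) : ∃ h : ℕ, 1 ≤ h ∧
    ∃ κ : ℝ, 0 < κ ∧ ∃ x₀ : ℕ, ∀ x : ℕ, x₀ ≤ x → ∀ R : Finset ℕ,
    R ⊆ Icc 1 ⌊b * Real.log x⌋₊ → ρ * Real.log x ≤ R.card → ∃ j : ℕ, 1 ≤ j ∧ j ≤ h ∧
    κ * Real.log x ^ l ≤ ((GT x ⌊b * j / h * Real.log x⌋₊ l κ R).card : ℝ) := by
  obtain ⟨c, hc, x0, h0⟩ := base l b ρ hb hρ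
  obtain ⟨C2, hC2, x1, h1⟩ := upsum 2 (by norm_num)
  obtain ⟨h, hh⟩ := exists_nat_ge (16 * C2 * b ^ 4 / c ^ 2)
  have hhr : (0 : ℝ) < h := lt_of_lt_of_le (by positivity) hh
  have hh1 : 1 ≤ h := by exact_mod_cast hhr
  obtain ⟨κ, hκ, x2, h2⟩ := coreM l b (c / (2 * h) / 2) hb (by positivity)
  have t1 : Tendsto (fun X : ℕ => Real.log (X : ℝ)) atTop atTop :=
    Real.tendsto_log_atTop.comp tendsto_natCast_atTop_atTop
  obtain ⟨x3, hx3⟩ := eventually_atTop.1 (t1.eventually_ge_atTop (h / b))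
  refine ⟨h, hh1, κ, hκ, x0 + x1 + x2 + x3 + 3, fun x hx R hR hRc => ?_⟩
  have hx0 : (0 : ℝ) < x := by exact_mod_cast (by omega : 0 < x)
  have hL : 0 < Real.log x := Real.log_pos (by exact_mod_cast (by omega : 1 < x))
  have hLh := hx3 x (by omega)
  have hb0 := h0 x (by omega) R hR hRc
  -- the scales
  obtain ⟨Nj, hNj⟩ : ∃ Nj : ℕ → ℕ, ∀ j, Nj j = ⌊b * j / h * Real.log x⌋₊ := ⟨_, fun _ => rfl⟩
  have hNj0 : Nj 0 = 0 := by rw [hNj]; simp
  have hNjh : Nj h = ⌊b * Real.log x⌋₊ := by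
    rw [hNj]
    congr 2
    field_simp
  have hNle : ∀ j, (Nj j : ℝ) ≤ b * j / h * Real.log x := fun j => by
    rw [hNj]; exact Nat.floor_le (by positivity)
  have hNmono : ∀ j j', j ≤ j' → Nj j ≤ Nj j' := by
    intro j j' hjj
    rw [hNj, hNj]
    apply Nat.floor_le_floor
    have : (j : ℝ) ≤ j' := by exact_mod_cast hjj
    gcongr
  have hNb : ∀ j, j ≤ h → (Nj j : ℝ) ≤ b * Real.log x := by
    intro j hj
    refine (hNle j).trans ?_
    have h3 : (j : ℝ) ≤ h := by exact_mod_cast hj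
    have h4 : b * j / h ≤ b := by
      rw [div_le_iff₀ hhr]
      exact mul_le_mul_of_nonneg_left h3 hb.le
    exact mul_le_mul_of_nonneg_right h4 hL.le
  have hstep : ∀ j, ((Nj (j + 1) - Nj j : ℕ) : ℝ) ≤ 2 * b * Real.log x / h := by
    intro j
    rw [Nat.cast_sub (hNmono _ _ (by omega))]
    have h3 := hNle (j + 1)
    have h4 : b * j / h * Real.log x - 1 ≤ Nj j := by
      rw [hNj]
      exact (Nat.sub_one_lt_floor _).le
    have h5 : b * ((j + 1 : ℕ) : ℝ) / h * Real.log x = b * j / h * Real.log x + b * Real.log x / h := by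
      push_cast
      field_simp
    have h6 : 1 ≤ b * Real.log x / h := by
      rw [le_div_iff₀ hhr, one_mul]
      have h8 := (div_le_iff₀ hb).1 hLh
      linarith
    rw [h5] at h3
    have h7 : 2 * b * Real.log x / h = b * Real.log x / h + b * Real.log x / h := by ring
    rw [h7]
    linarith
  rw [← hNjh] at hR hb0
  simp only [← hNj]
  -- the close pairs
  obtain ⟨F, hF⟩ : ∃ F, F = (range h).biUnion
    (fun j => (Ioc (Nj j) (Nj (j + 1))).powersetCard 2) := ⟨_, rfl⟩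
  have hFs : F ⊆ (Icc 1 (Nj h)).powersetCard 2 := by
    intro T hT
    rw [hF, mem_biUnion] at hT
    obtain ⟨j, hj, hT⟩ := hT
    rw [mem_powersetCard] at hT ⊢
    refine ⟨fun r hr => ?_, hT.2⟩
    have h3 := hT.1 hr
    rw [mem_Ioc] at h3
    rw [mem_Icc]
    have h4 := hNmono (j + 1) h (by rw [mem_range] at hj; omega)
    omega
  have hFc : (F.card : ℝ) ≤ 4 * b ^ 2 * Real.log x ^ 2 / h := by
    calc (F.card : ℝ) ≤ ∑ j ∈ range h, (((Ioc (Nj j) (Nj (j + 1))).powersetCard 2).card : ℝ) := by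
          rw [hF]
          exact_mod_cast card_biUnion_le
      _ ≤ ∑ j ∈ range h, (2 * b * Real.log x / h) ^ 2 := by
          apply sum_le_sum
          intro j _
          rw [card_powersetCard, Nat.card_Ioc]
          calc (((Nj (j + 1) - Nj j).choose 2 : ℕ) : ℝ) ≤ ((Nj (j + 1) - Nj j : ℕ) : ℝ) ^ 2 := by
                exact_mod_cast Nat.choose_le_pow _ _
            _ ≤ _ := pow_le_pow_left₀ (Nat.cast_nonneg _) (hstep j) 2
      _ = _ := by
          rw [sum_const, card_range, nsmul_eq_mul]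
          field_simp
          ring
  obtain ⟨G, hG⟩ : ∃ G, G = (Ico x (2 * x)).filter (fun q => l ≤ (TT (Nj h) q).card ∧
    TT (Nj h) q ⊆ R) := ⟨_, rfl⟩
  rw [← hG] at hb0
  have hbad : ((G.filter (fun q => ∃ T ∈ F, T ⊆ TT (Nj h) q)).card : ℝ) ≤ c / 2 * x := by
    have h3 := hit_le x (Nj h) F (G.filter (fun q => ∃ T ∈ F, T ⊆ TT (Nj h) q)) (by
      rw [hG]; exact (filter_subset _ _).trans (filter_subset _ _))
      (fun q hq => (mem_filter.1 hq).2)
    refine h3.trans ?_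
    have h4 := h1 x (by omega) (Nj h) F hFs
    have h5 : (∑ T ∈ F, (ND x T : ℝ)) ^ 2 ≤ (c / 2 * x) ^ 2 := by
      refine h4.trans ?_
      calc C2 * (F.card * (Nj h : ℝ) ^ 2) * (x / Real.log x ^ 2) ^ 2 ≤
            C2 * ((4 * b ^ 2 * Real.log x ^ 2 / h) * (b * Real.log x) ^ 2) *
              (x / Real.log x ^ 2) ^ 2 := by
            have := hNb h le_rfl
            gcongr
        _ = (x : ℝ) ^ 2 * (4 * C2 * b ^ 4 / h) := by field_simp
        _ ≤ (x : ℝ) ^ 2 * (c / 2) ^ 2 := by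
            apply mul_le_mul_of_nonneg_left _ (by positivity)
            rw [div_le_iff₀ hhr]
            rw [div_le_iff₀ (by positivity)] at hh
            nlinarith
        _ = _ := by ring
    exact (abs_le_of_sq_le_sq' h5 (by positivity)).2
  have hsplit := card_filter_add_card_filter_not (s := G) (fun q => ∃ T ∈ F, T ⊆ TT (Nj h) q)
  have hsplit' : ((G.filter (fun q => ∃ T ∈ F, T ⊆ TT (Nj h) q)).card : ℝ) +
      (G.filter (fun q => ¬ ∃ T ∈ F, T ⊆ TT (Nj h) q)).card = G.card := by exact_mod_cast hsplit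
  -- the intermediate value
  have hiv : ∀ q ∈ G.filter (fun q => ¬ ∃ T ∈ F, T ⊆ TT (Nj h) q), ∃ j ∈ Icc 1 h,
      (TT (Nj j) q).card = l := by
    intro q hq
    rw [mem_filter, hG, mem_filter] at hq
    obtain ⟨⟨hq1, hq2, hq3⟩, hq4⟩ := hq
    obtain ⟨j, hj, e⟩ := ivt (fun j => (TT (Nj j) q).card) h l (by
      simp only [hNj0]
      unfold TT
      simp) (by
      intro j hj
      by_contra hcon
      rw [not_le] at hcon
      have hsub : TT (Nj j) q ⊆ TT (Nj (j + 1)) q := TT_sub (hNmono _ _ (by omega))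
      have h3 : 2 ≤ (TT (Nj (j + 1)) q \ TT (Nj j) q).card := by
        rw [card_sdiff_of_subset hsub]
        omega
      obtain ⟨T, hT1, hT2⟩ := exists_subset_card_eq h3
      apply hq4
      refine ⟨T, ?_, fun r hr => ?_⟩
      · rw [hF, mem_biUnion]
        refine ⟨j, mem_range.2 hj, ?_⟩
        rw [mem_powersetCard]
        refine ⟨fun r hr => ?_, hT2⟩
        have h4 := hT1 hr
        rw [Finset.mem_sdiff, mem_TT, mem_TT] at h4
        rw [mem_Ioc]
        obtain ⟨⟨⟨a1, a2⟩, a3⟩, a4⟩ := h4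
        refine ⟨?_, a2⟩
        by_contra h5
        exact a4 ⟨⟨a1, by omega⟩, a3⟩
      · have h4 := (Finset.mem_sdiff.1 (hT1 hr)).1
        exact TT_sub (hNmono (j + 1) h (by omega)) h4) hq2
    have e' : (TT (Nj j) q).card = l := e
    refine ⟨j, ?_, e'⟩
    rw [mem_Icc]
    refine ⟨?_, hj⟩
    by_contra h3
    have h4 : j = 0 := by omega
    rw [h4, hNj0] at e'
    have h5 : (TT 0 q).card = 0 := by unfold TT; simp
    omega
  by_contra hcon
  push Not at hcon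
  have hlt : ∀ j ∈ Icc 1 h, ((G.filter (fun q => (TT (Nj j) q).card = l)).card : ℝ) <
      c / (2 * h) / 2 * x := by
    intro j hj
    rw [mem_Icc] at hj
    have h3 := hcon j hj.1 hj.2
    by_contra h4
    rw [not_lt] at h4
    refine absurd (h2 l hl le_rfl x (by omega) (Nj j) (hNb j hj.2) R (h4.trans ?_)) (not_le.2 h3)
    rw [Nat.cast_le]
    apply card_le_card
    intro q hq
    rw [mem_filter, hG, mem_filter] at hq
    rw [mem_filter]
    exact ⟨hq.1.1, hq.2, (TT_sub (hNmono _ _ hj.2)).trans hq.1.2.2⟩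
  have hcov : G.filter (fun q => ¬ ∃ T ∈ F, T ⊆ TT (Nj h) q) ⊆
      (Icc 1 h).biUnion (fun j => G.filter (fun q => (TT (Nj j) q).card = l)) := by
    intro q hq
    obtain ⟨j, hj, e⟩ := hiv q hq
    rw [mem_biUnion]
    exact ⟨j, hj, mem_filter.2 ⟨(mem_filter.1 hq).1, e⟩⟩
  have hc1 : ((G.filter (fun q => ¬ ∃ T ∈ F, T ⊆ TT (Nj h) q)).card : ℝ) ≤ c / 4 * x := by
    have h3 := (card_le_card hcov).trans card_biUnion_le
    calc ((G.filter (fun q => ¬ ∃ T ∈ F, T ⊆ TT (Nj h) q)).card : ℝ) ≤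
          ∑ j ∈ Icc 1 h, ((G.filter (fun q => (TT (Nj j) q).card = l)).card : ℝ) := by
          exact_mod_cast h3
      _ ≤ ∑ _j ∈ Icc 1 h, c / (2 * h) / 2 * (x : ℝ) := sum_le_sum fun j hj => (hlt j hj).le
      _ = _ := by
          rw [sum_const, Nat.card_Icc, Nat.add_sub_cancel, nsmul_eq_mul]
          field_simp
          ring
  have hpos : 0 < c / 4 * (x : ℝ) := by positivity
  linarith

end Pool.Agent.H533.GE
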