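import Pool.Agent.H533.GE.Cell

/-!
Linear forms `u n + v q`: the prime values are well distributed.
-/

set_option autoImplicit false

open Finset Filter Topology

namespace Pool.Agent.H533.GE

open Pool.Agent.H361R2.PP
open Pool.Agent.H533.QM
open Pool.Agent.H533.QS
open Pool.Agent.H533.QA

/-- the property of the codes of the forms -/
def IsC (X q : ℕ) (c : ℕ × ℕ → ℕ) : Prop :=
  ∀ f : ℕ × ℕ, ∀ p : ℕ, p.Prime → HH X < p → p ≤ X → ¬ p ∣ q →
      (¬ p ∣ f.1 → ∀ n : ℕ, (p ∣ n + c f ↔ p ∣ ff q f n)) ∧ (p ∣ f.1 → p ∣ c f)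

/-- the expected number of prime values of the form `f` in one class -/
noncomputable def OmF (X q : ℕ) (f : ℕ × ℕ) : ℝ :=
  Pry (f.1 * X) (f.2 * q) / (f.1 * Nat.totient (Wq X q))

/-- the primes never divide `n + c f` -/
theorem ok_F {X q b : ℕ} (hq : 1 ≤ q) (hqX : q ≤ X) {c : ℕ × ℕ → ℕ} (hc : IsC X q c) {f : ℕ × ℕ}
    (hf : IsF q f) {n p : ℕ} (hn : n ∈ Sc X q b) (hP : Pf X q f n) (hp : p.Prime) (h1 : HH X < p)
    (h2 : p ≤ X) (h3 : ¬ p ∣ q) : ¬ p ∣ n + c f := by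
  obtain ⟨k1, k2⟩ := hc f p hp h1 h2 h3
  intro h
  by_cases hu : p ∣ f.1
  · have h4 := k2 hu
    have h5 : p ∣ n := (Nat.dvd_add_left h4).1 h
    exact hP.2 p hp hu h1 h5
  · have h4 := (k1 hu n).1 h
    have h5 := (Nat.prime_dvd_prime_iff_eq hp hP.1).1 h4
    have h6 := (mem_Sc.1 hn).1.1
    have h8 : n + 1 ≤ ff q f n := by
      unfold ff
      have e1 : 1 * n ≤ f.1 * n := Nat.mul_le_mul_right n hf.1
      have e2 : 1 * 1 ≤ f.2 * q := Nat.mul_le_mul hf.2.1 hq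
      omega
    omega

open Classical in
/-- the count in one class as a sum over the cells -/
theorem card_SprF {X q b : ℕ} (hq : 1 ≤ q) (hqX : q ≤ X) {c : ℕ × ℕ → ℕ}
    (hcinj : Function.Injective c) {f : ℕ × ℕ} (hf : IsF q f) (D : Finset ℕ) (r : ℕ)
    (hD : ∀ p ∈ D, p.Prime ∧ HH X < p) :
    ((SprT (TF X q c) (Sc X q b) (c f)).filter (fun n => ∀ p ∈ D, n % p = r % p)).card =
      ∑ n0 ∈ (E0 X q f.1 b).filter (fun n => ∀ p ∈ D, p ∈ Ru X f.1 → n % p = r % p),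
        ((Spr (Sk (f.1 * X) (f.1 * (Wq X q * ∏ p ∈ Ru X f.1, p)) (f.1 * n0)) (f.2 * q)).filter
          (fun n => ∀ p ∈ D \ Ru X f.1, n % p = (f.1 * r) % p)).card := by
  obtain ⟨M, hM⟩ : ∃ M, M = Wq X q * ∏ p ∈ Ru X f.1, p := ⟨_, rfl⟩
  have hu := hf.1
  have hRp : ∀ p ∈ Ru X f.1, p.Prime := fun p hp => ((mem_Ru hu).1 hp).1
  have hM0 : 0 < M := by
    rw [hM]
    exact Nat.mul_pos (Wq_pos X q) (prod_pos fun p hp => (hRp p hp).pos)
  have hcell : ∀ n0 : ℕ, _ := fun n0 => card_cell X q f.1 f.2 M n0 r hu (D \ Ru X f.1) (by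
    intro p hp
    rw [Finset.mem_sdiff] at hp
    refine ⟨(hD p hp.1).1, fun h => hp.2 ?_⟩
    exact (mem_Ru hu).2 ⟨(hD p hp.1).1, h, (hD p hp.1).2⟩)
  rw [← hM]
  simp only [← hcell]
  obtain ⟨F, hF⟩ : ∃ F, F = (SprT (TF X q c) (Sc X q b) (c f)).filter
      (fun n => ∀ p ∈ D, n % p = r % p) := ⟨_, rfl⟩
  have hFm : ∀ n, n ∈ F ↔ (((X ≤ n ∧ n < 2 * X) ∧ n % Wq X q = b) ∧ (ff q f n).Prime ∧
      ∀ p ∈ Ru X f.1, ¬ p ∣ n) ∧ ∀ p ∈ D, n % p = r % p := by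
    intro n
    rw [hF, mem_filter, mem_SprT, TF_code hcinj, mem_pf hq hqX hf]
  have hmap : ∀ n ∈ F, n % M ∈ (E0 X q f.1 b).filter
      (fun n => ∀ p ∈ D, p ∈ Ru X f.1 → n % p = r % p) := by
    intro n hn
    obtain ⟨⟨⟨h1, h2⟩, h3, h4⟩, h5⟩ := (hFm n).1 hn
    rw [mem_filter, mem_E0, ← hM]
    have hmod : ∀ p ∈ Ru X f.1, n % M % p = n % p := fun p hp =>
      Nat.mod_mod_of_dvd n (by rw [hM]; exact (dvd_prod_of_mem _ hp).mul_left _)
    refine ⟨⟨Nat.mod_lt _ hM0, ?_, fun p hp h => h4 p hp ?_⟩, fun p hpD hp => ?_⟩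
    · rw [Nat.mod_mod_of_dvd n (by rw [hM]; exact dvd_mul_right _ _)]
      exact h2
    · have h6 : p ∣ M := by rw [hM]; exact (dvd_prod_of_mem _ hp).mul_left _
      exact (Nat.dvd_mod_iff h6).1 h
    · rw [hmod p hp]
      exact h5 p hpD
  rw [← hF, card_eq_sum_card_fiberwise hmap]
  apply sum_congr rfl
  intro n0 hn0
  congr 1
  ext n
  rw [mem_filter, hFm, mem_filter, mem_Ico]
  rw [mem_filter, mem_E0, ← hM] at hn0
  obtain ⟨⟨h1, h2, h3⟩, h4⟩ := hn0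
  constructor
  · rintro ⟨⟨⟨⟨a1, a2⟩, a3, a4⟩, a5⟩, a6⟩
    exact ⟨a1, a6, a3, fun p hp => a5 p (Finset.mem_sdiff.1 hp).1⟩
  · rintro ⟨a1, a2, a3, a4⟩
    have hmod : ∀ p ∈ Ru X f.1, n0 % p = n % p := fun p hp => by
      rw [← a2]
      exact Nat.mod_mod_of_dvd n (by rw [hM]; exact (dvd_prod_of_mem _ hp).mul_left _)
    refine ⟨⟨⟨⟨a1, ?_⟩, a3, fun p hp h => h3 p hp ?_⟩, fun p hp => ?_⟩, a2⟩
    · have h6 : n % M % Wq X q = n % Wq X q :=
        Nat.mod_mod_of_dvd n (by rw [hM]; exact dvd_mul_right _ _)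
      rw [← h6, a2, h2]
    · rw [Nat.dvd_iff_mod_eq_zero, hmod p hp]
      exact Nat.mod_eq_zero_of_dvd h
    · by_cases hR : p ∈ Ru X f.1
      · rw [← hmod p hR]
        exact h4 p hp hR
      · exact a4 p (Finset.mem_sdiff.2 ⟨hp, hR⟩)

open Classical in
/-- sums over the sets by their part outside `R` -/
theorem sum_fib (P R : Finset ℕ) (Y Y' : ℝ) (K : ℕ) (g : Finset ℕ → ℝ) (hg : ∀ D, 0 ≤ g D)
    (hP : ∀ p ∈ P, 1 ≤ p) (hY : Y ≤ Y') :
    ∑ D ∈ P.powerset.filter (fun D : Finset ℕ => ∏ p ∈ D, (p : ℝ) ≤ Y),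
      (K : ℝ) ^ D.card * g (D \ R) ≤ ((K : ℝ) + 1) ^ R.card *
    ∑ D ∈ (P \ R).powerset.filter (fun D : Finset ℕ => ∏ p ∈ D, (p : ℝ) ≤ Y'),
      (K : ℝ) ^ D.card * g D := by
  have hK0 : (0 : ℝ) ≤ K := Nat.cast_nonneg K
  have h1 : ((K : ℝ) + 1) ^ R.card = ∑ T ∈ R.powerset, (K : ℝ) ^ T.card := by
    have h2 := Finset.sum_pow_mul_eq_add_pow (K : ℝ) 1 R
    simp only [one_pow, mul_one] at h2
    exact h2.symm
  rw [h1, sum_mul_sum, ← sum_product']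
  have h3 : ∀ D ∈ P.powerset.filter (fun D : Finset ℕ => ∏ p ∈ D, (p : ℝ) ≤ Y),
      (D ∩ R, D \ R) ∈ R.powerset ×ˢ
        (P \ R).powerset.filter (fun D : Finset ℕ => ∏ p ∈ D, (p : ℝ) ≤ Y') := by
    intro D hD
    rw [mem_filter, mem_powerset] at hD
    rw [mem_product, mem_powerset, mem_filter, mem_powerset]
    refine ⟨inter_subset_right, Finset.sdiff_subset_sdiff hD.1 le_rfl, ?_⟩
    refine le_trans ?_ (hD.2.trans hY)
    apply Finset.prod_le_prod_of_subset_of_one_le sdiff_subset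
    · intro p _
      exact Nat.cast_nonneg _
    · intro p hp _
      exact_mod_cast hP p (hD.1 hp)
  have hinj : ∀ D ∈ P.powerset.filter (fun D : Finset ℕ => ∏ p ∈ D, (p : ℝ) ≤ Y),
      ∀ D' ∈ P.powerset.filter (fun D : Finset ℕ => ∏ p ∈ D, (p : ℝ) ≤ Y),
      (D ∩ R, D \ R) = (D' ∩ R, D' \ R) → D = D' := by
    intro D _ D' _ h
    simp only [Prod.mk.injEq] at h
    have e : ∀ E : Finset ℕ, E = (E ∩ R) ∪ (E \ R) := fun E => by
      rw [union_comm, Finset.sdiff_union_inter]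
    rw [e D, e D', h.1, h.2]
  calc ∑ D ∈ P.powerset.filter (fun D : Finset ℕ => ∏ p ∈ D, (p : ℝ) ≤ Y),
        (K : ℝ) ^ D.card * g (D \ R)
      = ∑ D ∈ P.powerset.filter (fun D : Finset ℕ => ∏ p ∈ D, (p : ℝ) ≤ Y),
        (K : ℝ) ^ (D ∩ R).card * ((K : ℝ) ^ (D \ R).card * g (D \ R)) := by
        apply sum_congr rfl
        intro D _
        have h5 : D.card = (D ∩ R).card + (D \ R).card := by
          rw [add_comm]
          exact (Finset.card_sdiff_add_card_inter D R).symm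
        rw [h5, pow_add, mul_assoc]
    _ = ∑ x ∈ (P.powerset.filter (fun D : Finset ℕ => ∏ p ∈ D, (p : ℝ) ≤ Y)).image
          (fun D : Finset ℕ => (D ∩ R, D \ R)),
          (K : ℝ) ^ x.1.card * ((K : ℝ) ^ x.2.card * g x.2) := by
        rw [sum_image hinj]
    _ ≤ _ := by
        apply sum_le_sum_of_subset_of_nonneg
        · intro x hx
          rw [mem_image] at hx
          obtain ⟨D, hD, rfl⟩ := hx
          exact h3 D hD
        · intro x _ _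
          have := hg x.2
          positivity

open Classical in
/-- the prime values of the form `f` in one class -/
theorem eqF (K A B : ℕ) (θ : ℝ) (hθ : 0 < θ) (hθ1 : θ ≤ 1 / 32) : ∃ X₀ : ℕ, ∀ X : ℕ, X₀ ≤ X →
    ∀ q : ℕ, 1 ≤ q → q ≤ X → ∀ c : ℕ × ℕ → ℕ, Function.Injective c → IsC X q c →
    ∀ b : ℕ, b < Wq X q → ∀ f : ℕ × ℕ, IsF q f → (f.1 : ℝ) ≤ Real.log X ^ B →
    (f.2 : ℝ) ≤ Real.log X ^ B → (f.1 * b + f.2 * q).Coprime (Wq X q) → ∀ P : Finset ℕ,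
    (∀ p ∈ P, p.Prime ∧ HH X < p ∧ p ≤ X ∧ ¬ p ∣ q) → ∃ Er : Finset ℕ → ℝ,
      Eqd (some (c f)) P (SprT (TF X q c) (Sc X q b) (c f)) (OmF X q f) Er ∧
      ∑ D ∈ P.powerset.filter (fun D : Finset ℕ => ∏ p ∈ D, (p : ℝ) ≤ (X : ℝ) ^ (1 / 2 - θ)),
        (K : ℝ) ^ D.card * Er D ≤ OmF X q f / Real.log X ^ A := by
  obtain ⟨X1, h1⟩ := eqPrimeB K (A + B * K) (2 * B) B θ hθ
  obtain ⟨X2, h2⟩ := Pool.Agent.H96R2.EQP.W_le
  have t1 : Tendsto (fun X : ℕ => Real.log (X : ℝ)) atTop atTop :=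
    Real.tendsto_log_atTop.comp tendsto_natCast_atTop_atTop
  obtain ⟨X3, h3⟩ := eventually_atTop.1 (t1.eventually_ge_atTop 1)
  refine ⟨X1 + X2 + X3 + 3, fun X hX q hq hqX c hcinj hc b hb f hf hf1 hf2 hfb P hP => ?_⟩
  have hL1 := h3 X (by omega)
  have hX0 : 0 < X := by omega
  have hX0r : (0 : ℝ) < X := by exact_mod_cast hX0
  have hW0 := Wq_pos X q
  have hW0r : (0 : ℝ) < Wq X q := by exact_mod_cast hW0
  have hu := hf.1
  have hur : (1 : ℝ) ≤ f.1 := by exact_mod_cast hu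
  obtain ⟨R, hR⟩ : ∃ R, R = Ru X f.1 := ⟨_, rfl⟩
  have hRp : ∀ p ∈ R, p.Prime := fun p hp => by
    rw [hR] at hp
    exact ((mem_Ru hu).1 hp).1
  obtain ⟨M, hM⟩ : ∃ M, M = Wq X q * ∏ p ∈ R, p := ⟨_, rfl⟩
  have hρ0 : 0 < ∏ p ∈ R, p := prod_pos fun p hp => (hRp p hp).pos
  have hM0 : 0 < M := by
    rw [hM]
    exact Nat.mul_pos hW0 hρ0
  have hρu : ∏ p ∈ R, p ≤ f.1 := by
    rw [hR]
    exact Nat.le_of_dvd hu (prod_Ru_dvd hu)
  have hρur : ((∏ p ∈ R, p : ℕ) : ℝ) ≤ f.1 := by exact_mod_cast hρu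
  have hXX : X ≤ f.1 * X := Nat.le_mul_of_pos_left X hu
  have hXXr : (X : ℝ) ≤ ((f.1 * X : ℕ) : ℝ) := by exact_mod_cast hXX
  have hlogle : Real.log X ≤ Real.log ((f.1 * X : ℕ) : ℝ) := Real.log_le_log hX0r hXXr
  have hlog0 : 0 < Real.log X := by linarith
  have hWL : (Wq X q : ℝ) ≤ Real.log X :=
    le_trans (by exact_mod_cast Wq_le X q) (h2 X (by omega))
  have hWbig : ((f.1 * M : ℕ) : ℝ) ≤ Real.log ((f.1 * X : ℕ) : ℝ) ^ (2 * B + 1) := by
    have e1 : ((f.1 * M : ℕ) : ℝ) = (f.1 : ℝ) * (Wq X q * ((∏ p ∈ R, p : ℕ) : ℝ)) := by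
      rw [hM]; push_cast; ring
    rw [e1]
    calc (f.1 : ℝ) * (Wq X q * ((∏ p ∈ R, p : ℕ) : ℝ)) ≤
          Real.log X ^ B * (Real.log X * Real.log X ^ B) := by
          apply mul_le_mul hf1 _ (by positivity) (by positivity)
          exact mul_le_mul hWL (hρur.trans hf1) (by positivity) hlog0.le
      _ = Real.log X ^ (2 * B + 1) := by rw [pow_succ, two_mul, pow_add]; ring
      _ ≤ _ := pow_le_pow_left₀ hlog0.le hlogle _
  have hy1 : 1 ≤ f.2 * q := Nat.mul_pos hf.2.1 hq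
  have hyX : ((f.2 * q : ℕ) : ℝ) ≤ ((f.1 * X : ℕ) : ℝ) * Real.log ((f.1 * X : ℕ) : ℝ) ^ B := by
    push_cast
    have hqr : (q : ℝ) ≤ X := by exact_mod_cast hqX
    have e2 : (f.2 : ℝ) ≤ Real.log ((f.1 : ℝ) * X) ^ B := by
      refine hf2.trans ?_
      have := pow_le_pow_left₀ hlog0.le hlogle B
      push_cast at this
      exact this
    have e3 : (0 : ℝ) ≤ Real.log ((f.1 : ℝ) * X) ^ B := le_trans (Nat.cast_nonneg _) e2
    calc (f.2 : ℝ) * q ≤ Real.log ((f.1 : ℝ) * X) ^ B * X :=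
          mul_le_mul e2 hqr (Nat.cast_nonneg _) e3
      _ ≤ (f.1 * X) * Real.log ((f.1 : ℝ) * X) ^ B := by
          rw [mul_comm]
          apply mul_le_mul_of_nonneg_right _ e3
          nlinarith
  -- the cells
  have hcellE : ∀ n0 ∈ E0 X q f.1 b, ∃ Er : Finset ℕ → ℝ,
      Eqd (some (f.2 * q)) (P \ R) (Spr (Sk (f.1 * X) (f.1 * M) (f.1 * n0)) (f.2 * q))
        (Pry (f.1 * X) (f.2 * q) / Nat.totient (f.1 * M)) Er ∧
      ∑ D ∈ (P \ R).powerset.filter (fun D : Finset ℕ => ∏ p ∈ D, (p : ℝ) ≤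
          ((f.1 * X : ℕ) : ℝ) ^ (1 / 2 - θ)),
        (K : ℝ) ^ D.card * Er D ≤ Pry (f.1 * X) (f.2 * q) / Nat.totient (f.1 * M) /
          Real.log ((f.1 * X : ℕ) : ℝ) ^ (A + B * K) := by
    intro n0 hn0
    rw [mem_E0, ← hR, ← hM] at hn0
    apply h1 (f.1 * X) (by omega) (f.1 * M) (Nat.mul_pos hu hM0) hWbig (f.1 * n0)
      (Nat.mul_lt_mul_of_pos_left hn0.1 hu) (f.2 * q) hy1 hyX
    · rw [hM, hR]
      exact cell_cop hu hf.2.2 hfb hn0.2.1
    · intro p hp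
      rw [Finset.mem_sdiff] at hp
      have hpP := hP p hp.1
      have hpu : ¬ p ∣ f.1 := fun h => hp.2 (by rw [hR]; exact (mem_Ru hu).2 ⟨hpP.1, h, hpP.2.1⟩)
      refine ⟨hpP.1, hpP.2.2.1.trans hXX, fun h => ?_⟩
      rcases (hpP.1.dvd_mul).1 h with h | h
      · exact hpu h
      · rw [hM] at h
        rcases (hpP.1.dvd_mul).1 h with h | h
        · exact not_dvd_Wq hpP.1 hpP.2.1 h
        · rw [hR] at h
          exact hpu (h.trans (prod_Ru_dvd hu))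
  choose! Er' hE1 hE2 using hcellE
  have hEr0 : ∀ n0 ∈ E0 X q f.1 b, ∀ D, 0 ≤ Er' n0 D := fun n0 hn0 => (hE1 n0 hn0).2.1
  have hprodpos : ∀ T : Finset ℕ, (∀ p ∈ T, p.Prime) → 0 < ∏ p ∈ T, ((p : ℝ) - 1) := by
    intro T hT
    apply prod_pos
    intro p hp
    have : (1 : ℝ) < p := by exact_mod_cast (hT p hp).one_lt
    linarith
  have hφ : (Nat.totient (f.1 * M) : ℝ) = f.1 * Nat.totient (Wq X q) * ∏ p ∈ R, ((p : ℝ) - 1) := by
    rw [hM, hR]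
    exact phi_cell hu hf.2.2
  have hφW : (0 : ℝ) < Nat.totient (Wq X q) := by exact_mod_cast Nat.totient_pos.2 hW0
  have hPr0 : 0 ≤ Pry (f.1 * X) (f.2 * q) := by unfold Pry; positivity
  have hRpos := hprodpos R hRp
  refine ⟨fun D => ∑ n0 ∈ E0 X q f.1 b, Er' n0 (D \ R), ⟨?_, ?_, ?_⟩, ?_⟩
  · intro n hn p hp a ha
    rw [Option.mem_def, Option.some.injEq] at ha
    subst ha
    rw [mem_SprT, TF_code hcinj] at hn
    obtain ⟨g1, g2, g3, g4⟩ := hP p hp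
    exact ok_F hq hqX hc hf hn.1 hn.2 g1 g2 g3 g4
  · intro D
    exact sum_nonneg fun n0 hn0 => hEr0 n0 hn0 _
  · intro D hD r hr
    rw [card_SprF hq hqX hcinj hf D r (fun p hp => ⟨(hP p (hD hp)).1, (hP p (hD hp)).2.1⟩), ← hR,
      ← hM]
    have hrR : ∀ p ∈ D, p ∈ Ru X f.1 → ¬ p ∣ r := by
      intro p hp hpR h
      have hpP := hP p (hD hp)
      have h4 := (hc f p hpP.1 hpP.2.1 hpP.2.2.1 hpP.2.2.2).2 ((mem_Ru hu).1 hpR).2.1
      exact hr p hp (c f) rfl (dvd_add h h4)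
    have hcE := card_E0 (X := X) (q := q) hu hb D hrR
    rw [← hR] at hcE hrR
    have hph : ∏ p ∈ D, ph (some (c f)) p = ∏ p ∈ D, ((p : ℝ) - 1) := by
      apply prod_congr rfl
      intro p _
      simp [ph]
    have hph' : ∀ T : Finset ℕ, ∏ p ∈ T, ph (some (f.2 * q)) p = ∏ p ∈ T, ((p : ℝ) - 1) := by
      intro T
      apply prod_congr rfl
      intro p _
      simp [ph]
    obtain ⟨E', hE'⟩ : ∃ E', E' = (E0 X q f.1 b).filter (fun n => ∀ p ∈ D, p ∈ R → n % p = r % p) :=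
      ⟨_, rfl⟩
    rw [← hE'] at hcE ⊢
    have hE's : E' ⊆ E0 X q f.1 b := by rw [hE']; exact filter_subset _ _
    have hmain : OmF X q f / ∏ p ∈ D, ph (some (c f)) p =
        ∑ _n0 ∈ E', Pry (f.1 * X) (f.2 * q) / Nat.totient (f.1 * M) /
          ∏ p ∈ D \ R, ph (some (f.2 * q)) p := by
      rw [sum_const, nsmul_eq_mul, hcE, hph, hph', hφ]
      unfold OmF
      have e1 : ∏ p ∈ R, ((p : ℝ) - 1) = (∏ p ∈ R \ D, ((p : ℝ) - 1)) *
          ∏ p ∈ R ∩ D, ((p : ℝ) - 1) := by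
        rw [← prod_union (disjoint_sdiff_inter R D), Finset.sdiff_union_inter]
      have e2 : ∏ p ∈ D, ((p : ℝ) - 1) = (∏ p ∈ D \ R, ((p : ℝ) - 1)) *
          ∏ p ∈ R ∩ D, ((p : ℝ) - 1) := by
        rw [inter_comm, ← prod_union (disjoint_sdiff_inter D R), Finset.sdiff_union_inter]
      have p1 := hprodpos (R \ D) (fun p hp => hRp p (Finset.mem_sdiff.1 hp).1)
      have p2 := hprodpos (R ∩ D) (fun p hp => hRp p (Finset.mem_inter.1 hp).1)
      have p3 := hprodpos (D \ R) (fun p hp => (hP p (hD (Finset.mem_sdiff.1 hp).1)).1)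
      rw [e1, e2]
      field_simp
    rw [hmain, Nat.cast_sum, ← sum_sub_distrib]
    refine (abs_sum_le_sum_abs _ _).trans ?_
    refine le_trans (sum_le_sum fun n0 hn0 => ?_)
      (sum_le_sum_of_subset_of_nonneg hE's fun n0 hn0 _ => hEr0 n0 hn0 (D \ R))
    apply (hE1 n0 (hE's hn0)).2.2 (D \ R) (Finset.sdiff_subset_sdiff hD le_rfl) (f.1 * r)
    intro p hp a ha
    rw [Option.mem_def, Option.some.injEq] at ha
    subst ha
    rw [Finset.mem_sdiff] at hp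
    have hpP := hP p (hD hp.1)
    have hpu : ¬ p ∣ f.1 := fun h => hp.2 (by rw [hR]; exact (mem_Ru hu).2 ⟨hpP.1, h, hpP.2.1⟩)
    have h4 := (hc f p hpP.1 hpP.2.1 hpP.2.2.1 hpP.2.2.2).1 hpu r
    intro h5
    exact hr p hp.1 (c f) rfl (h4.2 h5)
  · -- the sum
    have hXpow : (X : ℝ) ^ (1 / 2 - θ) ≤ ((f.1 * X : ℕ) : ℝ) ^ (1 / 2 - θ) :=
      Real.rpow_le_rpow hX0r.le hXXr (by linarith)
    have hRcard : ((K : ℝ) + 1) ^ R.card ≤ Real.log X ^ (B * K) := by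
      have e1 : ∀ p ∈ R, ((K : ℝ) + 1) ≤ (p : ℝ) ^ K := by
        intro p hp
        have h4 : K + 1 ≤ 2 ^ K := Nat.lt_two_pow_self
        have h5 : 2 ^ K ≤ p ^ K := Nat.pow_le_pow_left (hRp p hp).two_le K
        exact_mod_cast h4.trans h5
      calc ((K : ℝ) + 1) ^ R.card = ∏ _p ∈ R, ((K : ℝ) + 1) := by rw [prod_const]
        _ ≤ ∏ p ∈ R, (p : ℝ) ^ K := prod_le_prod (fun _ _ => by positivity) e1
        _ = ((∏ p ∈ R, p : ℕ) : ℝ) ^ K := by rw [prod_pow]; push_cast; rfl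
        _ ≤ (Real.log X ^ B) ^ K := pow_le_pow_left₀ (by positivity) (hρur.trans hf1) K
        _ = _ := by rw [← pow_mul]
    have hcE := card_E0 (X := X) (q := q) (r := 0) hu hb ∅ (by simp)
    rw [← hR, sdiff_empty] at hcE
    have hcE2 : ((E0 X q f.1 b).card : ℝ) = ∏ p ∈ R, ((p : ℝ) - 1) := by
      rw [← hcE]
      congr 2
      ext n
      simp
    calc ∑ D ∈ P.powerset.filter (fun D : Finset ℕ => ∏ p ∈ D, (p : ℝ) ≤ (X : ℝ) ^ (1 / 2 - θ)),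
          (K : ℝ) ^ D.card * ∑ n0 ∈ E0 X q f.1 b, Er' n0 (D \ R)
        ≤ ((K : ℝ) + 1) ^ R.card * ∑ D ∈ (P \ R).powerset.filter (fun D : Finset ℕ =>
            ∏ p ∈ D, (p : ℝ) ≤ ((f.1 * X : ℕ) : ℝ) ^ (1 / 2 - θ)),
            (K : ℝ) ^ D.card * ∑ n0 ∈ E0 X q f.1 b, Er' n0 D :=
          sum_fib P R _ _ K (fun D => ∑ n0 ∈ E0 X q f.1 b, Er' n0 D)
            (fun D => sum_nonneg fun n0 hn0 => hEr0 n0 hn0 _)
            (fun p hp => (hP p hp).1.one_le) hXpow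
      _ = ((K : ℝ) + 1) ^ R.card * ∑ n0 ∈ E0 X q f.1 b, ∑ D ∈ (P \ R).powerset.filter
            (fun D : Finset ℕ => ∏ p ∈ D, (p : ℝ) ≤ ((f.1 * X : ℕ) : ℝ) ^ (1 / 2 - θ)),
            (K : ℝ) ^ D.card * Er' n0 D := by
          rw [sum_comm]
          congr 1
          apply sum_congr rfl
          intro D _
          rw [mul_sum]
      _ ≤ ((K : ℝ) + 1) ^ R.card * ∑ n0 ∈ E0 X q f.1 b,
            Pry (f.1 * X) (f.2 * q) / Nat.totient (f.1 * M) /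
              Real.log ((f.1 * X : ℕ) : ℝ) ^ (A + B * K) := by
          apply mul_le_mul_of_nonneg_left _ (by positivity)
          exact sum_le_sum fun n0 hn0 => hE2 n0 hn0
      _ = ((K : ℝ) + 1) ^ R.card * (OmF X q f / Real.log ((f.1 * X : ℕ) : ℝ) ^ (A + B * K)) := by
          rw [sum_const, nsmul_eq_mul, hcE2, hφ]
          unfold OmF
          congr 1
          field_simp
      _ ≤ Real.log X ^ (B * K) * (OmF X q f / Real.log X ^ (A + B * K)) := by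
          have hOm : 0 ≤ OmF X q f := by unfold OmF; positivity
          apply mul_le_mul hRcard _ (by positivity) (by positivity)
          apply div_le_div_of_nonneg_left hOm (by positivity)
          exact pow_le_pow_left₀ hlog0.le hlogle _
      _ = OmF X q f / Real.log X ^ A := by
          rw [pow_add]
          field_simp

end Pool.Agent.H533.GE
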