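import Pool.Agent.H533.GE.InstF

/-!
Linear forms `u n + v q`: the exceptional integers, divisible by a large prime factor of the leading
coefficient, are few.
-/

set_option autoImplicit false

open Finset Filter Topology

namespace Pool.Agent.H533.GE

open Pool.Agent.H361R2.PP
open Pool.Agent.H20R2.EQI (ev_large)
open Pool.Agent.H533.QM
open Pool.Agent.H533.QS
open Pool.Agent.H533.QA

/-- `n / φ(n)` -/
noncomputable def gg (n : ℕ) : ℝ := (n : ℝ) / Nat.totient n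

theorem gg_ge {n : ℕ} (hn : 1 ≤ n) : 1 ≤ gg n := by
  unfold gg
  have h1 : (0 : ℝ) < Nat.totient n := by exact_mod_cast Nat.totient_pos.2 hn
  rw [one_le_div h1]
  exact_mod_cast Nat.totient_le n

theorem gg_nonneg (n : ℕ) : 0 ≤ gg n := by unfold gg; positivity

/-- the large primes which divide a small integer -/
theorem sum_Ru (κ : ℝ) (B : ℕ) (hκ : 0 < κ) : ∃ X₀ : ℕ, ∀ X : ℕ, X₀ ≤ X → ∀ u : ℕ, 1 ≤ u →
    (u : ℝ) ≤ Real.log X ^ B → ∑ p ∈ Ru X u, 1 / (p : ℝ) ≤ κ := by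
  -- choice of H0
  obtain ⟨H0, hH0⟩ := exists_nat_ge (max 2 (Real.exp (8 * B / κ)))
  obtain ⟨X₀, hX₀⟩ := exists_nat_ge (Real.exp (Real.exp (4 * (H0 : ℝ))))
  refine ⟨X₀, fun X hX u hu huX => ?_⟩
  have hXr : Real.exp (Real.exp (4 * (H0 : ℝ))) ≤ X := hX₀.trans (by exact_mod_cast hX)
  have hlogX : Real.exp (4 * (H0 : ℝ)) ≤ Real.log X := by
    have := Real.log_le_log (Real.exp_pos _) hXr
    rwa [Real.log_exp] at this
  have hllX : 4 * (H0 : ℝ) ≤ Real.log (Real.log X) := by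
    have := Real.log_le_log (Real.exp_pos _) hlogX
    rwa [Real.log_exp] at this
  have hHH : H0 ≤ HH X := by
    unfold HH
    apply Nat.le_floor
    linarith
  set H := HH X with hH
  have hH0r : (H0 : ℝ) ≤ H := by exact_mod_cast hHH
  have m1 : (2 : ℝ) ≤ H0 := (le_max_left _ _).trans hH0
  have m3 : Real.exp (8 * B / κ) ≤ H0 := (le_max_right _ _).trans hH0
  have hHr : (2 : ℝ) ≤ H := m1.trans hH0r
  have hllup : Real.log (Real.log X) ≤ 4 * ((H : ℝ) + 1) := by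
    have := Nat.lt_floor_add_one (Real.log (Real.log X) / 4)
    have h2 : ((⌊Real.log (Real.log X) / 4⌋₊ : ℕ) : ℝ) = H := rfl
    rw [h2] at this
    linarith
  have hlogXpos : 0 < Real.log X := lt_of_lt_of_le (Real.exp_pos _) hlogX
  have hB0 : (0 : ℝ) ≤ B := Nat.cast_nonneg B
  have hlogu : Real.log u ≤ B * (4 * ((H : ℝ) + 1)) := by
    have h1 : (0 : ℝ) < u := by exact_mod_cast hu
    have h2 := Real.log_le_log h1 huX
    rw [Real.log_pow] at h2
    exact h2.trans (mul_le_mul_of_nonneg_left hllup hB0)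
  have hc := Pool.Agent.H804R2.PPSm2.count H u (Ru X u) (fun p hp => by
    rw [mem_Ru hu] at hp
    exact ⟨hp.1, hp.2.2, hp.2.1⟩) hu
  have hlog : 0 < Real.log ((H : ℝ) + 1) := Real.log_pos (by linarith)
  have h4 : 8 * B / κ ≤ Real.log ((H : ℝ) + 1) := by
    rw [Real.le_log_iff_exp_le (by linarith)]
    linarith
  rw [div_le_iff₀ hκ] at h4
  have h5 : ∑ p ∈ Ru X u, 1 / (p : ℝ) ≤ (Ru X u).card / (H : ℝ) := by
    rw [div_eq_mul_one_div, ← nsmul_eq_mul, ← sum_const]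
    apply sum_le_sum
    intro p hp
    rw [mem_Ru hu] at hp
    have h6 : (H : ℝ) ≤ p := by exact_mod_cast hp.2.2.le
    exact one_div_le_one_div_of_le (by linarith) h6
  refine h5.trans ?_
  rw [div_le_iff₀ (by linarith)]
  -- |Ru| log (H+1) ≤ 4 B (H+1) ≤ 8 B H ≤ κ log(H+1) H
  have h7 : (Ru X u).card * Real.log ((H : ℝ) + 1) ≤ (κ * H) * Real.log ((H : ℝ) + 1) := by
    calc (Ru X u).card * Real.log ((H : ℝ) + 1) ≤ B * (4 * ((H : ℝ) + 1)) := hc.trans hlogu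
      _ ≤ (8 * B) * H := by nlinarith
      _ ≤ (Real.log ((H : ℝ) + 1) * κ) * H := mul_le_mul_of_nonneg_right h4 (by linarith)
      _ = _ := by ring
  exact le_of_mul_le_mul_right h7 hlog

/-- the prime values at multiples of a prime factor of the leading coefficient -/
theorem exc1 (B : ℕ) : ∃ X₀ : ℕ,
    ∀ X : ℕ, X₀ ≤ X → ∀ q : ℕ, 1 ≤ q → q ≤ X → ∀ f : ℕ × ℕ, IsF q f → (f.1 : ℝ) ≤ Real.log X ^ B →
    (f.2 : ℝ) ≤ Real.log X ^ B → ∀ p ∈ Ru X f.1,
    (((Ico X (2 * X)).filter (fun n => (ff q f n).Prime ∧ p ∣ n)).card : ℝ) ≤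
      4 * (gg f.1 * (X / Real.log X)) * (1 / (p : ℝ)) := by
  obtain ⟨X1, h1⟩ := eqPrimeB 0 0 (2 * B) B (1 / 4) (by norm_num)
  obtain ⟨X2, h2⟩ := pntB 1 B one_pos
  have t1 : Tendsto (fun X : ℕ => Real.log (X : ℝ)) atTop atTop :=
    Real.tendsto_log_atTop.comp tendsto_natCast_atTop_atTop
  obtain ⟨X3, h3⟩ := eventually_atTop.1 (t1.eventually_ge_atTop 1)
  refine ⟨X1 + X2 + X3 + 3, fun X hX q hq hqX f hf hf1 hf2 p hp => ?_⟩
  have hL1 := h3 X (by omega)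
  have hlog0 : 0 < Real.log X := by linarith
  have hX0 : 0 < X := by omega
  have hX0r : (0 : ℝ) < X := by exact_mod_cast hX0
  have hu := hf.1
  have hur : (1 : ℝ) ≤ f.1 := by exact_mod_cast hu
  have hXX : X ≤ f.1 * X := Nat.le_mul_of_pos_left X hu
  have hXXr : (X : ℝ) ≤ ((f.1 * X : ℕ) : ℝ) := by exact_mod_cast hXX
  have hlogle : Real.log X ≤ Real.log ((f.1 * X : ℕ) : ℝ) := Real.log_le_log hX0r hXXr
  have hy1 : 1 ≤ f.2 * q := Nat.mul_pos hf.2.1 hq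
  have hyX : ((f.2 * q : ℕ) : ℝ) ≤ ((f.1 * X : ℕ) : ℝ) * Real.log ((f.1 * X : ℕ) : ℝ) ^ B := by
    push_cast
    have hqr : (q : ℝ) ≤ X := by exact_mod_cast hqX
    have e2 : (f.2 : ℝ) ≤ Real.log ((f.1 : ℝ) * X) ^ B := by
      refine hf2.trans ?_
      have := pow_le_pow_left₀ hlog0.le hlogle B
      push_cast at this
      exact this
    have e3 : (0 : ℝ) ≤ Real.log ((f.1 : ℝ) * X) ^ B := le_trans (Nat.cast_nonneg _) e2
    calc (f.2 : ℝ) * q ≤ Real.log ((f.1 : ℝ) * X) ^ B * X :=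
          mul_le_mul e2 hqr (Nat.cast_nonneg _) e3
      _ ≤ (f.1 * X) * Real.log ((f.1 : ℝ) * X) ^ B := by
          rw [mul_comm]
          apply mul_le_mul_of_nonneg_right _ e3
          nlinarith
  rw [mem_Ru hu] at hp
  obtain ⟨hpp, hpu, hpH⟩ := hp
  have hpu' := Nat.le_of_dvd hu hpu
  have hp0 : (0 : ℝ) < p := by exact_mod_cast hpp.pos
  have hWbig : ((f.1 * p : ℕ) : ℝ) ≤ Real.log ((f.1 * X : ℕ) : ℝ) ^ (2 * B + 1) := by
    push_cast
    have hpr : (p : ℝ) ≤ Real.log X ^ B := le_trans (by exact_mod_cast hpu') hf1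
    calc (f.1 : ℝ) * p ≤ Real.log X ^ B * Real.log X ^ B :=
          mul_le_mul hf1 hpr hp0.le (by positivity)
      _ = Real.log X ^ (2 * B) := by rw [two_mul, pow_add]
      _ ≤ Real.log X ^ (2 * B + 1) := pow_le_pow_right₀ hL1 (by omega)
      _ ≤ _ := by
          have := pow_le_pow_left₀ hlog0.le hlogle (2 * B + 1)
          push_cast at this
          exact this
  have hcop : (0 + f.2 * q).Coprime (f.1 * p) := by
    rw [zero_add]
    apply Nat.Coprime.mul_right hf.2.2.symm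
    exact Nat.Coprime.coprime_dvd_right hpu hf.2.2.symm
  obtain ⟨Er, hE1, hE2⟩ := h1 (f.1 * X) (by omega) (f.1 * p) (Nat.mul_pos hu hpp.pos) hWbig 0
    (Nat.mul_pos hu hpp.pos) (f.2 * q) hy1 hyX hcop ∅ (by simp)
  have hE3 := hE1.2.2 ∅ (by simp) 0 (by simp)
  have hone : (∏ p ∈ (∅ : Finset ℕ), (p : ℝ)) ≤ ((f.1 * X : ℕ) : ℝ) ^ ((1 : ℝ) / 2 - 1 / 4) := by
    rw [prod_empty]
    apply Real.one_le_rpow _ (by norm_num)
    exact_mod_cast (by omega : 1 ≤ f.1 * X)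
  rw [powerset_empty, filter_singleton, if_pos hone, sum_singleton] at hE2
  simp only [card_empty, pow_zero, one_mul, div_one, notMem_empty, IsEmpty.forall_iff,
    implies_true, filter_true, prod_empty] at hE2 hE3
  have hcount : ((Ico X (2 * X)).filter (fun n => (ff q f n).Prime ∧ p ∣ n)).card ≤
      (Spr (Sk (f.1 * X) (f.1 * p) 0) (f.2 * q)).card := by
    apply card_le_card_of_injOn (fun n => f.1 * n)
    · intro n hn
      rw [mem_coe, mem_filter, mem_Ico] at hn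
      rw [mem_coe, mem_Spr, mem_Sk]
      refine ⟨⟨⟨Nat.mul_le_mul_left _ hn.1.1, ?_⟩, ?_⟩, hn.2.1⟩
      · calc f.1 * n < f.1 * (2 * X) := Nat.mul_lt_mul_of_pos_left hn.1.2 hu
          _ = 2 * (f.1 * X) := by ring
      · exact Nat.mod_eq_zero_of_dvd (Nat.mul_dvd_mul_left _ hn.2.2)
    · intro n _ n' _ h
      exact Nat.eq_of_mul_eq_mul_left hu h
  obtain ⟨-, g2⟩ := h2 (f.1 * X) (by omega) (f.2 * q) hyX
  obtain ⟨Q, hQ⟩ : ∃ Q, Q = Pry (f.1 * X) (f.2 * q) := ⟨_, rfl⟩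
  have hQ0 : 0 ≤ Q := by rw [hQ]; unfold Pry; positivity
  rw [← hQ] at g2 hE2 hE3
  have hφ : (Nat.totient (f.1 * p) : ℝ) = p * Nat.totient f.1 := by
    rw [mul_comm f.1 p, Nat.totient_mul_of_prime_of_dvd hpp hpu]
    push_cast
    ring
  have hφ0 : (0 : ℝ) < Nat.totient f.1 := by exact_mod_cast Nat.totient_pos.2 hu
  have hQle : Q ≤ 2 * (f.1 * X) / Real.log X := by
    rw [le_div_iff₀ hlog0]
    have hcast : ((f.1 * X : ℕ) : ℝ) = f.1 * X := by push_cast; ring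
    calc Q * Real.log X ≤ Q * Real.log ((f.1 * X : ℕ) : ℝ) := mul_le_mul_of_nonneg_left hlogle hQ0
      _ = Real.log ((f.1 * X : ℕ) : ℝ) * Q := mul_comm _ _
      _ ≤ (1 + 1) * ((f.1 * X : ℕ) : ℝ) := g2
      _ = _ := by rw [hcast]; norm_num
  have h6 : (((Spr (Sk (f.1 * X) (f.1 * p) 0) (f.2 * q)).card : ℕ) : ℝ) ≤
      2 * (Q / Nat.totient (f.1 * p)) := by
    have := (abs_le.1 hE3).2
    linarith
  calc (((Ico X (2 * X)).filter (fun n => (ff q f n).Prime ∧ p ∣ n)).card : ℝ) ≤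
        (((Spr (Sk (f.1 * X) (f.1 * p) 0) (f.2 * q)).card : ℕ) : ℝ) := by exact_mod_cast hcount
    _ ≤ 2 * (Q / Nat.totient (f.1 * p)) := h6
    _ ≤ 2 * ((2 * (f.1 * X) / Real.log X) / Nat.totient (f.1 * p)) := by
        apply mul_le_mul_of_nonneg_left _ (by norm_num)
        exact div_le_div_of_nonneg_right hQle (Nat.cast_nonneg _)
    _ = 4 * (gg f.1 * (X / Real.log X)) * (1 / (p : ℝ)) := by
        rw [hφ]
        unfold gg
        field_simp
        ring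

open Classical in
/-- the exceptional integers -/
theorem excF (κ : ℝ) (B : ℕ) (hκ : 0 < κ) : ∃ X₀ : ℕ,
    ∀ X : ℕ, X₀ ≤ X → ∀ q : ℕ, 1 ≤ q → q ≤ X → ∀ J : Finset (ℕ × ℕ),
    (∀ f ∈ J, IsF q f ∧ (f.1 : ℝ) ≤ Real.log X ^ B ∧ (f.2 : ℝ) ≤ Real.log X ^ B) →
    (((Ico X (2 * X)).filter (fun n => ∃ f ∈ J, (ff q f n).Prime ∧ ¬ Pf X q f n)).card : ℝ) ≤
      κ * ((∑ f ∈ J, gg f.1) * (X / Real.log X)) := by
  obtain ⟨X1, h1⟩ := exc1 B
  obtain ⟨X2, h2⟩ := sum_Ru (κ / 4) B (by positivity)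
  refine ⟨X1 + X2 + 3, fun X hX q hq hqX J hJ => ?_⟩
  have hlog0 : 0 ≤ Real.log X := Real.log_natCast_nonneg X
  have hsub : (Ico X (2 * X)).filter (fun n => ∃ f ∈ J, (ff q f n).Prime ∧ ¬ Pf X q f n) ⊆
      J.biUnion (fun f => (Ru X f.1).biUnion (fun p =>
        (Ico X (2 * X)).filter (fun n => (ff q f n).Prime ∧ p ∣ n))) := by
    intro n hn
    rw [mem_filter] at hn
    obtain ⟨hn1, f, hf, hn2, hn3⟩ := hn
    rw [mem_biUnion]
    refine ⟨f, hf, ?_⟩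
    rw [mem_biUnion]
    unfold Pf at hn3
    push Not at hn3
    obtain ⟨p, g1, g2, g3, g4⟩ := hn3 hn2
    exact ⟨p, (mem_Ru (hJ f hf).1.1).2 ⟨g1, g2, g3⟩, mem_filter.2 ⟨hn1, hn2, g4⟩⟩
  calc (((Ico X (2 * X)).filter (fun n => ∃ f ∈ J, (ff q f n).Prime ∧ ¬ Pf X q f n)).card : ℝ)
      ≤ ∑ f ∈ J, ∑ p ∈ Ru X f.1,
        (((Ico X (2 * X)).filter (fun n => (ff q f n).Prime ∧ p ∣ n)).card : ℝ) := by
        have h3 := (card_le_card hsub).trans card_biUnion_le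
        have h4 : ∀ f ∈ J, ((Ru X f.1).biUnion (fun p =>
            (Ico X (2 * X)).filter (fun n => (ff q f n).Prime ∧ p ∣ n))).card ≤
            ∑ p ∈ Ru X f.1, ((Ico X (2 * X)).filter (fun n => (ff q f n).Prime ∧ p ∣ n)).card :=
          fun f _ => card_biUnion_le
        have h5 := h3.trans (sum_le_sum h4)
        exact_mod_cast h5
    _ ≤ ∑ f ∈ J, ∑ p ∈ Ru X f.1, 4 * (gg f.1 * (X / Real.log X)) * (1 / (p : ℝ)) := by
        apply sum_le_sum
        intro f hf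
        apply sum_le_sum
        intro p hp
        obtain ⟨g1, g2, g3⟩ := hJ f hf
        exact h1 X (by omega) q hq hqX f g1 g2 g3 p hp
    _ = ∑ f ∈ J, 4 * (gg f.1 * (X / Real.log X)) * ∑ p ∈ Ru X f.1, (1 / (p : ℝ)) := by
        apply sum_congr rfl
        intro f _
        rw [mul_sum]
    _ ≤ ∑ f ∈ J, 4 * (gg f.1 * (X / Real.log X)) * (κ / 4) := by
        apply sum_le_sum
        intro f hf
        obtain ⟨g1, g2, g3⟩ := hJ f hf
        have := gg_nonneg f.1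
        exact mul_le_mul_of_nonneg_left (h2 X (by omega) f.1 g1.1 g2) (by positivity)
    _ = _ := by
        rw [sum_mul, mul_sum]
        apply sum_congr rfl
        intro f _
        ring

end Pool.Agent.H533.GE
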