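import Pool.Agent.H533.GE.Zf

/-!
Moments of `n / φ(n)` over arithmetic progressions, and families of positions `T + a G`.
-/

set_option autoImplicit false

open Finset Filter Topology

namespace Pool.Agent.H533.GE

open Pool.Agent.H361R2.PP
open Pool.Agent.H533.QM
open Pool.Agent.H533.QS
open Pool.Agent.H533.QA

theorem card_lin (u N d : ℕ) (D h : ℤ) (hd : 0 < d) (hc : IsCoprime (d : ℤ) h) :
    (((Ioc u (u + N)).filter (fun a : ℕ => d ∣ (D + a * h).natAbs)).card : ℝ) ≤ N / d + 1 := by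
  have h1 : ((Ioc u (u + N)).filter (fun a : ℕ => d ∣ (D + a * h).natAbs)).card ≤ N / d + 1 := by
    have h2 : ((Ioc u (u + N)).filter (fun a : ℕ => d ∣ (D + a * h).natAbs)).card ≤
        (range (N / d + 1)).card := by
      apply card_le_card_of_injOn (fun a => (a - u - 1) / d)
      · intro a ha
        rw [mem_coe, mem_filter, mem_Ioc] at ha
        rw [mem_coe, mem_range]
        apply Nat.lt_succ_of_le
        exact Nat.div_le_div_right (by omega)
      · intro a ha b hb e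
        rw [mem_coe, mem_filter, mem_Ioc] at ha hb
        have e' : (a - u - 1) / d = (b - u - 1) / d := e
        have ha2 : (d : ℤ) ∣ D + a * h := Int.natCast_dvd.2 ha.2
        have hb2 : (d : ℤ) ∣ D + b * h := Int.natCast_dvd.2 hb.2
        have h3 : (d : ℤ) ∣ ((a : ℤ) - b) * h := by
          have := dvd_sub ha2 hb2
          have e2 : (D + a * h) - (D + b * h) = ((a : ℤ) - b) * h := by ring
          rwa [e2] at this
        have h4 : (d : ℤ) ∣ (a : ℤ) - b := hc.dvd_of_dvd_mul_right h3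
        have g1 := Nat.div_add_mod (a - u - 1) d
        have g2 := Nat.div_add_mod (b - u - 1) d
        have g3 := Nat.mod_lt (a - u - 1) hd
        have g4 := Nat.mod_lt (b - u - 1) hd
        rw [e'] at g1
        have h5 : ((a : ℤ) - b).natAbs < d := by
          generalize d * ((b - u - 1) / d) = t at g1 g2
          omega
        have h6 : (a : ℤ) - b = 0 := by
          apply Int.eq_zero_of_dvd_of_natAbs_lt_natAbs h4
          rw [Int.natAbs_natCast]
          exact h5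
        omega
    rwa [card_range] at h2
  calc (((Ioc u (u + N)).filter (fun a : ℕ => d ∣ (D + a * h).natAbs)).card : ℝ) ≤
        ((N / d + 1 : ℕ) : ℝ) := by exact_mod_cast h1
    _ ≤ _ := by
        push_cast
        have := Nat.cast_div_le (α := ℝ) (m := N) (n := d)
        linarith

theorem gg_zero : gg 0 = 0 := by
  unfold gg
  simp

theorem one_le_gg' {n : ℕ} (hn : 1 ≤ n) : 1 ≤ gg n :=
  (ww_ge_one 0 1 n).trans (ww_le hn)

open Classical in
/-- the moments of `n / φ(n)` in arithmetic progressions -/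
theorem gmomL0 (k : ℕ) : ∃ C : ℝ, 1 ≤ C ∧ ∀ X : ℕ, 3 ≤ X → ∀ (D h : ℤ) (u N : ℕ), h ≠ 0 →
    (∀ a ∈ Ioc u (u + N), 1 ≤ (D + a * h).natAbs →
      ∑ p ∈ Ru X (D + a * h).natAbs, 1 / (p : ℝ) ≤ 1 / 2) →
    ∑ a ∈ Ioc u (u + N), gg (D + a * h).natAbs ^ k ≤
      C * gg h.natAbs ^ k * (N + Real.log X) := by
  obtain ⟨Dk, hDk⟩ : ∃ Dk : ℕ, Dk = 2 ^ (k + 1) := ⟨_, rfl⟩
  have hDr : (Dk : ℝ) = 2 ^ (k + 1) := by rw [hDk]; push_cast; rfl
  obtain ⟨E2, hE2, h2⟩ := prod_small Dk
  refine ⟨2 ^ k * (Real.exp (2 ^ (k + 1) * ∑' n : ℕ, 1 / (n : ℝ) ^ 2) + E2), ?_,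
    fun X hX D h u N hh h1 => ?_⟩
  · have h1 : (1 : ℝ) ≤ 2 ^ k := one_le_pow₀ (by norm_num)
    have h2 : 1 ≤ Real.exp (2 ^ (k + 1) * ∑' n : ℕ, 1 / (n : ℝ) ^ 2) := by
      apply Real.one_le_exp
      apply mul_nonneg (by positivity)
      exact tsum_nonneg fun n => by positivity
    nlinarith
  have hlog : 0 ≤ Real.log X := Real.log_natCast_nonneg X
  have hh1 : 1 ≤ h.natAbs := by omega
  have hgh : 1 ≤ gg h.natAbs := one_le_gg' hh1
  obtain ⟨P, hP⟩ : ∃ P, P = (Sm X 1).filter (fun p => ¬ p ∣ h.natAbs) := ⟨_, rfl⟩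
  have hPp : ∀ p ∈ P, p.Prime := fun p hp => by
    rw [hP, mem_filter, mem_Sm] at hp; exact hp.1.2.1
  have hPh : ∀ p ∈ P, ¬ p ∣ h.natAbs := fun p hp => by
    rw [hP, mem_filter] at hp; exact hp.2
  -- pointwise bound
  have h3 : ∀ a ∈ Ioc u (u + N), gg (D + a * h).natAbs ^ k ≤
      (2 ^ k * gg h.natAbs ^ k) * ∑ s ∈ P.powerset,
      if (∏ p ∈ s, p) ∣ (D + a * h).natAbs then ∏ p ∈ s, ((Dk : ℝ) / p) else 0 := by
    intro a ha
    obtain ⟨n, hn⟩ : ∃ n, n = (D + a * h).natAbs := ⟨_, rfl⟩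
    have h1a := h1 a ha
    rw [← hn] at h1a ⊢
    have hc1 : (1 : ℝ) ≤ 2 ^ k * gg h.natAbs ^ k := by
      have a1 : (1 : ℝ) ≤ 2 ^ k := one_le_pow₀ (by norm_num)
      have a2 : (1 : ℝ) ≤ gg h.natAbs ^ k := one_le_pow₀ hgh
      nlinarith
    rcases Nat.eq_zero_or_pos n with hn0 | hn1
    · rw [hn0, gg_zero]
      have h4 : (0 : ℝ) ^ k ≤ 1 := pow_le_one₀ le_rfl zero_le_one
      have h5 : (1 : ℝ) ≤ ∑ s ∈ P.powerset,
          if (∏ p ∈ s, p) ∣ 0 then ∏ p ∈ s, ((Dk : ℝ) / p) else 0 := by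
        calc (1 : ℝ) = if (∏ p ∈ (∅ : Finset ℕ), p) ∣ 0 then
              ∏ p ∈ (∅ : Finset ℕ), ((Dk : ℝ) / p) else 0 := by simp
          _ ≤ _ := by
              apply single_le_sum (f := fun s : Finset ℕ =>
                if (∏ p ∈ s, p) ∣ 0 then ∏ p ∈ s, ((Dk : ℝ) / p) else 0)
              · intro s _
                split_ifs
                · exact prod_nonneg fun p _ => by positivity
                · exact le_rfl
              · exact empty_mem_powerset _
      nlinarith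
    have h4 := le_ww (X := X) (q := 1) (f := (n, 1)) ⟨hn1, le_rfl, Nat.coprime_one_right _⟩
      (h1a hn1)
    have h4' : gg n ≤ 2 * ww X 1 n := h4
    have h5 : ww X 1 n ≤ gg h.natAbs * ∏ p ∈ P, lf p n := by
      have h6 : ww X 1 n ≤ ww X 1 h.natAbs * ∏ p ∈ P, lf p n := by
        unfold ww
        rw [hP, prod_filter, ← prod_mul_distrib]
        apply Finset.prod_le_prod
        · intro p hp
          rw [mem_Sm] at hp
          exact zero_le_one.trans (lf_ge hp.2.1)
        · intro p hp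
          rw [mem_Sm] at hp
          have g1 := lf_ge (n := n) hp.2.1
          have g2 := lf_ge (n := h.natAbs) hp.2.1
          by_cases g3 : p ∣ h.natAbs
          · rw [if_neg (not_not.2 g3), mul_one]
            unfold lf
            rw [if_pos g3]
            split_ifs
            · exact le_rfl
            · unfold lf at g2
              rw [if_pos g3] at g2
              exact g2
          · rw [if_pos g3]
            exact le_mul_of_one_le_left (by linarith) g2
      refine h6.trans ?_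
      apply mul_le_mul_of_nonneg_right (ww_le hh1)
      apply prod_nonneg
      intro p hp
      exact zero_le_one.trans (lf_ge (hPp p hp))
    have h6 : gg n ≤ 2 * gg h.natAbs * ∏ p ∈ P, lf p n := by
      calc gg n ≤ 2 * ww X 1 n := h4'
        _ ≤ 2 * (gg h.natAbs * ∏ p ∈ P, lf p n) := by linarith
        _ = _ := by ring
    refine (pow_le_pow_left₀ (gg_nonneg n) h6 k).trans ?_
    rw [mul_pow, mul_pow]
    apply mul_le_mul_of_nonneg_left _ (by positivity)
    unfold lf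
    rw [← prod_pow]
    calc ∏ p ∈ P, (if p ∣ n then (1 - 1 / (p : ℝ))⁻¹ else 1) ^ k
        = ∏ p ∈ P.filter (fun p => p ∣ n), ((1 - 1 / (p : ℝ))⁻¹) ^ k := by
          rw [prod_filter]
          apply prod_congr rfl
          intro p _
          split_ifs
          · rfl
          · rw [one_pow]
      _ ≤ ∏ p ∈ P.filter (fun p => p ∣ n), (1 + (Dk : ℝ) / p) := by
          apply Finset.prod_le_prod
          · intro p hp
            have := one_sub_pos (hPp p (mem_filter.1 hp).1)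
            positivity
          · intro p hp
            rw [hDr]
            exact loc_pow k (hPp p (mem_filter.1 hp).1)
      _ = ∑ s ∈ (P.filter (fun p => p ∣ n)).powerset, ∏ p ∈ s, ((Dk : ℝ) / p) := by
          rw [prod_one_add]
      _ = ∑ s ∈ P.powerset.filter (fun s => (∏ p ∈ s, p) ∣ n), ∏ p ∈ s, ((Dk : ℝ) / p) := by
          apply sum_congr _ (fun _ _ => rfl)
          ext s
          rw [mem_powerset, mem_filter, mem_powerset]
          constructor
          · intro hs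
            refine ⟨hs.trans (filter_subset _ _), ?_⟩
            apply Finset.prod_primes_dvd
            · intro p hp
              exact (hPp p ((filter_subset _ _) (hs hp))).prime
            · intro p hp
              exact (mem_filter.1 (hs hp)).2
          · rintro ⟨hs, hd⟩ p hp
            exact mem_filter.2 ⟨hs hp, (dvd_prod_of_mem _ hp).trans hd⟩
      _ = _ := by rw [sum_filter]
  have h5 : ∀ s ∈ P.powerset, ∑ a ∈ Ioc u (u + N),
      (if (∏ p ∈ s, p) ∣ (D + a * h).natAbs then ∏ p ∈ s, ((Dk : ℝ) / p) else 0) ≤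
      N * ∏ p ∈ s, ((Dk : ℝ) / p / p) + ∏ p ∈ s, ((Dk : ℝ) / p) := by
    intro s hs
    rw [mem_powerset] at hs
    have hpos : 0 < ∏ p ∈ s, p := prod_pos fun p hp => (hPp p (hs hp)).pos
    have hcop : IsCoprime ((∏ p ∈ s, p : ℕ) : ℤ) h := by
      rw [Int.isCoprime_iff_nat_coprime, Int.natAbs_natCast]
      apply Nat.Coprime.prod_left
      intro p hp
      exact ((hPp p (hs hp)).coprime_iff_not_dvd).2 (hPh p (hs hp))
    have h4 := card_lin u N (∏ p ∈ s, p) D h hpos hcop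
    rw [← sum_filter, sum_const, nsmul_eq_mul,
      prod_div_distrib (f := fun p : ℕ => ((Dk : ℝ) / (p : ℝ)))]
    have h6 : (0 : ℝ) ≤ ∏ p ∈ s, ((Dk : ℝ) / p) := prod_nonneg fun p _ => by positivity
    push_cast at h4
    calc _ ≤ ((N : ℝ) / ∏ p ∈ s, (p : ℝ) + 1) * ∏ p ∈ s, ((Dk : ℝ) / p) :=
          mul_le_mul_of_nonneg_right h4 h6
      _ = _ := by ring
  have hg0 : 0 ≤ gg h.natAbs ^ k := by positivity
  have h6 : ∑ a ∈ Ioc u (u + N), gg (D + a * h).natAbs ^ k ≤
      2 ^ k * gg h.natAbs ^ k * (N * ∏ p ∈ P, (1 + (Dk : ℝ) / p / p) +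
      ∏ p ∈ P, (1 + (Dk : ℝ) / p)) := by
    calc ∑ a ∈ Ioc u (u + N), gg (D + a * h).natAbs ^ k ≤ ∑ a ∈ Ioc u (u + N),
          2 ^ k * gg h.natAbs ^ k * ∑ s ∈ P.powerset,
        (if (∏ p ∈ s, p) ∣ (D + a * h).natAbs then ∏ p ∈ s, ((Dk : ℝ) / p) else 0) := sum_le_sum h3
      _ = 2 ^ k * gg h.natAbs ^ k * ∑ s ∈ P.powerset, ∑ a ∈ Ioc u (u + N),
        (if (∏ p ∈ s, p) ∣ (D + a * h).natAbs then ∏ p ∈ s, ((Dk : ℝ) / p) else 0) := by
          rw [← mul_sum, sum_comm]
      _ ≤ 2 ^ k * gg h.natAbs ^ k * ∑ s ∈ P.powerset, (N * ∏ p ∈ s, ((Dk : ℝ) / p / p) +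
          ∏ p ∈ s, ((Dk : ℝ) / p)) := mul_le_mul_of_nonneg_left (sum_le_sum h5) (by positivity)
      _ = _ := by rw [sum_add_distrib, ← mul_sum, prod_one_add, prod_one_add]
  have h7 : ∏ p ∈ P, (1 + (Dk : ℝ) / p / p) ≤
      Real.exp (2 ^ (k + 1) * ∑' n : ℕ, 1 / (n : ℝ) ^ 2) := by
    calc ∏ p ∈ P, (1 + (Dk : ℝ) / p / p) ≤ Real.exp (∑ p ∈ P, (Dk : ℝ) / p / p) := by
          rw [Real.exp_sum]
          apply Finset.prod_le_prod
          · intro p _; positivity
          · intro p _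
            have := Real.add_one_le_exp ((Dk : ℝ) / p / p)
            linarith
      _ ≤ _ := by
          apply Real.exp_le_exp.2
          have e : ∑ p ∈ P, (Dk : ℝ) / p / p = 2 ^ (k + 1) * ∑ p ∈ P, 1 / (p : ℝ) ^ 2 := by
            rw [mul_sum, hDr]
            apply sum_congr rfl
            intro p _
            rw [div_div, sq]
            ring
          rw [e]
          apply mul_le_mul_of_nonneg_left _ (by positivity)
          exact Summable.sum_le_tsum P (fun _ _ => by positivity)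
            (Real.summable_one_div_nat_pow.2 (by norm_num))
  have h8 : ∏ p ∈ P, (1 + (Dk : ℝ) / p) ≤ E2 * Real.log X := by
    refine le_trans ?_ (h2 X hX)
    apply prod_le_prod_of_subset_of_one_le
    · rw [hP]; exact filter_subset _ _
    · intro p _; positivity
    · intro p _ _
      have : (0 : ℝ) ≤ (Dk : ℝ) / p := by positivity
      linarith
  obtain ⟨E, hE⟩ : ∃ E : ℝ, E = Real.exp (2 ^ (k + 1) * ∑' n : ℕ, 1 / (n : ℝ) ^ 2) := ⟨_, rfl⟩
  rw [← hE] at h7 ⊢
  have hE1 : 1 ≤ E := by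
    rw [hE]
    apply Real.one_le_exp
    apply mul_nonneg (by positivity)
    exact tsum_nonneg fun n => by positivity
  calc _ ≤ 2 ^ k * gg h.natAbs ^ k * (N * ∏ p ∈ P, (1 + (Dk : ℝ) / p / p) +
        ∏ p ∈ P, (1 + (Dk : ℝ) / p)) := h6
    _ ≤ 2 ^ k * gg h.natAbs ^ k * ((E + E2) * (N + Real.log X)) := by
        apply mul_le_mul_of_nonneg_left _ (by positivity)
        have h9 : (N : ℝ) * ∏ p ∈ P, (1 + (Dk : ℝ) / p / p) ≤ N * E :=
          mul_le_mul_of_nonneg_left h7 (Nat.cast_nonneg _)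
        have h10 : 0 ≤ E * Real.log X := mul_nonneg (by linarith) hlog
        have h11 : 0 ≤ E2 * (N : ℝ) := mul_nonneg (by linarith) (Nat.cast_nonneg _)
        nlinarith
    _ = _ := by ring

/-- the moments of `n / φ(n)` in arithmetic progressions -/
theorem gmomL : ∃ C : ℕ → ℝ, (∀ k, 1 ≤ C k) ∧ ∀ B : ℕ, ∃ X₀ : ℕ, ∀ X : ℕ, X₀ ≤ X →
    ∀ (D h : ℤ) (u N : ℕ), h ≠ 0 →
    (∀ a ∈ Ioc u (u + N), (((D + a * h).natAbs : ℕ) : ℝ) ≤ Real.log X ^ B) → ∀ k : ℕ,
    ∑ a ∈ Ioc u (u + N), gg (D + a * h).natAbs ^ k ≤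
      C k * gg h.natAbs ^ k * (N + Real.log X) := by
  choose C hC h using gmomL0
  refine ⟨C, hC, fun B => ?_⟩
  obtain ⟨X1, h1⟩ := sum_Ru (1 / 2) B (by norm_num)
  refine ⟨X1 + 3, fun X hX D g u N hg hB k => h k X (by omega) D g u N hg fun a ha hn => ?_⟩
  exact h1 X (by omega) _ hn (hB a ha)

/-- the positions `T + a G` -/
def TG (T G : ℕ → ℤ) (a : ℕ) (n : ℕ) : ℤ := T n + a * G n

open Classical in
/-- **almost all members of a family of positions have bounded moments** -/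
theorem fam (C : ℕ → ℝ) (Λ η : ℝ) (hΛ : 0 < Λ) (hη : 0 < η) :
    ∃ C' : ℕ → ℝ, ∃ K₀ : ℝ, 0 < K₀ ∧ ∀ B : ℕ, ∃ x₀ : ℕ, ∀ x : ℕ, x₀ ≤ x → ∀ (T G : ℕ → ℤ)
    (J : Finset ℕ) (u N : ℕ), K₀ * Real.log x ^ 2 ≤ N →
    (∀ n ∈ J, ∀ a ∈ Ioc u (u + N), (((TG T G a n).natAbs : ℕ) : ℝ) ≤ Real.log x ^ B) →
    MomZ C Λ (Real.log x) G J →
    (((Ioc u (u + N)).filter (fun a => ¬ MomZ C' Λ (Real.log x) (TG T G a) J)).card : ℝ) ≤
      η * N := by
  obtain ⟨Cg, hCg, H⟩ := gmomL
  obtain ⟨C', hC'⟩ : ∃ C' : ℕ → ℝ, ∀ K, C' K = 2 ^ (K + 2) * (Cg K * 2 * (|C K| + 1)) / η :=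
    ⟨_, fun _ => rfl⟩
  refine ⟨C', 2 * Λ ^ 2 / η + 1, by positivity, fun B => ?_⟩
  obtain ⟨X1, h1⟩ := H (B + 1)
  have t1 : Tendsto (fun X : ℕ => Real.log (X : ℝ)) atTop atTop :=
    Real.tendsto_log_atTop.comp tendsto_natCast_atTop_atTop
  obtain ⟨X2, h2⟩ := eventually_atTop.1 (t1.eventually_ge_atTop 2)
  refine ⟨X1 + X2, fun x hx T G J u N hN hB hG => ?_⟩
  have hL := h2 x (by omega)
  obtain ⟨L, hLd⟩ : ∃ L, L = Real.log x := ⟨_, rfl⟩
  have hH := h1 x (by omega)
  rw [← hLd] at hL hN hB hG hH ⊢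
  have hL0 : 0 < L := by linarith
  have hN0 : (0 : ℝ) < N := lt_of_lt_of_le (by positivity) hN
  have hLN : L ≤ N := by
    have h3 : 1 * (L * L) ≤ (2 * Λ ^ 2 / η + 1) * L ^ 2 := by
      have : 0 ≤ 2 * Λ ^ 2 / η := by positivity
      nlinarith [mul_nonneg this (sq_nonneg L)]
    nlinarith
  -- not injective
  obtain ⟨A1, hA1⟩ : ∃ A1, A1 = (Ioc u (u + N)).filter
    (fun a => ¬ Set.InjOn (TG T G a) (J : Set ℕ)) := ⟨_, rfl⟩
  have hA1c : (A1.card : ℝ) ≤ η / 2 * N := by
    have h3 : A1 ⊆ J.offDiag.biUnion (fun q => (Ioc u (u + N)).filter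
        (fun a => TG T G a q.1 = TG T G a q.2)) := by
      intro a ha
      rw [hA1, mem_filter] at ha
      obtain ⟨ha1, ha2⟩ := ha
      unfold Set.InjOn at ha2
      push Not at ha2
      obtain ⟨i, hi, j, hj, e, hne⟩ := ha2
      rw [mem_biUnion]
      exact ⟨(i, j), mem_offDiag.2 ⟨hi, hj, hne⟩, mem_filter.2 ⟨ha1, e⟩⟩
    have h4 := (card_le_card h3).trans card_biUnion_le
    have h5 : ∀ q ∈ J.offDiag, ((Ioc u (u + N)).filter
        (fun a => TG T G a q.1 = TG T G a q.2)).card ≤ 1 := by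
      intro q hq
      rw [mem_offDiag] at hq
      rw [card_le_one]
      intro a ha b hb
      rw [mem_filter] at ha hb
      have e1 := ha.2
      have e2 := hb.2
      unfold TG at e1 e2
      have hne : G q.1 ≠ G q.2 := fun h => hq.2.2 (hG.2.1 hq.1 hq.2.1 h)
      have h6 : ((a : ℤ) - b) * (G q.1 - G q.2) = 0 := by linarith
      rcases mul_eq_zero.1 h6 with h7 | h7
      · omega
      · exact absurd (by linarith) hne
    have h6 : A1.card ≤ J.card * J.card := by
      refine h4.trans ?_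
      calc ∑ q ∈ J.offDiag, ((Ioc u (u + N)).filter
            (fun a => TG T G a q.1 = TG T G a q.2)).card ≤ ∑ _q ∈ J.offDiag, 1 := sum_le_sum h5
        _ = J.offDiag.card := by simp
        _ ≤ _ := by
            rw [offDiag_card]
            exact Nat.sub_le _ _
    have h7 : (A1.card : ℝ) ≤ (Λ * L) * (Λ * L) := by
      calc (A1.card : ℝ) ≤ (J.card : ℝ) * J.card := by exact_mod_cast h6
        _ ≤ _ := mul_le_mul hG.1 hG.1 (Nat.cast_nonneg _) (by positivity)
    refine h7.trans ?_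
    calc (Λ * L) * (Λ * L) = η / 2 * (2 * Λ ^ 2 / η * L ^ 2) := by field_simp
      _ ≤ η / 2 * ((2 * Λ ^ 2 / η + 1) * L ^ 2) := by
          apply mul_le_mul_of_nonneg_left _ (by positivity)
          nlinarith [sq_nonneg L]
      _ ≤ _ := mul_le_mul_of_nonneg_left hN (by positivity)
  -- the moments
  obtain ⟨S, hS⟩ : ∃ S : ℕ → ℕ → ℝ, ∀ a K, S a K =
    ∑ q ∈ J.offDiag, gg (TG T G a q.1 - TG T G a q.2).natAbs ^ K := ⟨_, fun _ _ => rfl⟩
  have hS0 : ∀ a K, 0 ≤ S a K := fun a K => by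
    rw [hS]
    exact sum_nonneg fun q _ => pow_nonneg (gg_nonneg _) _
  have hsum : ∀ K, ∑ a ∈ Ioc u (u + N), S a K ≤ Cg K * 2 * (|C K| + 1) * L ^ 2 * N := by
    intro K
    simp only [hS]
    rw [sum_comm]
    have h3 : ∀ q ∈ J.offDiag, ∑ a ∈ Ioc u (u + N),
        gg (TG T G a q.1 - TG T G a q.2).natAbs ^ K ≤
        Cg K * gg (G q.1 - G q.2).natAbs ^ K * (N + L) := by
      intro q hq
      rw [mem_offDiag] at hq
      have hne : G q.1 - G q.2 ≠ 0 := fun h => hq.2.2 (hG.2.1 hq.1 hq.2.1 (by linarith))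
      have h4 := hH (T q.1 - T q.2) (G q.1 - G q.2) u N hne (by
        intro a ha
        have b1 := hB q.1 hq.1 a ha
        have b2 := hB q.2 hq.2.1 a ha
        have e : (T q.1 - T q.2 + a * (G q.1 - G q.2)).natAbs ≤
            (TG T G a q.1).natAbs + (TG T G a q.2).natAbs := by
          have e1 : T q.1 - T q.2 + a * (G q.1 - G q.2) = TG T G a q.1 - TG T G a q.2 := by
            unfold TG
            ring
          rw [e1]
          exact Int.natAbs_sub_le _ _
        calc (((T q.1 - T q.2 + a * (G q.1 - G q.2)).natAbs : ℕ) : ℝ) ≤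
              ((TG T G a q.1).natAbs : ℝ) + ((TG T G a q.2).natAbs : ℝ) := by exact_mod_cast e
          _ ≤ L ^ B + L ^ B := add_le_add b1 b2
          _ ≤ L ^ (B + 1) := by
              rw [pow_succ]
              have : 0 ≤ L ^ B := by positivity
              nlinarith) K
      refine le_trans (le_of_eq ?_) h4
      apply sum_congr rfl
      intro a _
      have e1 : T q.1 - T q.2 + a * (G q.1 - G q.2) = TG T G a q.1 - TG T G a q.2 := by
        unfold TG
        ring
      rw [e1]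
    refine (sum_le_sum h3).trans ?_
    rw [← sum_mul, ← mul_sum]
    have h4 := hG.2.2 K
    have h5 : C K * L ^ 2 ≤ (|C K| + 1) * L ^ 2 := by
      apply mul_le_mul_of_nonneg_right _ (by positivity)
      linarith [le_abs_self (C K)]
    have hCg0 : 0 ≤ Cg K := by linarith [hCg K]
    calc Cg K * (∑ q ∈ J.offDiag, gg (G q.1 - G q.2).natAbs ^ K) * (N + L) ≤
          Cg K * ((|C K| + 1) * L ^ 2) * (N + N) := by
          apply mul_le_mul
          · exact mul_le_mul_of_nonneg_left (h4.trans h5) hCg0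
          · linarith
          · positivity
          · positivity
      _ = _ := by ring
  obtain ⟨A2, hA2⟩ : ∃ A2 : ℕ → Finset ℕ, ∀ K, A2 K = (Ioc u (u + N)).filter
    (fun a => C' K * L ^ 2 < S a K) := ⟨_, fun _ => rfl⟩
  have hA2c : ∀ K, ((A2 K).card : ℝ) ≤ η * N / 2 ^ (K + 2) := by
    intro K
    have hCg0 : 1 ≤ Cg K := hCg K
    have hD : 0 < Cg K * 2 * (|C K| + 1) := by positivity
    have h3 : ((A2 K).card : ℝ) * (C' K * L ^ 2) ≤ Cg K * 2 * (|C K| + 1) * L ^ 2 * N := by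
      refine le_trans ?_ (hsum K)
      rw [← nsmul_eq_mul, ← sum_const]
      calc ∑ _a ∈ A2 K, C' K * L ^ 2 ≤ ∑ a ∈ A2 K, S a K := by
            apply sum_le_sum
            intro a ha
            rw [hA2, mem_filter] at ha
            exact ha.2.le
        _ ≤ _ := by
            apply sum_le_sum_of_subset_of_nonneg
            · rw [hA2]; exact filter_subset _ _
            · intro a _ _
              exact hS0 a K
    rw [hC' K] at h3
    have h4 : ((A2 K).card : ℝ) * 2 ^ (K + 2) * ((Cg K * 2 * (|C K| + 1)) * L ^ 2) ≤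
        η * N * ((Cg K * 2 * (|C K| + 1)) * L ^ 2) := by
      calc ((A2 K).card : ℝ) * 2 ^ (K + 2) * ((Cg K * 2 * (|C K| + 1)) * L ^ 2) =
            η * (((A2 K).card : ℝ) * (2 ^ (K + 2) * (Cg K * 2 * (|C K| + 1)) / η * L ^ 2)) := by
            field_simp
        _ ≤ η * (Cg K * 2 * (|C K| + 1) * L ^ 2 * N) := mul_le_mul_of_nonneg_left h3 hη.le
        _ = _ := by ring
    have h5 := le_of_mul_le_mul_right h4 (by positivity)
    rw [le_div_iff₀ (by positivity)]
    exact h5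
  -- the union
  obtain ⟨Bd, hBd⟩ : ∃ Bd, Bd = (Ioc u (u + N)).filter
    (fun a => ¬ MomZ C' Λ L (TG T G a) J) := ⟨_, rfl⟩
  rw [← hBd]
  have hbad : ∀ a ∈ Bd, a ∉ A1 → ∃ K, a ∈ A2 K := by
    intro a ha ha1
    rw [hBd, mem_filter] at ha
    by_contra hcon
    push Not at hcon
    apply ha.2
    refine ⟨hG.1, ?_, fun K => ?_⟩
    · by_contra h3
      exact ha1 (by rw [hA1, mem_filter]; exact ⟨ha.1, h3⟩)
    · have h3 := hcon K
      rw [hA2, mem_filter] at h3
      push Not at h3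
      have h4 := h3 ha.1
      rw [hS] at h4
      exact h4
  obtain ⟨f, hf⟩ : ∃ f : ℕ → ℕ, ∀ a ∈ Bd, a ∉ A1 → a ∈ A2 (f a) := by
    refine ⟨fun a => if h : ∃ K, a ∈ A2 K then h.choose else 0, fun a ha ha1 => ?_⟩
    have h3 := hbad a ha ha1
    simp only [dif_pos h3]
    exact h3.choose_spec
  obtain ⟨Km, hKm⟩ : ∃ Km, ∀ a ∈ Bd, f a < Km := by
    refine ⟨Bd.sup f + 1, fun a ha => ?_⟩
    exact Nat.lt_succ_of_le (le_sup ha)
  have hcov : Bd ⊆ A1 ∪ (range Km).biUnion A2 := by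
    intro a ha
    rw [mem_union, mem_biUnion]
    by_cases h3 : a ∈ A1
    · exact Or.inl h3
    · exact Or.inr ⟨f a, mem_range.2 (hKm a ha), hf a ha h3⟩
  have h3 : (Bd.card : ℝ) ≤ A1.card + ∑ K ∈ range Km, ((A2 K).card : ℝ) := by
    have h4 := (card_le_card hcov).trans (card_union_le _ _)
    have h5 := h4.trans (Nat.add_le_add_left card_biUnion_le _)
    exact_mod_cast h5
  have h4 : ∑ K ∈ range Km, ((A2 K).card : ℝ) ≤ η * N / 2 := by
    calc ∑ K ∈ range Km, ((A2 K).card : ℝ) ≤ ∑ K ∈ range Km, η * N / 2 ^ (K + 2) :=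
          sum_le_sum fun K _ => hA2c K
      _ = η * N / 4 * ∑ K ∈ range Km, (1 / 2 : ℝ) ^ K := by
          rw [mul_sum]
          apply sum_congr rfl
          intro K _
          rw [pow_add, one_div, inv_pow]
          field_simp
          ring
      _ ≤ η * N / 4 * 2 := by
          apply mul_le_mul_of_nonneg_left _ (by positivity)
          exact sum_geometric_two_le Km
      _ = _ := by ring
  linarith

end Pool.Agent.H533.GE
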