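import Pool.Agent.H533.GE.Fam
import Pool.Agent.H533.QA.Gold3

/-!
The numbers `p_n + 2 P(n)`, `P = Q + a R + c`, for almost all `a`.
-/

set_option autoImplicit false

open Finset Filter Topology

namespace Pool.Agent.H533.GE

open Pool.Agent.H533.QM
open Pool.Agent.H533.QS
open Pool.Agent.H533.QA

theorem gg_two : gg 2 = 2 := by
  unfold gg
  simp

theorem momZ_two {C : ℕ → ℝ} {Λ L : ℝ} {R : ℕ → ℤ} {J : Finset ℕ} (h : MomZ C Λ L R J) :
    MomZ (fun K => 2 ^ K * C K) Λ L (fun n => 2 * R n) J := by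
  obtain ⟨h1, h2, h3⟩ := h
  refine ⟨h1, fun a ha b hb e => h2 ha hb ?_, fun K => ?_⟩
  · have e' : 2 * R a = 2 * R b := e
    omega
  · calc ∑ q ∈ J.offDiag, gg (2 * R q.1 - 2 * R q.2).natAbs ^ K ≤
          ∑ q ∈ J.offDiag, 2 ^ K * gg (R q.1 - R q.2).natAbs ^ K := by
          apply sum_le_sum
          intro q hq
          rw [mem_offDiag] at hq
          have hne : R q.1 ≠ R q.2 := fun e => hq.2.2 (h2 hq.1 hq.2.1 e)
          have e1 : (2 * R q.1 - 2 * R q.2).natAbs = 2 * (R q.1 - R q.2).natAbs := by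
            rw [← mul_sub, Int.natAbs_mul]
            rfl
          rw [e1, ← mul_pow]
          apply pow_le_pow_left₀ (gg_nonneg _)
          have h4 := gg_mul_le (a := 2) (b := (R q.1 - R q.2).natAbs) (by norm_num) (by omega)
          rwa [gg_two] at h4
      _ = 2 ^ K * ∑ q ∈ J.offDiag, gg (R q.1 - R q.2).natAbs ^ K := by rw [mul_sum]
      _ ≤ 2 ^ K * (C K * L ^ 2) := mul_le_mul_of_nonneg_left (h3 K) (by positivity)
      _ = _ := by ring

/-- windows have bounded moments -/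
theorem momZ_win (b : ℝ) (hb : 0 < b) : ∃ C : ℕ → ℝ, ∀ (L : ℝ) (y N : ℕ) (J : Finset ℕ), 0 ≤ L →
    (N : ℝ) ≤ b * L → J ⊆ Ioc y (y + N) → MomZ C b L (fun n => (n : ℤ)) J := by
  obtain ⟨C, hC⟩ := momI b hb
  refine ⟨C, fun L y N J hL hN hJ => ?_⟩
  obtain ⟨h1, h2⟩ := hC L N hL hN
  refine ⟨?_, ?_, fun K => ?_⟩
  · have h3 := card_le_card hJ
    rw [Nat.card_Ioc, Nat.add_sub_cancel_left] at h3
    exact le_trans (by exact_mod_cast h3) hN
  · intro a _ b _ e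
    have e' : (a : ℤ) = b := e
    exact_mod_cast e'
  · refine le_trans ?_ (h2 K)
    have h3 : ∑ q ∈ J.offDiag, gg ((q.1 : ℤ) - (q.2 : ℤ)).natAbs ^ K =
        ∑ q ∈ J.offDiag.image (fun q : ℕ × ℕ => (q.1 - y, q.2 - y)), gg (Nat.dist q.1 q.2) ^ K := by
      rw [sum_image]
      · apply sum_congr rfl
        intro q hq
        rw [mem_offDiag] at hq
        have g1 := hJ hq.1
        have g2 := hJ hq.2.1
        rw [mem_Ioc] at g1 g2
        congr 2
        unfold Nat.dist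
        show ((q.1 : ℤ) - (q.2 : ℤ)).natAbs = (q.1 - y) - (q.2 - y) + ((q.2 - y) - (q.1 - y))
        omega
      · intro q hq q' hq' e
        rw [mem_coe, mem_offDiag] at hq hq'
        have g1 := hJ hq.1
        have g2 := hJ hq.2.1
        have g3 := hJ hq'.1
        have g4 := hJ hq'.2.1
        rw [mem_Ioc] at g1 g2 g3 g4
        have e1 : q.1 - y = q'.1 - y := (Prod.mk.inj e).1
        have e2 : q.2 - y = q'.2 - y := (Prod.mk.inj e).2
        exact Prod.ext (by omega) (by omega)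
    rw [h3]
    apply sum_le_sum_of_subset_of_nonneg
    · intro q hq
      rw [mem_image] at hq
      obtain ⟨r, hr, rfl⟩ := hq
      rw [mem_offDiag] at hr
      have g1 := hJ hr.1
      have g2 := hJ hr.2.1
      rw [mem_Ioc] at g1 g2
      have hne := hr.2.2
      rw [mem_offDiag, mem_Icc, mem_Icc]
      show (1 ≤ r.1 - y ∧ r.1 - y ≤ N) ∧ (1 ≤ r.2 - y ∧ r.2 - y ≤ N) ∧ r.1 - y ≠ r.2 - y
      refine ⟨by omega, by omega, by omega⟩
    · intro _ _ _
      exact pow_nonneg (gg_nonneg _) _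

/-- the `n`-th prime, `n ≥ 1` -/
noncomputable def pr (n : ℕ) : ℕ := Nat.nth Nat.Prime (n - 1)

theorem pr_prime (n : ℕ) : (pr n).Prime := Nat.prime_nth_prime _

theorem pr_odd {n : ℕ} (hn : 2 ≤ n) : Odd (pr n) := by
  have h1 : pr n ≠ 2 := by
    intro h
    have h2 : Nat.nth Nat.Prime (n - 1) = Nat.nth Nat.Prime 0 := by
      rw [Nat.nth_prime_zero_eq_two]
      exact h
    have h3 := Nat.nth_injective Nat.infinite_setOf_prime h2
    omega
  exact (pr_prime n).odd_of_ne_two h1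

theorem pr_one : pr 1 = 2 := by
  unfold pr
  exact Nat.nth_prime_zero_eq_two

/-- the first primes are small -/
theorem pr_le (Λ : ℝ) (hΛ : 0 < Λ) : ∃ x₀ : ℕ, ∀ x : ℕ, x₀ ≤ x → ∀ n : ℕ,
    (n : ℝ) ≤ Λ * Real.log x → (pr n : ℝ) ≤ Real.log x ^ 2 := by
  obtain ⟨X1, h1⟩ := primes_window 1 (2 * Λ + 3) one_pos (by linarith)
  obtain ⟨X2, h2⟩ := pi_scale (2 * Λ + 3) (by positivity)
  have t1 : Tendsto (fun X : ℕ => Real.log (X : ℝ)) atTop atTop :=
    Real.tendsto_log_atTop.comp tendsto_natCast_atTop_atTop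
  obtain ⟨X3, h3⟩ := eventually_atTop.1 (t1.eventually_ge_atTop 2)
  refine ⟨X1 + X2 + X3, fun x hx n hn => ?_⟩
  have g1 := h1 x (by omega)
  obtain ⟨_, _, g2, _⟩ := h2 x (by omega) _ rfl
  have hL := h3 x (by omega)
  obtain ⟨M, hM⟩ : ∃ M, M = ⌊(2 * Λ + 3) * (Real.log x * Real.log (Real.log x))⌋₊ := ⟨_, rfl⟩
  rw [← hM] at g2
  have hM' : ⌊(2 * Λ + 3) * L2 x⌋₊ = M := by rw [hM]; rfl
  rw [hM'] at g1
  have h4 : ((Ioc ⌊1 * L2 x⌋₊ M).filter Nat.Prime).card ≤ Nat.count Nat.Prime (M + 1) := by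
    rw [Nat.count_eq_card_filter_range]
    apply card_le_card
    intro p hp
    rw [mem_filter, mem_Ioc] at hp
    rw [mem_filter, mem_range]
    exact ⟨by omega, hp.2⟩
  have h5 : (n : ℝ) < Nat.count Nat.Prime (M + 1) := by
    have h6 : (((Ioc ⌊1 * L2 x⌋₊ M).filter Nat.Prime).card : ℝ) ≤ Nat.count Nat.Prime (M + 1) := by
      exact_mod_cast h4
    have h7 : (2 * Λ + 3 - 1) / 2 * Real.log x = Λ * Real.log x + Real.log x := by ring
    rw [h7] at g1
    linarith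
  have h6 : n < Nat.count Nat.Prime (M + 1) := by exact_mod_cast h5
  have h7 : pr n < M + 1 := by
    unfold pr
    exact Nat.nth_lt_of_lt_count (by omega)
  have h8 : (pr n : ℝ) ≤ M := by exact_mod_cast Nat.lt_succ_iff.1 h7
  exact h8.trans g2

/-- the positions -/
noncomputable def FQ (Q R : ℕ → ℤ) (a : ℕ) : ℕ → ℤ :=
  TG (fun n => (pr n : ℤ) + 2 * Q n) (fun n => 2 * R n) a

theorem FQ_eq (Q R : ℕ → ℤ) (a n : ℕ) : FQ Q R a n = pr n + 2 * (Q n + a * R n) := by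
  unfold FQ TG
  ring

theorem FQ_odd {Q R : ℕ → ℤ} {a n : ℕ} (hn : 2 ≤ n) : Odd (FQ Q R a n) := by
  rw [FQ_eq]
  have h1 : Odd ((pr n : ℕ) : ℤ) := by exact_mod_cast pr_odd hn
  exact h1.add_even (even_two_mul _)

theorem even_of_PZ {Q R : ℕ → ℤ} {a n N : ℕ} (hn : 2 ≤ n) (h : PZ ((N : ℤ) + FQ Q R a n))
    (hlt : (FQ Q R a n).natAbs + 2 < N) : Even N := by
  obtain ⟨p, hp, e⟩ := h
  have h1 : p ≠ 2 := by omega
  have h2 : Odd ((p : ℕ) : ℤ) := by exact_mod_cast hp.odd_of_ne_two h1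
  rw [e] at h2
  have h3 := FQ_odd (Q := Q) (R := R) (a := a) hn
  have h4 : Even (N : ℤ) := by
    rcases Int.even_or_odd (N : ℤ) with h5 | h5
    · exact h5
    · exact absurd (h5.add_odd h3) (Int.not_even_iff_odd.2 h2)
  exact_mod_cast h4

open Classical in
/-- the numbers `c` at which `p_n + 2 P(n)`, `P = Q + a R + c`, is prime exactly for `n ∈ T` -/
noncomputable def EC (x : ℕ) (Q R : ℕ → ℤ) (a : ℕ) (J T : Finset ℕ) : ℕ :=
  ((range x).filter (fun c => x ≤ 2 * c ∧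
    ∀ n ∈ J, (PZ ((pr n : ℤ) + 2 * (Q n + a * R n + c)) ↔ n ∈ T))).card

theorem two_c {Q R : ℕ → ℤ} {a n c : ℕ} : (pr n : ℤ) + 2 * (Q n + a * R n + c) =
    ((2 * c : ℕ) : ℤ) + FQ Q R a n := by
  rw [FQ_eq]
  push_cast
  ring

theorem EZ_le_EC {x a : ℕ} {Q R : ℕ → ℤ} {J T : Finset ℕ} (hTJ : T ⊆ J) (hT : T.Nonempty)
    (h2 : ∀ n ∈ T, 2 ≤ n) (hx : ∀ n ∈ T, (FQ Q R a n).natAbs + 2 < x) :
    EZ x (FQ Q R a) J T ≤ EC x Q R a J T := by
  classical
  unfold EZ EC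
  obtain ⟨t, ht⟩ := hT
  apply card_le_card_of_injOn (fun N => N / 2)
  · intro N hN
    rw [mem_coe, mem_filter, mem_Ico] at hN
    have hp := (hN.2 t (hTJ ht)).2 ht
    have hev := even_of_PZ (h2 t ht) hp (by have := hx t ht; omega)
    obtain ⟨r, hr⟩ := hev
    have hr2 : N / 2 = r := by omega
    rw [mem_coe, mem_filter, mem_range]
    show N / 2 < x ∧ x ≤ 2 * (N / 2) ∧ _
    rw [hr2]
    refine ⟨by omega, by omega, fun n hn => ?_⟩
    rw [two_c, ← hN.2 n hn]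
    have e : 2 * (fun N => N / 2) N = N := by
      show 2 * (N / 2) = N
      omega
    rw [e]
  · intro N hN N' hN' e
    rw [mem_coe, mem_filter, mem_Ico] at hN hN'
    have hp := (hN.2 t (hTJ ht)).2 ht
    have hp' := (hN'.2 t (hTJ ht)).2 ht
    have hev := even_of_PZ (h2 t ht) hp (by have := hx t ht; omega)
    have hev' := even_of_PZ (h2 t ht) hp' (by have := hx t ht; omega)
    obtain ⟨r, hr⟩ := hev
    obtain ⟨r', hr'⟩ := hev'
    have e' : N / 2 = N' / 2 := e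
    omega

end Pool.Agent.H533.GE
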