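import Pool.Agent.H533.GE.FamR

/-!
The numbers `p_n + 2 P(n)`, `P = Q + a R + c`: the theorems.
-/

set_option autoImplicit false

open Finset Filter Topology Polynomial

namespace Pool.Agent.H533.GE

open Pool.Agent.H533.QM
open Pool.Agent.H533.QS
open Pool.Agent.H533.QA

/-- the bound of the positions -/
theorem FQ_le {Q R : ℕ → ℤ} {L : ℝ} {B a n : ℕ} (hL : 2 ≤ L) (h1 : (pr n : ℝ) ≤ L ^ B)
    (h2 : (((Q n).natAbs : ℕ) : ℝ) ≤ L ^ B) (h3 : (((R n).natAbs : ℕ) : ℝ) ≤ L ^ B)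
    (h4 : (a : ℝ) ≤ L ^ B) : (((FQ Q R a n).natAbs : ℕ) : ℝ) ≤ L ^ (2 * B + 3) := by
  have h5 : (FQ Q R a n).natAbs ≤ pr n + 2 * ((Q n).natAbs + a * (R n).natAbs) := by
    rw [FQ_eq]
    refine (Int.natAbs_add_le _ _).trans ?_
    rw [Int.natAbs_natCast, Int.natAbs_mul]
    have h6 : (Q n + a * R n).natAbs ≤ (Q n).natAbs + a * (R n).natAbs := by
      refine (Int.natAbs_add_le _ _).trans ?_
      rw [Int.natAbs_mul, Int.natAbs_natCast]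
    have h7 : (2 : ℤ).natAbs = 2 := rfl
    rw [h7]
    omega
  have h6 : (((FQ Q R a n).natAbs : ℕ) : ℝ) ≤
      pr n + 2 * ((((Q n).natAbs : ℕ) : ℝ) + a * (((R n).natAbs : ℕ) : ℝ)) := by exact_mod_cast h5
  have hp : 1 ≤ L ^ B := one_le_pow₀ (by linarith)
  have h7 : (a : ℝ) * (((R n).natAbs : ℕ) : ℝ) ≤ L ^ B * L ^ B :=
    mul_le_mul h4 h3 (Nat.cast_nonneg _) (by positivity)
  have h8 : L ^ (2 * B + 3) = L ^ B * L ^ B * L ^ 3 := by ring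
  have h9 : (8 : ℝ) ≤ L ^ 3 := by
    calc (8 : ℝ) = 2 ^ 3 := by norm_num
      _ ≤ _ := pow_le_pow_left₀ (by norm_num) hL 3
  have h10 : L ^ B ≤ L ^ B * L ^ B := by nlinarith
  rw [h8]
  have h11 : 0 ≤ L ^ B * L ^ B := by positivity
  nlinarith

/-- powers of the logarithm are small -/
theorem log_small (B : ℕ) : ∃ x₀ : ℕ, ∀ x : ℕ, x₀ ≤ x → ∀ k : ℕ, (k : ℝ) ≤ Real.log x ^ B →
    k + 2 < x := by
  obtain ⟨x₀, h⟩ := choose_M 1 one_pos B 0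
  refine ⟨x₀ + 5, fun x hx k hk => ?_⟩
  obtain ⟨M, _, _, h1, h2⟩ := h x (by omega)
  have h3 := h1 k hk
  have h4 := h2 0 le_rfl
  rw [pow_zero, div_one] at h4
  have h5 : (2 * M : ℝ) ≤ x := by linarith
  have h6 : 2 * M ≤ x := by exact_mod_cast h5
  have h7 : k ≤ k ^ 2 := by
    rcases Nat.eq_zero_or_pos k with h | h
    · rw [h]; norm_num
    · nlinarith
  omega

open Classical in
theorem GZ_sub {x a l : ℕ} {κ : ℝ} {Q R : ℕ → ℤ} {J A : Finset ℕ} (hl : 1 ≤ l)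
    (h2 : ∀ n ∈ J, 2 ≤ n) (hx : ∀ n ∈ J, (FQ Q R a n).natAbs + 2 < x) :
    GZ x l κ (FQ Q R a) J A ⊆ ((A ∩ J).powersetCard l).filter
        (fun T => κ * max 1 (SZ (FQ Q R a) T) * (x / Real.log x ^ l) ≤ (EC x Q R a J T : ℝ)) := by
  intro T hT
  unfold GZ at hT
  rw [mem_filter, mem_powersetCard] at hT
  obtain ⟨⟨h1, h1'⟩, h3⟩ := hT
  have hTJ : T ⊆ J := fun r hr => (mem_inter.1 (h1 hr)).2
  have hne : T.Nonempty := by rw [← card_pos, h1']; omega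
  rw [mem_filter, mem_powersetCard]
  refine ⟨⟨h1, h1'⟩, ?_⟩
  have h4 := EZ_le_EC hTJ hne (fun k hk => h2 k (hTJ hk)) (fun k hk => hx k (hTJ hk))
  have h5 : (EZ x (FQ Q R a) J T : ℝ) ≤ EC x Q R a J T := by exact_mod_cast h4
  exact le_trans h3 h5

open Classical in
/-- **(2)** -/
theorem fam2 (C : ℕ → ℝ) (Λ ρ η : ℝ) (hΛ : 0 < Λ) (hρ : 0 < ρ) (hη : 0 < η) (m : ℕ) (hm : 1 ≤ m) :
    ∃ M : ℕ, ∃ κ K₀ : ℝ, 0 < κ ∧ ∀ B : ℕ, ∃ x₀ : ℕ, ∀ x : ℕ, x₀ ≤ x → ∀ (Q R : ℕ → ℤ) (J : Finset ℕ),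
    (∀ n ∈ J, 2 ≤ n ∧ (pr n : ℝ) ≤ Real.log x ^ B ∧ (((Q n).natAbs : ℕ) : ℝ) ≤ Real.log x ^ B ∧
      (((R n).natAbs : ℕ) : ℝ) ≤ Real.log x ^ B) → MomZ C Λ (Real.log x) R J →
    ∀ u N : ℕ, K₀ * Real.log x ^ 2 ≤ N → ((u + N : ℕ) : ℝ) ≤ Real.log x ^ B →
    (((Ioc u (u + N)).filter (fun a => ¬ ∀ A ⊆ J, ρ * Real.log x ≤ A.card → ∃ l, m ≤ l ∧ l ≤ M ∧
      κ * Real.log x ^ l ≤ (((A.powersetCard l).filter (fun T => κ * max 1 (SZ (FQ Q R a) T) *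
        (x / Real.log x ^ l) ≤ (EC x Q R a J T : ℝ))).card : ℝ))).card : ℝ) ≤ η * N := by
  obtain ⟨C', K₀, hK₀, H⟩ := fam (fun K => 2 ^ K * C K) Λ η hΛ hη
  obtain ⟨M, κ, hκ, H2⟩ := zf2 C' Λ ρ hΛ hρ m hm
  refine ⟨M, κ, K₀, hκ, fun B => ?_⟩
  obtain ⟨x1, h1⟩ := H (2 * B + 3)
  obtain ⟨x2, h2⟩ := H2 (2 * B + 3)
  obtain ⟨x3, h3⟩ := log_small (2 * B + 3)
  have t1 : Tendsto (fun X : ℕ => Real.log (X : ℝ)) atTop atTop :=
    Real.tendsto_log_atTop.comp tendsto_natCast_atTop_atTop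
  obtain ⟨x4, h4⟩ := eventually_atTop.1 (t1.eventually_ge_atTop 2)
  refine ⟨x1 + x2 + x3 + x4, fun x hx Q R J hJ hMom u N hN huN => ?_⟩
  have hL := h4 x (by omega)
  have hbd : ∀ n ∈ J, ∀ a ∈ Ioc u (u + N), (((FQ Q R a n).natAbs : ℕ) : ℝ) ≤
      Real.log x ^ (2 * B + 3) := by
    intro n hn a ha
    obtain ⟨g1, g2, g3, g4⟩ := hJ n hn
    rw [mem_Ioc] at ha
    exact FQ_le hL g2 g3 g4 (le_trans (by exact_mod_cast ha.2) huN)
  refine le_trans ?_ (h1 x (by omega) (fun n => (pr n : ℤ) + 2 * Q n) (fun n => 2 * R n) J u N hN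
    hbd (momZ_two hMom))
  rw [Nat.cast_le]
  apply card_le_card
  intro a ha
  rw [mem_filter] at ha ⊢
  refine ⟨ha.1, fun hcon => ha.2 ?_⟩
  intro A hAJ hA
  obtain ⟨l, hl1, hl2, h5⟩ := h2 x (by omega) (FQ Q R a) A J hAJ (fun n hn => hbd n hn a ha.1) hcon hA
  refine ⟨l, hl1, hl2, h5.trans ?_⟩
  rw [Nat.cast_le]
  have h6 := card_le_card (GZ_sub (x := x) (a := a) (l := l) (κ := κ) (Q := Q) (R := R) (J := J)
    (A := A) (by omega) (fun n hn => (hJ n hn).1)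
    (fun n hn => h3 x (by omega) _ (hbd n hn a ha.1)))
  rw [inter_eq_left.2 hAJ] at h6
  exact h6

open Classical in
/-- **(3)** -/
theorem fam3 (C : ℕ → ℝ) (Λ ρ η : ℝ) (hΛ : 0 < Λ) (hρ : 0 < ρ) (hη : 0 < η) (l : ℕ) (hl : 1 ≤ l) :
    ∃ κ K₀ : ℝ, 0 < κ ∧ ∀ B : ℕ, ∃ x₀ : ℕ, ∀ x : ℕ, x₀ ≤ x → ∀ (Q R : ℕ → ℤ) (J : Finset ℕ),
    (∀ n ∈ J, 2 ≤ n ∧ (pr n : ℝ) ≤ Real.log x ^ B ∧ (((Q n).natAbs : ℕ) : ℝ) ≤ Real.log x ^ B ∧
      (((R n).natAbs : ℕ) : ℝ) ≤ Real.log x ^ B) → MomZ C Λ (Real.log x) R J →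
    ∀ u N : ℕ, K₀ * Real.log x ^ 2 ≤ N → ((u + N : ℕ) : ℝ) ≤ Real.log x ^ B →
    (((Ioc u (u + N)).filter (fun a => ¬ ∀ A ⊆ J, ρ * Real.log x ≤ A.card → ∃ t : ℕ,
      κ * Real.log x ^ l ≤ ((((A.filter (fun n => n ≤ t)).powersetCard l).filter
        (fun T => κ * max 1 (SZ (FQ Q R a) T) * (x / Real.log x ^ l) ≤
          (EC x Q R a (J.filter (fun n => n ≤ t)) T : ℝ))).card : ℝ))).card : ℝ) ≤ η * N := by
  obtain ⟨C', K₀, hK₀, H⟩ := fam (fun K => 2 ^ K * C K) Λ η hΛ hη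
  obtain ⟨κ, hκ, H2⟩ := zf3 C' Λ ρ hΛ hρ l hl
  refine ⟨κ, K₀, hκ, fun B => ?_⟩
  obtain ⟨x1, h1⟩ := H (2 * B + 3)
  obtain ⟨x2, h2⟩ := H2 (2 * B + 3)
  obtain ⟨x3, h3⟩ := log_small (2 * B + 3)
  have t1 : Tendsto (fun X : ℕ => Real.log (X : ℝ)) atTop atTop :=
    Real.tendsto_log_atTop.comp tendsto_natCast_atTop_atTop
  obtain ⟨x4, h4⟩ := eventually_atTop.1 (t1.eventually_ge_atTop 2)
  refine ⟨x1 + x2 + x3 + x4, fun x hx Q R J hJ hMom u N hN huN => ?_⟩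
  have hL := h4 x (by omega)
  have hbd : ∀ n ∈ J, ∀ a ∈ Ioc u (u + N), (((FQ Q R a n).natAbs : ℕ) : ℝ) ≤
      Real.log x ^ (2 * B + 3) := by
    intro n hn a ha
    obtain ⟨g1, g2, g3, g4⟩ := hJ n hn
    rw [mem_Ioc] at ha
    exact FQ_le hL g2 g3 g4 (le_trans (by exact_mod_cast ha.2) huN)
  refine le_trans ?_ (h1 x (by omega) (fun n => (pr n : ℤ) + 2 * Q n) (fun n => 2 * R n) J u N hN
    hbd (momZ_two hMom))
  rw [Nat.cast_le]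
  apply card_le_card
  intro a ha
  rw [mem_filter] at ha ⊢
  refine ⟨ha.1, fun hcon => ha.2 ?_⟩
  intro A hAJ hA
  obtain ⟨t, h5⟩ := h2 x (by omega) (FQ Q R a) A J hAJ (fun n hn => hbd n hn a ha.1) hcon hA
  refine ⟨t, h5.trans ?_⟩
  rw [Nat.cast_le]
  have h6 := card_le_card (GZ_sub (x := x) (a := a) (l := l) (κ := κ) (Q := Q) (R := R)
    (J := J.filter (fun n => n ≤ t)) (A := A) hl (fun n hn => (hJ n (mem_filter.1 hn).1).1)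
    (fun n hn => h3 x (by omega) _ (hbd n (mem_filter.1 hn).1 a ha.1)))
  have h7 : A ∩ J.filter (fun n => n ≤ t) = A.filter (fun n => n ≤ t) := by
    ext n
    rw [mem_inter, mem_filter, mem_filter]
    exact ⟨fun h => ⟨h.1, h.2.2⟩, fun h => ⟨h.1, hAJ h.1, h.2⟩⟩
  rw [h7] at h6
  exact h6

open Classical in
/-- **(1)** for functions -/
theorem fam1 (Λ ρ η : ℝ) (hΛ : 0 < Λ) (hρ : 0 < ρ) (hη : 0 < η) (m : ℕ) :
    ∃ δ K₀ : ℝ, 0 < δ ∧ ∀ B : ℕ, ∃ x₀ : ℕ, ∀ x : ℕ, x₀ ≤ x → ∀ Q : ℕ → ℤ,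
    (∀ n ∈ Icc 1 ⌊Λ * Real.log x⌋₊, (((Q n).natAbs : ℕ) : ℝ) ≤ Real.log x ^ B) →
    ∀ u N : ℕ, K₀ * Real.log x ^ 2 ≤ N → ((u + N : ℕ) : ℝ) ≤ Real.log x ^ B →
    (((Ioc u (u + N)).filter (fun a : ℕ => ¬ ∀ A ⊆ Icc 2 ⌊Λ * Real.log x⌋₊, ρ * Real.log x ≤ A.card →
      δ * x ≤ (((range x).filter (fun c : ℕ => x ≤ 2 * c ∧
        m ≤ (A.filter (fun n : ℕ => PZ ((pr n : ℤ) + 2 * (Q n + a * n + c)))).card ∧
        ∀ n ∈ Icc 1 ⌊Λ * Real.log x⌋₊, PZ ((pr n : ℤ) + 2 * (Q n + a * n + c)) → n ∈ A)).card :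
          ℝ))).card : ℝ) ≤ η * N := by
  obtain ⟨C, hC⟩ := momZ_win Λ hΛ
  obtain ⟨C', K₀, hK₀, H⟩ := fam (fun K => 2 ^ K * C K) Λ η hΛ hη
  obtain ⟨δ, hδ, H2⟩ := zf1 (m + 1) ρ Λ ((|C' 1| + 1) / ρ ^ 2) hρ hΛ (by positivity)
  refine ⟨δ, K₀, hδ, fun B => ?_⟩
  obtain ⟨x1, h1⟩ := H (2 * (B + 2) + 3)
  obtain ⟨x2, h2⟩ := H2 (2 * (B + 2) + 3)
  obtain ⟨x3, h3⟩ := log_small (2 * (B + 2) + 3)
  obtain ⟨x5, h5⟩ := pr_le Λ hΛ
  have t1 : Tendsto (fun X : ℕ => Real.log (X : ℝ)) atTop atTop :=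
    Real.tendsto_log_atTop.comp tendsto_natCast_atTop_atTop
  obtain ⟨x4, h4⟩ := eventually_atTop.1 (t1.eventually_ge_atTop (2 + Λ))
  refine ⟨x1 + x2 + x3 + x4 + x5, fun x hx Q hQ u N hN huN => ?_⟩
  have hLΛ := h4 x (by omega)
  have hL : 2 ≤ Real.log x := by linarith
  obtain ⟨L, hLd⟩ : ∃ L, L = Real.log x := ⟨_, rfl⟩
  have hbd : ∀ n ∈ Icc 1 ⌊Λ * Real.log x⌋₊, ∀ a ∈ Ioc u (u + N),
      (((FQ Q (fun n => (n : ℤ)) a n).natAbs : ℕ) : ℝ) ≤ Real.log x ^ (2 * (B + 2) + 3) := by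
    intro n hn a ha
    have hnL : (n : ℝ) ≤ Λ * Real.log x := by
      rw [mem_Icc] at hn
      exact (Nat.le_floor_iff (mul_nonneg hΛ.le (by linarith))).1 hn.2
    have g1 := h5 x (by omega) n hnL
    have g2 := hQ n hn
    rw [mem_Ioc] at ha
    have e1 : Real.log x ^ B ≤ Real.log x ^ (B + 2) := pow_le_pow_right₀ (by linarith) (by omega)
    have e2 : Real.log x ^ 2 ≤ Real.log x ^ (B + 2) := pow_le_pow_right₀ (by linarith) (by omega)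
    refine FQ_le hL (g1.trans e2) (g2.trans e1) ?_
      ((le_trans (by exact_mod_cast ha.2) huN).trans e1)
    rw [Int.natAbs_natCast]
    refine le_trans hnL (le_trans ?_ e2)
    rw [sq]
    exact mul_le_mul_of_nonneg_right (by linarith) (by linarith)
  have hsub : Icc 2 ⌊Λ * Real.log x⌋₊ ⊆ Icc 1 ⌊Λ * Real.log x⌋₊ :=
    Icc_subset_Icc (by norm_num) le_rfl
  have hmom := hC (Real.log x) 0 ⌊Λ * Real.log x⌋₊ (Icc 2 ⌊Λ * Real.log x⌋₊) (by linarith)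
    (Nat.floor_le (mul_nonneg hΛ.le (by linarith))) (by
      intro n hn
      rw [mem_Icc] at hn
      rw [mem_Ioc]
      omega)
  refine le_trans ?_ (h1 x (by omega) (fun n => (pr n : ℤ) + 2 * Q n) (fun n => 2 * (n : ℤ))
    (Icc 2 ⌊Λ * Real.log x⌋₊) u N hN (fun n hn => hbd n (hsub hn)) (momZ_two hmom))
  rw [Nat.cast_le]
  apply card_le_card
  intro a ha
  rw [mem_filter] at ha ⊢
  refine ⟨ha.1, fun hcon => ha.2 ?_⟩
  intro A hAJ hA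
  have hcon' : MomZ C' Λ (Real.log x) (FQ Q (fun n => (n : ℤ)) a) (Icc 2 ⌊Λ * Real.log x⌋₊) := hcon
  obtain ⟨c1, c2, c3⟩ := hcon'
  have hinjA : Set.InjOn (FQ Q (fun n => (n : ℤ)) a) (A : Set ℕ) := c2.mono (by exact_mod_cast hAJ)
  have h6 := h2 x (by omega) (FQ Q (fun n => (n : ℤ)) a) A (Icc 2 ⌊Λ * Real.log x⌋₊) hAJ
    (fun n hn => hbd n (hsub hn) a ha.1) hinjA hA c1 (by
      have k1 : ∑ q ∈ A.offDiag, gg (FQ Q (fun n => (n : ℤ)) a q.1 -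
          FQ Q (fun n => (n : ℤ)) a q.2).natAbs ≤
          ∑ q ∈ (Icc 2 ⌊Λ * Real.log x⌋₊).offDiag, gg (FQ Q (fun n => (n : ℤ)) a q.1 -
          FQ Q (fun n => (n : ℤ)) a q.2).natAbs :=
        sum_le_sum_of_subset_of_nonneg (offDiag_mono hAJ) (fun _ _ _ => gg_nonneg _)
      have k2 := c3 1
      simp only [pow_one] at k2
      have k3 : ρ ^ 2 * Real.log x ^ 2 ≤ (A.card : ℝ) ^ 2 := by
        rw [← mul_pow]
        exact pow_le_pow_left₀ (by positivity) hA 2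
      have k4 : C' 1 * Real.log x ^ 2 ≤ (|C' 1| + 1) * Real.log x ^ 2 := by
        apply mul_le_mul_of_nonneg_right _ (by positivity)
        linarith [le_abs_self (C' 1)]
      calc _ ≤ (|C' 1| + 1) * Real.log x ^ 2 := k1.trans (k2.trans k4)
        _ = (|C' 1| + 1) / ρ ^ 2 * (ρ ^ 2 * Real.log x ^ 2) := by field_simp
        _ ≤ _ := mul_le_mul_of_nonneg_left k3 (by positivity))
  refine h6.trans ?_
  rw [Nat.cast_le]
  have hpar : ∀ N ∈ (Ico x (2 * x)).filter (fun N : ℕ =>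
      m + 1 ≤ (A.filter (fun k => PZ ((N : ℤ) + FQ Q (fun n => (n : ℤ)) a k))).card ∧
      ∀ k ∈ Icc 2 ⌊Λ * Real.log x⌋₊, PZ ((N : ℤ) + FQ Q (fun n => (n : ℤ)) a k) →
        ∃ j ∈ A, FQ Q (fun n => (n : ℤ)) a j = FQ Q (fun n => (n : ℤ)) a k), Even N := by
    intro N hN
    rw [mem_filter, mem_Ico] at hN
    obtain ⟨k, hk⟩ := card_pos.1 (lt_of_lt_of_le (Nat.succ_pos m) hN.2.1)
    rw [mem_filter] at hk
    have hkJ := hAJ hk.1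
    have g1 := h3 x (by omega) _ (hbd k (hsub hkJ) a ha.1)
    rw [mem_Icc] at hkJ
    exact even_of_PZ hkJ.1 hk.2 (by omega)
  apply card_le_card_of_injOn (fun N => N / 2)
  · intro N hN
    rw [mem_coe] at hN
    obtain ⟨r, hr⟩ := hpar N hN
    rw [mem_filter, mem_Ico] at hN
    have hr2 : N / 2 = r := by omega
    have hr3 : N = 2 * r := by omega
    have hconv : ∀ n : ℕ, PZ ((pr n : ℤ) + 2 * (Q n + a * n + (r : ℕ))) ↔
        PZ ((N : ℤ) + FQ Q (fun n => (n : ℤ)) a n) := by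
      intro n
      have e := two_c (Q := Q) (R := fun n => (n : ℤ)) (a := a) (n := n) (c := r)
      rw [hr3, ← e]
    rw [mem_coe, mem_filter, mem_range]
    show N / 2 < x ∧ x ≤ 2 * (N / 2) ∧ _
    rw [hr2]
    refine ⟨by omega, by omega, ?_, ?_⟩
    · refine le_trans ?_ (le_trans hN.2.1 (card_le_card ?_))
      · omega
      · intro n hn
        rw [mem_filter] at hn ⊢
        exact ⟨hn.1, by
          show PZ ((pr n : ℤ) + 2 * (Q n + a * n + ((N / 2 : ℕ) : ℤ)))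
          rw [hr2]
          exact (hconv n).2 hn.2⟩
    · intro n hn hp
      have hp' : PZ ((pr n : ℤ) + 2 * (Q n + a * n + ((N / 2 : ℕ) : ℤ))) := hp
      rw [hr2] at hp'
      have hp2 := (hconv n).1 hp'
      rcases Nat.lt_or_ge n 2 with h7 | h7
      · exfalso
        have hn1 : n = 1 := by
          rw [mem_Icc] at hn
          omega
        obtain ⟨q, hq, e⟩ := hp2
        have g1 := h3 x (by omega) _ (hbd n hn a ha.1)
        have hev : Even (FQ Q (fun n => (n : ℤ)) a n) := by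
          rw [FQ_eq, hn1, pr_one]
          exact ⟨1 + (Q 1 + a * ((1 : ℕ) : ℤ)), by push_cast; ring⟩
        have hq2 : q ≠ 2 := by omega
        have hodd := hq.odd_of_ne_two hq2
        have hodd' : Odd ((q : ℕ) : ℤ) := by exact_mod_cast hodd
        rw [e, hr3] at hodd'
        have h8 : Even (((2 * r : ℕ) : ℤ) + FQ Q (fun n => (n : ℤ)) a n) := by
          apply Even.add _ hev
          push_cast
          exact even_two_mul _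
        exact absurd h8 (Int.not_even_iff_odd.2 hodd')
      · have hnJ : n ∈ Icc 2 ⌊Λ * Real.log x⌋₊ := by
          rw [mem_Icc] at hn ⊢
          exact ⟨h7, hn.2⟩
        obtain ⟨j, hj, e⟩ := hN.2.2 n hnJ hp2
        have := c2 (hAJ hj) hnJ e
        rwa [← this]
  · intro N hN N' hN' e
    rw [mem_coe] at hN hN'
    obtain ⟨r, hr⟩ := hpar N hN
    obtain ⟨r', hr'⟩ := hpar N' hN'
    have e' : N / 2 = N' / 2 := e
    omega

/-- polynomials are small at small arguments -/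
theorem poly_small (P : ℚ[X]) (Λ : ℝ) (hΛ : 0 < Λ) : ∃ x₀ : ℕ, ∀ x : ℕ, x₀ ≤ x → ∀ n : ℕ,
    1 ≤ n → (n : ℝ) ≤ Λ * Real.log x → |((P.eval (n : ℚ) : ℚ) : ℝ)| ≤
      Real.log x ^ (2 * P.natDegree + 1) := by
  obtain ⟨K, hK⟩ : ∃ K : ℝ, K = ∑ i ∈ range (P.natDegree + 1), |((P.coeff i : ℚ) : ℝ)| := ⟨_, rfl⟩
  have hK0 : 0 ≤ K := by rw [hK]; exact sum_nonneg fun _ _ => abs_nonneg _
  have t1 : Tendsto (fun X : ℕ => Real.log (X : ℝ)) atTop atTop :=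
    Real.tendsto_log_atTop.comp tendsto_natCast_atTop_atTop
  obtain ⟨x₀, h⟩ := eventually_atTop.1 (t1.eventually_ge_atTop (K + Λ + 1))
  refine ⟨x₀, fun x hx n hn hnL => ?_⟩
  have hL := h x hx
  have h1 : ((P.eval (n : ℚ) : ℚ) : ℝ) =
      ∑ i ∈ range (P.natDegree + 1), ((P.coeff i : ℚ) : ℝ) * (n : ℝ) ^ i := by
    rw [Polynomial.eval_eq_sum_range]
    push_cast
    rfl
  rw [h1]
  have hn1 : (1 : ℝ) ≤ n := by exact_mod_cast hn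
  calc |∑ i ∈ range (P.natDegree + 1), ((P.coeff i : ℚ) : ℝ) * (n : ℝ) ^ i| ≤
        ∑ i ∈ range (P.natDegree + 1), |((P.coeff i : ℚ) : ℝ) * (n : ℝ) ^ i| := abs_sum_le_sum_abs _ _
    _ ≤ ∑ i ∈ range (P.natDegree + 1), |((P.coeff i : ℚ) : ℝ)| * (n : ℝ) ^ P.natDegree := by
        apply sum_le_sum
        intro i hi
        rw [mem_range] at hi
        rw [abs_mul, abs_of_nonneg (show (0 : ℝ) ≤ (n : ℝ) ^ i by positivity)]
        apply mul_le_mul_of_nonneg_left _ (abs_nonneg _)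
        exact pow_le_pow_right₀ hn1 (by omega)
    _ = K * (n : ℝ) ^ P.natDegree := by rw [← sum_mul, hK]
    _ ≤ Real.log x * (Real.log x * Real.log x) ^ P.natDegree := by
        apply mul_le_mul (by linarith) _ (by positivity) (by linarith)
        apply pow_le_pow_left₀ (Nat.cast_nonneg _)
        refine hnL.trans ?_
        exact mul_le_mul_of_nonneg_right (by linarith) (by linarith)
    _ = _ := by ring

open Classical in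
/-- **(1)** for polynomials -/
theorem fam1P (Λ ρ η : ℝ) (hΛ : 0 < Λ) (hρ : 0 < ρ) (hη : 0 < η) (m : ℕ) :
    ∃ δ K₀ : ℝ, 0 < δ ∧ ∀ P₀ : ℚ[X], (∀ k : ℤ, ∃ z : ℤ, P₀.eval (k : ℚ) = z) → ∀ B : ℕ,
    ∃ x₀ : ℕ, ∀ x : ℕ, x₀ ≤ x →
    ∀ u N : ℕ, K₀ * Real.log x ^ 2 ≤ N → ((u + N : ℕ) : ℝ) ≤ Real.log x ^ B →
    (((Ioc u (u + N)).filter (fun a : ℕ => ¬ ∀ A ⊆ Icc 2 ⌊Λ * Real.log x⌋₊,
      ρ * Real.log x ≤ A.card → δ * x ≤ (((range x).filter (fun c : ℕ => x ≤ 2 * c ∧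
        m ≤ (A.filter (fun n : ℕ => ∃ q : ℕ, q.Prime ∧
          (q : ℚ) = pr n + 2 * (P₀ + Polynomial.C (a : ℚ) * X + Polynomial.C (c : ℚ)).eval (n : ℚ))).card ∧
        ∀ n ∈ Icc 1 ⌊Λ * Real.log x⌋₊, (∃ q : ℕ, q.Prime ∧
          (q : ℚ) = pr n + 2 * (P₀ + Polynomial.C (a : ℚ) * X + Polynomial.C (c : ℚ)).eval (n : ℚ)) →
          n ∈ A)).card : ℝ))).card : ℝ) ≤ η * N := by
  obtain ⟨δ, K₀, hδ, H⟩ := fam1 Λ ρ η hΛ hρ hη m
  refine ⟨δ, K₀, hδ, fun P₀ hP B => ?_⟩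
  choose z hz using hP
  obtain ⟨x1, h1⟩ := H (B + (2 * P₀.natDegree + 1))
  obtain ⟨x2, h2⟩ := poly_small P₀ Λ hΛ
  have t1 : Tendsto (fun X : ℕ => Real.log (X : ℝ)) atTop atTop :=
    Real.tendsto_log_atTop.comp tendsto_natCast_atTop_atTop
  obtain ⟨x3, h3⟩ := eventually_atTop.1 (t1.eventually_ge_atTop 1)
  refine ⟨x1 + x2 + x3, fun x hx u N hN huN => ?_⟩
  have hL := h3 x (by omega)
  have hQ : ∀ n ∈ Icc 1 ⌊Λ * Real.log x⌋₊, (((z (n : ℤ)).natAbs : ℕ) : ℝ) ≤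
      Real.log x ^ (B + (2 * P₀.natDegree + 1)) := by
    intro n hn
    rw [mem_Icc] at hn
    have g1 := h2 x (by omega) n hn.1
      ((Nat.le_floor_iff (mul_nonneg hΛ.le (by linarith))).1 hn.2)
    have e1 : P₀.eval (n : ℚ) = z (n : ℤ) := by
      have := hz (n : ℤ)
      rwa [Int.cast_natCast] at this
    rw [e1] at g1
    have e2 : (((z (n : ℤ)).natAbs : ℕ) : ℝ) = |(((z (n : ℤ) : ℤ) : ℚ) : ℝ)| := by
      rw [Nat.cast_natAbs]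
      push_cast
      rfl
    rw [e2]
    exact g1.trans (pow_le_pow_right₀ hL (by omega))
  have huN' : ((u + N : ℕ) : ℝ) ≤ Real.log x ^ (B + (2 * P₀.natDegree + 1)) :=
    huN.trans (pow_le_pow_right₀ hL (by omega))
  have key := h1 x (by omega) (fun n => z (n : ℤ)) hQ u N hN huN'
  refine le_trans (le_of_eq ?_) key
  have hconv : ∀ a c n : ℕ, (∃ q : ℕ, q.Prime ∧ (q : ℚ) = pr n + 2 *
      (P₀ + Polynomial.C (a : ℚ) * X + Polynomial.C (c : ℚ)).eval (n : ℚ)) ↔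
      PZ ((pr n : ℤ) + 2 * (z (n : ℤ) + a * n + c)) := by
    intro a c n
    unfold PZ
    have e1 : P₀.eval (n : ℚ) = z (n : ℤ) := by
      have := hz (n : ℤ)
      rwa [Int.cast_natCast] at this
    have e2 : (P₀ + Polynomial.C (a : ℚ) * X + Polynomial.C (c : ℚ)).eval (n : ℚ) =
        (z (n : ℤ) : ℚ) + a * n + c := by
      simp [e1]
    constructor
    · rintro ⟨q, hq, e⟩
      refine ⟨q, hq, ?_⟩
      rw [e2] at e
      exact_mod_cast e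
    · rintro ⟨q, hq, e⟩
      refine ⟨q, hq, ?_⟩
      rw [e2]
      exact_mod_cast e
  simp only [hconv]

end Pool.Agent.H533.GE
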