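import Pool.Agent.H533.GE.MomF

/-!
Arbitrary sets of linear forms `u n + v q` with a bounded second moment: a positive proportion of the
integers.
-/

set_option autoImplicit false

open Finset Filter Topology

namespace Pool.Agent.H533.GE

open Pool.Agent.H361R2.PP
open Pool.Agent.H533.QM
open Pool.Agent.H533.QS
open Pool.Agent.H533.QA

/-- a positive proportion of the classes has many admissible elements of `A` and not too many
admissible elements of `J` -/
theorem many_F {X q : ℕ} (hq : 1 ≤ q) {A J : Finset (ℕ × ℕ)} {ρ Λ C : ℝ} (hρ : 0 < ρ) (hΛ : 0 < Λ)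
    (hC : 0 < C) (hl : 1 / (ρ * C) ≤ lq X q) (hA : ∀ f ∈ A, IsF q f) (hJ : ∀ f ∈ J, IsF q f)
    (hw : ∀ f ∈ A, gg f.1 ≤ 2 * ww X q f.1)
    (h1 : ρ * Ls X q ≤ ∑ f ∈ A, gg f.1) (h2 : ∑ f ∈ J, gg f.1 ≤ Λ * Ls X q)
    (h3 : pairF A ≤ C * (∑ f ∈ A, gg f.1) ^ 2) :
    (Wq X q : ℝ) / (64 * C) ≤ (((range (Wq X q)).filter (fun b =>
      ((admF X q b J).card : ℝ) ≤ (64 * C * Λ + ρ) * lq X q ∧
      ρ / 4 * lq X q ≤ ((admF X q b A).card : ℝ))).card : ℝ) := by
  classical
  have hW0 := Wq_pos X q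
  have hWr : (0 : ℝ) < Wq X q := by exact_mod_cast hW0
  have hφ : (0 : ℝ) < Nat.totient (Wq X q) := by exact_mod_cast Nat.totient_pos.2 hW0
  have hl0 : 0 < lq X q := lt_of_lt_of_le (by positivity) hl
  have hlW : lq X q * Wq X q = Ls X q * Nat.totient (Wq X q) := by
    unfold lq
    field_simp
  have hL : 0 < Ls X q := by
    by_contra hcon
    rw [not_lt] at hcon
    have h4 : lq X q * Wq X q ≤ 0 := by
      rw [hlW]
      exact mul_nonpos_of_nonpos_of_nonneg hcon hφ.le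
    have h5 := mul_pos hl0 hWr
    linarith
  have hA0 : (0 : ℝ) < ∑ f ∈ A, gg f.1 := lt_of_lt_of_le (by positivity) h1
  obtain ⟨W, hW⟩ : ∃ W : ℝ, W = Wq X q := ⟨_, rfl⟩
  obtain ⟨F, hF⟩ : ∃ F : ℝ, F = Nat.totient (Wq X q) := ⟨_, rfl⟩
  obtain ⟨a, ha⟩ : ∃ a : ℝ, a = ∑ f ∈ A, gg f.1 := ⟨_, rfl⟩
  rw [← hW] at hWr hlW
  rw [← hF] at hφ hlW
  rw [← ha] at hA0 h1 h3
  have hs1 : a * F / 2 ≤ ∑ b ∈ range (Wq X q), ((admF X q b A).card : ℝ) := by
    rw [momF1 hA, ← hF]
    have h4 : a / 2 ≤ ∑ f ∈ A, ww X q f.1 := by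
      rw [ha, div_le_iff₀ (by norm_num), sum_mul]
      apply sum_le_sum
      intro f hf
      have := hw f hf
      linarith
    calc a * F / 2 = F * (a / 2) := by ring
      _ ≤ _ := mul_le_mul_of_nonneg_left h4 hφ.le
  have hs2 : ∑ b ∈ range (Wq X q), ((admF X q b A).card : ℝ) ^ 2 ≤ 2 * C * (a * F) ^ 2 / W := by
    have h4 := momF2 (X := X) hA
    rw [← hW, ← hF, ← ha] at h4
    refine h4.trans ?_
    have h5 : 1 ≤ C * (a * F / W) := by
      have h6 : ρ * lq X q ≤ a * F / W := by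
        rw [le_div_iff₀ hWr, mul_assoc, hlW, ← mul_assoc]
        exact mul_le_mul_of_nonneg_right h1 hφ.le
      have h7 : 1 ≤ C * (ρ * lq X q) := by
        rw [div_le_iff₀ (by positivity)] at hl
        linarith
      exact h7.trans (mul_le_mul_of_nonneg_left h6 hC.le)
    have h8 : F * a ≤ C * (a * F) ^ 2 / W := by
      calc F * a = a * F * 1 := by ring
        _ ≤ a * F * (C * (a * F / W)) := mul_le_mul_of_nonneg_left h5 (by positivity)
        _ = _ := by ring
    have h9 : W * ((F / W) ^ 2 * pairF A) ≤ C * (a * F) ^ 2 / W := by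
      calc W * ((F / W) ^ 2 * pairF A) ≤ W * ((F / W) ^ 2 * (C * a ^ 2)) := by
            apply mul_le_mul_of_nonneg_left _ hWr.le
            exact mul_le_mul_of_nonneg_left h3 (by positivity)
        _ = _ := by field_simp
    calc F * a + W * ((F / W) ^ 2 * pairF A) ≤ C * (a * F) ^ 2 / W +
          C * (a * F) ^ 2 / W := add_le_add h8 h9
      _ = _ := by ring
  obtain ⟨G, hG⟩ : ∃ G, G = (range (Wq X q)).filter (fun b =>
      ρ / 4 * lq X q ≤ ((admF X q b A).card : ℝ)) := ⟨_, rfl⟩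
  have hGc : W / (32 * C) ≤ (G.card : ℝ) := by
    have hsplit := sum_filter_add_sum_filter_not (range (Wq X q)) (fun b =>
      ρ / 4 * lq X q ≤ ((admF X q b A).card : ℝ)) (fun b => ((admF X q b A).card : ℝ))
    rw [← hG] at hsplit
    have hb : ∑ b ∈ (range (Wq X q)).filter (fun b => ¬ ρ / 4 * lq X q ≤
        ((admF X q b A).card : ℝ)), ((admF X q b A).card : ℝ) ≤ a * F / 4 := by
      calc _ ≤ ∑ b ∈ (range (Wq X q)).filter (fun b => ¬ ρ / 4 * lq X q ≤
            ((admF X q b A).card : ℝ)), ρ / 4 * lq X q := by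
            apply sum_le_sum
            intro b hb
            rw [mem_filter, not_le] at hb
            exact hb.2.le
        _ ≤ ∑ b ∈ range (Wq X q), ρ / 4 * lq X q := by
            apply sum_le_sum_of_subset_of_nonneg (filter_subset _ _)
            intro b _ _
            positivity
        _ = ρ / 4 * (lq X q * W) := by rw [sum_const, card_range, nsmul_eq_mul, hW]; ring
        _ = ρ * Ls X q * F / 4 := by rw [hlW]; ring
        _ ≤ _ := by
            apply div_le_div_of_nonneg_right _ (by norm_num)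
            exact mul_le_mul_of_nonneg_right h1 hφ.le
    have hhalf : a * F / 4 ≤ ∑ b ∈ G, ((admF X q b A).card : ℝ) := by linarith
    have hcs := sq_sum_le_card_mul_sum_sq (s := G) (f := fun b => ((admF X q b A).card : ℝ))
    have hG2 : ∑ b ∈ G, ((admF X q b A).card : ℝ) ^ 2 ≤ 2 * C * (a * F) ^ 2 / W := by
      refine le_trans ?_ hs2
      apply sum_le_sum_of_subset_of_nonneg
      · rw [hG]; exact filter_subset _ _
      · intro b _ _
        positivity
    have h4 : (a * F / 4) ^ 2 ≤ G.card * (2 * C * (a * F) ^ 2 / W) := by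
      calc (a * F / 4) ^ 2 ≤ (∑ b ∈ G, ((admF X q b A).card : ℝ)) ^ 2 :=
            pow_le_pow_left₀ (by positivity) hhalf 2
        _ ≤ _ := hcs
        _ ≤ _ := mul_le_mul_of_nonneg_left hG2 (Nat.cast_nonneg _)
    have h5 : (a * F) ^ 2 * 1 ≤ (a * F) ^ 2 * (G.card * (32 * C / W)) := by
      calc (a * F) ^ 2 * 1 = 16 * (a * F / 4) ^ 2 := by ring
        _ ≤ 16 * (G.card * (2 * C * (a * F) ^ 2 / W)) := mul_le_mul_of_nonneg_left h4 (by norm_num)
        _ = _ := by ring
    have h6 := le_of_mul_le_mul_left h5 (by positivity)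
    rw [div_le_iff₀ (by positivity)]
    have h7 : (1 : ℝ) * W ≤ G.card * (32 * C / W) * W := mul_le_mul_of_nonneg_right h6 hWr.le
    have e : (G.card : ℝ) * (32 * C / W) * W = G.card * (32 * C) := by field_simp
    linarith
  -- the classes with too many elements of `J`
  obtain ⟨E, hE⟩ : ∃ E, E = (range (Wq X q)).filter (fun b =>
      64 * C * Λ * lq X q < ((admF X q b J).card : ℝ)) := ⟨_, rfl⟩
  have hEc : (E.card : ℝ) ≤ W / (64 * C) := by
    have h4 : ∑ b ∈ range (Wq X q), ((admF X q b J).card : ℝ) ≤ (Λ * Ls X q) * F := by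
      rw [momF1 hJ, ← hF, mul_comm]
      apply mul_le_mul_of_nonneg_right _ hφ.le
      refine le_trans (sum_le_sum fun f hf => ?_) h2
      exact ww_le (hJ f hf).1
    have h5 : (E.card : ℝ) * (64 * C * Λ * lq X q) ≤ (Λ * Ls X q) * F := by
      refine le_trans ?_ h4
      rw [← nsmul_eq_mul, ← sum_const]
      calc ∑ b ∈ E, 64 * C * Λ * lq X q ≤ ∑ b ∈ E, ((admF X q b J).card : ℝ) := by
            apply sum_le_sum
            intro b hb
            rw [hE, mem_filter] at hb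
            exact hb.2.le
        _ ≤ _ := by
            apply sum_le_sum_of_subset_of_nonneg
            · rw [hE]; exact filter_subset _ _
            · intro b _ _
              positivity
    have h6 : (Λ * Ls X q) * F = Λ * (lq X q * W) := by rw [hlW]; ring
    rw [le_div_iff₀ (by positivity)]
    have h7 : (Λ * lq X q) * (E.card * (64 * C)) ≤ (Λ * lq X q) * W := by
      calc _ = (E.card : ℝ) * (64 * C * Λ * lq X q) := by ring
        _ ≤ _ := h5
        _ = _ := h6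
        _ = _ := by ring
    exact le_of_mul_le_mul_left h7 (by positivity)
  have hsub : G ⊆ E ∪ (range (Wq X q)).filter (fun b =>
      ((admF X q b J).card : ℝ) ≤ (64 * C * Λ + ρ) * lq X q ∧
      ρ / 4 * lq X q ≤ ((admF X q b A).card : ℝ)) := by
    intro b hb
    rw [hG, mem_filter] at hb
    rw [mem_union, hE, mem_filter, mem_filter]
    by_cases h4 : 64 * C * Λ * lq X q < ((admF X q b J).card : ℝ)
    · exact Or.inl ⟨hb.1, h4⟩
    · right
      rw [not_lt] at h4
      refine ⟨hb.1, ?_, hb.2⟩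
      have : 0 < ρ * lq X q := mul_pos hρ hl0
      linarith
  have h8 := (card_le_card hsub).trans (card_union_le _ _)
  have h9 : (G.card : ℝ) ≤ E.card + (((range (Wq X q)).filter (fun b =>
      ((admF X q b J).card : ℝ) ≤ (64 * C * Λ + ρ) * lq X q ∧
      ρ / 4 * lq X q ≤ ((admF X q b A).card : ℝ))).card : ℝ) := by exact_mod_cast h8
  rw [← hW]
  have h10 : W / (32 * C) = W / (64 * C) + W / (64 * C) := by field_simp; ring
  linarith

open Classical in
/-- **Arbitrary sets of linear forms with a bounded second moment** -/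
theorem arbF (m : ℕ) (ρ Λ C : ℝ) (hρ : 0 < ρ) (hΛ : 0 < Λ) (hC : 0 < C) :
    ∃ c : ℝ, 0 < c ∧ ∀ B : ℕ, ∃ X₀ : ℕ, ∀ X : ℕ, X₀ ≤ X → ∀ q : ℕ, 1 ≤ q → q ≤ X →
    ∀ A J : Finset (ℕ × ℕ), A ⊆ J →
    (∀ f ∈ J, IsF q f ∧ (f.1 : ℝ) ≤ Real.log X ^ B ∧ (f.2 : ℝ) ≤ Real.log X ^ B) →
    ρ * Ls X q ≤ ∑ f ∈ A, gg f.1 → ∑ f ∈ J, gg f.1 ≤ Λ * Ls X q →
    pairF A ≤ C * (∑ f ∈ A, gg f.1) ^ 2 →
    c * (fr q * X) ≤
      (((Ico X (2 * X)).filter (fun n => n.Coprime q ∧
        m ≤ (A.filter (fun f => (ff q f n).Prime)).card ∧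
        ∀ f ∈ J, (ff q f n).Prime → f ∈ A)).card : ℝ) := by
  obtain ⟨c, hc, H⟩ := instF 1 m (ρ / 4) (64 * C * Λ + ρ) (by positivity)
    (by nlinarith [mul_pos hC hΛ])
  obtain ⟨c1, hc1⟩ : ∃ c1 : ℝ, c1 = c / (64 * C) := ⟨_, rfl⟩
  have hc10 : 0 < c1 := by rw [hc1]; positivity
  refine ⟨c1 / 2, by positivity, fun B => ?_⟩
  obtain ⟨X1, h1⟩ := H B
  obtain ⟨X2, h2⟩ := excF (c1 / 2 / Λ) B (by positivity)
  obtain ⟨X3, h3⟩ := lq_big (1 / (ρ * C))
  obtain ⟨X4, h4⟩ := sum_Ru (1 / 2) B (by norm_num)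
  have t1 : Tendsto (fun X : ℕ => Real.log (X : ℝ)) atTop atTop :=
    Real.tendsto_log_atTop.comp tendsto_natCast_atTop_atTop
  obtain ⟨X5, h5⟩ := eventually_atTop.1 (t1.eventually_ge_atTop 1)
  refine ⟨X1 + X2 + X3 + X4 + X5 + 2, fun X hX q hq hqX A J hAJ hJ hA hJc hpA => ?_⟩
  have hbig := h3 X (by omega) q hq hqX
  have hW0 := Wq_pos X q
  have hWr : (0 : ℝ) < Wq X q := by exact_mod_cast hW0
  have hfr := fr_pos hq
  have hlog := h5 X (by omega)
  have hmany := many_F hq hρ hΛ hC hbig (fun f hf => (hJ f (hAJ hf)).1) (fun f hf => (hJ f hf).1)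
    (fun f hf => le_ww (hJ f (hAJ hf)).1
      (h4 X (by omega) f.1 (hJ f (hAJ hf)).1.1 (hJ f (hAJ hf)).2.1)) hA hJc hpA
  have hres := h1 X (by omega) q hq hqX J hJ (fun _ => A) (fun _ => hAJ)
  have hset' : (((range (Wq X q)).filter (fun b =>
      ((admF X q b J).card : ℝ) ≤ (64 * C * Λ + ρ) * lq X q ∧
      ρ / 4 * lq X q ≤ ((admF X q b A).card : ℝ))).card : ℝ) ≤ (((range (Wq X q)).filter (fun b =>
      ((admF X q b J).card : ℝ) ≤ (64 * C * Λ + ρ) * lq X q ∧
      ∀ _i : Fin 1, ρ / 4 * lq X q ≤ ((admF X q b A).card : ℝ))).card : ℝ) := by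
    apply Nat.cast_le.2
    apply card_le_card
    intro b hb
    rw [mem_filter] at hb ⊢
    exact ⟨hb.1, hb.2.1, fun _ => hb.2.2⟩
  have hX0 : (0 : ℝ) ≤ X := Nat.cast_nonneg X
  have hexc := h2 X (by omega) q hq hqX J hJ
  have hexc' : c1 / 2 / Λ * ((∑ f ∈ J, gg f.1) * (X / Real.log X)) ≤ c1 / 2 * (fr q * X) := by
    calc c1 / 2 / Λ * ((∑ f ∈ J, gg f.1) * (X / Real.log X)) ≤
          c1 / 2 / Λ * ((Λ * Ls X q) * (X / Real.log X)) := by
          apply mul_le_mul_of_nonneg_left _ (by positivity)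
          exact mul_le_mul_of_nonneg_right hJc (by positivity)
      _ = _ := by
          unfold Ls
          field_simp
  obtain ⟨G1, hG1⟩ : ∃ G1, G1 = (Ico X (2 * X)).filter (fun n => n.Coprime q ∧
      GoodF1 X m (fun _ : Fin 1 => A) J q n) := ⟨_, rfl⟩
  rw [← hG1] at hres
  have hmain : c1 * (fr q * X) ≤ G1.card := by
    calc c1 * (fr q * X) = c * (fr q * (X : ℝ) / Wq X q) * ((Wq X q : ℝ) / (64 * C)) := by
          rw [hc1]
          field_simp
      _ ≤ c * (fr q * (X : ℝ) / Wq X q) * _ :=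
          mul_le_mul_of_nonneg_left (hmany.trans hset') (by positivity)
      _ ≤ _ := hres
  have hsub : G1 ⊆ ((Ico X (2 * X)).filter (fun n => n.Coprime q ∧
        m ≤ (A.filter (fun f => (ff q f n).Prime)).card ∧
        ∀ f ∈ J, (ff q f n).Prime → f ∈ A)) ∪
      (Ico X (2 * X)).filter (fun n => ∃ f ∈ J, (ff q f n).Prime ∧ ¬ Pf X q f n) := by
    intro n hn
    rw [hG1, mem_filter] at hn
    rw [mem_union]
    by_cases hex : ∃ f ∈ J, (ff q f n).Prime ∧ ¬ Pf X q f n
    · exact Or.inr (mem_filter.2 ⟨hn.1, hex⟩)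
    · left
      push Not at hex
      obtain ⟨hn1, hn2, hn3, hn4⟩ := hn
      refine mem_filter.2 ⟨hn1, hn2, ?_, ?_⟩
      · have h6 : m ≤ (A.filter (fun f => Pf X q f n)).card := by
          by_contra hcon
          rw [filter_false_of_mem (fun _ _ => hcon)] at hn3
          simp at hn3
        refine h6.trans (card_le_card ?_)
        intro f hf
        rw [mem_filter] at hf ⊢
        exact ⟨hf.1, hf.2.1⟩
      · intro f hf hp
        obtain ⟨_, hi⟩ := hn4 f hf (hex f hf hp)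
        exact hi
  have h6 := (card_le_card hsub).trans (card_union_le _ _)
  have h7 : (G1.card : ℝ) ≤ (((Ico X (2 * X)).filter (fun n => n.Coprime q ∧
        m ≤ (A.filter (fun f => (ff q f n).Prime)).card ∧
        ∀ f ∈ J, (ff q f n).Prime → f ∈ A)).card : ℝ) +
      (((Ico X (2 * X)).filter (fun n => ∃ f ∈ J, (ff q f n).Prime ∧ ¬ Pf X q f n)).card : ℝ) := by
    exact_mod_cast h6
  linarith

end Pool.Agent.H533.GE
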