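import Pool.Agent.H533.GE.FinF

/-!
Moments of `n / φ(n)` and sums over sets of integers.
-/

set_option autoImplicit false

open Finset Filter Topology

namespace Pool.Agent.H533.GE

open Pool.Agent.H361R2.PP
open Pool.Agent.H533.QM
open Pool.Agent.H533.QS
open Pool.Agent.H533.QA

/-- `n / φ(n)` as a product -/
theorem gg_prod {n : ℕ} (hn : 1 ≤ n) : gg n = ∏ p ∈ n.primeFactors, (1 - 1 / (p : ℝ))⁻¹ := by
  unfold gg
  rw [ratio_prod hn]

theorem one_add_pow_le (k : ℕ) {x : ℝ} (h0 : 0 ≤ x) (h1 : x ≤ 1) :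
    (1 + x) ^ k ≤ 1 + (2 ^ k - 1) * x := by
  induction k with
  | zero => simp
  | succ k ih =>
    have h2 : (0 : ℝ) ≤ 2 ^ k - 1 := by
      have : (1 : ℝ) ≤ 2 ^ k := one_le_pow₀ (by norm_num)
      linarith
    calc (1 + x) ^ (k + 1) = (1 + x) ^ k * (1 + x) := pow_succ _ _
      _ ≤ (1 + (2 ^ k - 1) * x) * (1 + x) := mul_le_mul_of_nonneg_right ih (by linarith)
      _ ≤ 1 + (2 ^ (k + 1) - 1) * x := by
        rw [pow_succ]
        nlinarith [mul_nonneg h2 (mul_nonneg h0 (sub_nonneg.2 h1))]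

/-- the local factor of the `k`-th moment -/
theorem loc_pow (k : ℕ) {p : ℕ} (hp : p.Prime) :
    ((1 - 1 / (p : ℝ))⁻¹) ^ k ≤ 1 + 2 ^ (k + 1) / p := by
  have hp2 : (2 : ℝ) ≤ p := by exact_mod_cast hp.two_le
  have h1 : (1 - 1 / (p : ℝ))⁻¹ = 1 + 1 / ((p : ℝ) - 1) := by
    have h2 : (p : ℝ) - 1 ≠ 0 := by linarith
    have h3 : (p : ℝ) ≠ 0 := by linarith
    have h4 : 1 - 1 / (p : ℝ) = (p - 1) / p := by field_simp
    rw [h4, inv_div]
    field_simp
    ring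
  rw [h1]
  have h5 : 1 / ((p : ℝ) - 1) ≤ 1 := by
    rw [div_le_one (by linarith)]
    linarith
  have h6 : (0 : ℝ) ≤ 1 / ((p : ℝ) - 1) := by
    apply div_nonneg zero_le_one
    linarith
  refine (one_add_pow_le k h6 h5).trans ?_
  have h7 : 1 / ((p : ℝ) - 1) ≤ 2 / p := by
    rw [div_le_div_iff₀ (by linarith) (by linarith)]
    linarith
  have h8 : (1 : ℝ) ≤ 2 ^ k := one_le_pow₀ (by norm_num)
  have h9 : (2 ^ k - 1) * (1 / ((p : ℝ) - 1)) ≤ 2 ^ k * (2 / p) :=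
    mul_le_mul (by linarith) h7 h6 (by positivity)
  have h10 : (2 : ℝ) ^ (k + 1) / p = 2 ^ k * (2 / p) := by rw [pow_succ]; ring
  rw [h10]
  linarith

open Classical in
/-- the moments of `n / φ(n)` -/
theorem gmom (k : ℕ) : ∃ C : ℝ, 1 ≤ C ∧ ∀ N : ℕ, ∑ n ∈ Icc 1 N, gg n ^ k ≤ C * N := by
  refine ⟨Real.exp (2 ^ (k + 1) * ∑' n : ℕ, 1 / (n : ℝ) ^ 2), ?_, fun N => ?_⟩
  · apply Real.one_le_exp
    apply mul_nonneg (by positivity)
    exact tsum_nonneg fun n => by positivity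
  obtain ⟨P, hP⟩ : ∃ P, P = (Icc 1 N).filter Nat.Prime := ⟨_, rfl⟩
  have hPp : ∀ p ∈ P, p.Prime := fun p hp => by rw [hP, mem_filter] at hp; exact hp.2
  -- pointwise bound
  have h1 : ∀ n ∈ Icc 1 N, gg n ^ k ≤ ∑ s ∈ P.powerset,
      if (∏ p ∈ s, p) ∣ n then ∏ p ∈ s, (2 ^ (k + 1) / (p : ℝ)) else 0 := by
    intro n hn
    rw [mem_Icc] at hn
    rw [gg_prod hn.1, ← prod_pow]
    have h2 : n.primeFactors = P.filter (fun p => p ∣ n) := by
      ext p
      rw [Nat.mem_primeFactors, mem_filter, hP, mem_filter, mem_Icc]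
      constructor
      · rintro ⟨a, b, c⟩
        exact ⟨⟨⟨a.one_le, (Nat.le_of_dvd (by omega) b).trans hn.2⟩, a⟩, b⟩
      · rintro ⟨⟨_, a⟩, b⟩
        exact ⟨a, b, by omega⟩
    calc ∏ p ∈ n.primeFactors, ((1 - 1 / (p : ℝ))⁻¹) ^ k ≤
          ∏ p ∈ n.primeFactors, (1 + 2 ^ (k + 1) / (p : ℝ)) := by
          apply Finset.prod_le_prod
          · intro p hp
            have := one_sub_pos (Nat.prime_of_mem_primeFactors hp)
            positivity
          · intro p hp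
            exact loc_pow k (Nat.prime_of_mem_primeFactors hp)
      _ = ∑ s ∈ n.primeFactors.powerset, ∏ p ∈ s, (2 ^ (k + 1) / (p : ℝ)) := by
          rw [prod_one_add]
      _ = ∑ s ∈ P.powerset.filter (fun s => (∏ p ∈ s, p) ∣ n), ∏ p ∈ s, (2 ^ (k + 1) / (p : ℝ)) := by
          apply sum_congr _ (fun _ _ => rfl)
          ext s
          rw [mem_powerset, mem_filter, mem_powerset, h2]
          constructor
          · intro hs
            refine ⟨hs.trans (filter_subset _ _), ?_⟩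
            apply Finset.prod_primes_dvd
            · intro p hp
              exact (hPp p ((filter_subset _ _) (hs hp))).prime
            · intro p hp
              exact (mem_filter.1 (hs hp)).2
          · rintro ⟨hs, hd⟩ p hp
            exact mem_filter.2 ⟨hs hp, (dvd_prod_of_mem _ hp).trans hd⟩
      _ = _ := by rw [sum_filter]
  have h3 : ∀ s ∈ P.powerset, ∑ n ∈ Icc 1 N,
      (if (∏ p ∈ s, p) ∣ n then ∏ p ∈ s, (2 ^ (k + 1) / (p : ℝ)) else 0) ≤
      N * ∏ p ∈ s, (2 ^ (k + 1) / (p : ℝ) / p) := by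
    intro s hs
    rw [mem_powerset] at hs
    have hpos : (0 : ℝ) < ∏ p ∈ s, (p : ℝ) := prod_pos fun p hp => by
      exact_mod_cast (hPp p (hs hp)).pos
    have h4 : ((Icc 1 N).filter (fun n => (∏ p ∈ s, p) ∣ n)).card = N / ∏ p ∈ s, p := by
      have := Nat.Ioc_filter_dvd_card_eq_div N (∏ p ∈ s, p)
      rw [← this]
      congr 1
    rw [← sum_filter, sum_const, nsmul_eq_mul, h4, prod_div_distrib (f := fun p : ℕ => (2 ^ (k + 1) / (p : ℝ)))]
    have h5 : ((N / ∏ p ∈ s, p : ℕ) : ℝ) ≤ N / ∏ p ∈ s, (p : ℝ) := by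
      have := Nat.cast_div_le (α := ℝ) (m := N) (n := ∏ p ∈ s, p)
      push_cast at this
      exact this
    have h6 : (0 : ℝ) ≤ ∏ p ∈ s, (2 ^ (k + 1) / (p : ℝ)) := prod_nonneg fun p _ => by positivity
    calc ((N / ∏ p ∈ s, p : ℕ) : ℝ) * ∏ p ∈ s, (2 ^ (k + 1) / (p : ℝ)) ≤
          (N / ∏ p ∈ s, (p : ℝ)) * ∏ p ∈ s, (2 ^ (k + 1) / (p : ℝ)) :=
          mul_le_mul_of_nonneg_right h5 h6
      _ = _ := by ring
  calc ∑ n ∈ Icc 1 N, gg n ^ k ≤ ∑ n ∈ Icc 1 N, ∑ s ∈ P.powerset,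
      (if (∏ p ∈ s, p) ∣ n then ∏ p ∈ s, (2 ^ (k + 1) / (p : ℝ)) else 0) := sum_le_sum h1
    _ = ∑ s ∈ P.powerset, ∑ n ∈ Icc 1 N,
      (if (∏ p ∈ s, p) ∣ n then ∏ p ∈ s, (2 ^ (k + 1) / (p : ℝ)) else 0) := sum_comm
    _ ≤ ∑ s ∈ P.powerset, N * ∏ p ∈ s, (2 ^ (k + 1) / (p : ℝ) / p) := sum_le_sum h3
    _ = N * ∏ p ∈ P, (1 + 2 ^ (k + 1) / (p : ℝ) / p) := by rw [prod_one_add, mul_sum]
    _ ≤ N * Real.exp (∑ p ∈ P, 2 ^ (k + 1) / (p : ℝ) / p) := by
        apply mul_le_mul_of_nonneg_left _ (Nat.cast_nonneg N)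
        rw [Real.exp_sum]
        apply Finset.prod_le_prod
        · intro p _; positivity
        · intro p _
          have := Real.add_one_le_exp (2 ^ (k + 1) / (p : ℝ) / p)
          linarith
    _ ≤ N * Real.exp (2 ^ (k + 1) * ∑' n : ℕ, 1 / (n : ℝ) ^ 2) := by
        apply mul_le_mul_of_nonneg_left _ (Nat.cast_nonneg N)
        apply Real.exp_le_exp.2
        have e : ∑ p ∈ P, 2 ^ (k + 1) / (p : ℝ) / p = 2 ^ (k + 1) * ∑ p ∈ P, 1 / (p : ℝ) ^ 2 := by
          rw [mul_sum]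
          apply sum_congr rfl
          intro p _
          rw [div_div, sq]
          ring
        rw [e]
        apply mul_le_mul_of_nonneg_left _ (by positivity)
        exact Summable.sum_le_tsum P (fun _ _ => by positivity)
          (Real.summable_one_div_nat_pow.2 (by norm_num))
    _ = _ := mul_comm _ _

end Pool.Agent.H533.GE
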