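import Pool.Agent.H533.GE.EqF

/-!
Linear forms `u n + v q`: one class modulo `Wq X q`.
-/

set_option autoImplicit false

open Finset Filter Topology

namespace Pool.Agent.H533.GE

open Pool.Agent.H361R2.PP
open Pool.Agent.H20R2.EQI (ev_large)
open Pool.Agent.H533.QM
open Pool.Agent.H533.QS
open Pool.Agent.H533.QA

/-- the integer divided by the primes at which two forms collide -/
def eF (f g : ℕ × ℕ) : ℕ := f.1 * g.1 * ((f.2 : ℤ) * g.1 - (g.2 : ℤ) * f.1).natAbs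

theorem eF_pos {q : ℕ} {f g : ℕ × ℕ} (hf : IsF q f) (hg : IsF q g) (h : f ≠ g) : 0 < eF f g := by
  unfold eF
  refine Nat.mul_pos (Nat.mul_pos hf.1 hg.1) ?_
  rw [Int.natAbs_pos]
  intro h0
  apply h
  have h1 : f.2 * g.1 = g.2 * f.1 := by
    have : (f.2 : ℤ) * g.1 = (g.2 : ℤ) * f.1 := by linarith
    exact_mod_cast this
  have cf : f.1.Coprime f.2 := Nat.Coprime.coprime_dvd_right (dvd_mul_right _ _) hf.2.2
  have cg : g.1.Coprime g.2 := Nat.Coprime.coprime_dvd_right (dvd_mul_right _ _) hg.2.2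
  have d1 : f.1 ∣ g.1 := by
    apply cf.dvd_of_dvd_mul_left
    rw [h1]
    exact dvd_mul_left _ _
  have d2 : g.1 ∣ f.1 := by
    apply cg.dvd_of_dvd_mul_left
    rw [← h1]
    exact dvd_mul_left _ _
  have e1 := Nat.dvd_antisymm d1 d2
  have e2 : f.2 = g.2 := by
    rw [← e1] at h1
    exact Nat.eq_of_mul_eq_mul_right hf.1 h1
  exact Prod.ext e1 e2

theorem eF_le {L : ℝ} {f g : ℕ × ℕ} (hL : 0 ≤ L) (hf1 : (f.1 : ℝ) ≤ L) (hf2 : (f.2 : ℝ) ≤ L)
    (hg1 : (g.1 : ℝ) ≤ L) (hg2 : (g.2 : ℝ) ≤ L) : (eF f g : ℝ) ≤ L ^ 4 := by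
  unfold eF
  push_cast
  have h1 : |(f.2 : ℝ) * g.1 - g.2 * f.1| ≤ L * L := by
    have a1 : (f.2 : ℝ) * g.1 ≤ L * L := mul_le_mul hf2 hg1 (Nat.cast_nonneg _) hL
    have a2 : (g.2 : ℝ) * f.1 ≤ L * L := mul_le_mul hg2 hf1 (Nat.cast_nonneg _) hL
    have a3 : (0 : ℝ) ≤ (f.2 : ℝ) * g.1 := by positivity
    have a4 : (0 : ℝ) ≤ (g.2 : ℝ) * f.1 := by positivity
    rw [abs_le]
    constructor <;> linarith
  have h2 : (f.1 : ℝ) * g.1 ≤ L * L := mul_le_mul hf1 hg1 (Nat.cast_nonneg _) hL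
  have e : ((((f.2 : ℤ) * g.1 - (g.2 : ℤ) * f.1).natAbs : ℕ) : ℝ) =
      |(f.2 : ℝ) * g.1 - g.2 * f.1| := by
    rw [Nat.cast_natAbs]
    push_cast
    rfl
  rw [e]
  calc (f.1 : ℝ) * g.1 * |(f.2 : ℝ) * g.1 - g.2 * f.1| ≤ (L * L) * (L * L) :=
        mul_le_mul h2 h1 (abs_nonneg _) (by positivity)
    _ = L ^ 4 := by ring

theorem eF_dvd {X q : ℕ} {c : ℕ × ℕ → ℕ} (hc : IsC X q c) {f g : ℕ × ℕ} {p : ℕ} (hp : p.Prime)
    (h1 : HH X < p) (h2 : p ≤ X) (h3 : ¬ p ∣ q) (hr : rho p (c f) = rho p (c g)) : p ∣ eF f g := by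
  unfold eF
  by_cases hu : p ∣ f.1
  · exact (hu.mul_right _).mul_right _
  by_cases hu' : p ∣ g.1
  · exact (hu'.mul_left _).mul_right _
  apply Dvd.dvd.mul_left
  rw [rho_eq_iff hp.one_le] at hr
  have h4 : p ∣ c f * (p - 1) + c f := by
    have : c f * (p - 1) + c f = c f * p := by
      obtain ⟨k, hk⟩ : ∃ k, p = k + 1 := ⟨p - 1, by have := hp.one_le; omega⟩
      rw [hk, Nat.add_sub_cancel]
      ring
    rw [this]
    exact dvd_mul_left _ _
  have h5 : p ∣ c f * (p - 1) + c g := by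
    have : c f * (p - 1) + c f ≡ c f * (p - 1) + c g [MOD p] := hr.add_left _
    exact (this.dvd_iff dvd_rfl).1 h4
  have h6 := ((hc f p hp h1 h2 h3).1 hu _).1 h4
  have h7 := ((hc g p hp h1 h2 h3).1 hu' _).1 h5
  generalize c f * (p - 1) = n at h6 h7
  unfold ff at h6 h7
  have h6' : (p : ℤ) ∣ (f.1 : ℤ) * n + f.2 * q := by exact_mod_cast h6
  have h7' : (p : ℤ) ∣ (g.1 : ℤ) * n + g.2 * q := by exact_mod_cast h7
  have h8 : (p : ℤ) ∣ (q : ℤ) * ((f.2 : ℤ) * g.1 - (g.2 : ℤ) * f.1) := by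
    have := dvd_sub (h6'.mul_left (g.1 : ℤ)) (h7'.mul_left (f.1 : ℤ))
    have e : (g.1 : ℤ) * ((f.1 : ℤ) * n + f.2 * q) - (f.1 : ℤ) * ((g.1 : ℤ) * n + g.2 * q) =
        (q : ℤ) * ((f.2 : ℤ) * g.1 - (g.2 : ℤ) * f.1) := by ring
    rwa [e] at this
  have hpI : Prime (p : ℤ) := Nat.prime_iff_prime_int.1 hp
  rcases hpI.dvd_or_dvd h8 with h | h
  · exact absurd (by exact_mod_cast h) h3
  · rw [← Int.natCast_dvd]
    exact h

theorem sepF (N B : ℕ) (d : ℝ) (hd : 0 < d) : ∃ X₀ : ℕ, ∀ X : ℕ, X₀ ≤ X → ∀ q : ℕ,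
    ∀ c : ℕ × ℕ → ℕ, IsC X q c → ∀ J : Finset (ℕ × ℕ),
    (∀ f ∈ J, IsF q f ∧ (f.1 : ℝ) ≤ Real.log X ^ B ∧ (f.2 : ℝ) ≤ Real.log X ^ B) →
    SepX N d X q (J.image c) := by
  obtain ⟨X₀, h⟩ := sepX_of N (B * 4) d hd
  refine ⟨X₀, fun X hX q c hc J hJ => h X hX q _ fun a ha b hb hab => ?_⟩
  rw [mem_image] at ha hb
  obtain ⟨f, hf, rfl⟩ := ha
  obtain ⟨g, hg, rfl⟩ := hb
  obtain ⟨f1, f2, f3⟩ := hJ f hf
  obtain ⟨g1, g2, g3⟩ := hJ g hg
  have hlog : 0 ≤ Real.log X := Real.log_natCast_nonneg X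
  refine ⟨eF f g, eF_pos f1 g1 (fun h => hab (by rw [h])), ?_, fun p hp h1 h2 h3 hr =>
    eF_dvd hc hp h1 h2 h3 hr⟩
  rw [pow_mul]
  exact eF_le (by positivity) f2 f3 g2 g3

/-- the forms which are admissible for the class `b` -/
noncomputable def admF (X q b : ℕ) (J : Finset (ℕ × ℕ)) : Finset (ℕ × ℕ) :=
  J.filter (fun f => (f.1 * b + f.2 * q).Coprime (Wq X q))

theorem mem_admF {X q b : ℕ} {f : ℕ × ℕ} {J : Finset (ℕ × ℕ)} :
    f ∈ admF X q b J ↔ f ∈ J ∧ (f.1 * b + f.2 * q).Coprime (Wq X q) := by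
  unfold admF
  rw [mem_filter]

open Classical in
/-- the integers prime to `q`: level of distribution for the forms -/
theorem lvlF (K A B : ℕ) (θ : ℝ) (hθ : 0 < θ) (hθ1 : θ ≤ 1 / 32) : ∃ X₀ : ℕ,
    ∀ X : ℕ, X₀ ≤ X → ∀ q : ℕ, 1 ≤ q → q ≤ X → ∀ c : ℕ × ℕ → ℕ, Function.Injective c → IsC X q c →
    ∀ b : ℕ, b < Wq X q → ∀ J : Finset (ℕ × ℕ),
    (∀ f ∈ J, IsF q f ∧ (f.1 : ℝ) ≤ Real.log X ^ B ∧ (f.2 : ℝ) ≤ Real.log X ^ B) →
    LevelT (TF X q c) K A (B + 1) θ X q ((admF X q b J).image c) (Sc X q b)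
      (fr q * (X : ℝ) / Wq X q) (fun y => OmF X q (Function.invFun c y)) := by
  obtain ⟨X1, h1⟩ := eqIntq K A θ hθ hθ1
  obtain ⟨X2, h2⟩ := eqF K A B θ hθ hθ1
  obtain ⟨X3, h3⟩ := ev_large 3 B 1 one_pos
  have t1 : Tendsto (fun X : ℕ => Real.log (X : ℝ)) atTop atTop :=
    Real.tendsto_log_atTop.comp tendsto_natCast_atTop_atTop
  obtain ⟨X4, h4⟩ := eventually_atTop.1 (t1.eventually_ge_atTop 1)
  refine ⟨X1 + X2 + X3 + X4 + 3, fun X hX q hq hqX c hcinj hc b hb J hJ => ?_⟩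
  have hW0 := Wq_pos X q
  have hX0 : 0 < X := by omega
  have hX0r : (0 : ℝ) < X := by exact_mod_cast hX0
  have hL1 := h4 X (by omega)
  have hL3 := h3 X (by omega)
  rw [Real.rpow_one] at hL3
  have hqr : (q : ℝ) ≤ X := by exact_mod_cast hqX
  have hinv : ∀ f, Function.invFun c (c f) = f := Function.leftInverse_invFun hcinj
  refine ⟨?_, ?_, ?_, ?_, ?_, ?_⟩
  · have : (0 : ℝ) < ((Wq X q : ℕ) : ℝ) := by exact_mod_cast hW0
    have := fr_pos hq
    positivity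
  · intro y
    unfold OmF Pry
    positivity
  · intro n hn a ha
    rw [mem_image] at ha
    obtain ⟨f, hf, rfl⟩ := ha
    rw [mem_admF] at hf
    obtain ⟨g1, g2, g3⟩ := hJ f hf.1
    have hn2 := (mem_Sc.1 hn).1
    have hn2r : (n : ℝ) ≤ 2 * X := by exact_mod_cast hn2.2.le
    refine ⟨ff q f n, ?_, ?_, ?_⟩
    · unfold ff
      have := Nat.mul_pos g1.2.1 hq
      omega
    · unfold ff
      push_cast
      have e1 : (f.1 : ℝ) * n ≤ Real.log X ^ B * (2 * X) :=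
        mul_le_mul g2 hn2r (Nat.cast_nonneg _) (by positivity)
      have e2 : (f.2 : ℝ) * q ≤ Real.log X ^ B * X :=
        mul_le_mul g3 hqr (Nat.cast_nonneg _) (by positivity)
      have e3 : (X : ℝ) ^ (2 : ℝ) = X * X := by
        rw [show (2 : ℝ) = ((2 : ℕ) : ℝ) by norm_num, Real.rpow_natCast]
        ring
      rw [e3]
      have e4 : 3 * Real.log X ^ B * X ≤ X * X := mul_le_mul_of_nonneg_right hL3 hX0r.le
      linarith
    · intro p hp hpq hpL hpX hpd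
      have hBB : Real.log X ^ B ≤ Real.log X ^ (B + 1) := pow_le_pow_right₀ hL1 (by omega)
      have hpu : ¬ p ∣ f.1 := by
        intro h
        have h5 := Nat.le_of_dvd g1.1 h
        have h6 : (p : ℝ) ≤ f.1 := by exact_mod_cast h5
        linarith
      have hHp : HH X < p := by
        have h5 : (HH X : ℝ) ≤ Real.log X := by
          unfold HH
          have h6 := Nat.floor_le (show 0 ≤ Real.log (Real.log X) / 4 by
            have := Real.log_nonneg hL1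
            positivity)
          have h7 := Real.log_le_sub_one_of_pos (show 0 < Real.log X by linarith)
          linarith
        have h6 : Real.log X ≤ Real.log X ^ (B + 1) := by
          calc Real.log X = Real.log X ^ 1 := (pow_one _).symm
            _ ≤ _ := pow_le_pow_right₀ hL1 (by omega)
        have h7 : (HH X : ℝ) < p := by linarith
        exact_mod_cast h7
      exact ((hc f p hp hHp hpX hpq).1 hpu n).1 hpd
  · intro n hn a ha hT p hp hpq hHp hpX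
    rw [mem_image] at ha
    obtain ⟨f, hf, rfl⟩ := ha
    rw [mem_admF] at hf
    rw [TF_code hcinj] at hT
    exact ok_F hq hqX hc (hJ f hf.1).1 hn hT hp hHp hpX hpq
  · intro P hP
    exact h1 X (by omega) q hq hqX b hb P hP
  · intro y hy P hP
    rw [mem_image] at hy
    obtain ⟨f, hf, rfl⟩ := hy
    rw [mem_admF] at hf
    obtain ⟨g1, g2, g3⟩ := hJ f hf.1
    simp only [hinv]
    exact h2 X (by omega) q hq hqX c hcinj hc b hb f g1 g2 g3 hf.2 P hP

/-- the expected number of primes -/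
theorem densF (s : ℝ) (B : ℕ) (hs : 0 < s) : ∃ X₀ : ℕ,
    ∀ X : ℕ, X₀ ≤ X → ∀ q : ℕ, 1 ≤ q → q ≤ X → ∀ f : ℕ × ℕ, IsF q f → (f.1 : ℝ) ≤ Real.log X ^ B →
    (f.2 : ℝ) ≤ Real.log X ^ B →
    lq X q * OmF X q f ≤ (1 + s) * (fr q * (X : ℝ) / Wq X q) ∧
    (1 - s) * (fr q * (X : ℝ) / Wq X q) ≤ lq X q * OmF X q f := by
  obtain ⟨X1, h1⟩ := pntB (s / 2) B (by positivity)
  have t1 : Tendsto (fun X : ℕ => Real.log (X : ℝ)) atTop atTop :=
    Real.tendsto_log_atTop.comp tendsto_natCast_atTop_atTop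
  obtain ⟨X3, h3⟩ := eventually_atTop.1 (t1.eventually_ge_atTop 1)
  have e3 : ∀ᶠ X : ℕ in atTop, (B : ℝ) * Real.log (Real.log X) ≤ (s / 2) * Real.log X := by
    have hb := (Real.isLittleO_log_id_atTop.comp_tendsto t1).bound
      (c := s / 2 / (B + 1)) (by positivity)
    filter_upwards [hb, t1.eventually_ge_atTop 1] with x hx hx2
    simp only [Function.comp, id] at hx
    have h1 := (le_abs_self _).trans hx
    rw [Real.norm_eq_abs, abs_of_nonneg (by linarith)] at h1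
    have hB0 : (0 : ℝ) ≤ B := Nat.cast_nonneg B
    calc (B : ℝ) * Real.log (Real.log x) ≤ B * (s / 2 / (B + 1) * Real.log x) :=
          mul_le_mul_of_nonneg_left h1 hB0
      _ = (B / (B + 1)) * (s / 2 * Real.log x) := by ring
      _ ≤ 1 * (s / 2 * Real.log x) := by
          apply mul_le_mul_of_nonneg_right _ (by have : 0 ≤ Real.log x := by linarith
                                                 positivity)
          rw [div_le_one (by positivity)]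
          linarith
      _ = _ := one_mul _
  obtain ⟨X4, h4⟩ := eventually_atTop.1 e3
  refine ⟨X1 + X3 + X4 + 3, fun X hX q hq hqX f hf hf1 hf2 => ?_⟩
  have hL1 := h3 X (by omega)
  have hLL := h4 X (by omega)
  have hlog0 : 0 < Real.log X := by linarith
  have hX0 : 0 < X := by omega
  have hX0r : (0 : ℝ) < X := by exact_mod_cast hX0
  have hu := hf.1
  have hur : (1 : ℝ) ≤ f.1 := by exact_mod_cast hu
  have hXX : X ≤ f.1 * X := Nat.le_mul_of_pos_left X hu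
  have hXXr : (X : ℝ) ≤ ((f.1 * X : ℕ) : ℝ) := by exact_mod_cast hXX
  have hlogle : Real.log X ≤ Real.log ((f.1 * X : ℕ) : ℝ) := Real.log_le_log hX0r hXXr
  have hyX : ((f.2 * q : ℕ) : ℝ) ≤ ((f.1 * X : ℕ) : ℝ) * Real.log ((f.1 * X : ℕ) : ℝ) ^ B := by
    push_cast
    have hqr : (q : ℝ) ≤ X := by exact_mod_cast hqX
    have e2 : (f.2 : ℝ) ≤ Real.log ((f.1 : ℝ) * X) ^ B := by
      refine hf2.trans ?_
      have := pow_le_pow_left₀ hlog0.le hlogle B
      push_cast at this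
      exact this
    have e3 : (0 : ℝ) ≤ Real.log ((f.1 : ℝ) * X) ^ B := le_trans (Nat.cast_nonneg _) e2
    calc (f.2 : ℝ) * q ≤ Real.log ((f.1 : ℝ) * X) ^ B * X :=
          mul_le_mul e2 hqr (Nat.cast_nonneg _) e3
      _ ≤ (f.1 * X) * Real.log ((f.1 : ℝ) * X) ^ B := by
          rw [mul_comm]
          apply mul_le_mul_of_nonneg_right _ e3
          nlinarith
  obtain ⟨g1, g2⟩ := h1 (f.1 * X) (by omega) (f.2 * q) hyX
  have hW0 := Wq_pos X q
  have hWr : (0 : ℝ) < Wq X q := by exact_mod_cast hW0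
  have hφW : (0 : ℝ) < Nat.totient (Wq X q) := by exact_mod_cast Nat.totient_pos.2 hW0
  have hfr := fr_pos hq
  obtain ⟨Q, hQ⟩ : ∃ Q, Q = Pry (f.1 * X) (f.2 * q) := ⟨_, rfl⟩
  have hQ0 : 0 ≤ Q := by rw [hQ]; unfold Pry; positivity
  rw [← hQ] at g1 g2
  have hkey : lq X q * OmF X q f = fr q / Wq X q * (Real.log X * Q / f.1) := by
    unfold lq Ls OmF
    rw [← hQ]
    field_simp
  have hcast : ((f.1 * X : ℕ) : ℝ) = f.1 * X := by push_cast; ring
  have hlogu : Real.log ((f.1 * X : ℕ) : ℝ) ≤ (1 + s / 2) * Real.log X := by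
    rw [hcast, Real.log_mul (by linarith) hX0r.ne']
    have h5 : Real.log f.1 ≤ Real.log (Real.log X ^ B) := Real.log_le_log (by linarith) hf1
    rw [Real.log_pow] at h5
    linarith
  rw [hkey]
  constructor
  · have h6 : Real.log X * Q / f.1 ≤ (1 + s) * X := by
      rw [div_le_iff₀ (by linarith)]
      calc Real.log X * Q ≤ Real.log ((f.1 * X : ℕ) : ℝ) * Q :=
            mul_le_mul_of_nonneg_right hlogle hQ0
        _ ≤ (1 + s / 2) * ((f.1 * X : ℕ) : ℝ) := g2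
        _ ≤ (1 + s) * X * f.1 := by
            rw [hcast]
            have : 0 ≤ s * (f.1 * X) := by positivity
            nlinarith
    calc fr q / Wq X q * (Real.log X * Q / f.1) ≤ fr q / Wq X q * ((1 + s) * X) :=
          mul_le_mul_of_nonneg_left h6 (by positivity)
      _ = _ := by ring
  · have h6 : (1 - s) * X ≤ Real.log X * Q / f.1 := by
      rw [le_div_iff₀ (by linarith)]
      have h7 : (1 - s / 2) * (f.1 * X) ≤ (1 + s / 2) * (Real.log X * Q) := by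
        rw [hcast] at g1
        refine g1.trans ?_
        rw [hcast] at hlogu
        calc Real.log (f.1 * X) * Q ≤ (1 + s / 2) * Real.log X * Q :=
              mul_le_mul_of_nonneg_right hlogu hQ0
          _ = _ := by ring
      have h8 : (1 + s / 2) * ((1 - s) * X * f.1) ≤ (1 - s / 2) * (f.1 * X) := by
        have : 0 ≤ s ^ 2 * (f.1 * X) := by positivity
        nlinarith
      exact le_of_mul_le_mul_left (h8.trans h7) (by positivity)
    calc (1 - s) * (fr q * (X : ℝ) / Wq X q) = fr q / Wq X q * ((1 - s) * X) := by ring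
      _ ≤ _ := mul_le_mul_of_nonneg_left h6 (by positivity)

open Classical in
/-- at least `m` values of the forms are prime in at least a quarter of the sets `A i`, and no other
value of the forms `f ∈ J` -/
def GoodF1 {k : ℕ} (X m : ℕ) (A : Fin k → Finset (ℕ × ℕ)) (J : Finset (ℕ × ℕ)) (q n : ℕ) : Prop :=
  k ≤ 4 * ((univ : Finset (Fin k)).filter (fun i => m ≤
      ((A i).filter (fun f => Pf X q f n)).card)).card ∧
    ∀ f ∈ J, Pf X q f n → ∃ i, f ∈ A i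

/-- the values in a class which is not admissible are not prime -/
theorem prime_adm {X q b n : ℕ} {f : ℕ × ℕ} (hq : 1 ≤ q) (hHX : HH X < X) (hf : IsF q f)
    (hn : n ∈ Sc X q b) (hp : (ff q f n).Prime) : (f.1 * b + f.2 * q).Coprime (Wq X q) := by
  have hn1 := mem_Sc.1 hn
  have h1 : (ff q f n).Coprime (Wq X q) := by
    rw [Nat.Prime.coprime_iff_not_dvd hp]
    intro h
    unfold Wq at h
    rw [Prime.dvd_finsetProd_iff hp.prime] at h
    obtain ⟨p, hp1, hp2⟩ := h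
    rw [mem_Sm] at hp1
    have h2 := Nat.le_of_dvd hp1.2.1.pos hp2
    have h8 : n + 1 ≤ ff q f n := by
      unfold ff
      have e1 : 1 * n ≤ f.1 * n := Nat.mul_le_mul_right n hf.1
      have e2 : 1 * 1 ≤ f.2 * q := Nat.mul_le_mul hf.2.1 hq
      omega
    omega
  have h2 : f.1 * b + f.2 * q ≡ ff q f n [MOD Wq X q] := by
    unfold ff
    apply Nat.ModEq.add_right
    apply Nat.ModEq.mul_left
    rw [← hn1.2.1]
    exact Nat.mod_modEq _ _
  rw [Nat.Coprime, h2.gcd_eq]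
  exact h1

open Classical in
/-- one class -/
theorem instF1 (k m : ℕ) (ε Λ : ℝ) (hε : 0 < ε) (hεΛ : ε ≤ Λ) :
    ∃ c : ℝ, 0 < c ∧ ∀ B : ℕ, ∃ X₀ : ℕ, ∀ X : ℕ, X₀ ≤ X → ∀ q : ℕ, 1 ≤ q → q ≤ X →
    ∀ J : Finset (ℕ × ℕ),
    (∀ f ∈ J, IsF q f ∧ (f.1 : ℝ) ≤ Real.log X ^ B ∧ (f.2 : ℝ) ≤ Real.log X ^ B) →
    ∀ b : ℕ, b < Wq X q → ((admF X q b J).card : ℝ) ≤ Λ * lq X q →
    ∀ AA : Fin k → Finset (ℕ × ℕ), (∀ i, AA i ⊆ J) →
    (∀ i, ε * lq X q ≤ ((admF X q b (AA i)).card : ℝ)) →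
    c * (fr q * (X : ℝ) / Wq X q) ≤
      (((Sc X q b).filter (fun n => GoodF1 X m AA J q n)).card : ℝ) := by
  obtain ⟨K, A, N, θ, s, c, d, hθ, hθ1, hs, hs1, hc, hd, H⟩ := mastT k m ε Λ hε hεΛ
  refine ⟨c, hc, fun B => ?_⟩
  obtain ⟨X1, h1⟩ := H (B + 1)
  obtain ⟨X2, h2⟩ := lvlF K A B θ hθ hθ1
  obtain ⟨X3, h3⟩ := sepF N B d hd
  obtain ⟨X4, h4⟩ := densF s B hs
  obtain ⟨X5, h5⟩ := HH_lt
  obtain ⟨X6, h6⟩ := lq_big (1 / (s * ε))
  refine ⟨X1 + X2 + X3 + X4 + X5 + X6 + 3, fun X hX q hq hqX J hJ b hb hcJ AA hAJ hcA => ?_⟩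
  have hX1 : 1 ≤ X := by omega
  have hHX := h5 X (by omega)
  have hbig := h6 X (by omega) q hq hqX
  obtain ⟨co, hinj, hco⟩ := exists_code X q
  have hinv : ∀ f, Function.invFun co (co f) = f := Function.leftInverse_invFun hinj
  have hfr := fr_pos hq
  have hlq0 : 0 < lq X q := lt_of_lt_of_le (by positivity) hbig
  have hsl : 1 ≤ s * (ε * lq X q) := by
    rw [div_le_iff₀ (by positivity)] at hbig
    linarith
  have hadmJ : ∀ f ∈ admF X q b J, IsF q f ∧ (f.1 : ℝ) ≤ Real.log X ^ B ∧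
      (f.2 : ℝ) ≤ Real.log X ^ B := fun f hf => hJ f (mem_admF.1 hf).1
  have hcard : (((admF X q b J).image co).card : ℝ) ≤ (1 + s) * (Λ * lq X q) := by
    rw [card_image_of_injective _ hinj]
    have h0 : 0 ≤ Λ * lq X q := le_trans (Nat.cast_nonneg _) hcJ
    nlinarith
  have hSep : SepX N d X q ((admF X q b J).image co) := h3 X (by omega) q co hco _ hadmJ
  have hlev := h2 X (by omega) q hq hqX co hinj hco b hb J hJ
  -- subsets of the right size
  have hsub : ∀ i, ∃ T ⊆ admF X q b (AA i), T.card = ⌈(1 - s) * (ε * lq X q)⌉₊ := by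
    intro i
    apply exists_subset_card_eq
    apply Nat.ceil_le.2
    refine le_trans ?_ (hcA i)
    nlinarith [mul_pos hε hlq0]
  choose T hT1 hT2 using hsub
  have hcT : ∀ i, |((((T i).image co).card : ℕ) : ℝ) - ε * lq X q| ≤ s * (ε * lq X q) := by
    intro i
    rw [card_image_of_injective _ hinj, hT2 i]
    have g1 := Nat.le_ceil ((1 - s) * (ε * lq X q))
    have g2 := Nat.ceil_lt_add_one (show 0 ≤ (1 - s) * (ε * lq X q) from
      mul_nonneg (by linarith) (by positivity))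
    rw [abs_le]
    constructor
    · linarith
    · linarith
  have hres := h1 X (by omega) q hq hqX (lq X q) rfl (TF X q co) ((admF X q b J).image co) hcard
    hSep (Sc X q b) _ _ hlev
    (fun a ha => by
      rw [mem_image] at ha
      obtain ⟨f, hf, rfl⟩ := ha
      obtain ⟨g1, g2, g3⟩ := hadmJ f hf
      simp only [hinv]
      exact (h4 X (by omega) q hq hqX f g1 g2 g3).1)
    (fun a ha => by
      rw [mem_image] at ha
      obtain ⟨f, hf, rfl⟩ := ha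
      obtain ⟨g1, g2, g3⟩ := hadmJ f hf
      simp only [hinv]
      exact (h4 X (by omega) q hq hqX f g1 g2 g3).2)
    (fun i => (T i).image co)
    (fun i a ha => by
      rw [mem_image] at ha
      obtain ⟨f, hf, rfl⟩ := ha
      apply mem_image_of_mem
      have h8 := mem_admF.1 (hT1 i hf)
      exact mem_admF.2 ⟨hAJ i h8.1, h8.2⟩) hcT
  refine hres.trans (Nat.cast_le.2 (card_le_card ?_))
  intro n hn
  rw [mem_filter] at hn ⊢
  obtain ⟨hn1, hn2, hn3⟩ := hn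
  refine ⟨hn1, ?_, ?_⟩
  · refine hn2.trans ?_
    apply Nat.mul_le_mul_left
    apply card_le_card
    intro i hi
    rw [mem_filter] at hi ⊢
    refine ⟨hi.1, hi.2.trans ?_⟩
    have h8 : ((T i).image co).filter (fun a => TF X q co a n) ⊆
        ((AA i).filter (fun f => Pf X q f n)).image co := by
      intro a ha
      rw [mem_filter, mem_image] at ha
      obtain ⟨⟨f, hf, rfl⟩, h9⟩ := ha
      rw [TF_code hinj] at h9
      apply mem_image_of_mem
      exact mem_filter.2 ⟨(mem_admF.1 (hT1 i hf)).1, h9⟩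
    exact (card_le_card h8).trans card_image_le
  · intro f hf hp
    have h8 : (f.1 * b + f.2 * q).Coprime (Wq X q) :=
      prime_adm hq hHX (hJ f hf).1 hn1 hp.1
    obtain ⟨i, hi⟩ := hn3 (co f) (mem_image_of_mem _ (mem_admF.2 ⟨hf, h8⟩))
      ((TF_code hinj f n).2 hp)
    rw [mem_image] at hi
    obtain ⟨f', hf', h10⟩ := hi
    have h11 : f' = f := hinj h10
    rw [← h11]
    exact ⟨i, (mem_admF.1 (hT1 i hf')).1⟩

open Classical in
/-- **Arbitrary sets of linear forms, every modulus**: the classes `b` modulo `Wq X q` for which the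
sets have the right size -/
theorem instF (k m : ℕ) (ε Λ : ℝ) (hε : 0 < ε) (hεΛ : ε ≤ Λ) :
    ∃ c : ℝ, 0 < c ∧ ∀ B : ℕ, ∃ X₀ : ℕ, ∀ X : ℕ, X₀ ≤ X → ∀ q : ℕ, 1 ≤ q → q ≤ X →
    ∀ J : Finset (ℕ × ℕ),
    (∀ f ∈ J, IsF q f ∧ (f.1 : ℝ) ≤ Real.log X ^ B ∧ (f.2 : ℝ) ≤ Real.log X ^ B) →
    ∀ AA : Fin k → Finset (ℕ × ℕ), (∀ i, AA i ⊆ J) →
    c * (fr q * (X : ℝ) / Wq X q) * (((range (Wq X q)).filter (fun b =>
      ((admF X q b J).card : ℝ) ≤ Λ * lq X q ∧
      ∀ i, ε * lq X q ≤ ((admF X q b (AA i)).card : ℝ))).card : ℝ) ≤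
      (((Ico X (2 * X)).filter (fun n => n.Coprime q ∧ GoodF1 X m AA J q n)).card : ℝ) := by
  obtain ⟨c, hc, H⟩ := instF1 k m ε Λ hε hεΛ
  refine ⟨c, hc, fun B => ?_⟩
  obtain ⟨X₀, h⟩ := H B
  refine ⟨X₀, fun X hX q hq hqX J hJ AA hAJ => ?_⟩
  have hW0 := Wq_pos X q
  obtain ⟨G, hG⟩ : ∃ G, G = (range (Wq X q)).filter (fun b =>
      ((admF X q b J).card : ℝ) ≤ Λ * lq X q ∧
      ∀ i, ε * lq X q ≤ ((admF X q b (AA i)).card : ℝ)) := ⟨_, rfl⟩
  rw [← hG]
  obtain ⟨F, hF⟩ : ∃ F, F = (Ico X (2 * X)).filter (fun n => n.Coprime q ∧ GoodF1 X m AA J q n) :=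
    ⟨_, rfl⟩
  rw [← hF]
  have h1 : ∑ b ∈ G, ((F.filter (fun n => n % Wq X q = b)).card : ℝ) ≤ F.card := by
    have h2 := Finset.sum_card_fiberwise_eq_card_filter F G (fun n => n % Wq X q)
    have h3 := card_filter_le F (fun n => n % Wq X q ∈ G)
    rw [← h2] at h3
    exact_mod_cast h3
  refine le_trans ?_ h1
  rw [mul_comm, ← nsmul_eq_mul, ← sum_const]
  apply sum_le_sum
  intro b hb
  rw [hG, mem_filter, mem_range] at hb
  refine (h X hX q hq hqX J hJ b hb.1 hb.2.1 AA hAJ hb.2.2).trans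
    (Nat.cast_le.2 (card_le_card ?_))
  intro n hn
  rw [mem_filter, mem_Sc] at hn
  rw [hF, mem_filter, mem_filter, mem_Ico]
  exact ⟨⟨hn.1.1, hn.1.2.2, hn.2⟩, hn.1.2.1⟩

end Pool.Agent.H533.GE
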