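import Pool.Agent.H533.QA.Base

/-!
Linear forms: the pairs of positions have few common local classes.
-/

set_option autoImplicit false

open Finset Filter Topology

namespace Pool.Agent.H533.GE

open Pool.Agent.H361R2.PP
open Pool.Agent.H410R2
open Pool.Agent.H442R2.EHI
open Pool.Agent.H804R2.PPSm2

/-- a set of positions in which the pairs of positions have few common local classes -/
def SepX (N : ℕ) (d : ℝ) (X q : ℕ) (PB : Finset ℕ) : Prop :=
  ∀ P : Finset ℕ, (∀ p ∈ P, p.Prime ∧ HH X < p ∧ p ≤ X ∧ ¬ p ∣ q) → ∀ U ⊆ PB, U.card ≤ N →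
    ∀ o : Option ℕ, (∀ a ∈ o, a ∈ PB ∧ a ∉ U) → EN.dl (ee o) rho P U ≤ d

/-- the total local deviation, if the collisions of two positions divide a small integer -/
theorem dl_of (H k : ℕ) (hH : 2 ≤ H) (P U : Finset ℕ) (Y : ℝ) (o : Option ℕ)
    (hP : ∀ p ∈ P, p.Prime ∧ H < p) (hU : U.card ≤ k)
    (hD : ∀ a ∈ U, ∀ b : ℕ, (b ∈ U ∨ b ∈ o) → a ≠ b → ∃ d : ℕ, 0 < d ∧ (d : ℝ) ≤ Y ∧
      ∀ p ∈ P, rho p a = rho p b → p ∣ d)
    (ho : ∀ a ∈ o, a ∉ U)
    (L : ℝ) (hL : Real.log Y ≤ L) (hL0 : 0 ≤ L) :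
    EN.dl (ee o) rho P U ≤ 2 / H + ((k : ℝ) * (k + 1)) * ((L / Real.log ((H : ℝ) + 1)) / H) := by
  classical
  unfold EN.dl
  have hHr : (2 : ℝ) ≤ H := by exact_mod_cast hH
  have hlog : 0 < Real.log ((H : ℝ) + 1) := Real.log_pos (by linarith)
  refine add_le_add (sq_sum H hH P fun p hp => (hP p hp).2) ?_
  -- the collisions
  set W : Finset (ℕ × ℕ) := (U ×ˢ (U ∪ o.toFinset)).filter (fun q => q.1 ≠ q.2) with hW
  set bad : ℕ × ℕ → Finset ℕ := fun q => P.filter (fun p => rho p q.1 = rho p q.2) with hbad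
  have hsub : P.filter (fun p => (∃ a ∈ U, ∃ b ∈ U, a ≠ b ∧ rho p a = rho p b) ∨
      ∃ a ∈ U, rho p a = ee o p) ⊆ W.biUnion bad := by
    intro p hp
    rw [Finset.mem_filter] at hp
    obtain ⟨hpP, hp2⟩ := hp
    have hp0 : 0 < p := (hP p hpP).1.pos
    rw [Finset.mem_biUnion]
    rcases hp2 with ⟨a, ha, b, hb, hab, h⟩ | ⟨a, ha, h⟩
    · refine ⟨(a, b), ?_, ?_⟩
      · rw [hW, Finset.mem_filter, Finset.mem_product]
        exact ⟨⟨ha, Finset.mem_union_left _ hb⟩, hab⟩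
      · rw [hbad, Finset.mem_filter]
        exact ⟨hpP, h⟩
    · cases o with
      | none =>
        exact absurd h (ne_of_lt (rho_lt p a hp0))
      | some a0 =>
        have h0 := ho a0 rfl
        refine ⟨(a, a0), ?_, ?_⟩
        · rw [hW, Finset.mem_filter, Finset.mem_product]
          refine ⟨⟨ha, Finset.mem_union_right _ (by simp)⟩, ?_⟩
          intro hh
          simp only at hh
          subst hh
          exact h0 ha
        · rw [hbad, Finset.mem_filter]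
          exact ⟨hpP, h⟩
  have hpos : ∀ p ∈ P, (0 : ℝ) ≤ 1 / ((p : ℝ) - 1) := by
    intro p hp
    have := (hP p hp).2
    have h1 : (H : ℝ) + 1 ≤ p := by exact_mod_cast this
    exact div_nonneg zero_le_one (by linarith)
  have hWcard : (W.card : ℝ) ≤ (k : ℝ) * (k + 1) := by
    have h1 : W.card ≤ k * (k + 1) := by
      refine (Finset.card_filter_le _ _).trans ?_
      rw [Finset.card_product]
      refine Nat.mul_le_mul hU ?_
      refine (Finset.card_union_le _ _).trans (Nat.add_le_add hU ?_)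
      cases o with
      | none => simp
      | some a => simp
    exact_mod_cast h1
  have hbd : ∀ q ∈ W, ∑ p ∈ bad q, 1 / ((p : ℝ) - 1) ≤ (L / Real.log ((H : ℝ) + 1)) / H := by
    rintro ⟨a, b⟩ hq
    rw [hW, Finset.mem_filter, Finset.mem_product] at hq
    obtain ⟨⟨ha, hb⟩, hab⟩ := hq
    simp only at ha hb hab
    have hb' : b ∈ U ∨ b ∈ o := by
      rcases Finset.mem_union.1 hb with h | h
      · exact Or.inl h
      · rw [Option.mem_toFinset] at h
        exact Or.inr h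
    obtain ⟨d, hd0, hdY, hd⟩ := hD a ha b hb' hab
    have hc := count H d (bad (a, b)) (by
      intro p hp
      rw [hbad, Finset.mem_filter] at hp
      exact ⟨(hP p hp.1).1, (hP p hp.1).2, hd p hp.1 hp.2⟩) hd0
    have hlogd : Real.log d ≤ L :=
      (Real.log_le_log (by exact_mod_cast hd0) hdY).trans hL
    have hcard : ((bad (a, b)).card : ℝ) ≤ L / Real.log ((H : ℝ) + 1) := by
      rw [le_div_iff₀ hlog]
      exact hc.trans hlogd
    have h1 : ∑ p ∈ bad (a, b), 1 / ((p : ℝ) - 1) ≤ ∑ _p ∈ bad (a, b), 1 / (H : ℝ) := by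
      refine Finset.sum_le_sum fun p hp => ?_
      have hpP : p ∈ P := (Finset.mem_filter.1 hp).1
      have h2 := (hP p hpP).2
      have h3 : (H : ℝ) + 1 ≤ p := by exact_mod_cast h2
      exact one_div_le_one_div_of_le (by linarith) (by linarith)
    refine h1.trans ?_
    rw [Finset.sum_const, nsmul_eq_mul, mul_one_div]
    exact div_le_div_of_nonneg_right hcard (by linarith)
  calc ∑ p ∈ P.filter (fun p => (∃ a ∈ U, ∃ b ∈ U, a ≠ b ∧ rho p a = rho p b) ∨
      ∃ a ∈ U, rho p a = ee o p), 1 / ((p : ℝ) - 1)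
      ≤ ∑ p ∈ W.biUnion bad, 1 / ((p : ℝ) - 1) := by
        refine Finset.sum_le_sum_of_subset_of_nonneg hsub fun p hp _ => ?_
        rw [Finset.mem_biUnion] at hp
        obtain ⟨q, _, hq⟩ := hp
        exact hpos p (Finset.mem_filter.1 hq).1
    _ ≤ ∑ q ∈ W, ∑ p ∈ bad q, 1 / ((p : ℝ) - 1) := by
        refine sum_biUnion_le' W bad _ fun p hp => ?_
        rw [Finset.mem_biUnion] at hp
        obtain ⟨q, _, hq⟩ := hp
        exact hpos p (Finset.mem_filter.1 hq).1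
    _ ≤ ∑ _q ∈ W, (L / Real.log ((H : ℝ) + 1)) / H := Finset.sum_le_sum hbd
    _ = (W.card : ℝ) * ((L / Real.log ((H : ℝ) + 1)) / H) := by
        rw [Finset.sum_const, nsmul_eq_mul]
    _ ≤ _ := mul_le_mul_of_nonneg_right hWcard (by positivity)

/-- collisions dividing an integer up to `(log X) ^ B` -/
theorem sepX_of (N B : ℕ) (d : ℝ) (hd : 0 < d) : ∃ X₀ : ℕ, ∀ X : ℕ, X₀ ≤ X → ∀ q : ℕ,
    ∀ PB : Finset ℕ, (∀ a ∈ PB, ∀ b ∈ PB, a ≠ b → ∃ e : ℕ, 0 < e ∧ (e : ℝ) ≤ Real.log X ^ B ∧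
      ∀ p : ℕ, p.Prime → HH X < p → p ≤ X → ¬ p ∣ q → rho p a = rho p b → p ∣ e) →
    SepX N d X q PB := by
  set L : ℝ := (B : ℝ) with hL
  set C1 : ℝ := (N : ℝ) * (N + 1) with hC1
  have hC10 : 0 ≤ C1 := by positivity
  have hL0 : 0 ≤ L := Nat.cast_nonneg B
  -- choice of H0
  obtain ⟨H0, hH0⟩ := exists_nat_ge (max 2 (max (4 / d) (Real.exp (2 * C1 * (8 * L + 8) / d))))
  obtain ⟨X₀, hX₀⟩ := exists_nat_ge (Real.exp (Real.exp (4 * (H0 : ℝ))))
  refine ⟨X₀, fun X hX q PB hPB P hP U hU hUc o ho => ?_⟩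
  have hXr : Real.exp (Real.exp (4 * (H0 : ℝ))) ≤ X := hX₀.trans (by exact_mod_cast hX)
  have hlogX : Real.exp (4 * (H0 : ℝ)) ≤ Real.log X := by
    have := Real.log_le_log (Real.exp_pos _) hXr
    rwa [Real.log_exp] at this
  have hllX : 4 * (H0 : ℝ) ≤ Real.log (Real.log X) := by
    have := Real.log_le_log (Real.exp_pos _) hlogX
    rwa [Real.log_exp] at this
  have hHH : H0 ≤ HH X := by
    unfold HH
    apply Nat.le_floor
    linarith
  set H := HH X with hH
  have hH0r : (H0 : ℝ) ≤ H := by exact_mod_cast hHH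
  have m1 : (2 : ℝ) ≤ H0 := (le_max_left _ _).trans hH0
  have m2 : 4 / d ≤ H0 := (le_max_left _ _).trans ((le_max_right _ _).trans hH0)
  have m3 : Real.exp (2 * C1 * (8 * L + 8) / d) ≤ H0 :=
    (le_max_right _ _).trans ((le_max_right _ _).trans hH0)
  have hH2 : 2 ≤ H := by
    have : (2 : ℝ) ≤ H := m1.trans hH0r
    exact_mod_cast this
  have hHr : (2 : ℝ) ≤ H := by exact_mod_cast hH2
  have hllup : Real.log (Real.log X) ≤ 4 * ((H : ℝ) + 1) := by
    have := Nat.lt_floor_add_one (Real.log (Real.log X) / 4)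
    have h2 : ((⌊Real.log (Real.log X) / 4⌋₊ : ℕ) : ℝ) = H := rfl
    rw [h2] at this
    linarith
  have hlogXpos : 0 < Real.log X := lt_of_lt_of_le (Real.exp_pos _) hlogX
  have hLY : Real.log (Real.log X ^ B) ≤ L * (4 * ((H : ℝ) + 1)) := by
    rw [Real.log_pow]
    exact mul_le_mul_of_nonneg_left hllup hL0
  have h1 := dl_of H N hH2 P U (Real.log X ^ B) o (fun p hp => ⟨(hP p hp).1, (hP p hp).2.1⟩) hUc
    (by
      intro a ha b hb hab
      have hbPB : b ∈ PB := by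
        rcases hb with h | h
        · exact hU h
        · exact (ho b h).1
      obtain ⟨e, he0, he1, he2⟩ := hPB a (hU ha) b hbPB hab
      exact ⟨e, he0, he1, fun p hp hr => he2 p (hP p hp).1 (hP p hp).2.1 (hP p hp).2.2.1
        (hP p hp).2.2.2 hr⟩)
    (fun a ha => (ho a ha).2) (L * (4 * ((H : ℝ) + 1))) hLY (by positivity)
  refine h1.trans ?_
  have hlog : 0 < Real.log ((H : ℝ) + 1) := Real.log_pos (by linarith)
  have h2 : 2 / (H : ℝ) ≤ d / 2 := by
    rw [div_le_iff₀ (by linarith)]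
    have h3 : 4 / d ≤ H := m2.trans hH0r
    rw [div_le_iff₀ hd] at h3
    linarith
  have h3 : (L * (4 * ((H : ℝ) + 1))) / Real.log ((H : ℝ) + 1) / H ≤
      (8 * L + 8) / Real.log ((H : ℝ) + 1) := by
    rw [div_right_comm]
    refine div_le_div_of_nonneg_right ?_ hlog.le
    rw [div_le_iff₀ (by linarith)]
    nlinarith [mul_nonneg hL0 (by linarith : (0 : ℝ) ≤ H - 1)]
  have h4 : 2 * C1 * (8 * L + 8) / d ≤ Real.log ((H : ℝ) + 1) := by
    rw [Real.le_log_iff_exp_le (by linarith)]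
    linarith
  have h5 : C1 * ((8 * L + 8) / Real.log ((H : ℝ) + 1)) ≤ d / 2 := by
    rw [← mul_div_assoc, div_le_iff₀ hlog]
    rw [div_le_iff₀ hd] at h4
    linarith
  have h6 := mul_le_mul_of_nonneg_left h3 hC10
  linarith

end Pool.Agent.H533.GE
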