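import Pool.Agent.H533.GE.Lev
import Pool.Agent.H533.QA.MastA

/-!
Linear forms: the master theorem.  Adapted from `Pool.Agent.H533.QA.MastA`.
-/

set_option autoImplicit false

open Finset Filter Topology

namespace Pool.Agent.H533.GE

open Pool.Agent.H361R2.PP
open Pool.Agent.H410R2
open Pool.Agent.H410R2.AC (wt GG Pi1 cfg term WW pos Inj coef)
open Pool.Agent.H533.QM
open Pool.Agent.H533.QA

/-- the situation -/
theorem sit_T {T : ℕ → ℕ → Prop} {t : ℕ} {u β : Fin t → ℝ} {η' δ s c Λ ℓ θ C CM : ℝ} {X q : ℕ} {Ω : ℝ}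
    {Ω' : ℕ → ℝ} {S₀ Ball : Finset ℕ} (hX1 : 1 ≤ X) (hθ : θ ≤ 1 / 32)
    (hc : 0 ≤ c) (hs : 0 < s) (hs1 : s ≤ 1) (hδ : 0 < δ) (hη' : 0 < η') (hΛ : 0 < Λ)
    (hCM : 0 < CM) (hηd : η' = s / 2 / (2 * (1 + c) ^ 2 * Λ * CM))
    (hβ : ∀ τ, 0 < β τ) (hβ1 : ∑ τ, β τ = 1) (hδβ : ∀ τ, δ ≤ β τ / η')
    (S : Fin t → Finset (Finset ℕ))
    (hS : ∀ τ, ∀ R ∈ S τ, R ⊆ Q2 δ X q ∧
        Real.log (∏ p ∈ R, (p : ℝ)) ≤ u τ * Real.log X)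
    (h0 : ∀ τ, ∅ ∉ S τ) (hd : ∀ τ τ', τ ≠ τ' → Disjoint (S τ) (S τ'))
    (hG : ∀ τ, β τ ^ 2 / (η' * δ) ≤ GG (S τ))
    (cf : ℕ → ℝ) (hcf : ∀ a, cf a = c ∨ cf a = -1)
    (hSM : ∀ D : Dat t u ((1 + c) ^ 2) δ X, (∀ τ, ∀ R ∈ D.S τ, R ⊆ Q2 δ X q) →
      SMT T s C Ω Ω' S₀ Ball (Q1 δ X q) (S1q δ θ X q) D)
    (hB : (Ball.card : ℝ) ≤ (1 + s) * (Λ * ℓ)) (hℓ : 0 ≤ ℓ)
    (hM : EN.V1 (Q1 δ X q) * ℓ * δ ≤ CM)
    (hV1 : EN.V1 (Q1 δ X q) ≤ s / ((1 + c) ^ 2 * η' * δ * t + 1))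
    (hJ : 2 ^ 2 ^ JJ δ X ≤ X) 
    (hT : ∀ n ∈ S₀, ∀ a ∈ Ball, T a n → ∀ p ∈ Q1 δ X q ∪ Q2 δ X q, ¬ p ∣ n + a)
    (hΩ : 0 ≤ Ω) (hΩ' : ∀ a ∈ Ball, 0 ≤ Ω' a) :
    ∃ D : Dat t u ((1 + c) ^ 2) δ X,
      SitT T s C (s / 2) c Ω Ω' S₀ Ball (Q1 δ X q) (Q2 δ X q) (S1q δ θ X q) β D ∧ D.cf = cf := by
  have h1c : (1 : ℝ) ≤ (1 + c) ^ 2 := by nlinarith
  have hG0 : ∀ τ, 0 < GG (S τ) := fun τ => lt_of_lt_of_le (by have := hβ τ; positivity) (hG τ)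
  have hV0 := V1_Q1_pos δ X q
  have hcf1 : ∀ a, |cf a| ≤ (1 + c) ^ 2 := by
    intro a
    rcases hcf a with h | h
    · rw [h, abs_of_nonneg hc]; nlinarith
    · rw [h, abs_neg, abs_one]; exact h1c
  have hcf2 : ∀ a, cf a ^ 2 ≤ (1 + c) ^ 2 := by
    intro a
    rcases hcf a with h | h
    · rw [h]; nlinarith
    · rw [h]; nlinarith
  let D : Dat t u ((1 + c) ^ 2) δ X :=
    { S := S
      g := fun τ => β τ / GG (S τ)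
      cf := cf
      hS := fun τ R hR => ⟨(hS τ R hR).1.trans (filter_subset _ _), (hS τ R hR).2⟩
      h0 := h0
      hd := hd
      hg := by
        intro τ
        have h1 := hβ τ
        refine ⟨(div_pos h1 (hG0 τ)).le, ?_⟩
        rw [div_le_one (hG0 τ)]
        refine le_trans ?_ (hG τ)
        rw [le_div_iff₀ (by positivity)]
        have h2 := hδβ τ
        rw [le_div_iff₀ hη'] at h2
        nlinarith
      hc := hcf1 }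
  have hqq : ∀ τ a, qv (EN.V1 (Q1 δ X q)) D τ a ≤
      (1 + c) ^ 2 * (η' * δ) * EN.V1 (Q1 δ X q) := by
    intro τ a
    have h1 : qv (EN.V1 (Q1 δ X q)) D τ a =
        cf a ^ 2 * ((β τ ^ 2 / GG (S τ)) * EN.V1 (Q1 δ X q)) := by
      change cf a ^ 2 * ((β τ / GG (S τ)) ^ 2 * (EN.V1 (Q1 δ X q) * GG (S τ))) = _
      have := (hG0 τ).ne'
      field_simp
    rw [h1]
    have h2 : β τ ^ 2 / GG (S τ) ≤ η' * δ := by
      rw [div_le_iff₀ (hG0 τ)]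
      have := hG τ
      rw [div_le_iff₀ (by positivity)] at this
      linarith
    have h3 : β τ ^ 2 / GG (S τ) * EN.V1 (Q1 δ X q) ≤ η' * δ * EN.V1 (Q1 δ X q) :=
      mul_le_mul_of_nonneg_right h2 hV0.le
    calc cf a ^ 2 * (β τ ^ 2 / GG (S τ) * EN.V1 (Q1 δ X q)) ≤
          (1 + c) ^ 2 * (η' * δ * EN.V1 (Q1 δ X q)) := by
          apply mul_le_mul (hcf2 a) h3 _ (by positivity)
          have := (hG0 τ).le
          positivity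
      _ = _ := by ring
  refine ⟨D, ?_, rfl⟩
  refine
    { sm := hSM D (fun τ R hR => (hS τ R hR).1)
      s0 := hs.le
      s1 := hs1
      c00 := hc
      cc0 := le_rfl
      β0 := fun τ => (hβ τ).le
      β1 := hβ1
      gg := hG0
      g := fun τ => rfl
      η0 := by linarith
      hη := ?_
      hq := ?_
      ηs := le_rfl
      hT := hT
      p1 := ?_
      p2 := ?_
      ds := fun τ R hR => (hS τ R hR).1
      ss := ?_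
      se := ?_
      Ω0 := hΩ
      Ω'0 := hΩ' }
  · intro τ
    calc ∑ a ∈ Ball, qv (EN.V1 (Q1 δ X q)) D τ a ≤
        ∑ a ∈ Ball, (1 + c) ^ 2 * (η' * δ) * EN.V1 (Q1 δ X q) :=
          sum_le_sum fun a _ => hqq τ a
      _ = (Ball.card : ℝ) * ((1 + c) ^ 2 * (η' * δ) * EN.V1 (Q1 δ X q)) := by
          rw [sum_const, nsmul_eq_mul]
      _ ≤ (1 + s) * (Λ * ℓ) * ((1 + c) ^ 2 * (η' * δ) * EN.V1 (Q1 δ X q)) :=
          mul_le_mul_of_nonneg_right hB (by positivity)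
      _ = (1 + s) * Λ * (1 + c) ^ 2 * η' * (EN.V1 (Q1 δ X q) * ℓ * δ) := by ring
      _ ≤ (1 + s) * Λ * (1 + c) ^ 2 * η' * CM :=
          mul_le_mul_of_nonneg_left hM (by positivity)
      _ ≤ 2 * Λ * (1 + c) ^ 2 * η' * CM := by
          have : 0 ≤ Λ * (1 + c) ^ 2 * η' * CM := by positivity
          nlinarith
      _ = s / 2 := by
          rw [hηd]
          field_simp
  · intro a
    calc ∑ τ, qv (EN.V1 (Q1 δ X q)) D τ a ≤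
        ∑ τ : Fin t, (1 + c) ^ 2 * (η' * δ) * EN.V1 (Q1 δ X q) :=
          sum_le_sum fun τ _ => hqq τ a
      _ = ((1 + c) ^ 2 * η' * δ * t) * EN.V1 (Q1 δ X q) := by
          rw [sum_const, card_univ, Fintype.card_fin, nsmul_eq_mul]
          ring
      _ ≤ ((1 + c) ^ 2 * η' * δ * t + 1) * EN.V1 (Q1 δ X q) := by nlinarith
      _ ≤ s := by
          rw [le_div_iff₀ (by positivity)] at hV1
          linarith
  · intro p hp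
    have := (mem_Q1.1 hp).1
    exact ⟨this.2.1, by omega⟩
  · intro p hp
    have := (mem_Q2.1 hp).1
    exact ⟨this.2.1, this.1⟩
  · intro R hR
    exact mem_powerset.1 (mem_filter.1 hR).1
  · unfold S1q
    rw [mem_filter, mem_powerset, prod_empty]
    refine ⟨empty_subset _, ?_⟩
    apply Real.one_le_rpow (by exact_mod_cast hX1)
    linarith

open Classical in
/-- the condition `T` holds at no less than `m` positions of at least a quarter of the sets `A i`, and at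
no other position of `PB` -/
def GoodT (T : ℕ → ℕ → Prop) {k : ℕ} (m : ℕ) (A : Fin k → Finset ℕ) (PB : Finset ℕ) (n : ℕ) : Prop :=
  k ≤ 4 * ((univ : Finset (Fin k)).filter (fun i => m ≤
      ((A i).filter (fun a => T a n)).card)).card ∧
    ∀ a ∈ PB, T a n → ∃ i, a ∈ A i

open Classical in
/-- **Master theorem** for a set of level one half and arbitrary positions -/
theorem mastT (k m : ℕ) (ε Λ : ℝ) (hε : 0 < ε) (hεΛ : ε ≤ Λ) :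
    ∃ (K A N : ℕ) (θ s c d : ℝ), 0 < θ ∧ θ ≤ 1 / 32 ∧ 0 < s ∧ s ≤ 1 ∧ 0 < c ∧ 0 < d ∧
    ∀ B₁ : ℕ, ∃ X₀ : ℕ,
    ∀ X : ℕ, X₀ ≤ X → ∀ q : ℕ, 1 ≤ q → q ≤ X →
    ∀ ℓ : ℝ, ℓ = Ls X q * ((Nat.totient (Wq X q) : ℝ) / Wq X q) →
    ∀ T : ℕ → ℕ → Prop, ∀ PB : Finset ℕ,
    (PB.card : ℝ) ≤ (1 + s) * (Λ * ℓ) → SepX N d X q PB →
    ∀ (S : Finset ℕ) (Ω : ℝ) (Ω' : ℕ → ℝ), LevelT T K A B₁ θ X q PB S Ω Ω' →
    (∀ a ∈ PB, ℓ * Ω' a ≤ (1 + s) * Ω) →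
    (∀ a ∈ PB, (1 - s) * Ω ≤ ℓ * Ω' a) →
    ∀ AA : Fin k → Finset ℕ, (∀ i, AA i ⊆ PB) →
    (∀ i, |((AA i).card : ℝ) - ε * ℓ| ≤ s * (ε * ℓ)) →
    c * Ω ≤ ((S.filter (fun n => GoodT T m AA PB n)).card : ℝ) := by
  have hΛ : 0 < Λ := lt_of_lt_of_le hε hεΛ
  obtain ⟨ξ, hξ⟩ : ∃ ξ : ℝ, ξ = 1 / (8 * ((k : ℝ) + 1)) := ⟨_, rfl⟩
  have hk0 : (0 : ℝ) ≤ k := Nat.cast_nonneg k
  have hξ0 : 0 < ξ := by rw [hξ]; positivity
  have hξ1 : ξ ≤ 1 / 8 := by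
    rw [hξ, div_le_div_iff₀ (by positivity) (by norm_num)]
    linarith
  obtain ⟨s', hs'⟩ : ∃ s' : ℝ, s' = ξ / 16 := ⟨_, rfl⟩
  obtain ⟨s, hs⟩ : ∃ s : ℝ, s = ξ / (3000 * (Λ + 1)) := ⟨_, rfl⟩
  obtain ⟨θ, hθ⟩ : ∃ θ : ℝ, θ = ξ / 96 := ⟨_, rfl⟩
  have hs'0 : 0 < s' := by rw [hs']; linarith
  have hs0 : 0 < s := by rw [hs]; positivity
  have hθ0 : 0 < θ := by rw [hθ]; linarith
  have hθ1 : θ ≤ 1 / 32 := by rw [hθ]; linarith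
  have hsξ : s ≤ ξ / 3000 := by
    rw [hs]
    apply div_le_div_of_nonneg_left hξ0.le (by norm_num)
    linarith
  have hs1 : s ≤ 1 := by linarith
  have h7 : 7 * s ≤ s' := by rw [hs']; linarith
  obtain ⟨μ, hμd⟩ : ∃ μ : ℝ, μ = max (2 * ((m : ℝ) + 1) / s') ε := ⟨_, rfl⟩
  have hμ1 : 2 * ((m : ℝ) + 1) / s' ≤ μ := by rw [hμd]; exact le_max_left _ _
  have hμ2 : ε ≤ μ := by rw [hμd]; exact le_max_right _ _
  obtain ⟨hm, hμ0, hξi⟩ := xi_ineq (m := m) hξ0 hξ1 hs' hs0.le hsξ hμ1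
  obtain ⟨c, hcd⟩ : ∃ c : ℝ, c = Real.sqrt (μ / ε) - 1 := ⟨_, rfl⟩
  have hμε : 1 ≤ μ / ε := by rwa [le_div_iff₀ hε, one_mul]
  have hc : 0 ≤ c := by
    rw [hcd, sub_nonneg]
    exact Real.one_le_sqrt.2 hμε
  have hμc : μ = ε * (1 + c) ^ 2 := by
    rw [hcd, add_sub_cancel, Real.sq_sqrt (by positivity)]
    field_simp
  obtain ⟨CT, hCT1, hCT⟩ := ggtypesq
  obtain ⟨CM, hCM1, hCM⟩ := merq
  obtain ⟨η', hη'⟩ : ∃ η' : ℝ, η' = s / 2 / (2 * (1 + c) ^ 2 * Λ * CM) := ⟨_, rfl⟩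
  have hη'0 : 0 < η' := by rw [hη']; positivity
  obtain ⟨t, u, β, V₀, hV₀, huβ, hβ1, hu, hty⟩ := Pool.Agent.H708R2.types CT η' (θ / 2) hCT1
    hη'0 (by linarith)
  have h1c : (1 : ℝ) ≤ (1 + c) ^ 2 := by nlinarith
  obtain ⟨K, A, δ₀, hδ₀, -, hsm⟩ := smT t u ((1 + c) ^ 2) Λ θ s (fun τ => (huβ τ).1) hu hθ0 hθ1
    h1c hΛ hs0
  obtain ⟨dβ, hdβ0, hdβ⟩ : ∃ d : ℝ, 0 < d ∧ ∀ τ, d ≤ β τ / η' := by
    refine ⟨1 / (∑ τ, η' / β τ + 1), ?_, fun τ => ?_⟩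
    · have : 0 ≤ ∑ τ, η' / β τ := sum_nonneg fun τ _ => (div_pos hη'0 (huβ τ).2).le
      positivity
    · have h1 : η' / β τ ≤ ∑ τ, η' / β τ :=
        single_le_sum (f := fun τ => η' / β τ) (fun τ _ => (div_pos hη'0 (huβ τ).2).le)
          (mem_univ τ)
      have h2 : 0 < η' / β τ := div_pos hη'0 (huβ τ).2
      calc 1 / (∑ τ, η' / β τ + 1) ≤ 1 / (η' / β τ) :=
            one_div_le_one_div_of_le h2 (by linarith)
        _ = β τ / η' := by rw [one_div_div]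
  obtain ⟨δ, hδd⟩ : ∃ δ : ℝ, δ = min (min δ₀ V₀) (min (1 / 8) dβ) := ⟨_, rfl⟩
  have hδ0 : 0 < δ := by
    rw [hδd]
    exact lt_min (lt_min hδ₀ hV₀) (lt_min (by norm_num) hdβ0)
  have hδ1 : δ ≤ δ₀ := by rw [hδd]; exact (min_le_left _ _).trans (min_le_left _ _)
  have hδ2 : δ ≤ V₀ := by rw [hδd]; exact (min_le_left _ _).trans (min_le_right _ _)
  have hδ3 : δ ≤ 1 / 8 := by rw [hδd]; exact (min_le_right _ _).trans (min_le_left _ _)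
  have hδ4 : δ ≤ dβ := by rw [hδd]; exact (min_le_right _ _).trans (min_le_right _ _)
  obtain ⟨C, d, hC, hd, hSMX⟩ := hsm δ hδ0 hδ1
  obtain ⟨X2, hGX⟩ := hCT δ hδ0 hδ3
  obtain ⟨X3, hMX⟩ := hCM δ hδ0 (by linarith)
  obtain ⟨X4, hVX⟩ := mrvq δ (s / ((1 + c) ^ 2 * η' * δ * t + 1)) hδ0 (by linarith)
    (by positivity)
  obtain ⟨X7, hWX⟩ := Pool.Agent.H325R2.wtx.2 δ hδ0 (by linarith)
  obtain ⟨X8, hFX⟩ := log_floor (a := 1 / 4 - 2 * θ) (θ := θ) (by linarith) hθ0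
  refine ⟨K, A, 4 * t + 2, θ, s, 1 / (16 * (3 * k + 1) ^ 2 * C), d, hθ0, hθ1, hs0, hs1,
    by positivity, hd, fun B₁ => ?_⟩
  obtain ⟨X1, hSMX⟩ := hSMX B₁
  refine ⟨X1 + X2 + X3 + X4 + X7 + X8 + 2,
    fun X hX q hq hqX ℓ hℓ T PB hPBc hSep S₀ Ω Ω' hLev hpnt1 hpnt2 AA hAJ hcA => ?_⟩
  have hX2 : 2 ≤ X := by omega
  have hX1 : 1 ≤ X := by omega
  have hXr : (0 : ℝ) < X := by exact_mod_cast hX1
  have hL : 0 < Real.log X := Real.log_pos (by exact_mod_cast hX2)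
  obtain ⟨hw1, -, hw3⟩ := hWX X (by omega)
  have hJ : 2 ^ 2 ^ JJ δ X ≤ X := by
    have h1 : (X : ℝ) ^ δ ≤ (X : ℝ) ^ (1 : ℝ) :=
      Real.rpow_le_rpow_of_exponent_le (by exact_mod_cast hX1) (by linarith)
    rw [Real.rpow_one] at h1
    exact_mod_cast hw1.trans h1
  have hHX : HH X < X := lt_of_lt_of_le hw3 hJ
  have hM1 := hMX X (by omega) q hq hqX
  obtain ⟨hF1, hF2⟩ := hFX X (by omega)
  have hfr := fr_pos hq
  have hLs : 0 < Ls X q := mul_pos hfr hL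
  have hφ := phW_pos X q
  have hℓ0 : 0 < ℓ := by rw [hℓ]; positivity
  -- families
  obtain ⟨S, hS1, hS2, hS3, hS4⟩ := fam_q (X := X) (q := q) (T := θ / 2) hδ0 hL (by linarith)
    (hty δ · · · hδ0 hδ2) (hGX X (by omega) q hq hqX)
  have hΩp : 0 < Ω := hLev.pos
  have hΩ'0 : ∀ a, 0 ≤ Ω' a := hLev.pos'
  obtain ⟨cf, hcf⟩ : ∃ cf : ℕ → ℝ, ∀ a, cf a =
      if ∃ i, a ∈ AA i then c else -1 := ⟨_, fun _ => rfl⟩
  have hcf1 : ∀ a, (∃ i, a ∈ AA i) → cf a = c := by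
    intro a ha
    rw [hcf, if_pos ha]
  have hcf2 : ∀ a, ¬ (∃ i, a ∈ AA i) → cf a = -1 := by
    intro a ha
    rw [hcf, if_neg ha]
  have hcf3 : ∀ a, cf a = c ∨ cf a = -1 := by
    intro a
    by_cases h : ∃ i, a ∈ AA i
    · exact Or.inl (hcf1 a h)
    · exact Or.inr (hcf2 a h)
  have hPB2 : (PB.card : ℝ) ≤ 2 * (Λ * (Ls X q * ((Nat.totient (Wq X q) : ℝ) / Wq X q))) := by
    rw [← hℓ]
    refine hPBc.trans ?_
    apply mul_le_mul_of_nonneg_right (by linarith) (by positivity)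
  have hSMD : ∀ D : Dat t u ((1 + c) ^ 2) δ X, (∀ τ, ∀ R ∈ D.S τ, R ⊆ Q2 δ X q) →
      SMT T s C Ω Ω' S₀ PB (Q1 δ X q) (S1q δ θ X q) D := by
    intro D hD
    exact hSMX X (by omega) q hq hqX T PB hPB2 hSep S₀ Ω Ω' hLev D hD (S1q δ θ X q)
      (fun R hR => by
        unfold S1q at hR
        rw [mem_filter, mem_powerset] at hR
        exact hR)
  have hM1' : EN.V1 (Q1 δ X q) * ℓ * δ ≤ CM := by
    rw [hℓ]
    exact hM1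
  have hTT : ∀ n ∈ S₀, ∀ a ∈ PB, T a n → ∀ p ∈ Q1 δ X q ∪ Q2 δ X q, ¬ p ∣ n + a := by
    intro n hn a ha hT p hp
    rw [mem_union, mem_Q1, mem_Q2] at hp
    rcases hp with h | h
    · exact hLev.tt n hn a ha hT p h.1.2.1 h.2 h.1.2.2 (by omega)
    · exact hLev.tt n hn a ha hT p h.1.2.1 h.2 (by omega) h.1.1
  obtain ⟨D, hsit, hDcf⟩ := sit_T (T := T) (Ω := Ω) (Ω' := Ω') (S₀ := S₀)
    (Ball := PB) hX1 hθ1 hc
    hs0 hs1 hδ0 hη'0 hΛ (by linarith : 0 < CM) hη' (fun τ => (huβ τ).2) hβ1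
    (fun τ => hδ4.trans (hdβ τ)) S hS1 hS2 hS3 hS4 cf hcf3 hSMD hPBc hℓ0.le hM1'
    (hVX X (by omega) q hq hqX) hJ hTT
    hΩp.le (fun a _ => hΩ'0 a)
  have hVG : EN.V1 (Q1 δ X q) / GG (S1q δ θ X q) * (ℓ * (1 / 4 - 3 * θ)) ≤ 1 := by
    rw [hℓ]
    exact VG_q hθ0 hθ1 hX1 hq hqX hw3 hF1 hF2
  have hw45 : (5 : ℝ) / 32 ≤ 1 / 4 - 3 * θ := by rw [hθ]; linarith
  have hξi' : 1 / 4 - ξ ≤ ((1 - s') * μ - (1 + s') * m) ^ 2 /
      ((1 + s) ^ 4 / (1 / 4 - 3 * θ) * μ ^ 2 + (1 + s') * μ) := by rw [hθ]; exact hξi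
  have hcls := clsq Pool.Agent.H872R2.PPCol.col Pool.Agent.H872R2.PPCol.cob
    Pool.Agent.H433R2.PPMni.mni Pool.Agent.H909R2.pz_holds Pool.Agent.H909R2.cs_holds
    hsit hΩp hC k m AA (PB.filter (fun a => ¬ ∃ i, a ∈ AA i))
    ε Λ ℓ (1 / 4 - 3 * θ) hε hΛ hℓ0
    (fun i a ha => ⟨hAJ i ha, by rw [hDcf]; exact hcf1 _ ⟨i, ha⟩⟩)
    (fun a ha => by
      rw [mem_filter] at ha
      exact ⟨ha.1, by rw [hDcf]; exact hcf2 _ ha.2⟩)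
    hcA hPBc hpnt1 hpnt2 hw45 hVG s' μ ξ h7 (by linarith) hμc hm hξi' (fin_ineq hξ hs' hΛ hs)
  have hfin : 1 / (16 * (3 * (k : ℝ) + 1) ^ 2 * C) * Ω = Ω / (16 * (3 * k + 1) ^ 2 * C) := by
    rw [one_div_mul_eq_div]
  rw [hfin]
  refine hcls.trans (Nat.cast_le.2 (card_le_card ?_))
  intro n hn
  rw [mem_filter] at hn ⊢
  refine ⟨hn.1, ?_, ?_⟩
  · have h1 := hn.2.1
    unfold Gd at h1
    exact h1
  · intro a ha hp
    by_contra hcon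
    have h1 := hn.2.2
    unfold NpT at h1
    rw [card_eq_zero, filter_eq_empty_iff] at h1
    exact h1 (mem_filter.2 ⟨ha, hcon⟩) hp

end Pool.Agent.H533.GE
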