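import Pool.Agent.H533.GE.Exc
import Pool.Agent.H533.QA.ArbM

/-!
Linear forms `u n + v q`: the moments of the number of admissible forms.
-/

set_option autoImplicit false

open Finset Filter Topology

namespace Pool.Agent.H533.GE

open Pool.Agent.H361R2.PP
open Pool.Agent.H533.QM
open Pool.Agent.H533.QS
open Pool.Agent.H533.QA

/-- the factor at `p` -/
noncomputable def lf (p n : ℕ) : ℝ := if p ∣ n then (1 - 1 / (p : ℝ))⁻¹ else 1

theorem lf_ge {p n : ℕ} (hp : p.Prime) : 1 ≤ lf p n := by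
  unfold lf
  split_ifs
  · have h3 := one_sub_pos hp
    rw [one_le_inv₀ h3]
    have : (0 : ℝ) ≤ 1 / p := by positivity
    linarith
  · exact le_rfl

theorem root_ex {p q : ℕ} {f : ℕ × ℕ} (hp : p.Prime) (hu : ¬ p ∣ f.1) :
    ∃ x, x < p ∧ p ∣ f.1 * x + f.2 * q := by
  obtain ⟨r, hr⟩ := exists_res (y := (p - 1) * (f.2 * q)) hp hu
  refine ⟨r % p, Nat.mod_lt _ hp.pos, ?_⟩
  have h1 : f.1 * (r % p) + f.2 * q ≡ (p - 1) * (f.2 * q) + f.2 * q [MOD p] := by
    apply Nat.ModEq.add_right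
    exact ((Nat.mod_modEq r p).mul_left f.1).trans hr
  have h2 : (p - 1) * (f.2 * q) + f.2 * q = p * (f.2 * q) := by
    obtain ⟨k, hk⟩ : ∃ k, p = k + 1 := ⟨p - 1, by have := hp.one_le; omega⟩
    rw [hk, Nat.add_sub_cancel]
    ring
  rw [h2] at h1
  exact (h1.dvd_iff dvd_rfl).2 (dvd_mul_right _ _)

theorem root_uniq {p q x x' : ℕ} {f : ℕ × ℕ} (hp : p.Prime) (hu : ¬ p ∣ f.1) (hx : x < p)
    (hx' : x' < p) (h : p ∣ f.1 * x + f.2 * q) (h' : p ∣ f.1 * x' + f.2 * q) : x = x' := by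
  have h1 : f.1 * x + f.2 * q ≡ f.1 * x' + f.2 * q [MOD p] :=
    ((Nat.modEq_zero_iff_dvd).2 h).trans ((Nat.modEq_zero_iff_dvd).2 h').symm
  have h2 : f.1 * x ≡ f.1 * x' [MOD p] := Nat.ModEq.add_right_cancel' _ h1
  have hc : Nat.gcd p f.1 = 1 := (Nat.Prime.coprime_iff_not_dvd hp).2 hu
  have h3 : x ≡ x' [MOD p] := Nat.ModEq.cancel_left_of_coprime hc h2
  unfold Nat.ModEq at h3
  rwa [Nat.mod_eq_of_lt hx, Nat.mod_eq_of_lt hx'] at h3

theorem no_root {p q : ℕ} {f : ℕ × ℕ} (hp : p.Prime) (hf : IsF q f) (hu : p ∣ f.1) (x : ℕ) :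
    ¬ p ∣ f.1 * x + f.2 * q := by
  intro h
  have h1 : p ∣ f.2 * q := (Nat.dvd_add_right (hu.mul_right x)).1 h
  have h2 := Nat.dvd_gcd hu h1
  rw [hf.2.2] at h2
  exact hp.one_lt.ne' (Nat.dvd_one.1 h2)

theorem cnt1 {p q : ℕ} {f : ℕ × ℕ} (hp : p.Prime) (hf : IsF q f) :
    (((range p).filter (fun x => ¬ p ∣ f.1 * x + f.2 * q)).card : ℝ) =
      p * ((1 - 1 / (p : ℝ)) * lf p f.1) := by
  have hp0 : (0 : ℝ) < p := by exact_mod_cast hp.pos
  have h3 := one_sub_pos hp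
  unfold lf
  split_ifs with hu
  · rw [filter_true_of_mem (fun x _ => no_root hp hf hu x), card_range,
      mul_inv_cancel₀ h3.ne', mul_one]
  · obtain ⟨x0, hx0, hd⟩ := root_ex (q := q) hp hu
    have : (range p).filter (fun x => ¬ p ∣ f.1 * x + f.2 * q) = (range p).erase x0 := by
      ext x
      rw [mem_filter, mem_erase, mem_range]
      constructor
      · rintro ⟨h1, h2⟩
        exact ⟨fun h => h2 (by rw [h]; exact hd), h1⟩
      · rintro ⟨h1, h2⟩
        exact ⟨h2, fun h => h1 (root_uniq hp hu h2 hx0 h hd)⟩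
    rw [this, card_erase_of_mem (mem_range.2 hx0), card_range, Nat.cast_sub hp.one_le,
      Nat.cast_one, mul_one]
    field_simp

/-- the determinant of two forms -/
def Dl (f g : ℕ × ℕ) : ℕ := ((f.2 : ℤ) * g.1 - (g.2 : ℤ) * f.1).natAbs

theorem dvd_Dl {p q n : ℕ} {f g : ℕ × ℕ} (hp : p.Prime) (hq : ¬ p ∣ q) (h6 : p ∣ f.1 * n + f.2 * q)
    (h7 : p ∣ g.1 * n + g.2 * q) : p ∣ Dl f g := by
  unfold Dl
  have h6' : (p : ℤ) ∣ (f.1 : ℤ) * n + f.2 * q := by exact_mod_cast h6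
  have h7' : (p : ℤ) ∣ (g.1 : ℤ) * n + g.2 * q := by exact_mod_cast h7
  have h8 : (p : ℤ) ∣ (q : ℤ) * ((f.2 : ℤ) * g.1 - (g.2 : ℤ) * f.1) := by
    have := dvd_sub (h6'.mul_left (g.1 : ℤ)) (h7'.mul_left (f.1 : ℤ))
    have e : (g.1 : ℤ) * ((f.1 : ℤ) * n + f.2 * q) - (f.1 : ℤ) * ((g.1 : ℤ) * n + g.2 * q) =
        (q : ℤ) * ((f.2 : ℤ) * g.1 - (g.2 : ℤ) * f.1) := by ring
    rwa [e] at this
  have hpI : Prime (p : ℤ) := Nat.prime_iff_prime_int.1 hp
  rcases hpI.dvd_or_dvd h8 with h | h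
  · exact absurd (by exact_mod_cast h) hq
  · rw [← Int.natCast_dvd]
    exact h

theorem cnt2 {p q : ℕ} {f g : ℕ × ℕ} (hp : p.Prime) (hq : ¬ p ∣ q) :
    (((range p).filter (fun x => ¬ p ∣ f.1 * x + f.2 * q ∧ ¬ p ∣ g.1 * x + g.2 * q)).card : ℝ) ≤
      p * ((1 - 1 / (p : ℝ)) ^ 2 * (lf p f.1 * lf p g.1 * lf p (Dl f g))) := by
  have hp0 : (0 : ℝ) < p := by exact_mod_cast hp.pos
  have h3 := one_sub_pos hp
  have hD := lf_ge (n := Dl f g) hp
  have hle : ∀ x0 : ℕ, x0 < p → (p ∣ f.1 * x0 + f.2 * q ∨ p ∣ g.1 * x0 + g.2 * q) →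
      (((range p).filter (fun x => ¬ p ∣ f.1 * x + f.2 * q ∧ ¬ p ∣ g.1 * x + g.2 * q)).card : ℝ) ≤
        p * (1 - 1 / (p : ℝ)) := by
    intro x0 hx0 hd
    have h1 : (range p).filter (fun x => ¬ p ∣ f.1 * x + f.2 * q ∧ ¬ p ∣ g.1 * x + g.2 * q) ⊆
        (range p).erase x0 := by
      intro x hx
      rw [mem_filter] at hx
      rw [mem_erase]
      refine ⟨fun h => ?_, hx.1⟩
      rw [h] at hx
      rcases hd with hd | hd
      · exact hx.2.1 hd
      · exact hx.2.2 hd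
    have h2 := card_le_card h1
    rw [card_erase_of_mem (mem_range.2 hx0), card_range] at h2
    have h4 : (((range p).filter (fun x => ¬ p ∣ f.1 * x + f.2 * q ∧
        ¬ p ∣ g.1 * x + g.2 * q)).card : ℝ) ≤ ((p - 1 : ℕ) : ℝ) := by exact_mod_cast h2
    rw [Nat.cast_sub hp.one_le, Nat.cast_one] at h4
    refine h4.trans (le_of_eq ?_)
    field_simp
  by_cases hu : p ∣ f.1
  · by_cases hu' : p ∣ g.1
    · have h1 : (((range p).filter (fun x => ¬ p ∣ f.1 * x + f.2 * q ∧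
          ¬ p ∣ g.1 * x + g.2 * q)).card : ℝ) ≤ p := by
        have := card_filter_le (range p) (fun x => ¬ p ∣ f.1 * x + f.2 * q ∧
          ¬ p ∣ g.1 * x + g.2 * q)
        rw [card_range] at this
        exact_mod_cast this
      refine h1.trans ?_
      have e : (p : ℝ) * ((1 - 1 / (p : ℝ)) ^ 2 * (lf p f.1 * lf p g.1 * lf p (Dl f g))) =
          p * lf p (Dl f g) := by
        rw [show lf p f.1 = (1 - 1 / (p : ℝ))⁻¹ from if_pos hu,
          show lf p g.1 = (1 - 1 / (p : ℝ))⁻¹ from if_pos hu']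
        generalize lf p (Dl f g) = z
        have h4 := h3.ne'
        generalize 1 - 1 / (p : ℝ) = y at h4
        field_simp
      rw [e]
      nlinarith
    · obtain ⟨x0, hx0, hd⟩ := root_ex (q := q) hp hu'
      refine (hle x0 hx0 (Or.inr hd)).trans ?_
      have e : (p : ℝ) * ((1 - 1 / (p : ℝ)) ^ 2 * (lf p f.1 * lf p g.1 * lf p (Dl f g))) =
          p * (1 - 1 / (p : ℝ)) * lf p (Dl f g) := by
        rw [show lf p f.1 = (1 - 1 / (p : ℝ))⁻¹ from if_pos hu, show lf p g.1 = 1 from if_neg hu']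
        field_simp
      rw [e]
      have := mul_pos hp0 h3
      nlinarith
  · obtain ⟨x0, hx0, hd⟩ := root_ex (q := q) hp hu
    by_cases hu' : p ∣ g.1
    · refine (hle x0 hx0 (Or.inl hd)).trans ?_
      have e : (p : ℝ) * ((1 - 1 / (p : ℝ)) ^ 2 * (lf p f.1 * lf p g.1 * lf p (Dl f g))) =
          p * (1 - 1 / (p : ℝ)) * lf p (Dl f g) := by
        rw [show lf p f.1 = 1 from if_neg hu, show lf p g.1 = (1 - 1 / (p : ℝ))⁻¹ from if_pos hu']
        field_simp
      rw [e]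
      have := mul_pos hp0 h3
      nlinarith
    · by_cases hΔ : p ∣ Dl f g
      · refine (hle x0 hx0 (Or.inl hd)).trans (le_of_eq ?_)
        rw [show lf p f.1 = 1 from if_neg hu, show lf p g.1 = 1 from if_neg hu',
          show lf p (Dl f g) = (1 - 1 / (p : ℝ))⁻¹ from if_pos hΔ]
        field_simp
      · obtain ⟨x1, hx1, hd1⟩ := root_ex (q := q) hp hu'
        have hne : x0 ≠ x1 := by
          intro h
          rw [h] at hd
          exact hΔ (dvd_Dl hp hq hd hd1)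
        have h1 : (range p).filter (fun x => ¬ p ∣ f.1 * x + f.2 * q ∧
            ¬ p ∣ g.1 * x + g.2 * q) ⊆ (range p) \ {x0, x1} := by
          intro x hx
          rw [mem_filter] at hx
          rw [Finset.mem_sdiff, mem_insert, mem_singleton]
          refine ⟨hx.1, ?_⟩
          rintro (h | h)
          · rw [h] at hx; exact hx.2.1 hd
          · rw [h] at hx; exact hx.2.2 hd1
        have h2 := card_le_card h1
        rw [card_sdiff_of_subset (by
          intro x hx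
          rw [mem_insert, mem_singleton] at hx
          rw [mem_range]
          rcases hx with rfl | rfl
          · exact hx0
          · exact hx1), card_range, card_pair hne] at h2
        have h4 : (((range p).filter (fun x => ¬ p ∣ f.1 * x + f.2 * q ∧
            ¬ p ∣ g.1 * x + g.2 * q)).card : ℝ) ≤ ((p - 2 : ℕ) : ℝ) := by exact_mod_cast h2
        rw [Nat.cast_sub hp.two_le, Nat.cast_ofNat] at h4
        refine h4.trans ?_
        rw [show lf p f.1 = 1 from if_neg hu, show lf p g.1 = 1 from if_neg hu',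
          show lf p (Dl f g) = 1 from if_neg hΔ]
        have e : (p : ℝ) * ((1 - 1 / (p : ℝ)) ^ 2 * (1 * 1 * 1)) = p - 2 + 1 / p := by
          field_simp
          ring
        rw [e]
        have : (0 : ℝ) ≤ 1 / p := by positivity
        linarith

/-- the factor of the small primes -/
noncomputable def ww (X q n : ℕ) : ℝ := ∏ p ∈ Sm X q, lf p n

theorem ww_ge_one (X q n : ℕ) : 1 ≤ ww X q n := by
  unfold ww
  calc (1 : ℝ) = ∏ _p ∈ Sm X q, (1 : ℝ) := by simp
    _ ≤ _ := Finset.prod_le_prod (fun _ _ => zero_le_one) (fun p hp => lf_ge (mem_Sm.1 hp).2.1)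

theorem ww_le {X q n : ℕ} (hn : 1 ≤ n) : ww X q n ≤ gg n := by
  unfold ww lf gg
  rw [ratio_prod hn, ← prod_filter]
  apply prod_le_prod_of_subset_of_one_le
  · intro p hp
    rw [mem_filter, mem_Sm] at hp
    rw [Nat.mem_primeFactors]
    exact ⟨hp.1.2.1, hp.2, by omega⟩
  · intro p hp
    rw [mem_filter, mem_Sm] at hp
    have := one_sub_pos hp.1.2.1
    positivity
  · intro p hp _
    have hp' := Nat.prime_of_mem_primeFactors hp
    have h3 := one_sub_pos hp'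
    rw [one_le_inv₀ h3]
    have : (0 : ℝ) ≤ 1 / p := by positivity
    linarith

theorem weier (R : Finset ℕ) (a : ℕ → ℝ) (h0 : ∀ p ∈ R, 0 ≤ a p) (h1 : ∀ p ∈ R, a p ≤ 1) :
    1 - ∑ p ∈ R, a p ≤ ∏ p ∈ R, (1 - a p) := by
  induction R using Finset.induction_on with
  | empty => simp
  | insert p S hp ih =>
    rw [prod_insert hp, sum_insert hp]
    have ih' := ih (fun p hp => h0 p (mem_insert_of_mem hp)) (fun p hp => h1 p (mem_insert_of_mem hp))
    have g0 := h0 p (mem_insert_self _ _)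
    have g1 := h1 p (mem_insert_self _ _)
    have g2 : 0 ≤ ∑ p ∈ S, a p := sum_nonneg fun p hp => h0 p (mem_insert_of_mem hp)
    have g3 : (1 - a p) * (1 - ∑ p ∈ S, a p) ≤ (1 - a p) * ∏ p ∈ S, (1 - a p) :=
      mul_le_mul_of_nonneg_left ih' (by linarith)
    nlinarith [mul_nonneg g0 g2]

theorem le_ww {X q : ℕ} {f : ℕ × ℕ} (hf : IsF q f) (hR : ∑ p ∈ Ru X f.1, 1 / (p : ℝ) ≤ 1 / 2) :
    gg f.1 ≤ 2 * ww X q f.1 := by
  classical
  have hu := hf.1
  unfold gg ww lf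
  rw [ratio_prod hu, ← prod_filter]
  have hS : f.1.primeFactors = (Sm X q).filter (fun p => p ∣ f.1) ∪ Ru X f.1 := by
    ext p
    rw [Nat.mem_primeFactors, mem_union, mem_filter, mem_Sm, mem_Ru hu]
    constructor
    · rintro ⟨h1, h2, -⟩
      by_cases h3 : HH X < p
      · exact Or.inr ⟨h1, h2, h3⟩
      · refine Or.inl ⟨⟨by omega, h1, fun h4 => ?_⟩, h2⟩
        have h5 := Nat.dvd_gcd h2 (h4.mul_left f.2)
        rw [hf.2.2] at h5
        exact h1.one_lt.ne' (Nat.dvd_one.1 h5)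
    · rintro (h | h)
      · exact ⟨h.1.2.1, h.2, by omega⟩
      · exact ⟨h.1, h.2.1, by omega⟩
  have hdis : Disjoint ((Sm X q).filter (fun p => p ∣ f.1)) (Ru X f.1) := by
    rw [Finset.disjoint_left]
    intro p hp hp'
    rw [mem_filter, mem_Sm] at hp
    rw [mem_Ru hu] at hp'
    omega
  rw [hS, prod_union hdis, mul_comm]
  have hRp : ∀ p ∈ Ru X f.1, p.Prime := fun p hp => ((mem_Ru hu).1 hp).1
  have h1 := weier (Ru X f.1) (fun p => 1 / (p : ℝ)) (fun p _ => by positivity) (fun p hp => by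
    rw [div_le_one (by exact_mod_cast (hRp p hp).pos)]
    exact_mod_cast (hRp p hp).one_le)
  apply mul_le_mul_of_nonneg_right
  · rw [prod_inv_distrib, inv_le_comm₀ (prod_pos fun p hp => one_sub_pos (hRp p hp)) (by norm_num)]
    linarith
  · apply prod_nonneg
    intro p hp
    rw [mem_filter, mem_Sm] at hp
    have := one_sub_pos hp.1.2.1
    positivity

theorem adm_iff {X q b : ℕ} {f : ℕ × ℕ} : (f.1 * b + f.2 * q).Coprime (Wq X q) ↔
    ∀ p ∈ Sm X q, ¬ p ∣ f.1 * (b % p) + f.2 * q := by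
  unfold Wq
  rw [Nat.coprime_prod_right_iff]
  apply forall_congr'
  intro p
  apply imp_congr_right
  intro hp
  rw [Nat.coprime_comm, Nat.Prime.coprime_iff_not_dvd (mem_Sm.1 hp).2.1]
  have h : f.1 * b + f.2 * q ≡ f.1 * (b % p) + f.2 * q [MOD p] := by
    apply Nat.ModEq.add_right
    apply Nat.ModEq.mul_left
    exact (Nat.mod_modEq _ _).symm
  rw [h.dvd_iff dvd_rfl]

theorem card_adm1 {X q : ℕ} {f : ℕ × ℕ} (hf : IsF q f) :
    (((range (Wq X q)).filter (fun b => (f.1 * b + f.2 * q).Coprime (Wq X q))).card : ℝ) =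
      Nat.totient (Wq X q) * ww X q f.1 := by
  have hS : ∀ p ∈ Sm X q, p.Prime := fun p hp => (mem_Sm.1 hp).2.1
  have h1 := crt_count (Sm X q) hS (fun p x => ¬ p ∣ f.1 * x + f.2 * q)
  have h2 : (range (Wq X q)).filter (fun b => (f.1 * b + f.2 * q).Coprime (Wq X q)) =
      (range (∏ p ∈ Sm X q, p)).filter (fun n => ∀ p ∈ Sm X q, ¬ p ∣ f.1 * (n % p) + f.2 * q) := by
    apply filter_congr
    intro b _
    exact adm_iff
  rw [h2, h1]
  push_cast
  rw [prod_congr rfl (fun p hp => cnt1 (hS p hp) hf), prod_mul_distrib, prod_mul_distrib, ← frW]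
  have hW0 := Wq_pos X q
  have hWr : (0 : ℝ) < Wq X q := by exact_mod_cast hW0
  have h3 : ∏ p ∈ Sm X q, (p : ℝ) = Wq X q := by unfold Wq; push_cast; rfl
  rw [h3]
  unfold ww
  field_simp

theorem card_adm2 {X q : ℕ} {f g : ℕ × ℕ} (hfg : 1 ≤ f.1 ∧ 1 ≤ g.1 ∧ 1 ≤ Dl f g) :
    (((range (Wq X q)).filter (fun b => (f.1 * b + f.2 * q).Coprime (Wq X q) ∧
      (g.1 * b + g.2 * q).Coprime (Wq X q))).card : ℝ) ≤
      (Wq X q : ℝ) * (((Nat.totient (Wq X q) : ℝ) / Wq X q) ^ 2 *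
        (gg f.1 * gg g.1 * gg (Dl f g))) := by
  have hS : ∀ p ∈ Sm X q, p.Prime := fun p hp => (mem_Sm.1 hp).2.1
  have h1 := crt_count (Sm X q) hS (fun p x => ¬ p ∣ f.1 * x + f.2 * q ∧ ¬ p ∣ g.1 * x + g.2 * q)
  have h2 : (range (Wq X q)).filter (fun b => (f.1 * b + f.2 * q).Coprime (Wq X q) ∧
      (g.1 * b + g.2 * q).Coprime (Wq X q)) =
      (range (∏ p ∈ Sm X q, p)).filter (fun n => ∀ p ∈ Sm X q, ¬ p ∣ f.1 * (n % p) + f.2 * q ∧
        ¬ p ∣ g.1 * (n % p) + g.2 * q) := by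
    apply filter_congr
    intro b _
    rw [adm_iff, adm_iff]
    constructor
    · rintro ⟨h1, h2⟩ p hp
      exact ⟨h1 p hp, h2 p hp⟩
    · intro h
      exact ⟨fun p hp => (h p hp).1, fun p hp => (h p hp).2⟩
  rw [h2, h1]
  push_cast
  have hWr : (0 : ℝ) ≤ Wq X q := Nat.cast_nonneg _
  have h3 : ∏ p ∈ Sm X q, (p : ℝ) = Wq X q := by unfold Wq; push_cast; rfl
  calc ∏ p ∈ Sm X q, (((range p).filter (fun x => ¬ p ∣ f.1 * x + f.2 * q ∧
        ¬ p ∣ g.1 * x + g.2 * q)).card : ℝ)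
      ≤ ∏ p ∈ Sm X q, ((p : ℝ) * ((1 - 1 / (p : ℝ)) ^ 2 *
          (lf p f.1 * lf p g.1 * lf p (Dl f g)))) :=
        prod_le_prod (fun _ _ => Nat.cast_nonneg _)
          (fun p hp => cnt2 (hS p hp) (mem_Sm.1 hp).2.2)
    _ = (Wq X q : ℝ) * (((Nat.totient (Wq X q) : ℝ) / Wq X q) ^ 2 *
        (ww X q f.1 * ww X q g.1 * ww X q (Dl f g))) := by
        rw [prod_mul_distrib, prod_mul_distrib, prod_pow, frW, prod_mul_distrib,
          prod_mul_distrib, h3]
        rfl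
    _ ≤ _ := by
        apply mul_le_mul_of_nonneg_left _ hWr
        apply mul_le_mul_of_nonneg_left _ (by positivity)
        have w1 := ww_le (X := X) (q := q) hfg.1
        have w2 := ww_le (X := X) (q := q) hfg.2.1
        have w3 := ww_le (X := X) (q := q) hfg.2.2
        have g1 := ww_ge_one X q f.1
        have g2 := ww_ge_one X q g.1
        have g3 := ww_ge_one X q (Dl f g)
        apply mul_le_mul (mul_le_mul w1 w2 (by linarith) (by linarith)) w3 (by linarith)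
        exact mul_nonneg (by linarith) (by linarith)

/-- the sum over the pairs of forms -/
noncomputable def pairF (A : Finset (ℕ × ℕ)) : ℝ :=
  ∑ f ∈ A, ∑ g ∈ A.erase f, gg f.1 * gg g.1 * gg (Dl f g)

theorem pairF_nonneg (A : Finset (ℕ × ℕ)) : 0 ≤ pairF A :=
  sum_nonneg fun _ _ => sum_nonneg fun _ _ =>
    mul_nonneg (mul_nonneg (gg_nonneg _) (gg_nonneg _)) (gg_nonneg _)

theorem Dl_pos {q : ℕ} {f g : ℕ × ℕ} (hf : IsF q f) (hg : IsF q g) (h : f ≠ g) : 1 ≤ Dl f g := by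
  have h1 := eF_pos hf hg h
  unfold eF at h1
  exact Nat.pos_of_ne_zero fun h0 => by
    have h2 : ((f.2 : ℤ) * g.1 - (g.2 : ℤ) * f.1).natAbs = 0 := h0
    rw [h2, mul_zero] at h1
    exact lt_irrefl _ h1

/-- first moment -/
theorem momF1 {X q : ℕ} {J : Finset (ℕ × ℕ)} (hJ : ∀ f ∈ J, IsF q f) :
    ∑ b ∈ range (Wq X q), ((admF X q b J).card : ℝ) =
      Nat.totient (Wq X q) * ∑ f ∈ J, ww X q f.1 := by
  have h1 : ∀ b ∈ range (Wq X q), ((admF X q b J).card : ℝ) = ∑ f ∈ J,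
      (if (f.1 * b + f.2 * q).Coprime (Wq X q) then (1 : ℝ) else 0) := by
    intro b _
    unfold admF
    rw [card_filter]
    push_cast
    rfl
  rw [sum_congr rfl h1, sum_comm, mul_sum]
  apply sum_congr rfl
  intro f hf
  rw [← card_adm1 (hJ f hf), card_filter]
  push_cast
  rfl

/-- second moment -/
theorem momF2 {X q : ℕ} {A : Finset (ℕ × ℕ)} (hA : ∀ f ∈ A, IsF q f) :
    ∑ b ∈ range (Wq X q), ((admF X q b A).card : ℝ) ^ 2 ≤
      Nat.totient (Wq X q) * ∑ f ∈ A, gg f.1 +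
      (Wq X q : ℝ) * (((Nat.totient (Wq X q) : ℝ) / Wq X q) ^ 2 * pairF A) := by
  classical
  have h1 : ∀ b ∈ range (Wq X q), ((admF X q b A).card : ℝ) ^ 2 = ∑ f ∈ A, ∑ g ∈ A,
      (if (f.1 * b + f.2 * q).Coprime (Wq X q) ∧ (g.1 * b + g.2 * q).Coprime (Wq X q) then (1 : ℝ)
        else 0) := by
    intro b _
    have h2 : ((admF X q b A).card : ℝ) = ∑ f ∈ A,
        (if (f.1 * b + f.2 * q).Coprime (Wq X q) then (1 : ℝ) else 0) := by
      unfold admF
      rw [card_filter]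
      push_cast
      rfl
    rw [h2, sq, sum_mul_sum]
    apply sum_congr rfl
    intro i _
    apply sum_congr rfl
    intro j _
    split_ifs <;> simp_all
  rw [sum_congr rfl h1, sum_comm]
  have h2 : ∀ f ∈ A, ∑ b ∈ range (Wq X q), ∑ g ∈ A,
      (if (f.1 * b + f.2 * q).Coprime (Wq X q) ∧ (g.1 * b + g.2 * q).Coprime (Wq X q) then (1 : ℝ)
        else 0) ≤ Nat.totient (Wq X q) * gg f.1 + ∑ g ∈ A.erase f,
        (Wq X q : ℝ) * (((Nat.totient (Wq X q) : ℝ) / Wq X q) ^ 2 *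
        (gg f.1 * gg g.1 * gg (Dl f g))) := by
    intro f hf
    rw [sum_comm, ← add_sum_erase A _ hf]
    apply add_le_add
    · have h3 : ∑ b ∈ range (Wq X q), (if (f.1 * b + f.2 * q).Coprime (Wq X q) ∧
          (f.1 * b + f.2 * q).Coprime (Wq X q) then (1 : ℝ) else 0) =
          Nat.totient (Wq X q) * ww X q f.1 := by
        simp only [and_self]
        rw [← card_adm1 (hA f hf), card_filter]
        push_cast
        rfl
      rw [h3]
      exact mul_le_mul_of_nonneg_left (ww_le (hA f hf).1) (Nat.cast_nonneg _)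
    · apply sum_le_sum
      intro g hg
      rw [mem_erase] at hg
      refine le_trans (le_of_eq ?_) (card_adm2 (f := f) (g := g) ⟨(hA f hf).1, (hA g hg.2).1,
        Dl_pos (hA f hf) (hA g hg.2) (Ne.symm hg.1)⟩)
      rw [card_filter]
      push_cast
      rfl
  refine (sum_le_sum h2).trans (le_of_eq ?_)
  rw [sum_add_distrib]
  unfold pairF
  simp only [mul_sum]

end Pool.Agent.H533.GE
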