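import Pool.Agent.H533.GE.FinF

/-!
Windows in the multiples `u n + v q`, `u ≤ U`, of a class.
-/

set_option autoImplicit false

open Finset Filter Topology

namespace Pool.Agent.H533.GE

open Pool.Agent.H361R2.PP
open Pool.Agent.H533.QM
open Pool.Agent.H533.QS
open Pool.Agent.H533.QA

open Classical in
/-- all the forms -/
noncomputable def JU (X q U : ℕ) (Λ : ℝ) : Finset (ℕ × ℕ) :=
  ((Icc 1 U) ×ˢ (Icc 1 ⌊Λ * Ls X q⌋₊)).filter (fun f => IsF q f)

open Classical in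
/-- the forms of a window -/
noncomputable def AU (X q U : ℕ) (Λ : ℝ) (u : ℕ) (α β : ℝ) : Finset (ℕ × ℕ) :=
  (JU X q U Λ).filter (fun f => f.1 = u ∧ α * Ls X q < f.2 ∧ (f.2 : ℝ) ≤ β * Ls X q)

theorem mem_JU {X q U : ℕ} {Λ : ℝ} {f : ℕ × ℕ} : f ∈ JU X q U Λ ↔
    ((1 ≤ f.1 ∧ f.1 ≤ U) ∧ (1 ≤ f.2 ∧ f.2 ≤ ⌊Λ * Ls X q⌋₊)) ∧ IsF q f := by
  classical
  unfold JU
  rw [mem_filter, mem_product, mem_Icc, mem_Icc]

theorem mem_AU {X q U u : ℕ} {Λ α β : ℝ} {f : ℕ × ℕ} : f ∈ AU X q U Λ u α β ↔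
    f ∈ JU X q U Λ ∧ f.1 = u ∧ α * Ls X q < f.2 ∧ (f.2 : ℝ) ≤ β * Ls X q := by
  classical
  unfold AU
  rw [mem_filter]

/-- a value prime to `W` comes from a primitive form -/
theorem isF_of {X q U u b j : ℕ} (hU : U ≤ HH X) (hu : 1 ≤ u) (huU : u ≤ U) (huq : u.Coprime q)
    (hj : 1 ≤ j) (h : (u * b + j * q).Coprime (Wq X q)) : IsF q (u, j) := by
  refine ⟨hu, hj, ?_⟩
  show u.Coprime (j * q)
  apply Nat.Coprime.mul_right _ huq
  apply Nat.coprime_of_dvd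
  intro p hp hpu hpj
  have hpq : ¬ p ∣ q := fun h2 => by
    have h3 := Nat.dvd_gcd hpu h2
    rw [huq] at h3
    exact hp.one_lt.ne' (Nat.dvd_one.1 h3)
  have hpS : p ∈ Sm X q := by
    rw [mem_Sm]
    exact ⟨(Nat.le_of_dvd hu hpu).trans (huU.trans hU), hp, hpq⟩
  have hpW : p ∣ Wq X q := dvd_prod_of_mem _ hpS
  have h4 : p ∣ u * b + j * q := dvd_add (hpu.mul_right b) (hpj.mul_right q)
  have h5 := Nat.dvd_gcd h4 hpW
  rw [h] at h5
  exact hp.one_lt.ne' (Nat.dvd_one.1 h5)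

/-- the admissible forms of a window -/
theorem cnt_low (κ Λ : ℝ) (U : ℕ) (hκ : 0 < κ) (hΛ : 0 < Λ) : ∃ X₀ : ℕ, ∀ X : ℕ, X₀ ≤ X →
    ∀ q : ℕ, 1 ≤ q → q ≤ X → ∀ b : ℕ,
    ((admF X q b (JU X q U Λ)).card : ℝ) ≤ U * (3 / 2 * Λ) * lq X q ∧
    ∀ u : ℕ, 1 ≤ u → u ≤ U → u.Coprime q → ∀ α β : ℝ, 0 ≤ α → α + κ ≤ β → β ≤ Λ →
    κ / 2 * lq X q ≤ ((admF X q b (AU X q U Λ u α β)).card : ℝ) := by
  obtain ⟨X1, h1⟩ := cntq (1 / 2) κ Λ (by norm_num) hκ
  obtain ⟨X2, h2⟩ := cntq (1 / 2) Λ Λ (by norm_num) hΛ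
  have t2 : Tendsto (fun X : ℕ => HH X) atTop atTop := by
    unfold HH
    apply tendsto_nat_floor_atTop.comp
    apply Tendsto.atTop_div_const (by norm_num)
    exact Real.tendsto_log_atTop.comp (Real.tendsto_log_atTop.comp tendsto_natCast_atTop_atTop)
  obtain ⟨X3, h3⟩ := eventually_atTop.1 (t2.eventually_ge_atTop U)
  refine ⟨X1 + X2 + X3, fun X hX q hq hqX b => ⟨?_, ?_⟩⟩
  · have hL0 : 0 ≤ Ls X q := mul_nonneg (fr_pos hq).le (Real.log_natCast_nonneg X)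
    have hsub : admF X q b (JU X q U Λ) ⊆ (Icc 1 U).biUnion (fun u =>
        (Jq X q (u * b) ⌊Λ * Ls X q⌋₊).image (fun j => (u, j))) := by
      intro f hf
      rw [mem_admF, mem_JU] at hf
      obtain ⟨⟨⟨g1, g2⟩, g3⟩, g4⟩ := hf
      rw [mem_biUnion]
      refine ⟨f.1, mem_Icc.2 g1, ?_⟩
      rw [mem_image]
      refine ⟨f.2, ?_, rfl⟩
      unfold Jq
      rw [mem_filter, mem_Icc]
      exact ⟨g2, g4⟩
    have hJ : ∀ u : ℕ, ((Jq X q (u * b) ⌊Λ * Ls X q⌋₊).card : ℝ) ≤ 3 / 2 * Λ * lq X q := by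
      intro u
      have h4 := h2 X (by omega) q hq hqX (u * b) 0 (Λ * Ls X q) le_rfl (by linarith) le_rfl
      have h5 : (Jq X q (u * b) ⌊Λ * Ls X q⌋₊).filter (fun j : ℕ => (0 : ℝ) < j ∧
          (j : ℝ) ≤ Λ * Ls X q) = Jq X q (u * b) ⌊Λ * Ls X q⌋₊ := by
        apply filter_true_of_mem
        intro j hj
        unfold Jq at hj
        rw [mem_filter, mem_Icc] at hj
        refine ⟨by exact_mod_cast hj.1.1, ?_⟩
        exact (Nat.le_floor_iff (mul_nonneg hΛ.le hL0)).1 hj.1.2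
      rw [h5] at h4
      have h6 := (abs_le.1 h4).2
      unfold lq
      calc _ ≤ (Λ * Ls X q - 0) * ((Nat.totient (Wq X q) : ℝ) / Wq X q) +
            1 / 2 * ((Λ * Ls X q - 0) * ((Nat.totient (Wq X q) : ℝ) / Wq X q)) := by linarith
        _ = _ := by ring
    have h6 := (card_le_card hsub).trans card_biUnion_le
    calc ((admF X q b (JU X q U Λ)).card : ℝ) ≤ ∑ u ∈ Icc 1 U,
          (((Jq X q (u * b) ⌊Λ * Ls X q⌋₊).image (fun j => (u, j))).card : ℝ) := by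
          exact_mod_cast h6
      _ ≤ ∑ u ∈ Icc 1 U, 3 / 2 * Λ * lq X q := by
          apply sum_le_sum
          intro u _
          refine le_trans ?_ (hJ u)
          exact_mod_cast card_image_le
      _ = _ := by
          rw [sum_const, Nat.card_Icc, Nat.add_sub_cancel, nsmul_eq_mul]
          ring
  · intro u hu huU huq α β hα hαβ hβ
    have hL0 : 0 ≤ Ls X q := mul_nonneg (fr_pos hq).le (Real.log_natCast_nonneg X)
    have hHU := h3 X (by omega)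
    have e1 : α * Ls X q + κ * Ls X q ≤ β * Ls X q := by
      rw [← add_mul]
      exact mul_le_mul_of_nonneg_right hαβ hL0
    have h4 := h1 X (by omega) q hq hqX (u * b) (α * Ls X q) (β * Ls X q) (mul_nonneg hα hL0) e1
      (mul_le_mul_of_nonneg_right hβ hL0)
    have h5 := (abs_le.1 h4).1
    have h6 : ((Jq X q (u * b) ⌊Λ * Ls X q⌋₊).filter (fun j : ℕ => α * Ls X q < j ∧
        (j : ℝ) ≤ β * Ls X q)).card ≤ (admF X q b (AU X q U Λ u α β)).card := by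
      apply card_le_card_of_injOn (fun j => (u, j))
      · intro j hj
        rw [mem_coe, mem_filter] at hj
        unfold Jq at hj
        rw [mem_filter, mem_Icc] at hj
        obtain ⟨⟨⟨j1, j2⟩, j3⟩, j4, j5⟩ := hj
        rw [mem_coe, mem_admF, mem_AU, mem_JU]
        exact ⟨⟨⟨⟨⟨hu, huU⟩, j1, j2⟩, isF_of hHU hu huU huq j1 j3⟩, rfl, j4, j5⟩, j3⟩
      · intro j _ j' _ h
        exact (Prod.mk.inj h).2
    have h7 : (((Jq X q (u * b) ⌊Λ * Ls X q⌋₊).filter (fun j : ℕ => α * Ls X q < j ∧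
        (j : ℝ) ≤ β * Ls X q)).card : ℝ) ≤ ((admF X q b (AU X q U Λ u α β)).card : ℝ) := by
      exact_mod_cast h6
    refine le_trans ?_ h7
    have h8 : κ * Ls X q * ((Nat.totient (Wq X q) : ℝ) / Wq X q) ≤
        (β * Ls X q - α * Ls X q) * ((Nat.totient (Wq X q) : ℝ) / Wq X q) := by
      apply mul_le_mul_of_nonneg_right _ (by positivity)
      linarith
    unfold lq
    calc κ / 2 * (Ls X q * ((Nat.totient (Wq X q) : ℝ) / Wq X q)) =
          1 / 2 * (κ * Ls X q * ((Nat.totient (Wq X q) : ℝ) / Wq X q)) := by ring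
      _ ≤ 1 / 2 * ((β * Ls X q - α * Ls X q) * ((Nat.totient (Wq X q) : ℝ) / Wq X q)) :=
          mul_le_mul_of_nonneg_left h8 (by norm_num)
      _ ≤ _ := by linarith

open Classical in
/-- **Windows in the multiples of a class** -/
theorem multF (k m U : ℕ) (ε Λ : ℝ) (hε : 0 < ε) (hΛ : 0 < Λ) :
    ∃ c : ℝ, 0 < c ∧ ∃ X₀ : ℕ, ∀ X : ℕ, X₀ ≤ X → ∀ q : ℕ, 1 ≤ q → q ≤ X →
    ∀ u : Fin k → ℕ, (∀ i, 1 ≤ u i ∧ u i ≤ U ∧ (u i).Coprime q) →
    ∀ α : Fin k → ℝ, (∀ i, 0 ≤ α i ∧ α i + ε ≤ Λ) →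
    c * (fr q * X) ≤ (((Ico X (2 * X)).filter (fun n => n.Coprime q ∧
      k ≤ 4 * ((univ : Finset (Fin k)).filter (fun i => m ≤
        ((AU X q U Λ (u i) (α i) (α i + ε)).filter (fun f => (ff q f n).Prime)).card)).card ∧
      ∀ f ∈ JU X q U Λ, (ff q f n).Prime →
        ∃ i, f ∈ AU X q U Λ (u i) (α i) (α i + ε))).card : ℝ) := by
  obtain ⟨c, hc, H⟩ := instF k m (ε / 2) (U * (3 / 2 * Λ) + ε / 2) (by positivity) (by
    have : (0 : ℝ) ≤ U * (3 / 2 * Λ) := by positivity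
    linarith)
  obtain ⟨X1, h1⟩ := H 2
  obtain ⟨X2, h2⟩ := cnt_low ε Λ U hε hΛ
  have t1 : Tendsto (fun X : ℕ => Real.log (X : ℝ)) atTop atTop :=
    Real.tendsto_log_atTop.comp tendsto_natCast_atTop_atTop
  obtain ⟨X3, h3⟩ := eventually_atTop.1 (t1.eventually_ge_atTop (max 1 (max Λ U)))
  have t2 : Tendsto (fun X : ℕ => HH X) atTop atTop := by
    unfold HH
    apply tendsto_nat_floor_atTop.comp
    apply Tendsto.atTop_div_const (by norm_num)
    exact Real.tendsto_log_atTop.comp (Real.tendsto_log_atTop.comp tendsto_natCast_atTop_atTop)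
  obtain ⟨X4, h4⟩ := eventually_atTop.1 (t2.eventually_ge_atTop U)
  refine ⟨c, hc, X1 + X2 + X3 + X4 + 2, fun X hX q hq hqX u hu α hα => ?_⟩
  have hL := h3 X (by omega)
  have hL1 : 1 ≤ Real.log X := (le_max_left _ _).trans hL
  have hLΛ : Λ ≤ Real.log X := ((le_max_left _ _).trans (le_max_right _ _)).trans hL
  have hLU : (U : ℝ) ≤ Real.log X := ((le_max_right _ _).trans (le_max_right _ _)).trans hL
  have hHU := h4 X (by omega)
  have hLs : Ls X q ≤ Real.log X := by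
    unfold Ls
    exact mul_le_of_le_one_left (by linarith) (fr_le_one q)
  have hL0 : 0 ≤ Ls X q := mul_nonneg (fr_pos hq).le (Real.log_natCast_nonneg X)
  have hW0 := Wq_pos X q
  have hWr : (0 : ℝ) < Wq X q := by exact_mod_cast hW0
  have hJ : ∀ f ∈ JU X q U Λ, IsF q f ∧ (f.1 : ℝ) ≤ Real.log X ^ 2 ∧ (f.2 : ℝ) ≤ Real.log X ^ 2 := by
    intro f hf
    rw [mem_JU] at hf
    obtain ⟨⟨⟨g1, g2⟩, g3, g4⟩, g5⟩ := hf
    refine ⟨g5, ?_, ?_⟩
    · have : (f.1 : ℝ) ≤ U := by exact_mod_cast g2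
      nlinarith
    · have : (f.2 : ℝ) ≤ Λ * Ls X q := (Nat.le_floor_iff (mul_nonneg hΛ.le hL0)).1 g4
      calc (f.2 : ℝ) ≤ Λ * Ls X q := this
        _ ≤ Real.log X * Real.log X := mul_le_mul hLΛ hLs hL0 (by linarith)
        _ = _ := by ring
  have hres := h1 X (by omega) q hq hqX (JU X q U Λ) hJ
    (fun i => AU X q U Λ (u i) (α i) (α i + ε)) (fun i f hf => (mem_AU.1 hf).1)
  have hall : (range (Wq X q)).filter (fun b =>
      ((admF X q b (JU X q U Λ)).card : ℝ) ≤ (U * (3 / 2 * Λ) + ε / 2) * lq X q ∧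
      ∀ i, ε / 2 * lq X q ≤ ((admF X q b (AU X q U Λ (u i) (α i) (α i + ε))).card : ℝ)) =
      range (Wq X q) := by
    apply filter_true_of_mem
    intro b _
    obtain ⟨g1, g2⟩ := h2 X (by omega) q hq hqX b
    refine ⟨?_, fun i => g2 (u i) (hu i).1 (hu i).2.1 (hu i).2.2 (α i) (α i + ε) (hα i).1 le_rfl
      (hα i).2⟩
    have hlq : 0 ≤ lq X q := by
      unfold lq
      positivity
    nlinarith
  rw [hall, card_range] at hres
  have hres' : c * (fr q * X) ≤ (((Ico X (2 * X)).filter (fun n => n.Coprime q ∧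
      GoodF1 X m (fun i => AU X q U Λ (u i) (α i) (α i + ε)) (JU X q U Λ) q n)).card : ℝ) := by
    refine le_trans (le_of_eq ?_) hres
    field_simp
  refine hres'.trans (Nat.cast_le.2 (card_le_card ?_))
  intro n hn
  rw [mem_filter] at hn ⊢
  obtain ⟨hn1, hn2, hn3, hn4⟩ := hn
  refine ⟨hn1, hn2, ?_, ?_⟩
  · refine hn3.trans ?_
    apply Nat.mul_le_mul_left
    apply card_le_card
    intro i hi
    rw [mem_filter] at hi ⊢
    refine ⟨hi.1, hi.2.trans (card_le_card ?_)⟩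
    intro f hf
    rw [mem_filter] at hf ⊢
    exact ⟨hf.1, hf.2.1⟩
  · intro f hf hp
    apply hn4 f hf
    refine ⟨hp, ?_⟩
    intro p hpp hpf hpH
    exfalso
    rw [mem_JU] at hf
    have := Nat.le_of_dvd hf.1.1.1 hpf
    omega

end Pool.Agent.H533.GE
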