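import Pool.Agent.H533.GE.Mult
import Pool.Agent.H533.QM.Least

/-!
Windows in the multiples of a residue class modulo `d`.
-/

set_option autoImplicit false

open Finset Filter Topology

namespace Pool.Agent.H533.GE

open Pool.Agent.H361R2.PP
open Pool.Agent.H533.QM
open Pool.Agent.H533.QS
open Pool.Agent.H533.QA

/-- the number of primes up to `2 U d` is small compared with `φ(d)` -/
theorem pi_smallU (U : ℕ) (c : ℝ) (hU : 1 ≤ U) (hc : 0 < c) : ∃ X₀ : ℕ, ∀ d : ℕ, X₀ ≤ d →
    (((range (2 * (U * d))).filter Nat.Prime).card : ℝ) ≤ c * (Nat.totient d : ℝ) := by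
  obtain ⟨X1, h1⟩ := pi_upper
  have hUr : (1 : ℝ) ≤ U := by exact_mod_cast hU
  obtain ⟨X2, h2⟩ := L_big (4 * U / c)
  refine ⟨X1 + X2 + 2, fun d hd => ?_⟩
  have hdU : d ≤ U * d := Nat.le_mul_of_pos_left d hU
  have h3 := h1 (U * d) (by omega)
  have h4 := h2 d (by omega) d (by omega) le_rfl
  have hd0 : (0 : ℝ) < d := by exact_mod_cast (by omega : 0 < d)
  have hW : (1 : ℝ) ≤ Wq d d := by exact_mod_cast Wq_pos d d
  have hl : 0 < Real.log d := Real.log_pos (by exact_mod_cast (by omega : 1 < d))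
  have hlU : Real.log d ≤ Real.log ((U * d : ℕ) : ℝ) :=
    Real.log_le_log hd0 (by exact_mod_cast hdU)
  have h5 : 4 * U / c ≤ fr d * Real.log d := by
    refine le_trans ?_ h4
    have : 0 < 4 * U / c := by positivity
    exact le_mul_of_one_le_right this.le (one_le_pow₀ hW)
  have h6 : (Nat.totient d : ℝ) = fr d * d := by
    unfold fr
    field_simp
  rw [h6]
  refine h3.trans ?_
  rw [div_le_iff₀ (hl.trans_le hlU)]
  rw [div_le_iff₀ hc] at h5
  have h7 : 0 ≤ c * (fr d * d) := mul_nonneg hc.le (mul_nonneg (fr_pos (by omega)).le hd0.le)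
  calc 4 * ((U * d : ℕ) : ℝ) = 4 * U * d := by push_cast; ring
    _ ≤ (fr d * Real.log d * c) * d := mul_le_mul_of_nonneg_right h5 hd0.le
    _ = c * (fr d * d) * Real.log d := by ring
    _ ≤ _ := mul_le_mul_of_nonneg_left hlU h7

open Classical in
/-- **Windows for the primes of the multiples of a residue class**, every modulus -/
theorem multD (k m U : ℕ) (ε Λ : ℝ) (hU : 1 ≤ U) (hε : 0 < ε) (hΛ : 0 < Λ) :
    ∃ c : ℝ, 0 < c ∧ ∃ d₀ : ℕ, ∀ d : ℕ, d₀ ≤ d →
    ∀ u : Fin k → ℕ, (∀ i, 1 ≤ u i ∧ u i ≤ U ∧ (u i).Coprime d) →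
    ∀ α : Fin k → ℝ, (∀ i, 0 ≤ α i ∧ α i + ε ≤ Λ) →
    c * (Nat.totient d : ℝ) ≤ (((range d).filter (fun a => a.Coprime d ∧
      k ≤ 4 * ((univ : Finset (Fin k)).filter (fun i => m ≤
        ((Icc 1 ⌊Λ * ((Nat.totient d : ℝ) * Real.log d)⌋₊).filter (fun p => p.Prime ∧
          p ≡ u i * a [MOD d] ∧ α i * ((Nat.totient d : ℝ) * Real.log d) < p ∧
          (p : ℝ) ≤ (α i + ε) * ((Nat.totient d : ℝ) * Real.log d))).card)).card ∧
      ∀ v : ℕ, 1 ≤ v → v ≤ U → v.Coprime d → ∀ p : ℕ, p.Prime → p ≡ v * a [MOD d] →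
        (p : ℝ) ≤ Λ * ((Nat.totient d : ℝ) * Real.log d) →
        ∃ i, u i = v ∧ α i * ((Nat.totient d : ℝ) * Real.log d) < p ∧
          (p : ℝ) ≤ (α i + ε) * ((Nat.totient d : ℝ) * Real.log d))).card : ℝ) := by
  obtain ⟨c, hc, X1, h1⟩ := multF k m U (ε / 2) Λ (by positivity) hΛ
  obtain ⟨X2, h2⟩ := pi_smallU U (c / 2 / U) hU (by positivity)
  obtain ⟨X3, h3⟩ := L_big (4 * U / ε)
  refine ⟨c / 2, by positivity, X1 + X2 + X3 + 2, fun d hd u hu α hα => ?_⟩
  have hd2 : 2 ≤ d := by omega
  have hUr : (1 : ℝ) ≤ U := by exact_mod_cast hU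
  have hd0 : (0 : ℝ) < d := by exact_mod_cast (by omega : 0 < d)
  have hm := h1 d (by omega) d (by omega) le_rfl u hu α
    (fun i => ⟨(hα i).1, by linarith [(hα i).2]⟩)
  have hp := h2 d (by omega)
  have hbig : 4 * U / ε ≤ Ls d d := by
    refine le_trans ?_ (h3 d (by omega) d (by omega) le_rfl)
    have hW : (1 : ℝ) ≤ Wq d d := by exact_mod_cast Wq_pos d d
    have : 0 < 4 * U / ε := by positivity
    exact le_mul_of_one_le_right this.le (one_le_pow₀ hW)
  have hL2 : 2 * U ≤ ε / 2 * Ls d d := by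
    rw [div_le_iff₀ hε] at hbig
    linarith
  have hL0 : 0 ≤ Ls d d := Ls_nonneg (by omega)
  have hF : (Nat.totient d : ℝ) * Real.log d = Ls d d * d := (dL d).symm
  rw [hF]
  have h6 : fr d * d = (Nat.totient d : ℝ) := by
    unfold fr
    field_simp
  rw [h6] at hm
  -- the good classes
  obtain ⟨G, hG⟩ : ∃ G, G = (range d).filter (fun a => a.Coprime d ∧
      k ≤ 4 * ((univ : Finset (Fin k)).filter (fun i => m ≤
        ((Icc 1 ⌊Λ * (Ls d d * d)⌋₊).filter (fun p => p.Prime ∧
          p ≡ u i * a [MOD d] ∧ α i * (Ls d d * d) < p ∧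
          (p : ℝ) ≤ (α i + ε) * (Ls d d * d))).card)).card ∧
      ∀ v : ℕ, 1 ≤ v → v ≤ U → v.Coprime d → ∀ p : ℕ, p.Prime → p ≡ v * a [MOD d] →
        (p : ℝ) ≤ Λ * (Ls d d * d) →
        ∃ i, u i = v ∧ α i * (Ls d d * d) < p ∧ (p : ℝ) ≤ (α i + ε) * (Ls d d * d)) := ⟨_, rfl⟩
  rw [← hG]
  -- the exceptional classes
  obtain ⟨E, hE⟩ : ∃ E, E = (range d).filter (fun a => ∃ v ∈ Icc 1 U, v.Coprime d ∧
      ∃ p ∈ (range (2 * (U * d))).filter Nat.Prime, p ≡ v * a [MOD d]) := ⟨_, rfl⟩
  have hEc : (E.card : ℝ) ≤ c / 2 * (Nat.totient d : ℝ) := by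
    have hsub : E ⊆ (Icc 1 U).biUnion (fun v => (range d).filter (fun a => v.Coprime d ∧
        ∃ p ∈ (range (2 * (U * d))).filter Nat.Prime, p ≡ v * a [MOD d])) := by
      intro a ha
      rw [hE, mem_filter] at ha
      obtain ⟨ha1, v, hv, hv2⟩ := ha
      rw [mem_biUnion]
      exact ⟨v, hv, mem_filter.2 ⟨ha1, hv2⟩⟩
    have hone : ∀ v ∈ Icc 1 U, ((range d).filter (fun a => v.Coprime d ∧
        ∃ p ∈ (range (2 * (U * d))).filter Nat.Prime, p ≡ v * a [MOD d])).card ≤
        ((range (2 * (U * d))).filter Nat.Prime).card := by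
      intro v _
      have hch : ∀ a ∈ (range d).filter (fun a => v.Coprime d ∧
          ∃ p ∈ (range (2 * (U * d))).filter Nat.Prime, p ≡ v * a [MOD d]),
          ∃ p ∈ (range (2 * (U * d))).filter Nat.Prime, p ≡ v * a [MOD d] :=
        fun a ha => (mem_filter.1 ha).2.2
      choose! g hg1 hg2 using hch
      apply card_le_card_of_injOn g
      · intro a ha
        exact hg1 a ha
      · intro a ha a' ha' h
        have e1 := hg2 a ha
        have e2 := hg2 a' ha'
        rw [mem_coe, mem_filter, mem_range] at ha ha'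
        rw [h] at e1
        have e3 : v * a ≡ v * a' [MOD d] := e1.symm.trans e2
        have e4 : Nat.gcd d v = 1 := ha.2.1.symm
        have e5 : a ≡ a' [MOD d] := Nat.ModEq.cancel_left_of_coprime e4 e3
        exact Nat.ModEq.eq_of_lt_of_lt e5 ha.1 ha'.1
    have h7 := ((card_le_card hsub).trans card_biUnion_le).trans (sum_le_sum hone)
    rw [sum_const, Nat.card_Icc, Nat.add_sub_cancel, smul_eq_mul] at h7
    calc (E.card : ℝ) ≤ U * (((range (2 * (U * d))).filter Nat.Prime).card : ℝ) := by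
          exact_mod_cast h7
      _ ≤ U * (c / 2 / U * (Nat.totient d : ℝ)) := mul_le_mul_of_nonneg_left hp (by positivity)
      _ = _ := by field_simp
  obtain ⟨P, hP⟩ : ∃ P, P = (Ico d (2 * d)).filter (fun n => n.Coprime d ∧
      k ≤ 4 * ((univ : Finset (Fin k)).filter (fun i => m ≤
        ((AU d d U Λ (u i) (α i) (α i + ε / 2)).filter (fun f => (ff d f n).Prime)).card)).card ∧
      ∀ f ∈ JU d d U Λ, (ff d f n).Prime →
        ∃ i, f ∈ AU d d U Λ (u i) (α i) (α i + ε / 2)) := ⟨_, rfl⟩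
  rw [← hP] at hm
  have hcard : P.card ≤ G.card + E.card := by
    have hinj : P.card = (P.image (fun n => n - d)).card := by
      rw [card_image_of_injOn]
      intro n hn n' hn' h
      rw [hP, mem_coe, mem_filter, mem_Ico] at hn hn'
      have : n - d = n' - d := h
      omega
    rw [hinj]
    refine (card_le_card (t := G ∪ E) ?_).trans (card_union_le _ _)
    intro a ha
    rw [mem_image] at ha
    obtain ⟨n, hn, rfl⟩ := ha
    rw [hP, mem_filter, mem_Ico] at hn
    obtain ⟨⟨hn1, hn2⟩, hn3, hn4, hn5⟩ := hn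
    obtain ⟨a, rfl⟩ : ∃ a, n = a + d := ⟨n - d, by omega⟩
    have hsub : a + d - d = a := by omega
    rw [hsub, mem_union]
    by_cases hex : a ∈ E
    · exact Or.inr hex
    left
    have had : a < d := by omega
    have hadr : (a : ℝ) < d := by exact_mod_cast had
    have hbnd : ∀ (w v : ℕ) (s t : ℝ), 1 ≤ w → w ≤ U → s * Ls d d < v →
        (v : ℝ) ≤ (t + ε / 2) * Ls d d →
        s * (Ls d d * d) < ((w * (a + d) + v * d : ℕ) : ℝ) ∧
        ((w * (a + d) + v * d : ℕ) : ℝ) ≤ (t + ε) * (Ls d d * d) := by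
      intro w v s t hw1 hwU hv1 hv2
      have hwr : (w : ℝ) ≤ U := by exact_mod_cast hwU
      have hw0 : (0 : ℝ) ≤ w := Nat.cast_nonneg w
      push_cast
      have h10 : s * Ls d d * d < v * d := mul_lt_mul_of_pos_right hv1 hd0
      have h11 : (v : ℝ) * d ≤ (t + ε / 2) * Ls d d * d := mul_le_mul_of_nonneg_right hv2 hd0.le
      have h12 : 2 * U * (d : ℝ) ≤ ε / 2 * Ls d d * d := mul_le_mul_of_nonneg_right hL2 hd0.le
      have h13 : (w : ℝ) * (a + d) ≤ U * (2 * d) :=
        mul_le_mul hwr (by linarith) (by positivity) (by positivity)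
      have h14 : (0 : ℝ) ≤ w * (a + d) := by positivity
      constructor
      · calc s * (Ls d d * d) = s * Ls d d * d := by ring
          _ < v * d := h10
          _ ≤ _ := by linarith
      · calc (w : ℝ) * (a + d) + v * d ≤ U * (2 * d) + (t + ε / 2) * Ls d d * d := by linarith
          _ = 2 * U * d + (t + ε / 2) * Ls d d * d := by ring
          _ ≤ ε / 2 * Ls d d * d + (t + ε / 2) * Ls d d * d := by linarith
          _ = _ := by ring
    rw [hG, mem_filter, mem_range]
    refine ⟨had, by rwa [Nat.coprime_add_self_left] at hn3, ?_, ?_⟩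
    · -- many primes in a quarter of the windows
      refine hn4.trans ?_
      apply Nat.mul_le_mul_left
      apply card_le_card
      intro i hi
      rw [mem_filter] at hi ⊢
      refine ⟨hi.1, hi.2.trans ?_⟩
      apply card_le_card_of_injOn (fun f : ℕ × ℕ => (u i * (a + d) + f.2 * d : ℕ))
      · intro f hf
        rw [mem_coe, mem_filter, mem_AU, mem_JU] at hf
        obtain ⟨⟨⟨⟨⟨f1, f2⟩, f3, f4⟩, f5⟩, f6, f7, f8⟩, f9⟩ := hf
        rw [mem_coe, mem_filter, mem_Icc]
        beta_reduce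
        obtain ⟨e1, e2⟩ := hbnd (u i) f.2 (α i) (α i) (hu i).1 (hu i).2.1 f7 f8
        have e3 : ff d f (a + d) = u i * (a + d) + f.2 * d := by
          unfold ff
          rw [f6]
        rw [e3] at f9
        refine ⟨⟨f9.one_le, ?_⟩, f9, ?_, e1, e2⟩
        · apply Nat.le_floor
          refine e2.trans ?_
          apply mul_le_mul_of_nonneg_right (hα i).2
          positivity
        · have e4 : u i * (a + d) + f.2 * d = u i * a + (u i + f.2) * d := by ring
          rw [e4, Nat.ModEq, Nat.add_mul_mod_self_right]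
      · intro f hf f' hf' h
        rw [mem_coe, mem_filter, mem_AU] at hf hf'
        have h' : u i * (a + d) + f.2 * d = u i * (a + d) + f'.2 * d := h
        have h12 : f.2 * d = f'.2 * d := by omega
        have h13 := Nat.eq_of_mul_eq_mul_right (by omega) h12
        exact Prod.ext (hf.1.2.1.trans hf'.1.2.1.symm) h13
    · -- no other primes
      intro v hv1 hvU hvd p hpp hpa hpΛ
      have hpbig : 2 * (U * d) ≤ p := by
        by_contra hcon
        apply hex
        rw [hE, mem_filter, mem_range]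
        exact ⟨had, v, mem_Icc.2 ⟨hv1, hvU⟩, hvd, p,
          mem_filter.2 ⟨mem_range.2 (by omega), hpp⟩, hpa⟩
      have hlt : v * (a + d) < p := by
        calc v * (a + d) ≤ U * (a + d) := Nat.mul_le_mul_right _ hvU
          _ < U * (2 * d) := Nat.mul_lt_mul_of_pos_left (by omega) hU
          _ = 2 * (U * d) := by ring
          _ ≤ p := hpbig
      have hmod : v * (a + d) ≡ p [MOD d] := by
        have e4 : v * (a + d) = v * a + v * d := by ring
        rw [e4]
        have e5 : v * a + v * d ≡ v * a [MOD d] := by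
          rw [Nat.ModEq, Nat.add_mul_mod_self_right]
        exact e5.trans hpa.symm
      obtain ⟨j, hj⟩ := (Nat.modEq_iff_dvd' hlt.le).1 hmod
      have hpj : p = v * (a + d) + j * d := by
        have : p = v * (a + d) + (p - v * (a + d)) := by omega
        rw [this, hj]
        ring
      have hj1 : 1 ≤ j := by
        by_contra hcon
        have h0 : j = 0 := by omega
        rw [h0] at hpj
        omega
      have hjΛ : (j : ℝ) ≤ Λ * Ls d d := by
        have e1 : (j : ℝ) * d ≤ p := by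
          rw [hpj]
          push_cast
          have : (0 : ℝ) ≤ v * (a + d) := by positivity
          linarith
        have e2 : (j : ℝ) * d ≤ (Λ * Ls d d) * d := by
          calc (j : ℝ) * d ≤ p := e1
            _ ≤ Λ * (Ls d d * d) := hpΛ
            _ = _ := by ring
        exact le_of_mul_le_mul_right e2 hd0
      have hIsF : IsF d (v, j) := by
        refine ⟨hv1, hj1, ?_⟩
        show v.Coprime (j * d)
        apply Nat.Coprime.mul_right _ hvd
        apply Nat.coprime_of_dvd
        intro r hr hrv hrj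
        have h20 : r ∣ p := by
          rw [hpj]
          exact dvd_add (hrv.mul_right _) (hrj.mul_right _)
        have h21 := (Nat.prime_dvd_prime_iff_eq hr hpp).1 h20
        have h22 := Nat.le_of_dvd hv1 hrv
        have h23 : U * 1 ≤ U * d := Nat.mul_le_mul_left U (by omega)
        omega
      have hff : ff d (v, j) (a + d) = p := by
        unfold ff
        exact hpj.symm
      obtain ⟨i, hi⟩ := hn5 (v, j) (by
        rw [mem_JU]
        exact ⟨⟨⟨hv1, hvU⟩, hj1, Nat.le_floor hjΛ⟩, hIsF⟩) (by rw [hff]; exact hpp)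
      rw [mem_AU] at hi
      obtain ⟨-, hi1, hi2, hi3⟩ := hi
      obtain ⟨e1, e2⟩ := hbnd v j (α i) (α i) hv1 hvU hi2 hi3
      rw [← hpj] at e1 e2
      exact ⟨i, hi1.symm, e1, e2⟩
  have hcard' : (P.card : ℝ) ≤ G.card + E.card := by exact_mod_cast hcard
  linarith

end Pool.Agent.H533.GE
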