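import Pool.Agent.H533.GE.FamS
import Pool.Agent.H533.QA.Gold

/-!
Positions `f(p)`, `p` prime, `f = X² + b X + c`: the moments.
-/

set_option autoImplicit false
set_option maxHeartbeats 1000000

open Finset Filter Topology

namespace Pool.Agent.H533.GE

open Pool.Agent.H533.QM
open Pool.Agent.H533.QS
open Pool.Agent.H533.QA
open Pool.Agent.TH685.PairSig (pair_bound)

theorem pg_le_gg {n : ℕ} (hn : 1 ≤ n) : Pool.Agent.H197R2.PG.gg n ≤ gg n := by
  rw [gg_prod hn]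
  unfold Pool.Agent.H197R2.PG.gg
  apply Finset.prod_le_prod
  · intro p _
    positivity
  · intro p hp
    have hp' := Nat.prime_of_mem_primeFactors hp
    have h3 := one_sub_pos hp'
    rw [le_inv_comm₀ (by positivity) h3]
    have h2 : (2 : ℝ) ≤ p := by exact_mod_cast hp'.two_le
    have h4 : (0 : ℝ) < 1 + 1 / (p : ℝ) := by positivity
    rw [← one_div, le_div_iff₀ h4]
    have h5 : (1 - 1 / (p : ℝ)) * (1 + 1 / (p : ℝ)) = 1 - (1 / (p : ℝ)) ^ 2 := by ring
    rw [h5]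
    have : 0 ≤ (1 / (p : ℝ)) ^ 2 := sq_nonneg _
    linarith

theorem pg_sq_le {n : ℕ} (hn : 1 ≤ n) : Pool.Agent.H197R2.PG.gg n ^ 2 ≤ gg n ^ 2 := by
  have h1 : 0 ≤ Pool.Agent.H197R2.PG.gg n := by
    unfold Pool.Agent.H197R2.PG.gg
    exact prod_nonneg fun p _ => by positivity
  exact pow_le_pow_left₀ h1 (pg_le_gg hn) 2

/-- differences of primes -/
theorem mom_diff (k : ℕ) : ∃ C : ℝ, 1 ≤ C ∧ ∀ (M : ℕ) (S : Finset ℕ), 2 ≤ M →
    (∀ p ∈ S, p.Prime ∧ p ≤ M) →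
    ∑ z ∈ S.offDiag, gg (Nat.dist z.1 z.2) ^ k ≤ C * (M / Real.log M) ^ 2 := by
  classical
  obtain ⟨K, hK, hpair⟩ := pair_bound
  obtain ⟨C, hC, hmom⟩ := gmom (k + 2)
  refine ⟨2 * (K * C), by nlinarith, fun M S hM hS => ?_⟩
  have hMr : (2 : ℝ) ≤ M := by exact_mod_cast hM
  have hl : 0 < Real.log M := Real.log_pos (by linarith)
  have h1 := Pool.Agent.TH685.TI.sum_offDiag_le S M (fun a ha b hb hab => by
    have h2 := (hS a ha).2
    have h3 := (hS b hb).2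
    rw [mem_Icc]
    refine ⟨Nat.dist_pos_of_ne hab, ?_⟩
    rcases le_total a b with h | h
    · rw [Nat.dist_eq_sub_of_le h]; omega
    · rw [Nat.dist_eq_sub_of_le_right h]; omega) (fun n => gg n ^ k)
      (fun n => pow_nonneg (gg_nonneg n) k)
  refine h1.trans ?_
  have h2 : ∀ h ∈ Icc 1 M, 2 * (gg h ^ k * (#(S.filter (fun m => m + h ∈ S)) : ℝ)) ≤
      2 * (K * (M / Real.log M ^ 2)) * gg h ^ (k + 2) := by
    intro h hh
    rw [mem_Icc] at hh
    have h3 := hpair M hM 1 (Or.inl rfl) h hh.1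
    have h4 : ((S.filter (fun m => m + h ∈ S) : Finset ℕ) : Set ℕ) ⊆
        {t : ℕ | t ≤ M ∧ t.Prime ∧ (Int.natAbs (1 * t + h)).Prime} := by
      intro t ht
      rw [mem_coe, mem_filter] at ht
      refine ⟨(hS t ht.1).2, (hS t ht.1).1, ?_⟩
      have e : Int.natAbs (1 * (t : ℤ) + h) = t + h := by omega
      rw [e]
      exact (hS _ ht.2).1
    have h5 := Set.ncard_le_ncard h4 ((Set.finite_Iic M).subset (fun t ht => ht.1))
    rw [Set.ncard_coe_finset] at h5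
    have h6 : (#(S.filter (fun m => m + h ∈ S)) : ℝ) ≤ K * (M / Real.log M ^ 2) * gg h ^ 2 := by
      refine le_trans (le_trans (by exact_mod_cast h5) h3) ?_
      exact mul_le_mul_of_nonneg_left (pg_sq_le hh.1) (by positivity)
    have hg : 0 ≤ gg h ^ k := pow_nonneg (gg_nonneg h) k
    calc 2 * (gg h ^ k * (#(S.filter (fun m => m + h ∈ S)) : ℝ)) ≤
          2 * (gg h ^ k * (K * (M / Real.log M ^ 2) * gg h ^ 2)) := by gcongr
      _ = _ := by ring
  refine (Finset.sum_le_sum h2).trans ?_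
  rw [← Finset.mul_sum]
  have h3 := hmom M
  calc 2 * (K * (M / Real.log M ^ 2)) * ∑ h ∈ Icc 1 M, gg h ^ (k + 2) ≤
        2 * (K * (M / Real.log M ^ 2)) * (C * M) := by gcongr
    _ = 2 * (K * C) * (M / Real.log M) ^ 2 := by field_simp

/-- sums of two primes, shifted -/
theorem mom_sum (k : ℕ) : ∃ C : ℝ, 1 ≤ C ∧ ∀ (b : ℤ) (M : ℕ) (S : Finset ℕ), 2 ≤ M → b.natAbs ≤ M →
    (∀ p ∈ S, p.Prime ∧ p ≤ M ∧ b.natAbs < p) →
    ∑ z ∈ S.offDiag, gg ((z.1 + z.2 + b : ℤ).toNat) ^ k ≤ C * (M / Real.log M) ^ 2 := by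
  classical
  obtain ⟨K, hK, hpair⟩ := pair_bound
  obtain ⟨C1, hC1, hmom1⟩ := gmom 4
  obtain ⟨C2, hC2, hmom2⟩ := gmom (2 * k)
  refine ⟨K * (2 * C1 + 3 * C2), by nlinarith, fun b M S hM hbM hS => ?_⟩
  have hMr : (2 : ℝ) ≤ M := by exact_mod_cast hM
  have hl : 0 < Real.log M := Real.log_pos (by linarith)
  obtain ⟨U, hU⟩ : ∃ U : Finset ℕ, U = (Icc 1 (2 * M)).filter (fun s : ℕ => 0 < (s : ℤ) + b) := ⟨_, rfl⟩
  have hmap : ∀ z ∈ S.offDiag, z.1 + z.2 ∈ U := by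
    intro z hz
    rw [mem_offDiag] at hz
    obtain ⟨h1, h2, -⟩ := hz
    have h3 := hS _ h1
    have h4 := hS _ h2
    have h5 := h3.1.pos
    rw [hU, mem_filter, mem_Icc]
    refine ⟨⟨by omega, by omega⟩, ?_⟩
    push_cast
    omega
  rw [← Finset.sum_fiberwise_of_maps_to hmap]
  have h1 : ∀ s ∈ U, ∑ z ∈ S.offDiag.filter (fun z => z.1 + z.2 = s),
      gg ((z.1 + z.2 + b : ℤ).toNat) ^ k ≤
      K * (M / Real.log M ^ 2) * (gg ((s + b : ℤ).toNat) ^ (2 * k) + gg s ^ 4) := by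
    intro s hs
    rw [hU, mem_filter, mem_Icc] at hs
    have h2 : ∑ z ∈ S.offDiag.filter (fun z => z.1 + z.2 = s), gg ((z.1 + z.2 + b : ℤ).toNat) ^ k =
        #(S.offDiag.filter (fun z => z.1 + z.2 = s)) * gg ((s + b : ℤ).toNat) ^ k := by
      rw [← nsmul_eq_mul, ← Finset.sum_const]
      apply Finset.sum_congr rfl
      intro z hz
      have e := (mem_filter.1 hz).2
      rw [← e]
      push_cast
      rfl
    have h3 := hpair M hM (-1) (Or.inr rfl) s hs.1.1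
    have h4 : #(S.offDiag.filter (fun z => z.1 + z.2 = s)) ≤
        Set.ncard {t : ℕ | t ≤ M ∧ t.Prime ∧ (Int.natAbs (-1 * t + s)).Prime} := by
      have h5 : (((S.offDiag.filter (fun z => z.1 + z.2 = s)).image (fun z => z.1) : Finset ℕ) : Set ℕ) ⊆
          {t : ℕ | t ≤ M ∧ t.Prime ∧ (Int.natAbs (-1 * t + s)).Prime} := by
        intro t ht
        rw [mem_coe, mem_image] at ht
        obtain ⟨z, hz, rfl⟩ := ht
        rw [mem_filter, mem_offDiag] at hz
        obtain ⟨⟨hz1, hz2, -⟩, hz4⟩ := hz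
        refine ⟨(hS _ hz1).2.1, (hS _ hz1).1, ?_⟩
        have e : Int.natAbs (-1 * (z.1 : ℤ) + s) = z.2 := by omega
        rw [e]
        exact (hS _ hz2).1
      have h6 := Set.ncard_le_ncard h5 ((Set.finite_Iic M).subset (fun t ht => ht.1))
      rw [Set.ncard_coe_finset] at h6
      refine le_trans (le_of_eq ?_) h6
      rw [card_image_of_injOn]
      intro z hz z' hz' hzz
      rw [mem_coe, mem_filter] at hz hz'
      have hzz' : z.1 = z'.1 := hzz
      have e1 := hz.2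
      have e2 := hz'.2
      exact Prod.ext hzz' (by omega)
    have h5 : (#(S.offDiag.filter (fun z => z.1 + z.2 = s)) : ℝ) ≤
        K * (M / Real.log M ^ 2) * gg s ^ 2 := by
      refine le_trans (le_trans (by exact_mod_cast h4) h3) ?_
      exact mul_le_mul_of_nonneg_left (pg_sq_le hs.1.1) (by positivity)
    rw [h2]
    have hg : 0 ≤ gg ((s + b : ℤ).toNat) ^ k := pow_nonneg (gg_nonneg _) k
    calc (#(S.offDiag.filter (fun z => z.1 + z.2 = s)) : ℝ) * gg ((s + b : ℤ).toNat) ^ k ≤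
          (K * (M / Real.log M ^ 2) * gg s ^ 2) * gg ((s + b : ℤ).toNat) ^ k :=
          mul_le_mul_of_nonneg_right h5 hg
      _ = K * (M / Real.log M ^ 2) * (gg s ^ 2 * gg ((s + b : ℤ).toNat) ^ k) := by ring
      _ ≤ K * (M / Real.log M ^ 2) * (gg ((s + b : ℤ).toNat) ^ (2 * k) + gg s ^ 4) := by
          apply mul_le_mul_of_nonneg_left _ (by positivity)
          have e1 : gg ((s + b : ℤ).toNat) ^ (2 * k) = (gg ((s + b : ℤ).toNat) ^ k) ^ 2 := by
            rw [← pow_mul, mul_comm]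
          have e2 : gg s ^ 4 = (gg s ^ 2) ^ 2 := by rw [← pow_mul]
          rw [e1, e2]
          nlinarith [sq_nonneg (gg s ^ 2 - gg ((s + b : ℤ).toNat) ^ k),
            sq_nonneg (gg s ^ 2), sq_nonneg (gg ((s + b : ℤ).toNat) ^ k)]
  refine (Finset.sum_le_sum h1).trans ?_
  rw [← Finset.mul_sum, Finset.sum_add_distrib]
  have h2 : ∑ s ∈ U, gg s ^ 4 ≤ C1 * ((2 * M : ℕ) : ℝ) := by
    refine le_trans ?_ (hmom1 (2 * M))
    apply Finset.sum_le_sum_of_subset_of_nonneg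
    · rw [hU]; exact filter_subset _ _
    · intro s _ _; exact pow_nonneg (gg_nonneg _) _
  have h3 : ∑ s ∈ U, gg ((s + b : ℤ).toNat) ^ (2 * k) ≤ C2 * ((3 * M : ℕ) : ℝ) := by
    refine le_trans ?_ (hmom2 (3 * M))
    rw [← Finset.sum_image (f := fun n => gg n ^ (2 * k)) (g := fun s : ℕ => ((s : ℤ) + b).toNat)
      (fun s hs s' hs' h => by
        rw [mem_coe, hU, mem_filter] at hs hs'
        have h' : ((s : ℤ) + b).toNat = ((s' : ℤ) + b).toNat := h
        omega)]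
    apply Finset.sum_le_sum_of_subset_of_nonneg
    · intro n hn
      obtain ⟨s, hs, rfl⟩ := mem_image.1 hn
      rw [hU, mem_filter, mem_Icc] at hs
      rw [mem_Icc]
      omega
    · intro n _ _; exact pow_nonneg (gg_nonneg _) _
  push_cast at h2 h3
  calc K * (M / Real.log M ^ 2) * (∑ s ∈ U, gg ((s + b : ℤ).toNat) ^ (2 * k) + ∑ s ∈ U, gg s ^ 4) ≤
        K * (M / Real.log M ^ 2) * ((2 * C1 + 3 * C2) * M) := by
        apply mul_le_mul_of_nonneg_left _ (by positivity)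
        linarith
    _ = K * (2 * C1 + 3 * C2) * (M / Real.log M) ^ 2 := by field_simp

/-- the positions `-f(p)` -/
def Fq (b c : ℤ) (p : ℕ) : ℤ := -((p : ℤ) ^ 2 + b * p + c)

theorem Fq_sub (b c : ℤ) (p q : ℕ) (hp : b.natAbs + c.natAbs + 3 ≤ p)
    (hq : b.natAbs + c.natAbs + 3 ≤ q) :
    (Fq b c p - Fq b c q).natAbs = Nat.dist p q * (p + q + b : ℤ).toNat := by
  have h1 : Fq b c p - Fq b c q = ((q : ℤ) - p) * (p + q + b) := by
    unfold Fq
    ring
  have h2 : (0 : ℤ) ≤ p + q + b := by omega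
  rw [h1, Int.natAbs_mul]
  have h3 : ((q : ℤ) - p).natAbs = Nat.dist p q := by
    unfold Nat.dist
    omega
  have h4 : ((p : ℤ) + q + b).natAbs = (p + q + b : ℤ).toNat := by omega
  rw [h3, h4]

theorem Fq_inj (b c : ℤ) (p q : ℕ) (hp : b.natAbs + c.natAbs + 3 ≤ p)
    (h : Fq b c p = Fq b c q) : p = q := by
  have h1 : ((q : ℤ) - p) * (p + q + b) = 0 := by
    have e : Fq b c p - Fq b c q = ((q : ℤ) - p) * (p + q + b) := by
      unfold Fq
      ring
    rw [← e, h, sub_self]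
  rcases mul_eq_zero.1 h1 with h2 | h2
  · omega
  · omega

theorem Fq_natAbs_le (b c : ℤ) (p M : ℕ) (hb : b.natAbs ≤ M) (hc : c.natAbs ≤ M) (hp : p ≤ M)
    (hM : 1 ≤ M) : (Fq b c p).natAbs ≤ 3 * M ^ 2 := by
  unfold Fq
  rw [Int.natAbs_neg]
  have h1 := Int.natAbs_add_le ((p : ℤ) ^ 2 + b * p) c
  have h2 := Int.natAbs_add_le ((p : ℤ) ^ 2) (b * p)
  have h3 : (((p : ℤ)) ^ 2).natAbs = p ^ 2 := by
    rw [Int.natAbs_pow, Int.natAbs_natCast]
  have h4 : (b * (p : ℤ)).natAbs = b.natAbs * p := by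
    rw [Int.natAbs_mul, Int.natAbs_natCast]
  rw [h3, h4] at h2
  have h5 : p ^ 2 ≤ M ^ 2 := Nat.pow_le_pow_left hp 2
  have h6 : b.natAbs * p ≤ M * M := Nat.mul_le_mul hb hp
  have h7 : M ≤ M * M := Nat.le_mul_of_pos_left M (by omega)
  have h8 : M ^ 2 = M * M := sq M
  rw [h8] at h5 ⊢
  omega

/-- **the moments of the positions `f(p)`** -/
theorem momP (T : ℝ) (hT : 0 < T) : ∃ C : ℕ → ℝ, ∃ x₀ : ℕ, ∀ x : ℕ, x₀ ≤ x → ∀ (b c : ℤ)
    (J : Finset ℕ), (∀ p ∈ J, p.Prime ∧ b.natAbs + c.natAbs + 3 ≤ p ∧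
      (p : ℝ) ≤ T * (Real.log x * Real.log (Real.log x))) →
    MomZ C (16 * T) (Real.log x) (Fq b c) J := by
  choose C1 hC1 H1 using mom_diff
  choose C2 hC2 H2 using mom_sum
  obtain ⟨x0, h0⟩ := pi_scale T hT
  refine ⟨fun K => (C1 (2 * K) + C2 (2 * K)) * (2 * T) ^ 2, x0, fun x hx b c J hJ => ?_⟩
  obtain ⟨hM2, hM3, _, hM4⟩ := h0 x hx _ rfl
  obtain ⟨M, hM⟩ : ∃ M, M = ⌊T * (Real.log x * Real.log (Real.log x))⌋₊ := ⟨_, rfl⟩
  rw [← hM] at hM2 hM3 hM4
  have hJM : ∀ p ∈ J, p ≤ M := by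
    intro p hp
    rw [hM]
    exact Nat.le_floor (hJ p hp).2.2
  refine ⟨?_, ?_, fun K => ?_⟩
  · refine le_trans ?_ hM4
    rw [Nat.cast_le]
    apply card_le_card
    intro p hp
    rw [mem_filter, mem_range]
    exact ⟨by have := hJM p hp; omega, (hJ p hp).1⟩
  · intro p hp q hq h
    exact Fq_inj b c p q (hJ p hp).2.1 h
  · have hlog : 0 ≤ (M : ℝ) / Real.log M :=
      div_nonneg (Nat.cast_nonneg _) (Real.log_natCast_nonneg M)
    have hsq : ((M : ℝ) / Real.log M) ^ 2 ≤ (2 * T * Real.log x) ^ 2 :=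
      pow_le_pow_left₀ hlog hM3 2
    rcases J.eq_empty_or_nonempty with hJe | ⟨p0, hp0⟩
    · rw [hJe]
      simp only [offDiag_empty, sum_empty]
      have a1 := hC1 (2 * K)
      have a2 := hC2 (2 * K)
      positivity
    have hbM : b.natAbs ≤ M := by
      have h1 := (hJ p0 hp0).2.1
      have h2 := hJM p0 hp0
      omega
    calc ∑ q ∈ J.offDiag, gg (Fq b c q.1 - Fq b c q.2).natAbs ^ K ≤
          ∑ q ∈ J.offDiag, (gg (Nat.dist q.1 q.2) ^ (2 * K) +
            gg ((q.1 + q.2 + b : ℤ).toNat) ^ (2 * K)) := by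
          apply sum_le_sum
          intro q hq
          rw [mem_offDiag] at hq
          have g1 := (hJ q.1 hq.1).2.1
          have g2 := (hJ q.2 hq.2.1).2.1
          rw [Fq_sub b c _ _ g1 g2]
          have h1 := gg_mul_le (a := Nat.dist q.1 q.2) (b := (q.1 + q.2 + b : ℤ).toNat)
            (Nat.dist_pos_of_ne hq.2.2) (by omega)
          have h2 := pow_le_pow_left₀ (gg_nonneg _) h1 K
          rw [mul_pow] at h2
          refine h2.trans ?_
          rw [mul_comm 2 K, pow_mul, pow_mul]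
          nlinarith [sq_nonneg (gg (Nat.dist q.1 q.2) ^ K - gg ((q.1 + q.2 + b : ℤ).toNat) ^ K),
            sq_nonneg (gg (Nat.dist q.1 q.2) ^ K), sq_nonneg (gg ((q.1 + q.2 + b : ℤ).toNat) ^ K)]
      _ ≤ C1 (2 * K) * (M / Real.log M) ^ 2 + C2 (2 * K) * (M / Real.log M) ^ 2 := by
          rw [sum_add_distrib]
          apply add_le_add
          · exact H1 (2 * K) M J hM2 fun p hp => ⟨(hJ p hp).1, hJM p hp⟩
          · exact H2 (2 * K) b M J hM2 hbM fun p hp => ⟨(hJ p hp).1, hJM p hp, by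
              have := (hJ p hp).2.1
              omega⟩
      _ = (C1 (2 * K) + C2 (2 * K)) * (M / Real.log M) ^ 2 := by ring
      _ ≤ (C1 (2 * K) + C2 (2 * K)) * (2 * T * Real.log x) ^ 2 := by
          have a1 := hC1 (2 * K)
          have a2 := hC2 (2 * K)
          exact mul_le_mul_of_nonneg_left hsq (by linarith)
      _ = _ := by ring

end Pool.Agent.H533.GE
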