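import Pool.Agent.H533.GE.Prm

/-!
Odd integers `f(p) + q` with a small prime `p` of a prescribed set: the theorems.
-/

set_option autoImplicit false
set_option maxHeartbeats 1000000

open Finset Filter Topology

namespace Pool.Agent.H533.GE

open Pool.Agent.H533.QM
open Pool.Agent.H533.QS
open Pool.Agent.H533.QA

/-- `n = f(p) + q` with a prime `q` -/
def RepF (b c : ℤ) (n p : ℕ) : Prop := ∃ q : ℕ, q.Prime ∧ ((p : ℤ) ^ 2 + b * p + c) + q = n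

theorem repF_iff {b c : ℤ} {n p : ℕ} : RepF b c n p ↔ PZ ((n : ℤ) + Fq b c p) := by
  unfold RepF PZ Fq
  constructor
  · rintro ⟨q, hq, e⟩
    exact ⟨q, hq, by linarith⟩
  · rintro ⟨q, hq, e⟩
    exact ⟨q, hq, by linarith⟩

theorem Fq_even {b c : ℤ} (hbc : Odd (b + c)) {p : ℕ} (hp : Odd p) : Even (Fq b c p) := by
  unfold Fq
  rw [even_neg]
  obtain ⟨r, hr⟩ := hp
  obtain ⟨s, hs⟩ := hbc
  have hc : c = 2 * s + 1 - b := by linarith
  refine ⟨2 * (r : ℤ) ^ 2 + 2 * r + b * r + s + 1, ?_⟩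
  rw [hc, hr]
  push_cast
  ring

theorem odd_of_rep {b c : ℤ} (hbc : Odd (b + c)) {n p : ℕ} (hp : Odd p)
    (h : PZ ((n : ℤ) + Fq b c p)) (hlt : (Fq b c p).natAbs + 2 < n) : Odd n := by
  obtain ⟨q, hq, e⟩ := h
  have h1 : q ≠ 2 := by omega
  have h2 : Odd ((q : ℕ) : ℤ) := by exact_mod_cast hq.odd_of_ne_two h1
  rw [e] at h2
  have h3 := Fq_even hbc hp
  rcases Nat.even_or_odd n with h4 | h4
  · have h5 : Even ((n : ℤ)) := by exact_mod_cast h4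
    exact absurd (h5.add h3) (Int.not_even_iff_odd.2 h2)
  · exact h4

theorem Fq_pow_le {b c : ℤ} {p B : ℕ} {L : ℝ} (hL : 2 ≤ L)
    (hb : ((b.natAbs + c.natAbs : ℕ) : ℝ) ≤ L ^ B) (hp : (p : ℝ) ≤ L ^ B) :
    (((Fq b c p).natAbs : ℕ) : ℝ) ≤ L ^ (2 * B + 2) := by
  obtain ⟨M, hM⟩ : ∃ M, M = ⌊L ^ B⌋₊ := ⟨_, rfl⟩
  have hpow : 1 ≤ L ^ B := one_le_pow₀ (by linarith)
  have hM1 : 1 ≤ M := by
    rw [hM]
    apply Nat.le_floor
    rw [Nat.cast_one]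
    exact hpow
  have h1 : b.natAbs + c.natAbs ≤ M := by
    rw [hM]
    exact Nat.le_floor hb
  have h2 : p ≤ M := by
    rw [hM]
    exact Nat.le_floor hp
  have h3 := Fq_natAbs_le b c p M (by omega) (by omega) h2 hM1
  have h4 : (M : ℝ) ≤ L ^ B := by
    rw [hM]
    exact Nat.floor_le (by positivity)
  calc (((Fq b c p).natAbs : ℕ) : ℝ) ≤ ((3 * M ^ 2 : ℕ) : ℝ) := by exact_mod_cast h3
    _ = 3 * (M : ℝ) ^ 2 := by push_cast; ring
    _ ≤ 3 * (L ^ B) ^ 2 := by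
        apply mul_le_mul_of_nonneg_left _ (by norm_num)
        exact pow_le_pow_left₀ (Nat.cast_nonneg _) h4 2
    _ ≤ L ^ 2 * (L ^ B) ^ 2 := by
        apply mul_le_mul_of_nonneg_right _ (by positivity)
        nlinarith
    _ = _ := by ring

open Classical in
/-- the number of the odd `n` at which `n - f(p)` is prime exactly for `p ∈ T` -/
noncomputable def EP (b c : ℤ) (x : ℕ) (J T : Finset ℕ) : ℕ :=
  ((Ico x (2 * x)).filter (fun n : ℕ => Odd n ∧ ∀ p ∈ J, (RepF b c n p ↔ p ∈ T))).card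

theorem EZ_le_EP {b c : ℤ} (hbc : Odd (b + c)) {x : ℕ} {J T : Finset ℕ} (hTJ : T ⊆ J)
    (hT : T.Nonempty) (hodd : ∀ p ∈ T, Odd p) (hx : ∀ p ∈ T, (Fq b c p).natAbs + 2 < x) :
    EZ x (Fq b c) J T ≤ EP b c x J T := by
  classical
  unfold EZ EP
  obtain ⟨t, ht⟩ := hT
  apply card_le_card
  intro n hn
  rw [mem_filter, mem_Ico] at hn
  rw [mem_filter, mem_Ico]
  refine ⟨hn.1, ?_, fun p hp => ?_⟩
  · exact odd_of_rep hbc (hodd t ht) ((hn.2 t (hTJ ht)).2 ht) (by have := hx t ht; omega)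
  · rw [repF_iff]
    exact hn.2 p hp

open Classical in
theorem GZ_subP {b c : ℤ} (hbc : Odd (b + c)) {x l : ℕ} {κ : ℝ} {J A : Finset ℕ} (hl : 1 ≤ l)
    (hodd : ∀ p ∈ J, Odd p) (hx : ∀ p ∈ J, (Fq b c p).natAbs + 2 < x) :
    GZ x l κ (Fq b c) J A ⊆ ((A ∩ J).powersetCard l).filter
        (fun T => κ * max 1 (SZ (Fq b c) T) * (x / Real.log x ^ l) ≤ (EP b c x J T : ℝ)) := by
  intro T hT
  unfold GZ at hT
  rw [mem_filter, mem_powersetCard] at hT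
  obtain ⟨⟨h1, h1'⟩, h3⟩ := hT
  have hTJ : T ⊆ J := fun r hr => (mem_inter.1 (h1 hr)).2
  have hne : T.Nonempty := by rw [← card_pos, h1']; omega
  rw [mem_filter, mem_powersetCard]
  refine ⟨⟨h1, h1'⟩, ?_⟩
  have h4 := EZ_le_EP hbc hTJ hne (fun k hk => hodd k (hTJ hk)) (fun k hk => hx k (hTJ hk))
  have h5 : (EZ x (Fq b c) J T : ℝ) ≤ EP b c x J T := by exact_mod_cast h4
  exact le_trans h3 h5

/-- the primes of `J` are bounded by `Y` and larger than `|b| + |c| + 2` -/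
def BddP (Y : ℝ) (b c : ℤ) (J : Finset ℕ) : Prop :=
  ∀ p ∈ J, p.Prime ∧ b.natAbs + c.natAbs + 3 ≤ p ∧ (p : ℝ) ≤ Y

theorem BddP.bd {b c : ℤ} {J : Finset ℕ} {L : ℝ} {B : ℕ} (hL : 2 ≤ L) (h : BddP (L ^ B) b c J) :
    ∀ p ∈ J, (((Fq b c p).natAbs : ℕ) : ℝ) ≤ L ^ (2 * B + 2) := by
  intro p hp
  obtain ⟨_, h2, h3⟩ := h p hp
  exact Fq_pow_le hL (le_trans (by exact_mod_cast (by omega : b.natAbs + c.natAbs ≤ p)) h3) h3

theorem BddP.odd {b c : ℤ} {J : Finset ℕ} {Y : ℝ} (h : BddP Y b c J) : ∀ p ∈ J, Odd p := by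
  intro p hp
  obtain ⟨h1, h2, _⟩ := h p hp
  exact h1.odd_of_ne_two (by omega)

open Classical in
/-- **(2)** -/
theorem prm2 (C : ℕ → ℝ) (Λ ρ : ℝ) (hΛ : 0 < Λ) (hρ : 0 < ρ) (m : ℕ) (hm : 1 ≤ m) :
    ∃ M : ℕ, ∃ κ : ℝ, 0 < κ ∧ ∀ B : ℕ, ∃ x₀ : ℕ, ∀ x : ℕ, x₀ ≤ x → ∀ (b c : ℤ), Odd (b + c) →
    ∀ (J : Finset ℕ), BddP (Real.log x ^ B) b c J → MomZ C Λ (Real.log x) (Fq b c) J →
    ∀ A ⊆ J, ρ * Real.log x ≤ A.card → ∃ l, m ≤ l ∧ l ≤ M ∧
      κ * Real.log x ^ l ≤ (((A.powersetCard l).filter (fun T => κ * max 1 (SZ (Fq b c) T) *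
        (x / Real.log x ^ l) ≤ (EP b c x J T : ℝ))).card : ℝ) := by
  obtain ⟨M, κ, hκ, H2⟩ := zf2 C Λ ρ hΛ hρ m hm
  refine ⟨M, κ, hκ, fun B => ?_⟩
  obtain ⟨x2, h2⟩ := H2 (2 * B + 2)
  obtain ⟨x3, h3⟩ := log_small (2 * B + 2)
  have t1 : Tendsto (fun X : ℕ => Real.log (X : ℝ)) atTop atTop :=
    Real.tendsto_log_atTop.comp tendsto_natCast_atTop_atTop
  obtain ⟨x4, h4⟩ := eventually_atTop.1 (t1.eventually_ge_atTop 2)
  refine ⟨x2 + x3 + x4, fun x hx b c hbc J hJ hMom A hAJ hA => ?_⟩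
  have hL := h4 x (by omega)
  have hbd := hJ.bd hL
  obtain ⟨l, hl1, hl2, h5⟩ := h2 x (by omega) (Fq b c) A J hAJ hbd hMom hA
  refine ⟨l, hl1, hl2, h5.trans ?_⟩
  rw [Nat.cast_le]
  have h6 := card_le_card (GZ_subP hbc (x := x) (l := l) (κ := κ) (J := J)
    (A := A) (by omega) hJ.odd (fun n hn => h3 x (by omega) _ (hbd n hn)))
  rw [inter_eq_left.2 hAJ] at h6
  exact h6

open Classical in
/-- **(3)** -/
theorem prm3 (C : ℕ → ℝ) (Λ ρ : ℝ) (hΛ : 0 < Λ) (hρ : 0 < ρ) (l : ℕ) (hl : 1 ≤ l) :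
    ∃ κ : ℝ, 0 < κ ∧ ∀ B : ℕ, ∃ x₀ : ℕ, ∀ x : ℕ, x₀ ≤ x → ∀ (b c : ℤ), Odd (b + c) →
    ∀ (J : Finset ℕ), BddP (Real.log x ^ B) b c J → MomZ C Λ (Real.log x) (Fq b c) J →
    ∀ A ⊆ J, ρ * Real.log x ≤ A.card → ∃ t : ℕ,
      κ * Real.log x ^ l ≤ ((((A.filter (fun p => p ≤ t)).powersetCard l).filter
        (fun T => κ * max 1 (SZ (Fq b c) T) * (x / Real.log x ^ l) ≤
          (EP b c x (J.filter (fun p => p ≤ t)) T : ℝ))).card : ℝ) := by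
  obtain ⟨κ, hκ, H2⟩ := zf3 C Λ ρ hΛ hρ l hl
  refine ⟨κ, hκ, fun B => ?_⟩
  obtain ⟨x2, h2⟩ := H2 (2 * B + 2)
  obtain ⟨x3, h3⟩ := log_small (2 * B + 2)
  have t1 : Tendsto (fun X : ℕ => Real.log (X : ℝ)) atTop atTop :=
    Real.tendsto_log_atTop.comp tendsto_natCast_atTop_atTop
  obtain ⟨x4, h4⟩ := eventually_atTop.1 (t1.eventually_ge_atTop 2)
  refine ⟨x2 + x3 + x4, fun x hx b c hbc J hJ hMom A hAJ hA => ?_⟩
  have hL := h4 x (by omega)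
  have hbd := hJ.bd hL
  obtain ⟨t, h5⟩ := h2 x (by omega) (Fq b c) A J hAJ hbd hMom hA
  refine ⟨t, h5.trans ?_⟩
  rw [Nat.cast_le]
  have h6 := card_le_card (GZ_subP hbc (x := x) (l := l) (κ := κ)
    (J := J.filter (fun p => p ≤ t)) (A := A) hl (fun n hn => hJ.odd n (mem_filter.1 hn).1)
    (fun n hn => h3 x (by omega) _ (hbd n (mem_filter.1 hn).1)))
  have h7 : A ∩ J.filter (fun n => n ≤ t) = A.filter (fun n => n ≤ t) := by
    ext n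
    rw [mem_inter, mem_filter, mem_filter]
    exact ⟨fun h => ⟨h.1, h.2.2⟩, fun h => ⟨h.1, hAJ h.1, h.2⟩⟩
  rw [h7] at h6
  exact h6

/-- few primes up to `log x + 3` -/
theorem few_primes (ε : ℝ) (hε : 0 < ε) : ∃ x₀ : ℕ, ∀ x : ℕ, x₀ ≤ x →
    (((range (⌊Real.log x⌋₊ + 4)).filter Nat.Prime).card : ℝ) ≤ ε * Real.log x := by
  obtain ⟨X1, h1⟩ := pi_upper
  have t1 : Tendsto (fun X : ℕ => Real.log (X : ℝ)) atTop atTop :=
    Real.tendsto_log_atTop.comp tendsto_natCast_atTop_atTop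
  have t2 : Tendsto (fun X : ℕ => Real.log (Real.log (X : ℝ))) atTop atTop :=
    Real.tendsto_log_atTop.comp t1
  obtain ⟨X2, h2⟩ := eventually_atTop.1 ((t1.eventually_ge_atTop ((X1 : ℝ) + 8)).and
    (t2.eventually_ge_atTop (8 / ε)))
  refine ⟨X2, fun x hx => ?_⟩
  obtain ⟨g1, g2⟩ := h2 x hx
  obtain ⟨L, hL⟩ : ∃ L, L = Real.log x := ⟨_, rfl⟩
  rw [← hL] at g1 g2 ⊢
  have hX1 : (0 : ℝ) ≤ X1 := Nat.cast_nonneg _
  obtain ⟨M, hM⟩ : ∃ M, M = ⌊L⌋₊ + 4 := ⟨_, rfl⟩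
  have hML : (M : ℝ) ≤ 2 * L := by
    rw [hM]
    push_cast
    have := Nat.floor_le (show 0 ≤ L by linarith)
    linarith
  have hML2 : L ≤ M := by
    rw [hM]
    push_cast
    have := Nat.lt_floor_add_one L
    linarith
  have hXM : X1 ≤ M := by
    have : (X1 : ℝ) ≤ M := by linarith
    exact_mod_cast this
  have h5 := h1 M hXM
  have h6 : ((range M).filter Nat.Prime).card ≤ ((range (2 * M)).filter Nat.Prime).card := by
    apply card_le_card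
    apply filter_subset_filter
    apply range_subset_range.2
    omega
  rw [← hM]
  have hlogM : Real.log L ≤ Real.log M := Real.log_le_log (by linarith) hML2
  have hlL : 0 < Real.log L := lt_of_lt_of_le (by positivity) g2
  calc (((range M).filter Nat.Prime).card : ℝ) ≤ (((range (2 * M)).filter Nat.Prime).card : ℝ) := by
        exact_mod_cast h6
    _ ≤ 4 * M / Real.log M := h5
    _ ≤ 4 * (2 * L) / Real.log L := by
        apply div_le_div₀ (by linarith) (by linarith) hlL hlogM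
    _ ≤ ε * L := by
        rw [div_le_iff₀ hlL]
        rw [div_le_iff₀ hε] at g2
        nlinarith

open Classical in
/-- **(1)** -/
theorem prm1 (m : ℕ) (ρ T : ℝ) (hρ : 0 < ρ) (hT : 0 < T) :
    ∃ δ : ℝ, 0 < δ ∧ ∃ x₀ : ℕ, ∀ x : ℕ, x₀ ≤ x → ∀ (b c : ℤ), Odd (b + c) →
    ((b.natAbs + c.natAbs : ℕ) : ℝ) ≤ Real.log x →
    ∀ A : Finset ℕ, (∀ p ∈ A, p.Prime ∧ (p : ℝ) ≤ T * (Real.log x * Real.log (Real.log x))) →
    ρ * Real.log x ≤ A.card →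
    δ * x ≤ (((Ico x (2 * x)).filter (fun n : ℕ => Odd n ∧
      m ≤ (A.filter (fun p => RepF b c n p)).card ∧
      ∀ p : ℕ, p.Prime → (p : ℝ) ≤ T * (Real.log x * Real.log (Real.log x)) →
        RepF b c n p → p ∈ A)).card : ℝ) := by
  obtain ⟨C, x0, h0⟩ := momP T hT
  obtain ⟨δ, hδ, H⟩ := zf1 (m + 1) (ρ / 2) (16 * T) ((|C 1| + 1) / (ρ / 2) ^ 2) (by positivity)
    (by positivity) (by positivity)
  obtain ⟨x1, h1⟩ := H 6
  obtain ⟨x2, h2⟩ := log_small 6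
  obtain ⟨x3, h3⟩ := few_primes (ρ / 2) (by positivity)
  obtain ⟨x5, h5⟩ := pi_scale T hT
  have t1 : Tendsto (fun X : ℕ => Real.log (X : ℝ)) atTop atTop :=
    Real.tendsto_log_atTop.comp tendsto_natCast_atTop_atTop
  obtain ⟨x4, h4⟩ := eventually_atTop.1 (t1.eventually_ge_atTop 2)
  refine ⟨δ, hδ, x0 + x1 + x2 + x3 + x4 + x5, fun x hx b c hbc hbcL A hA hAc => ?_⟩
  have hL := h4 x (by omega)
  obtain ⟨hM2, hM3, hM5, hM4⟩ := h5 x (by omega) _ rfl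
  obtain ⟨M, hM⟩ : ∃ M, M = ⌊T * (Real.log x * Real.log (Real.log x))⌋₊ := ⟨_, rfl⟩
  rw [← hM] at hM2 hM3 hM4 hM5
  have hpM : ∀ p : ℕ, (p : ℝ) ≤ T * (Real.log x * Real.log (Real.log x)) → p ≤ M := by
    intro p hp
    rw [hM]
    exact Nat.le_floor hp
  obtain ⟨J, hJ⟩ : ∃ J, J = (range (M + 1)).filter Nat.Prime := ⟨_, rfl⟩
  obtain ⟨A', hA'⟩ : ∃ A', A' = A.filter (fun p => b.natAbs + c.natAbs + 3 ≤ p) := ⟨_, rfl⟩
  have hAA : A' ⊆ A := by rw [hA']; exact filter_subset _ _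
  have hA'J : A' ⊆ J := by
    intro p hp
    have h6 := hA p (hAA hp)
    rw [hJ, mem_filter, mem_range]
    exact ⟨by have := hpM p h6.2; omega, h6.1⟩
  have hA'c : ρ / 2 * Real.log x ≤ A'.card := by
    have h6 : A ⊆ A' ∪ (range (⌊Real.log x⌋₊ + 4)).filter Nat.Prime := by
      intro p hp
      rw [mem_union, hA', mem_filter, mem_filter, mem_range]
      by_cases h7 : b.natAbs + c.natAbs + 3 ≤ p
      · exact Or.inl ⟨hp, h7⟩
      · right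
        refine ⟨?_, (hA p hp).1⟩
        have h8 : b.natAbs + c.natAbs ≤ ⌊Real.log x⌋₊ := Nat.le_floor hbcL
        omega
    have h7 := (card_le_card h6).trans (card_union_le _ _)
    have h8 : (A.card : ℝ) ≤ A'.card + (((range (⌊Real.log x⌋₊ + 4)).filter Nat.Prime).card : ℝ) := by
      exact_mod_cast h7
    have h9 := h3 x (by omega)
    linarith
  have hbd : ∀ p ∈ J, (((Fq b c p).natAbs : ℕ) : ℝ) ≤ Real.log x ^ 6 := by
    intro p hp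
    rw [hJ, mem_filter, mem_range] at hp
    refine Fq_pow_le (B := 2) hL ?_ ?_
    · refine hbcL.trans ?_
      nlinarith
    · refine le_trans ?_ hM5
      exact_mod_cast (by omega : p ≤ M)
  have hmom := h0 x (by omega) b c A' (fun p hp => by
    have h6 := hA p (hAA hp)
    rw [hA', mem_filter] at hp
    exact ⟨h6.1, hp.2, h6.2⟩)
  have key := h1 x (by omega) (Fq b c) A' J hA'J hbd hmom.2.1 hA'c (by rw [hJ]; exact hM4) (by
    have k2 := hmom.2.2 1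
    simp only [pow_one] at k2
    have k3 : (ρ / 2) ^ 2 * Real.log x ^ 2 ≤ (A'.card : ℝ) ^ 2 := by
      rw [← mul_pow]
      exact pow_le_pow_left₀ (by positivity) hA'c 2
    have k4 : C 1 * Real.log x ^ 2 ≤ (|C 1| + 1) * Real.log x ^ 2 := by
      apply mul_le_mul_of_nonneg_right _ (by positivity)
      linarith [le_abs_self (C 1)]
    calc _ ≤ (|C 1| + 1) * Real.log x ^ 2 := k2.trans k4
      _ = (|C 1| + 1) / (ρ / 2) ^ 2 * ((ρ / 2) ^ 2 * Real.log x ^ 2) := by field_simp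
      _ ≤ _ := mul_le_mul_of_nonneg_left k3 (by positivity))
  refine key.trans ?_
  rw [Nat.cast_le]
  apply card_le_card
  intro n hn
  rw [mem_filter, mem_Ico] at hn
  rw [mem_filter, mem_Ico]
  obtain ⟨hn1, hn2, hn3⟩ := hn
  refine ⟨hn1, ?_, ?_, ?_⟩
  · obtain ⟨p, hp⟩ := card_pos.1 (lt_of_lt_of_le (Nat.succ_pos m) hn2)
    rw [mem_filter] at hp
    have h6 := h2 x (by omega) _ (hbd p (hA'J hp.1))
    have h7 := hp.1
    rw [hA', mem_filter] at h7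
    exact odd_of_rep hbc ((hA p h7.1).1.odd_of_ne_two (by omega)) hp.2 (by omega)
  · refine le_trans (Nat.le_succ m) (hn2.trans (card_le_card ?_))
    intro p hp
    rw [mem_filter] at hp ⊢
    exact ⟨hAA hp.1, repF_iff.2 hp.2⟩
  · intro p hp hpT hrep
    have hpJ : p ∈ J := by
      rw [hJ, mem_filter, mem_range]
      exact ⟨by have := hpM p hpT; omega, hp⟩
    obtain ⟨j, hj, e⟩ := hn3 p hpJ (repF_iff.1 hrep)
    have h7 := hj
    rw [hA', mem_filter] at h7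
    have := Fq_inj b c j p h7.2 e
    rw [← this]
    exact h7.1

open Classical in
/-- **(1')** windows -/
theorem prmW (m : ℕ) (α β Λ : ℝ) (hα : 0 ≤ α) (hαβ : α < β) (hβΛ : β ≤ Λ) :
    ∃ δ : ℝ, 0 < δ ∧ ∃ x₀ : ℕ, ∀ x : ℕ, x₀ ≤ x → ∀ (b c : ℤ), Odd (b + c) →
    ((b.natAbs + c.natAbs : ℕ) : ℝ) ≤ Real.log x →
    δ * x ≤ (((Ico x (2 * x)).filter (fun n : ℕ => Odd n ∧
      m ≤ ((Ioc ⌊α * L2 x⌋₊ ⌊β * L2 x⌋₊).filter (fun p => p.Prime ∧ RepF b c n p)).card ∧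
      ∀ p : ℕ, p.Prime → (p : ℝ) ≤ Λ * L2 x → RepF b c n p →
        α * L2 x < p ∧ (p : ℝ) ≤ β * L2 x)).card : ℝ) := by
  have hβ : 0 < β := lt_of_le_of_lt hα hαβ
  have hΛ : 0 < Λ := lt_of_lt_of_le hβ hβΛ
  obtain ⟨x1, h1⟩ := primes_window ((α + β) / 2) β (by linarith) (by linarith)
  obtain ⟨δ, hδ, x2, h2⟩ := prm1 m ((β - α) / 4) Λ (by linarith) hΛ
  have t1 : Tendsto (fun X : ℕ => Real.log (X : ℝ)) atTop atTop :=
    Real.tendsto_log_atTop.comp tendsto_natCast_atTop_atTop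
  have t2 : Tendsto (fun X : ℕ => Real.log (Real.log (X : ℝ))) atTop atTop :=
    Real.tendsto_log_atTop.comp t1
  obtain ⟨x3, h3⟩ := eventually_atTop.1 ((t1.eventually_ge_atTop 0).and (t2.eventually_ge_atTop 0))
  refine ⟨δ, hδ, x1 + x2 + x3, fun x hx b c hbc hbcL => ?_⟩
  obtain ⟨g1, g2⟩ := h3 x (by omega)
  have hL2 : 0 ≤ L2 x := by unfold L2; positivity
  obtain ⟨A, hA⟩ : ∃ A, A = (Ioc ⌊α * L2 x⌋₊ ⌊β * L2 x⌋₊).filter Nat.Prime := ⟨_, rfl⟩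
  have hAc : (β - α) / 4 * Real.log x ≤ A.card := by
    have h4 := h1 x (by omega)
    have e : (β - (α + β) / 2) / 2 = (β - α) / 4 := by ring
    rw [e] at h4
    refine h4.trans ?_
    rw [Nat.cast_le, hA]
    apply card_le_card
    apply filter_subset_filter
    apply Ioc_subset_Ioc_left
    apply Nat.floor_le_floor
    apply mul_le_mul_of_nonneg_right _ hL2
    linarith
  have hmem : ∀ p ∈ A, p.Prime ∧ α * L2 x < p ∧ (p : ℝ) ≤ β * L2 x := by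
    intro p hp
    rw [hA, mem_filter, mem_Ioc] at hp
    refine ⟨hp.2, ?_, ?_⟩
    · exact (Nat.floor_lt (by positivity)).1 hp.1.1
    · exact (Nat.le_floor_iff (by positivity)).1 hp.1.2
  refine (h2 x (by omega) b c hbc hbcL A (fun p hp => ?_) hAc).trans ?_
  · obtain ⟨q1, _, q3⟩ := hmem p hp
    exact ⟨q1, q3.trans (mul_le_mul_of_nonneg_right hβΛ hL2)⟩
  · rw [Nat.cast_le]
    apply card_le_card
    intro n hn
    rw [mem_filter] at hn ⊢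
    refine ⟨hn.1, hn.2.1, hn.2.2.1.trans (le_of_eq ?_), fun p hp hpΛ hrep => ?_⟩
    · rw [hA, filter_filter]
    · obtain ⟨_, q2, q3⟩ := hmem p (hn.2.2.2 p hp hpΛ hrep)
      exact ⟨q2, q3⟩

/-- the scale is nonnegative and small -/
theorem ell_le (Λ : ℝ) (hΛ : 0 < Λ) : ∃ x₀ : ℕ, ∀ x : ℕ, x₀ ≤ x →
    0 ≤ Real.log x * Real.log (Real.log x) ∧
    ∀ p : ℕ, (p : ℝ) ≤ Λ * (Real.log x * Real.log (Real.log x)) → p < 2 * x := by
  obtain ⟨x1, h1⟩ := pi_scale Λ hΛ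
  obtain ⟨x2, h2⟩ := log_small 2
  have t1 : Tendsto (fun X : ℕ => Real.log (X : ℝ)) atTop atTop :=
    Real.tendsto_log_atTop.comp tendsto_natCast_atTop_atTop
  have t2 : Tendsto (fun X : ℕ => Real.log (Real.log (X : ℝ))) atTop atTop :=
    Real.tendsto_log_atTop.comp t1
  obtain ⟨x3, h3⟩ := eventually_atTop.1 ((t1.eventually_ge_atTop 0).and (t2.eventually_ge_atTop 0))
  refine ⟨x1 + x2 + x3, fun x hx => ?_⟩
  obtain ⟨g1, g2⟩ := h3 x (by omega)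
  obtain ⟨_, _, g3, _⟩ := h1 x (by omega) _ rfl
  refine ⟨mul_nonneg g1 g2, fun p hp => ?_⟩
  have h4 : p ≤ ⌊Λ * (Real.log x * Real.log (Real.log x))⌋₊ := Nat.le_floor hp
  have h5 := h2 x (by omega) p (le_trans (by exact_mod_cast h4) g3)
  omega

end Pool.Agent.H533.GE
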