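import Pool.Agent.H533.GE.DilH

/-!
Shifts `n + a`: the singular series and the upper bound.
-/

set_option autoImplicit false

open Finset Filter Topology

namespace Pool.Agent.H533.GE

open Pool.Agent.H533.QM
open Pool.Agent.W218.MU (SL Prim disc res disc_ne SL_le SL_nonneg w w_le w_le_p)
open Pool.Agent.H386R2.HL (tt)

/-- the forms `n + a` -/
def es : ℕ ↪ ℕ × ℕ := ⟨fun a => (1, a), fun _ _ h => (Prod.mk.inj h).2⟩

/-- the number of `x ≤ n < 2x` with all `n + a`, `a ∈ T`, prime -/
def NS (x : ℕ) (T : Finset ℕ) : ℕ := ((Ico x (2 * x)).filter (fun n => ∀ a ∈ T, (n + a).Prime)).card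

/-- the singular series -/
noncomputable def SS (T : Finset ℕ) : ℝ := SL (T.map es)

theorem prim_es (T : Finset ℕ) : Prim (T.map es) := by
  intro L hL
  rw [Finset.mem_map] at hL
  obtain ⟨a, ha, rfl⟩ := hL
  exact ⟨le_rfl, Nat.coprime_one_left a⟩

theorem SS_nonneg (T : Finset ℕ) : 0 ≤ SS T := SL_nonneg (prim_es T)

/-- upper bound for shifts -/
theorem shf_up (l : ℕ) : ∃ C : ℝ, 0 < C ∧ ∃ x₀ : ℕ, ∀ x : ℕ, x₀ ≤ x → ∀ T : Finset ℕ, T.card = l →
    (NS x T : ℝ) ≤ C * (SS T * (x / Real.log x ^ l)) := by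
  classical
  obtain ⟨C, hC, X₀, h⟩ := Pool.Agent.Y840.PT.up l
  refine ⟨C, hC, max X₀ (l + 2), fun x hx T hc => ?_⟩
  have hx1 : l + 2 ≤ x := (le_max_right _ _).trans hx
  have hT := prim_es T
  by_cases hadm : ∀ p : ℕ, p.Prime → w (T.map es) p < p
  · have h1 := h x (x - 1) ((le_max_left _ _).trans hx) (by omega) (T.map es) hT
      (by rw [card_map, hc]) hadm
    refine le_trans ?_ h1
    rw [Nat.cast_le]
    unfold NS
    apply card_le_card
    intro n hn
    rw [mem_filter, mem_Ico] at hn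
    rw [mem_filter, mem_Ioc]
    refine ⟨by omega, fun L hL => ?_⟩
    rw [Finset.mem_map] at hL
    obtain ⟨a, haT, rfl⟩ := hL
    have := hn.2 a haT
    show (1 * n + a).Prime
    rwa [one_mul]
  · push Not at hadm
    obtain ⟨p, hp, hwp⟩ := hadm
    have hw : w (T.map es) p = p := le_antisymm (w_le_p _ _) hwp
    have hpl : p ≤ l := by
      have := w_le hT hp
      rw [hw, card_map, hc] at this
      exact this
    have h0 : SS T = 0 := Pool.Agent.Y840.PT.SL_zero hT hp hw
    rw [h0, zero_mul, mul_zero]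
    have h1 : NS x T = 0 := by
      unfold NS
      rw [card_eq_zero, filter_eq_empty_iff]
      intro n hn hall
      rw [mem_Ico] at hn
      have h2 : (range p).filter (fun n => ∃ L ∈ T.map es, p ∣ L.1 * n + L.2) = range p := by
        apply eq_of_subset_of_card_le (filter_subset _ _)
        rw [card_range]
        exact hwp
      have h3 : n % p ∈ (range p).filter (fun n => ∃ L ∈ T.map es, p ∣ L.1 * n + L.2) := by
        rw [h2, mem_range]; exact Nat.mod_lt _ hp.pos
      obtain ⟨L, hL, hd⟩ := (mem_filter.1 h3).2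
      rw [Finset.mem_map] at hL
      obtain ⟨a, haT, rfl⟩ := hL
      have hd2 : p ∣ 1 * n + a := (Pool.Agent.Y840.PT.dvd_mod p 1 a n).2 hd
      rw [one_mul] at hd2
      have he := (Nat.prime_dvd_prime_iff_eq hp (hall a haT)).1 hd2
      omega
    rw [h1]; simp

/-- the exponent of the moments -/
def Kl (l : ℕ) : ℕ := (l * l * l) * 2

/-- pointwise bound for the square of the singular series -/
theorem SS_sq_le {T : Finset ℕ} {l : ℕ} (hc : T.card = l) :
    SS T ^ 2 ≤ 1 + ∑ q ∈ T.offDiag, gg (Nat.dist q.1 q.2) ^ Kl l := by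
  classical
  have hP := prim_es T
  obtain ⟨v, hv, hmax⟩ := exists_max_image ({1} ∪ dvl T) gg ⟨1, mem_union_left _ (mem_singleton_self _)⟩
  have hv1 : 1 ≤ v := by
    rcases mem_union.1 hv with h | h
    · rw [mem_singleton] at h; omega
    · unfold dvl at h
      rw [mem_image] at h
      obtain ⟨q, hq, rfl⟩ := h
      rw [mem_offDiag] at hq
      exact dist_pos' hq.2.2
  have hgv := gg_ge hv1
  have h1 : SS T ≤ gg (disc (T.map es)) ^ l := by
    have := SL_le hP 0
    rw [card_map, hc, tt_zero (Nat.pos_of_ne_zero (disc_ne hP))] at this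
    have e0 : (0 + 1 : ℕ).primesBelow = ∅ := by decide
    rw [e0, prod_empty, one_mul] at this
    exact this
  have h2 : gg (disc (T.map es)) ≤ gg v ^ (l * l) := by
    unfold disc
    have e1 : ∏ L ∈ T.map es, L.1 = 1 := by
      apply prod_eq_one
      intro L hL
      rw [Finset.mem_map] at hL
      obtain ⟨a, ha, rfl⟩ := hL
      rfl
    rw [e1, one_mul]
    have hpos2 : ∀ q ∈ (T.map es) ×ˢ (T.map es), 1 ≤ (if q.1 = q.2 then 1 else res q.1 q.2) := by
      intro q hq
      rw [mem_product, Finset.mem_map, Finset.mem_map] at hq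
      obtain ⟨⟨a, ha, e1⟩, ⟨b, hb, e2⟩⟩ := hq
      split_ifs with h
      · exact le_rfl
      · rw [← e1, ← e2]
        show 1 ≤ Nat.dist (1 * b) (1 * a)
        rw [one_mul, one_mul]
        apply dist_pos'
        intro h3
        rw [← e1, ← e2, h3] at h
        exact h rfl
    refine (gg_prod_le _ _ hpos2).trans ?_
    calc ∏ q ∈ (T.map es) ×ˢ (T.map es), gg (if q.1 = q.2 then 1 else res q.1 q.2) ≤
          ∏ _q ∈ (T.map es) ×ˢ (T.map es), gg v := by
          apply Finset.prod_le_prod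
          · intro L _; exact gg_nonneg _
          · intro q hq
            rw [mem_product, Finset.mem_map, Finset.mem_map] at hq
            obtain ⟨⟨a, ha, e1⟩, ⟨b, hb, e2⟩⟩ := hq
            split_ifs with h
            · rw [gg_one]; exact hgv
            · rw [← e1, ← e2]
              show gg (Nat.dist (1 * b) (1 * a)) ≤ gg v
              rw [one_mul, one_mul]
              apply hmax
              apply mem_union_right
              unfold dvl
              rw [mem_image]
              refine ⟨(b, a), ?_, rfl⟩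
              rw [mem_offDiag]
              refine ⟨hb, ha, fun h3 => ?_⟩
              have h3' : b = a := h3
              rw [← e1, ← e2, h3'] at h
              exact h rfl
      _ = gg v ^ (l * l) := by rw [prod_const, card_product, card_map, hc]
  have h3 : SS T ^ 2 ≤ gg v ^ Kl l := by
    unfold Kl
    rw [pow_mul, pow_mul]
    apply pow_le_pow_left₀ (SS_nonneg T)
    exact h1.trans (pow_le_pow_left₀ (gg_nonneg _) h2 l)
  refine h3.trans ?_
  have hn2 : ∀ q ∈ T.offDiag, 0 ≤ gg (Nat.dist q.1 q.2) ^ Kl l :=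
    fun q _ => pow_nonneg (gg_nonneg _) _
  rcases mem_union.1 hv with h | h
  · rw [mem_singleton] at h
    have h5 := sum_nonneg hn2
    rw [h, gg_one, one_pow]
    linarith
  · unfold dvl at h
    rw [mem_image] at h
    obtain ⟨q, hq, rfl⟩ := h
    have h4 := single_le_sum hn2 hq
    linarith

/-- a set of shifts with bounded moments -/
def MomJ (C : ℕ → ℝ) (Λ L : ℝ) (J : Finset ℕ) : Prop :=
  (J.card : ℝ) ≤ Λ * L ∧ ∀ K : ℕ, ∑ q ∈ J.offDiag, gg (Nat.dist q.1 q.2) ^ K ≤ C K * L ^ 2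

/-- **the second moment of the singular series** -/
theorem SS2sum (l : ℕ) (hl : 1 ≤ l) (C : ℕ → ℝ) (Λ : ℝ) (hΛ : 0 < Λ) : ∃ D : ℝ, 1 ≤ D ∧
    ∀ (L : ℝ) (J : Finset ℕ), 0 ≤ L → MomJ C Λ L J →
    ∑ T ∈ J.powersetCard l, (1 + SS T ^ 2) ≤ D * L ^ l := by
  classical
  refine ⟨2 * Λ ^ l + |C (Kl l)| * Λ ^ (l - 2) + 1, by
    have : 0 ≤ |C (Kl l)| := abs_nonneg _
    have h2 : 0 < Λ ^ l := by positivity
    have h3 : 0 ≤ |C (Kl l)| * Λ ^ (l - 2) := by positivity
    linarith, fun L J hL hJ => ?_⟩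
  obtain ⟨hJ1, hJ2⟩ := hJ
  have hJl : ∀ k : ℕ, (J.card : ℝ) ^ k ≤ Λ ^ k * L ^ k := fun k => by
    rw [← mul_pow]
    exact pow_le_pow_left₀ (Nat.cast_nonneg _) hJ1 k
  have h1 : ∀ T ∈ J.powersetCard l, 1 + SS T ^ 2 ≤ 2 +
      ∑ q ∈ T.offDiag, gg (Nat.dist q.1 q.2) ^ Kl l := by
    intro T hT
    rw [mem_powersetCard] at hT
    have := SS_sq_le hT.2
    linarith
  refine (sum_le_sum h1).trans ?_
  rw [sum_add_distrib, sum_const, nsmul_eq_mul]
  have hcard : ((J.powersetCard l).card : ℝ) ≤ Λ ^ l * L ^ l := by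
    rw [card_powersetCard]
    refine le_trans ?_ (hJl l)
    exact_mod_cast Nat.choose_le_pow _ _
  have hoff : ∑ T ∈ J.powersetCard l, ∑ q ∈ T.offDiag, gg (Nat.dist q.1 q.2) ^ Kl l ≤
      |C (Kl l)| * Λ ^ (l - 2) * L ^ l := by
    rcases Nat.lt_or_ge l 2 with h2 | h2
    · have hl1 : l = 1 := by omega
      have e2 : ∑ T ∈ J.powersetCard l, ∑ q ∈ T.offDiag, gg (Nat.dist q.1 q.2) ^ Kl l = 0 := by
        apply sum_eq_zero
        intro T hT
        rw [mem_powersetCard, hl1, card_eq_one] at hT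
        obtain ⟨_, a, rfl⟩ := hT
        simp
      rw [e2]
      positivity
    · have e1 : ∑ T ∈ J.powersetCard l, ∑ q ∈ T.offDiag, gg (Nat.dist q.1 q.2) ^ Kl l =
          ∑ q ∈ J.offDiag, ∑ T ∈ (J.powersetCard l).filter (fun T => ({q.1, q.2} : Finset ℕ) ⊆ T),
            gg (Nat.dist q.1 q.2) ^ Kl l := by
        apply sum_comm'
        intro T q
        rw [mem_filter, insert_subset_iff, singleton_subset_iff, mem_powersetCard, mem_offDiag,
          mem_offDiag]
        constructor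
        · rintro ⟨a, b, c, d⟩
          exact ⟨⟨a, b, c⟩, a.1 b, a.1 c, d⟩
        · rintro ⟨⟨a, b, c⟩, _, _, d⟩
          exact ⟨a, b, c, d⟩
      rw [e1]
      calc ∑ q ∈ J.offDiag, ∑ T ∈ (J.powersetCard l).filter
            (fun T => ({q.1, q.2} : Finset ℕ) ⊆ T), gg (Nat.dist q.1 q.2) ^ Kl l
          ≤ ∑ q ∈ J.offDiag, (J.card : ℝ) ^ (l - 2) * gg (Nat.dist q.1 q.2) ^ Kl l := by
            apply sum_le_sum
            intro q hq
            rw [mem_offDiag] at hq
            rw [sum_const, nsmul_eq_mul]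
            apply mul_le_mul_of_nonneg_right _ (pow_nonneg (gg_nonneg _) _)
            have hc : ({q.1, q.2} : Finset ℕ).card = 2 := card_pair hq.2.2
            have := card_contain (l := l) (S := J) (U := {q.1, q.2}) (by rw [hc]; exact h2)
            rw [hc] at this
            exact_mod_cast this
        _ = (J.card : ℝ) ^ (l - 2) * ∑ q ∈ J.offDiag, gg (Nat.dist q.1 q.2) ^ Kl l := by
            rw [mul_sum]
        _ ≤ (Λ ^ (l - 2) * L ^ (l - 2)) * (|C (Kl l)| * L ^ 2) := by
            apply mul_le_mul (hJl (l - 2)) _ (sum_nonneg fun q _ => pow_nonneg (gg_nonneg _) _)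
              (by positivity)
            refine (hJ2 (Kl l)).trans ?_
            exact mul_le_mul_of_nonneg_right (le_abs_self _) (by positivity)
        _ = _ := by
            obtain ⟨k, rfl⟩ : ∃ k, l = k + 2 := ⟨l - 2, by omega⟩
            rw [Nat.add_sub_cancel, pow_add L]
            ring
  have hLl : 0 ≤ L ^ l := by positivity
  nlinarith

/-- intervals have bounded moments -/
theorem momI (b : ℝ) (hb : 0 < b) : ∃ C : ℕ → ℝ, ∀ (L : ℝ) (N : ℕ), 0 ≤ L → (N : ℝ) ≤ b * L →
    MomJ C b L (Icc 1 N) := by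
  choose C hC hm using gmom
  refine ⟨fun K => 2 * C K * b ^ 2, fun L N hL hN => ⟨?_, fun K => ?_⟩⟩
  · rw [Nat.card_Icc, Nat.add_sub_cancel]
    exact hN
  have e3 : ∑ q ∈ (Icc 1 N).offDiag, gg (Nat.dist q.1 q.2) ^ K =
      ∑ a ∈ Icc 1 N, ∑ b ∈ (Icc 1 N).erase a, gg (Nat.dist a b) ^ K := by
    rw [sum_sigma']
    apply sum_bij' (fun q _ => (⟨q.1, q.2⟩ : Σ _ : ℕ, ℕ)) (fun s _ => (s.1, s.2))
    · intro q hq
      rw [mem_offDiag] at hq
      rw [mem_sigma, mem_erase]
      exact ⟨hq.1, hq.2.2.symm, hq.2.1⟩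
    · intro s hs
      rw [mem_sigma, mem_erase] at hs
      rw [mem_offDiag]
      exact ⟨hs.1, hs.2.2, hs.2.1.symm⟩
    · intro q _; rfl
    · intro s _; rfl
    · intro q _; rfl
  rw [e3]
  calc ∑ a ∈ Icc 1 N, ∑ b ∈ (Icc 1 N).erase a, gg (Nat.dist a b) ^ K ≤
        ∑ _a ∈ Icc 1 N, 2 * (C K * N) := by
        apply sum_le_sum
        intro a ha
        refine (sum_dist (fun n => gg n ^ K) (fun n => pow_nonneg (gg_nonneg _) _) ha).trans ?_
        exact mul_le_mul_of_nonneg_left (hm K N) (by norm_num)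
    _ = 2 * C K * (N : ℝ) ^ 2 := by
        rw [sum_const, Nat.card_Icc, Nat.add_sub_cancel, nsmul_eq_mul]
        ring
    _ ≤ 2 * C K * (b * L) ^ 2 := by
        have := hC K
        apply mul_le_mul_of_nonneg_left _ (by positivity)
        exact pow_le_pow_left₀ (Nat.cast_nonneg _) hN 2
    _ = _ := by ring

end Pool.Agent.H533.GE
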