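import Pool.Agent.H533.GE.Shf

/-!
Exact prime tuples `n + a`.
-/

set_option autoImplicit false

open Finset Filter Topology

namespace Pool.Agent.H533.GE

open Pool.Agent.H533.QM
open Pool.Agent.H533.QS
open Pool.Agent.H533.QA
open Pool.Agent.W218.MU (SL Prim SL_nonneg)

/-- the `a ∈ J` with `n + a` prime -/
def TJ (J : Finset ℕ) (n : ℕ) : Finset ℕ := J.filter (fun a => (n + a).Prime)

theorem mem_TJ {J : Finset ℕ} {n a : ℕ} : a ∈ TJ J n ↔ a ∈ J ∧ (n + a).Prime := by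
  unfold TJ; rw [mem_filter]

theorem upsumS (l : ℕ) (hl : 1 ≤ l) (C : ℕ → ℝ) (Λ : ℝ) (hΛ : 0 < Λ) : ∃ D : ℝ, 0 < D ∧ ∃ x₀ : ℕ,
    ∀ x : ℕ, x₀ ≤ x → ∀ J : Finset ℕ, MomJ C Λ (Real.log x) J →
    ∀ F : Finset (Finset ℕ), F ⊆ J.powersetCard l →
    (∑ T ∈ F, (NS x T : ℝ)) ^ 2 ≤ D * (F.card * Real.log x ^ l) * (x / Real.log x ^ l) ^ 2 := by
  obtain ⟨C1, hC1, x0, h1⟩ := shf_up l
  obtain ⟨C2, hC2, h2⟩ := SS2sum l hl C Λ hΛ
  refine ⟨C1 ^ 2 * C2, by positivity, x0, fun x hx J hJ F hF => ?_⟩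
  have hlog : 0 ≤ Real.log x := Real.log_natCast_nonneg x
  have hT : ∀ T ∈ F, T.card = l := by
    intro T hT
    have := hF hT
    rw [mem_powersetCard] at this
    exact this.2
  have h3 : ∑ T ∈ F, (NS x T : ℝ) ≤ C1 * (x / Real.log x ^ l) * ∑ T ∈ F, SS T := by
    rw [mul_sum]
    apply sum_le_sum
    intro T hTF
    have := h1 x hx T (hT T hTF)
    calc _ ≤ _ := this
      _ = _ := by ring
  have h4 : (∑ T ∈ F, SS T) ^ 2 ≤ F.card * (C2 * Real.log x ^ l) := by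
    refine (sq_sum_le_card_mul_sum_sq).trans ?_
    apply mul_le_mul_of_nonneg_left _ (Nat.cast_nonneg _)
    refine le_trans ?_ (h2 _ J hlog hJ)
    calc ∑ T ∈ F, SS T ^ 2 ≤ ∑ T ∈ J.powersetCard l, SS T ^ 2 :=
          sum_le_sum_of_subset_of_nonneg hF (fun _ _ _ => sq_nonneg _)
      _ ≤ _ := sum_le_sum fun T _ => by linarith
  have h5 : 0 ≤ ∑ T ∈ F, (NS x T : ℝ) := sum_nonneg fun _ _ => Nat.cast_nonneg _
  calc (∑ T ∈ F, (NS x T : ℝ)) ^ 2 ≤ (C1 * (x / Real.log x ^ l) * ∑ T ∈ F, SS T) ^ 2 :=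
        pow_le_pow_left₀ h5 h3 2
    _ = C1 ^ 2 * (x / Real.log x ^ l) ^ 2 * (∑ T ∈ F, SS T) ^ 2 := by ring
    _ ≤ C1 ^ 2 * (x / Real.log x ^ l) ^ 2 * (F.card * (C2 * Real.log x ^ l)) :=
        mul_le_mul_of_nonneg_left h4 (by positivity)
    _ = _ := by ring

open Classical in
/-- the number of `n` at which the primes are exactly those of `T` -/
noncomputable def ES (x : ℕ) (J T : Finset ℕ) : ℕ :=
  ((Ico x (2 * x)).filter (fun n => TJ J n = T)).card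

theorem ES_le (x : ℕ) (J T : Finset ℕ) : ES x J T ≤ NS x T := by
  classical
  unfold ES NS
  apply card_le_card
  intro n hn
  rw [mem_filter] at hn ⊢
  refine ⟨hn.1, fun a ha => ?_⟩
  rw [← hn.2, mem_TJ] at ha
  exact ha.2

open Classical in
/-- the good sets -/
noncomputable def GS (x l : ℕ) (κ : ℝ) (J R : Finset ℕ) : Finset (Finset ℕ) :=
  ((R.filter (fun r => r ∈ J)).powersetCard l).filter (fun T =>
      κ * max 1 (SS T) * (x / Real.log x ^ l) ≤ (ES x J T : ℝ))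

theorem GS_mono {x l : ℕ} {κ κ' : ℝ} {J R : Finset ℕ} (h : κ ≤ κ') :
    GS x l κ' J R ⊆ GS x l κ J R := by
  intro T hT
  unfold GS at hT ⊢
  rw [mem_filter] at hT ⊢
  refine ⟨hT.1, le_trans ?_ hT.2⟩
  have h1 : (0 : ℝ) ≤ max 1 (SS T) := zero_le_one.trans (le_max_left _ _)
  have h2 : (0 : ℝ) ≤ x / Real.log x ^ l :=
    div_nonneg (Nat.cast_nonneg _) (pow_nonneg (Real.log_natCast_nonneg x) _)
  exact mul_le_mul_of_nonneg_right (mul_le_mul_of_nonneg_right h h1) h2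

open Classical in
/-- from the number of the `n` to the number of the sets `T` -/
theorem coreS (l : ℕ) (hl : 1 ≤ l) (C : ℕ → ℝ) (Λ c : ℝ) (hΛ : 0 < Λ) (hc : 0 < c) :
    ∃ κ : ℝ, 0 < κ ∧ ∃ x₀ : ℕ, ∀ x : ℕ, x₀ ≤ x → ∀ J : Finset ℕ, MomJ C Λ (Real.log x) J →
    ∀ R : Finset ℕ,
    c * x ≤ (((Ico x (2 * x)).filter (fun n => (TJ J n).card = l ∧ TJ J n ⊆ R)).card : ℝ) →
    κ * Real.log x ^ l ≤ ((GS x l κ J R).card : ℝ) := by
  obtain ⟨C1, hC1, x1, h1⟩ := upsumS l hl C Λ hΛ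
  obtain ⟨C2, hC2, h2⟩ := SS2sum l hl C Λ hΛ
  obtain ⟨κ, hκ⟩ : ∃ κ, κ = min (c / (2 * C2)) (c ^ 2 / (4 * C1)) := ⟨_, rfl⟩
  have hκ0 : 0 < κ := by
    rw [hκ]
    exact lt_min (by positivity) (by positivity)
  have hκ1 : κ ≤ c / (2 * C2) := by rw [hκ]; exact min_le_left _ _
  have hκ2 : κ ≤ c ^ 2 / (4 * C1) := by rw [hκ]; exact min_le_right _ _
  refine ⟨κ, hκ0, max x1 3, fun x hx J hJ R hR => ?_⟩
  have hx1 : x1 ≤ x := (le_max_left _ _).trans hx
  have hx3 : 3 ≤ x := (le_max_right _ _).trans hx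
  have hx0 : (0 : ℝ) < x := by exact_mod_cast (by omega : 0 < x)
  have hL : 0 < Real.log x := Real.log_pos (by exact_mod_cast (by omega : 1 < x))
  obtain ⟨P, hP⟩ : ∃ P, P = (R.filter (fun r => r ∈ J)).powersetCard l := ⟨_, rfl⟩
  have hPs : P ⊆ J.powersetCard l := by
    intro T hT
    rw [hP, mem_powersetCard] at hT
    rw [mem_powersetCard]
    exact ⟨fun r hr => (mem_filter.1 (hT.1 hr)).2, hT.2⟩
  have hsum : c * x ≤ ∑ T ∈ P, (ES x J T : ℝ) := by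
    refine hR.trans ?_
    have hmaps : ∀ n ∈ (Ico x (2 * x)).filter (fun n => (TJ J n).card = l ∧ TJ J n ⊆ R),
        TJ J n ∈ P := by
      intro n hn
      rw [mem_filter] at hn
      rw [hP, mem_powersetCard]
      refine ⟨fun r hr => ?_, hn.2.1⟩
      rw [mem_filter]
      refine ⟨hn.2.2 hr, ?_⟩
      rw [mem_TJ] at hr
      exact hr.1
    rw [card_eq_sum_card_fiberwise hmaps]
    push_cast
    apply sum_le_sum
    intro T _
    rw [Nat.cast_le]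
    unfold ES
    apply card_le_card
    intro n hn
    rw [mem_filter, mem_filter] at hn
    rw [mem_filter]
    exact ⟨hn.1.1, hn.2⟩
  have hGP : GS x l κ J R = P.filter (fun T =>
      κ * max 1 (SS T) * (x / Real.log x ^ l) ≤ (ES x J T : ℝ)) := by
    unfold GS; rw [hP]
  obtain ⟨G, hG⟩ : ∃ G, G = P.filter (fun T =>
      κ * max 1 (SS T) * (x / Real.log x ^ l) ≤ (ES x J T : ℝ)) := ⟨_, rfl⟩
  rw [hGP, ← hG]
  have hsplit := sum_filter_add_sum_filter_not P (fun T =>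
      κ * max 1 (SS T) * (x / Real.log x ^ l) ≤ (ES x J T : ℝ)) (fun T => (ES x J T : ℝ))
  rw [← hG] at hsplit
  have hM : 0 < (x : ℝ) / Real.log x ^ l := by positivity
  have hbad : ∑ T ∈ P.filter (fun T => ¬ κ * max 1 (SS T) * (x / Real.log x ^ l) ≤
      (ES x J T : ℝ)), (ES x J T : ℝ) ≤ c / 2 * x := by
    calc _ ≤ ∑ T ∈ P.filter (fun T => ¬ κ * max 1 (SS T) * (x / Real.log x ^ l) ≤
          (ES x J T : ℝ)), κ * (1 + SS T ^ 2) * (x / Real.log x ^ l) := by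
          apply sum_le_sum
          intro T hT
          rw [mem_filter, not_le] at hT
          refine hT.2.le.trans ?_
          apply mul_le_mul_of_nonneg_right _ hM.le
          apply mul_le_mul_of_nonneg_left _ hκ0.le
          apply max_le
          · nlinarith [sq_nonneg (SS T)]
          · nlinarith [sq_nonneg (SS T - 1)]
      _ ≤ ∑ T ∈ J.powersetCard l, κ * (1 + SS T ^ 2) * (x / Real.log x ^ l) := by
          apply sum_le_sum_of_subset_of_nonneg ((filter_subset _ _).trans hPs)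
          intro T _ _
          positivity
      _ = κ * (x / Real.log x ^ l) * ∑ T ∈ J.powersetCard l, (1 + SS T ^ 2) := by
          rw [mul_sum]
          apply sum_congr rfl
          intro T _
          ring
      _ ≤ κ * (x / Real.log x ^ l) * (C2 * Real.log x ^ l) :=
          mul_le_mul_of_nonneg_left (h2 _ J hL.le hJ) (by positivity)
      _ = κ * (C2 * x) := by field_simp
      _ ≤ c / (2 * C2) * (C2 * x) := mul_le_mul_of_nonneg_right hκ1 (by positivity)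
      _ = c / 2 * x := by field_simp
  have hgood : c / 2 * x ≤ ∑ T ∈ G, (NS x T : ℝ) := by
    have h3 : ∑ T ∈ G, (ES x J T : ℝ) ≤ ∑ T ∈ G, (NS x T : ℝ) :=
      sum_le_sum fun T _ => by exact_mod_cast ES_le x J T
    linarith
  have hGs : G ⊆ J.powersetCard l := by
    rw [hG]; exact (filter_subset _ _).trans hPs
  have h4 := h1 x hx1 J hJ G hGs
  have h5 : (c / 2 * x) ^ 2 ≤ C1 * (G.card * Real.log x ^ l) * (x / Real.log x ^ l) ^ 2 :=
    (pow_le_pow_left₀ (by positivity) hgood 2).trans h4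
  have h6 : x ^ 2 * (c ^ 2 / (4 * C1) * Real.log x ^ l) ≤ (x : ℝ) ^ 2 * G.card := by
    have e1 : (x : ℝ) ^ 2 * (c ^ 2 / (4 * C1) * Real.log x ^ l) =
        (c / 2 * x) ^ 2 * (Real.log x ^ l / C1) := by
      field_simp
      ring
    rw [e1]
    calc (c / 2 * x) ^ 2 * (Real.log x ^ l / C1) ≤
          (C1 * (G.card * Real.log x ^ l) * (x / Real.log x ^ l) ^ 2) *
            (Real.log x ^ l / C1) := mul_le_mul_of_nonneg_right h5 (by positivity)
      _ = _ := by field_simp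
  have h7 := le_of_mul_le_mul_left h6 (by positivity)
  exact (mul_le_mul_of_nonneg_right hκ2 (by positivity)).trans h7

/-- `coreS` for all sizes up to `M` -/
theorem coreSM (M : ℕ) (C : ℕ → ℝ) (Λ c : ℝ) (hΛ : 0 < Λ) (hc : 0 < c) : ∃ κ : ℝ, 0 < κ ∧ ∃ x₀ : ℕ,
    ∀ l : ℕ, 1 ≤ l → l ≤ M → ∀ x : ℕ, x₀ ≤ x → ∀ J : Finset ℕ, MomJ C Λ (Real.log x) J →
    ∀ R : Finset ℕ,
    c * x ≤ (((Ico x (2 * x)).filter (fun n => (TJ J n).card = l ∧ TJ J n ⊆ R)).card : ℝ) →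
    κ * Real.log x ^ l ≤ ((GS x l κ J R).card : ℝ) := by
  classical
  have hex : ∀ l : ℕ, ∃ κ : ℝ, 0 < κ ∧ ∃ x₀ : ℕ, 1 ≤ l →
    ∀ x : ℕ, x₀ ≤ x → ∀ J : Finset ℕ, MomJ C Λ (Real.log x) J → ∀ R : Finset ℕ,
    c * x ≤ (((Ico x (2 * x)).filter (fun n => (TJ J n).card = l ∧ TJ J n ⊆ R)).card : ℝ) →
    κ * Real.log x ^ l ≤ ((GS x l κ J R).card : ℝ) := by
    intro l
    rcases Nat.lt_or_ge l 1 with h | h
    · exact ⟨1, one_pos, 0, fun h' => by omega⟩
    · obtain ⟨κ, hκ, x0, h0⟩ := coreS l h C Λ c hΛ hc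
      refine ⟨κ, hκ, x0, fun _ x hx J hJ R hR => ?_⟩
      exact h0 x hx J hJ R (by
        refine hR.trans (le_of_eq ?_)
        congr!)
  choose κ hκ x0 h0 using hex
  obtain ⟨k0, hk0, hk⟩ := fin_min M κ hκ
  refine ⟨k0, hk0, ∑ l ∈ range (M + 1), x0 l, fun l hl hlM x hx J hJ R hR => ?_⟩
  have hxl : x0 l ≤ x := (single_le_sum (f := x0) (fun _ _ => Nat.zero_le _)
    (mem_range.2 (by omega))).trans hx
  have h1 := h0 l hl x hxl J hJ R hR
  have h2 : (0 : ℝ) ≤ Real.log x ^ l := pow_nonneg (Real.log_natCast_nonneg x) _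
  calc k0 * Real.log x ^ l ≤ κ l * Real.log x ^ l := mul_le_mul_of_nonneg_right (hk l hlM) h2
    _ ≤ _ := h1
    _ ≤ _ := by exact_mod_cast card_le_card (GS_mono (hk l hlM))

open Classical in
/-- arbitrary sets of shifts -/
theorem genS (m : ℕ) (ρ Λ C : ℝ) (hρ : 0 < ρ) (hΛ : 0 < Λ) (hC : 0 < C) :
    ∃ c : ℝ, 0 < c ∧ ∀ B : ℕ, ∃ x₀ : ℕ, ∀ x : ℕ, x₀ ≤ x → ∀ A J : Finset ℕ, A ⊆ J →
    (∀ a ∈ J, 1 ≤ a ∧ (a : ℝ) ≤ Real.log x ^ B) →
    ρ * Real.log x ≤ A.card → (J.card : ℝ) ≤ Λ * Real.log x →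
    ∑ a ∈ A, ∑ b ∈ A.erase a, gg (Nat.dist a b) ≤ C * (A.card : ℝ) ^ 2 →
    c * x ≤ (((Ico x (2 * x)).filter (fun n => m ≤ (A.filter (fun a => (n + a).Prime)).card ∧
      ∀ a ∈ J, (n + a).Prime → a ∈ A)).card : ℝ) := by
  obtain ⟨c, hc, H⟩ := arbF m ρ Λ C hρ hΛ hC
  refine ⟨c, hc, fun B => ?_⟩
  obtain ⟨X0, h⟩ := H B
  refine ⟨max X0 3, fun x hx A J hAJ hJ h1 h2 h3 => ?_⟩
  have hx0 : X0 ≤ x := (le_max_left _ _).trans hx
  have hx3 : 3 ≤ x := (le_max_right _ _).trans hx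
  have hlog1 : 1 ≤ Real.log x := by
    rw [Real.le_log_iff_exp_le (by exact_mod_cast (by omega : 0 < x))]
    have := Real.exp_one_lt_d9
    have h4 : (3 : ℝ) ≤ x := by exact_mod_cast hx3
    linarith
  have hone : ∀ S : Finset ℕ, ∑ f ∈ S.map es, gg f.1 = (S.card : ℝ) := by
    intro S
    rw [sum_map]
    have : ∀ a ∈ S, gg (es a).1 = 1 := fun a _ => gg_one
    rw [sum_congr rfl this, sum_const, nsmul_eq_mul, mul_one]
  have key := h x hx0 1 le_rfl (by omega) (A.map es) (J.map es) (by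
      intro f hf
      rw [Finset.mem_map] at hf ⊢
      obtain ⟨r, hr, rfl⟩ := hf
      exact ⟨r, hAJ hr, rfl⟩) (by
      intro f hf
      rw [Finset.mem_map] at hf
      obtain ⟨r, hr, rfl⟩ := hf
      obtain ⟨g1, g2⟩ := hJ r hr
      refine ⟨⟨le_rfl, g1, Nat.coprime_one_left _⟩, ?_, g2⟩
      show ((1 : ℕ) : ℝ) ≤ _
      rw [Nat.cast_one]
      exact one_le_pow₀ hlog1) (by
      rw [hone]
      unfold Ls
      rw [fr_one, one_mul]
      exact h1) (by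
      rw [hone]
      unfold Ls
      rw [fr_one, one_mul]
      exact h2) (by
      have e1 : pairF (A.map es) = ∑ a ∈ A, ∑ b ∈ A.erase a, gg (Nat.dist a b) := by
        unfold pairF
        rw [sum_map]
        apply sum_congr rfl
        intro a _
        rw [← map_erase, sum_map]
        apply sum_congr rfl
        intro b _
        have e2 : Dl (es a) (es b) = Nat.dist a b := by
          show ((a : ℤ) * ((1 : ℕ) : ℤ) - (b : ℤ) * ((1 : ℕ) : ℤ)).natAbs = Nat.dist a b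
          rw [Nat.cast_one, mul_one, mul_one]
          unfold Nat.dist
          omega
        rw [e2]
        show gg 1 * gg 1 * gg (Nat.dist a b) = _
        rw [gg_one, one_mul, one_mul]
      rw [e1, hone]
      exact h3)
  rw [fr_one, one_mul] at key
  refine key.trans ?_
  rw [Nat.cast_le]
  apply card_le_card
  intro n hn
  rw [mem_filter] at hn ⊢
  obtain ⟨g1, _, g3, g4⟩ := hn
  have e3 : ∀ a : ℕ, ff 1 (es a) n = n + a := by
    intro a
    show 1 * n + a * 1 = n + a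
    rw [mul_one, one_mul]
  refine ⟨g1, ?_, ?_⟩
  · refine g3.trans ?_
    rw [filter_map, card_map]
    apply card_le_card
    intro r hr
    rw [mem_filter] at hr ⊢
    refine ⟨hr.1, ?_⟩
    have h5 : (ff 1 (es r) n).Prime := hr.2
    rwa [e3] at h5
  · intro r hr hp
    have h5 := g4 (es r) (mem_map_of_mem es hr) (by rw [e3]; exact hp)
    rw [Finset.mem_map] at h5
    obtain ⟨r', hr', e⟩ := h5
    rwa [es.injective e] at hr'

theorem off_erase (S : Finset ℕ) (f : ℕ → ℕ → ℝ) :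
    ∑ a ∈ S, ∑ b ∈ S.erase a, f a b = ∑ q ∈ S.offDiag, f q.1 q.2 := by
  symm
  rw [sum_sigma']
  apply sum_bij' (fun q _ => (⟨q.1, q.2⟩ : Σ _ : ℕ, ℕ)) (fun s _ => (s.1, s.2))
  · intro q hq
    rw [mem_offDiag] at hq
    rw [mem_sigma, mem_erase]
    exact ⟨hq.1, hq.2.2.symm, hq.2.1⟩
  · intro s hs
    rw [mem_sigma, mem_erase] at hs
    rw [mem_offDiag]
    exact ⟨hs.1, hs.2.2, hs.2.1.symm⟩
  · intro q _; rfl
  · intro s _; rfl
  · intro q _; rfl

open Classical in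
/-- many integers with many primes, all in `R` -/
theorem baseS (m : ℕ) (C : ℕ → ℝ) (Λ ρ : ℝ) (hΛ : 0 < Λ) (hρ : 0 < ρ) : ∃ c : ℝ, 0 < c ∧
    ∀ B : ℕ, ∃ x₀ : ℕ, ∀ x : ℕ, x₀ ≤ x → ∀ R J : Finset ℕ, R ⊆ J →
    (∀ a ∈ J, 1 ≤ a ∧ (a : ℝ) ≤ Real.log x ^ B) → MomJ C Λ (Real.log x) J →
    ρ * Real.log x ≤ R.card →
    c * x ≤ (((Ico x (2 * x)).filter (fun n => m ≤ (TJ J n).card ∧ TJ J n ⊆ R)).card : ℝ) := by
  obtain ⟨c, hc, H⟩ := genS m ρ Λ ((|C 1| + 1) / ρ ^ 2) hρ hΛ (by positivity)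
  refine ⟨c, hc, fun B => ?_⟩
  obtain ⟨x0, h⟩ := H B
  refine ⟨x0, fun x hx R J hRJ hJ hM hRc => ?_⟩
  have hL : 0 ≤ Real.log x := Real.log_natCast_nonneg x
  have key := h x hx R J hRJ hJ hRc hM.1 (by
    rw [off_erase R (fun a b => gg (Nat.dist a b))]
    have h1 : ∑ q ∈ R.offDiag, gg (Nat.dist q.1 q.2) ≤ ∑ q ∈ J.offDiag, gg (Nat.dist q.1 q.2) :=
      sum_le_sum_of_subset_of_nonneg (offDiag_mono hRJ) (fun _ _ _ => gg_nonneg _)
    have h2 := hM.2 1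
    simp only [pow_one] at h2
    have h3 : ρ ^ 2 * Real.log x ^ 2 ≤ (R.card : ℝ) ^ 2 := by
      rw [← mul_pow]
      exact pow_le_pow_left₀ (by positivity) hRc 2
    have h4 : C 1 * Real.log x ^ 2 ≤ (|C 1| + 1) * Real.log x ^ 2 := by
      apply mul_le_mul_of_nonneg_right _ (by positivity)
      linarith [le_abs_self (C 1)]
    calc _ ≤ (|C 1| + 1) * Real.log x ^ 2 := h1.trans (h2.trans h4)
      _ = (|C 1| + 1) / ρ ^ 2 * (ρ ^ 2 * Real.log x ^ 2) := by field_simp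
      _ ≤ _ := mul_le_mul_of_nonneg_left h3 (by positivity))
  refine key.trans ?_
  rw [Nat.cast_le]
  apply card_le_card
  intro n hn
  rw [mem_filter] at hn ⊢
  obtain ⟨g1, g2, g3⟩ := hn
  refine ⟨g1, g2.trans (card_le_card ?_), ?_⟩
  · intro r hr
    rw [mem_filter] at hr
    rw [mem_TJ]
    exact ⟨hRJ hr.1, hr.2⟩
  · intro r hr
    rw [mem_TJ] at hr
    exact g3 r hr.1 hr.2

/-- a family of sets of shifts and the `n` -/
theorem hitS_le (x : ℕ) (J : Finset ℕ) (F : Finset (Finset ℕ)) (G : Finset ℕ)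
    (hG : G ⊆ Ico x (2 * x)) (h : ∀ n ∈ G, ∃ T ∈ F, T ⊆ TJ J n) :
    (G.card : ℝ) ≤ ∑ T ∈ F, (NS x T : ℝ) := by
  classical
  have h1 : G ⊆ F.biUnion (fun T => (Ico x (2 * x)).filter (fun n => ∀ a ∈ T, (n + a).Prime)) := by
    intro n hn
    obtain ⟨T, hT, hs⟩ := h n hn
    rw [mem_biUnion]
    refine ⟨T, hT, mem_filter.2 ⟨hG hn, fun r hr => ?_⟩⟩
    have := hs hr
    rw [mem_TJ] at this
    exact this.2
  have h2 := (card_le_card h1).trans card_biUnion_le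
  have h3 : ∀ T ∈ F, ((Ico x (2 * x)).filter (fun n => ∀ a ∈ T, (n + a).Prime)).card ≤
      NS x T := by
    intro T _
    unfold NS
    apply card_le_card
    intro n hn
    rw [mem_filter] at hn ⊢
    exact hn
  have h4 := h2.trans (sum_le_sum h3)
  exact_mod_cast h4

/-- the total number of the primes -/
theorem totS (x : ℕ) (J : Finset ℕ) : ∑ n ∈ Ico x (2 * x), ((TJ J n).card : ℝ) =
    ∑ T ∈ J.powersetCard 1, (NS x T : ℝ) := by
  classical
  have h1 : ∀ n ∈ Ico x (2 * x), ((TJ J n).card : ℝ) =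
      ∑ a ∈ J, if (n + a).Prime then (1 : ℝ) else 0 := by
    intro n _
    unfold TJ
    rw [card_filter]
    push_cast
    rfl
  rw [sum_congr rfl h1, sum_comm, powersetCard_one, sum_map]
  apply sum_congr rfl
  intro a _
  unfold NS
  rw [← Nat.cast_one (R := ℝ), ← Nat.cast_zero (R := ℝ)]
  simp only [← Nat.cast_ite]
  rw [← Nat.cast_sum, ← card_filter]
  congr 2
  apply filter_congr
  intro n _
  show (n + a).Prime ↔ ∀ a' ∈ ({a} : Finset ℕ), (n + a').Prime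
  simp

end Pool.Agent.H533.GE
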