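import Pool.Agent.H533.GE.ShfF

/-!
Exact prime tuples `n + a`: the two theorems.
-/

set_option autoImplicit false

open Finset Filter Topology

namespace Pool.Agent.H533.GE

open Pool.Agent.H533.QM
open Pool.Agent.H533.QS
open Pool.Agent.H533.QA

open Classical in
/-- **exact tuples of a bounded size** -/
theorem part2S (C : ℕ → ℝ) (Λ ρ : ℝ) (hΛ : 0 < Λ) (hρ : 0 < ρ) (m : ℕ) (hm : 1 ≤ m) :
    ∃ M : ℕ, ∃ κ : ℝ, 0 < κ ∧ ∀ B : ℕ, ∃ x₀ : ℕ, ∀ x : ℕ, x₀ ≤ x → ∀ R J : Finset ℕ, R ⊆ J →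
    (∀ a ∈ J, 1 ≤ a ∧ (a : ℝ) ≤ Real.log x ^ B) → MomJ C Λ (Real.log x) J →
    ρ * Real.log x ≤ R.card → ∃ l : ℕ, m ≤ l ∧ l ≤ M ∧
    κ * Real.log x ^ l ≤ ((GS x l κ J R).card : ℝ) := by
  obtain ⟨c, hc, hbase⟩ := baseS m C Λ ρ hΛ hρ
  obtain ⟨C1, hC1, x1, h1⟩ := upsumS 1 le_rfl C Λ hΛ
  obtain ⟨K, hK⟩ : ∃ K : ℝ, K = (C1 + 1) * (Λ + 1) := ⟨_, rfl⟩
  have hK0 : 0 < K := by rw [hK]; positivity
  obtain ⟨M, hM⟩ := exists_nat_ge (2 * K / c)
  have hM0 : (0 : ℝ) < M := lt_of_lt_of_le (by positivity) hM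
  obtain ⟨κ, hκ, x2, h2⟩ := coreSM M C Λ (c / (2 * (M + 1))) hΛ (by positivity)
  refine ⟨M, κ, hκ, fun B => ?_⟩
  obtain ⟨x0, h0⟩ := hbase B
  refine ⟨x0 + x1 + x2 + 3, fun x hx R J hRJ hJ hMom hRc => ?_⟩
  have hx0 : (0 : ℝ) < x := by exact_mod_cast (by omega : 0 < x)
  have hL : 0 < Real.log x := Real.log_pos (by exact_mod_cast (by omega : 1 < x))
  have hb0 := h0 x (by omega) R J hRJ hJ hMom hRc
  have htot : ∑ n ∈ Ico x (2 * x), ((TJ J n).card : ℝ) ≤ K * x := by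
    rw [totS]
    have h3 := h1 x (by omega) J hMom (J.powersetCard 1) (Subset.refl _)
    rw [card_powersetCard, Nat.choose_one_right, pow_one] at h3
    have h4 : (∑ T ∈ J.powersetCard 1, (NS x T : ℝ)) ^ 2 ≤ (K * x) ^ 2 := by
      refine h3.trans ?_
      have h5 : (J.card : ℝ) * Real.log x ≤ (Λ * Real.log x) * Real.log x :=
        mul_le_mul_of_nonneg_right hMom.1 hL.le
      calc C1 * ((J.card : ℝ) * Real.log x) * (x / Real.log x) ^ 2 ≤
            C1 * ((Λ * Real.log x) * Real.log x) * (x / Real.log x) ^ 2 := by gcongr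
        _ = C1 * Λ * (x : ℝ) ^ 2 := by field_simp
        _ ≤ ((C1 + 1) * (Λ + 1)) ^ 2 * (x : ℝ) ^ 2 := by
            apply mul_le_mul_of_nonneg_right _ (by positivity)
            have h6 : C1 * Λ ≤ (C1 + 1) * (Λ + 1) := by nlinarith
            have h7 : 1 ≤ (C1 + 1) * (Λ + 1) := by nlinarith [mul_pos hC1 hΛ]
            nlinarith
        _ = (K * x) ^ 2 := by rw [hK]; ring
    exact (abs_le_of_sq_le_sq' h4 (by positivity)).2
  obtain ⟨G, hG⟩ : ∃ G, G = (Ico x (2 * x)).filter (fun n => m ≤ (TJ J n).card ∧ TJ J n ⊆ R) :=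
    ⟨_, rfl⟩
  rw [← hG] at hb0
  have hbig : ((G.filter (fun n => M < (TJ J n).card)).card : ℝ) ≤ c / 2 * x := by
    have h3 : ((G.filter (fun n => M < (TJ J n).card)).card : ℝ) * M ≤ K * x := by
      refine le_trans ?_ htot
      rw [← nsmul_eq_mul, ← sum_const]
      calc ∑ _n ∈ G.filter (fun n => M < (TJ J n).card), (M : ℝ) ≤
            ∑ n ∈ G.filter (fun n => M < (TJ J n).card), ((TJ J n).card : ℝ) := by
            apply sum_le_sum
            intro n hn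
            exact_mod_cast (mem_filter.1 hn).2.le
        _ ≤ _ := by
            apply sum_le_sum_of_subset_of_nonneg
            · rw [hG]
              exact (filter_subset _ _).trans (filter_subset _ _)
            · intro _ _ _; positivity
    have h4 : K ≤ c / 2 * M := by
      rw [div_le_iff₀ hc] at hM
      linarith
    have h5 : ((G.filter (fun n => M < (TJ J n).card)).card : ℝ) * M ≤ (c / 2 * x) * M := by
      calc _ ≤ K * x := h3
        _ ≤ (c / 2 * M) * x := mul_le_mul_of_nonneg_right h4 hx0.le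
        _ = _ := by ring
    exact le_of_mul_le_mul_right h5 hM0
  have hsplit := card_filter_add_card_filter_not (s := G) (fun n => M < (TJ J n).card)
  have hsplit' : ((G.filter (fun n => M < (TJ J n).card)).card : ℝ) +
      (G.filter (fun n => ¬ M < (TJ J n).card)).card = G.card := by exact_mod_cast hsplit
  have hmaps : ∀ n ∈ G.filter (fun n => ¬ M < (TJ J n).card), (TJ J n).card ∈ Icc m M := by
    intro n hn
    rw [mem_filter, hG, mem_filter] at hn
    rw [mem_Icc]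
    exact ⟨hn.1.2.1, not_lt.1 hn.2⟩
  by_contra hcon
  push Not at hcon
  have hlt : ∀ l ∈ Icc m M, (((G.filter (fun n => ¬ M < (TJ J n).card)).filter
      (fun n => (TJ J n).card = l)).card : ℝ) < c / (2 * (M + 1)) * x := by
    intro l hl
    rw [mem_Icc] at hl
    have h3 := hcon l hl.1 hl.2
    by_contra h4
    rw [not_lt] at h4
    refine absurd (h2 l (by omega) hl.2 x (by omega) J hMom R (h4.trans ?_)) (not_le.2 h3)
    rw [Nat.cast_le]
    apply card_le_card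
    intro n hn
    rw [mem_filter, mem_filter, hG, mem_filter] at hn
    rw [mem_filter]
    exact ⟨hn.1.1.1, hn.2, hn.1.1.2.2⟩
  have hc1 := card_eq_sum_card_fiberwise hmaps
  have hc2 : ((G.filter (fun n => ¬ M < (TJ J n).card)).card : ℝ) ≤ (c / 2 * x) * (M / (M + 1)) := by
    rw [hc1]
    push_cast
    calc _ ≤ ∑ l ∈ Icc m M, c / (2 * (M + 1)) * x := sum_le_sum fun l hl => (hlt l hl).le
      _ = ((Icc m M).card : ℝ) * (c / (2 * (M + 1)) * x) := by rw [sum_const, nsmul_eq_mul]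
      _ ≤ M * (c / (2 * (M + 1)) * x) := by
          apply mul_le_mul_of_nonneg_right _ (by positivity)
          rw [Nat.card_Icc]
          exact_mod_cast (by omega : M + 1 - m ≤ M)
      _ = _ := by field_simp
  have hc3 : (c / 2 * x) * (M / (M + 1)) < c / 2 * x := by
    have h3 : (M : ℝ) / (M + 1) < 1 := by rw [div_lt_one (by positivity)]; linarith
    have h4 : 0 < c / 2 * (x : ℝ) := by positivity
    nlinarith
  linarith

theorem TJ_sub {J J' : Finset ℕ} {n : ℕ} (h : J ⊆ J') : TJ J n ⊆ TJ J' n := by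
  intro r hr
  rw [mem_TJ] at hr ⊢
  exact ⟨h hr.1, hr.2⟩

open Classical in
/-- **exact tuples of every size** -/
theorem part3S (b ρ : ℝ) (hb : 0 < b) (hρ : 0 < ρ) (l : ℕ) (hl : 1 ≤ l) : ∃ h : ℕ, 1 ≤ h ∧
    ∃ κ : ℝ, 0 < κ ∧ ∃ x₀ : ℕ, ∀ x : ℕ, x₀ ≤ x → ∀ R : Finset ℕ,
    R ⊆ Icc 1 ⌊b * Real.log x⌋₊ → ρ * Real.log x ≤ R.card → ∃ j : ℕ, 1 ≤ j ∧ j ≤ h ∧
    κ * Real.log x ^ l ≤ ((GS x l κ (Icc 1 ⌊b * j / h * Real.log x⌋₊) R).card : ℝ) := by
  obtain ⟨C, hmom⟩ := momI b hb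
  obtain ⟨c, hc, hbase⟩ := baseS l C b ρ hb hρ
  obtain ⟨x0, h0⟩ := hbase 2
  obtain ⟨C2, hC2, x1, h1⟩ := upsumS 2 (by norm_num) C b hb
  obtain ⟨h, hh⟩ := exists_nat_ge (16 * C2 * b ^ 2 / c ^ 2)
  have hhr : (0 : ℝ) < h := lt_of_lt_of_le (by positivity) hh
  have hh1 : 1 ≤ h := by exact_mod_cast hhr
  obtain ⟨κ, hκ, x2, h2⟩ := coreSM l C b (c / (2 * h) / 2) hb (by positivity)
  have t1 : Tendsto (fun X : ℕ => Real.log (X : ℝ)) atTop atTop :=
    Real.tendsto_log_atTop.comp tendsto_natCast_atTop_atTop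
  obtain ⟨x3, hx3⟩ := eventually_atTop.1 (t1.eventually_ge_atTop (h / b + b + 1))
  refine ⟨h, hh1, κ, hκ, x0 + x1 + x2 + x3 + 3, fun x hx R hR hRc => ?_⟩
  have hx0 : (0 : ℝ) < x := by exact_mod_cast (by omega : 0 < x)
  have hL : 0 < Real.log x := Real.log_pos (by exact_mod_cast (by omega : 1 < x))
  have hLh' := hx3 x (by omega)
  have hhb0 : 0 < (h : ℝ) / b := by positivity
  have hLh : h / b ≤ Real.log x := by linarith
  have hLb : b ≤ Real.log x := by linarith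
  -- the scales
  obtain ⟨Nj, hNj⟩ : ∃ Nj : ℕ → ℕ, ∀ j, Nj j = ⌊b * j / h * Real.log x⌋₊ := ⟨_, fun _ => rfl⟩
  have hNj0 : Nj 0 = 0 := by rw [hNj]; simp
  have hNjh : Nj h = ⌊b * Real.log x⌋₊ := by
    rw [hNj]
    congr 2
    field_simp
  have hNle : ∀ j, (Nj j : ℝ) ≤ b * j / h * Real.log x := fun j => by
    rw [hNj]; exact Nat.floor_le (by positivity)
  have hNmono : ∀ j j', j ≤ j' → Nj j ≤ Nj j' := by
    intro j j' hjj
    rw [hNj, hNj]
    apply Nat.floor_le_floor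
    have : (j : ℝ) ≤ j' := by exact_mod_cast hjj
    gcongr
  have hNb : ∀ j, j ≤ h → (Nj j : ℝ) ≤ b * Real.log x := by
    intro j hj
    refine (hNle j).trans ?_
    have h3 : (j : ℝ) ≤ h := by exact_mod_cast hj
    have h4 : b * j / h ≤ b := by
      rw [div_le_iff₀ hhr]
      exact mul_le_mul_of_nonneg_left h3 hb.le
    exact mul_le_mul_of_nonneg_right h4 hL.le
  have hMJ : ∀ j, j ≤ h → MomJ C b (Real.log x) (Icc 1 (Nj j)) := fun j hj =>
    hmom _ _ hL.le (hNb j hj)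
  have hstep : ∀ j, ((Nj (j + 1) - Nj j : ℕ) : ℝ) ≤ 2 * b * Real.log x / h := by
    intro j
    rw [Nat.cast_sub (hNmono _ _ (by omega))]
    have h3 := hNle (j + 1)
    have h4 : b * j / h * Real.log x - 1 ≤ Nj j := by
      rw [hNj]
      exact (Nat.sub_one_lt_floor _).le
    have h5 : b * ((j + 1 : ℕ) : ℝ) / h * Real.log x = b * j / h * Real.log x + b * Real.log x / h := by
      push_cast
      field_simp
    have h6 : 1 ≤ b * Real.log x / h := by
      rw [le_div_iff₀ hhr, one_mul]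
      have h8 := (div_le_iff₀ hb).1 hLh
      linarith
    rw [h5] at h3
    have h7 : 2 * b * Real.log x / h = b * Real.log x / h + b * Real.log x / h := by ring
    rw [h7]
    linarith
  rw [← hNjh] at hR
  have hb0 := h0 x (by omega) R (Icc 1 (Nj h)) hR (by
    intro r hr
    rw [mem_Icc] at hr
    refine ⟨hr.1, ?_⟩
    calc (r : ℝ) ≤ Nj h := by exact_mod_cast hr.2
      _ ≤ b * Real.log x := hNb h le_rfl
      _ ≤ Real.log x * Real.log x := mul_le_mul_of_nonneg_right hLb hL.le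
      _ = _ := by ring) (hMJ h le_rfl) hRc
  simp only [← hNj]
  -- the close pairs
  obtain ⟨F, hF⟩ : ∃ F, F = (range h).biUnion
    (fun j => (Ioc (Nj j) (Nj (j + 1))).powersetCard 2) := ⟨_, rfl⟩
  have hFs : F ⊆ (Icc 1 (Nj h)).powersetCard 2 := by
    intro T hT
    rw [hF, mem_biUnion] at hT
    obtain ⟨j, hj, hT⟩ := hT
    rw [mem_powersetCard] at hT ⊢
    refine ⟨fun r hr => ?_, hT.2⟩
    have h3 := hT.1 hr
    rw [mem_Ioc] at h3
    rw [mem_Icc]
    have h4 := hNmono (j + 1) h (by rw [mem_range] at hj; omega)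
    omega
  have hFc : (F.card : ℝ) ≤ 4 * b ^ 2 * Real.log x ^ 2 / h := by
    calc (F.card : ℝ) ≤ ∑ j ∈ range h, (((Ioc (Nj j) (Nj (j + 1))).powersetCard 2).card : ℝ) := by
          rw [hF]
          exact_mod_cast card_biUnion_le
      _ ≤ ∑ j ∈ range h, (2 * b * Real.log x / h) ^ 2 := by
          apply sum_le_sum
          intro j _
          rw [card_powersetCard, Nat.card_Ioc]
          calc (((Nj (j + 1) - Nj j).choose 2 : ℕ) : ℝ) ≤ ((Nj (j + 1) - Nj j : ℕ) : ℝ) ^ 2 := by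
                exact_mod_cast Nat.choose_le_pow _ _
            _ ≤ _ := pow_le_pow_left₀ (Nat.cast_nonneg _) (hstep j) 2
      _ = _ := by
          rw [sum_const, card_range, nsmul_eq_mul]
          field_simp
          ring
  obtain ⟨G, hG⟩ : ∃ G, G = (Ico x (2 * x)).filter (fun n => l ≤ (TJ (Icc 1 (Nj h)) n).card ∧
    TJ (Icc 1 (Nj h)) n ⊆ R) := ⟨_, rfl⟩
  rw [← hG] at hb0
  have hbad : ((G.filter (fun n => ∃ T ∈ F, T ⊆ TJ (Icc 1 (Nj h)) n)).card : ℝ) ≤ c / 2 * x := by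
    have h3 := hitS_le x (Icc 1 (Nj h)) F (G.filter (fun n => ∃ T ∈ F, T ⊆ TJ (Icc 1 (Nj h)) n)) (by
      rw [hG]; exact (filter_subset _ _).trans (filter_subset _ _))
      (fun n hn => (mem_filter.1 hn).2)
    refine h3.trans ?_
    have h4 := h1 x (by omega) (Icc 1 (Nj h)) (hMJ h le_rfl) F hFs
    have h5 : (∑ T ∈ F, (NS x T : ℝ)) ^ 2 ≤ (c / 2 * x) ^ 2 := by
      refine h4.trans ?_
      calc C2 * (F.card * Real.log x ^ 2) * (x / Real.log x ^ 2) ^ 2 ≤
            C2 * ((4 * b ^ 2 * Real.log x ^ 2 / h) * Real.log x ^ 2) *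
              (x / Real.log x ^ 2) ^ 2 := by gcongr
        _ = (x : ℝ) ^ 2 * (4 * C2 * b ^ 2 / h) := by field_simp
        _ ≤ (x : ℝ) ^ 2 * (c / 2) ^ 2 := by
            apply mul_le_mul_of_nonneg_left _ (by positivity)
            rw [div_le_iff₀ hhr]
            rw [div_le_iff₀ (by positivity)] at hh
            nlinarith
        _ = _ := by ring
    exact (abs_le_of_sq_le_sq' h5 (by positivity)).2
  have hsplit := card_filter_add_card_filter_not (s := G)
    (fun n => ∃ T ∈ F, T ⊆ TJ (Icc 1 (Nj h)) n)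
  have hsplit' : ((G.filter (fun n => ∃ T ∈ F, T ⊆ TJ (Icc 1 (Nj h)) n)).card : ℝ) +
      (G.filter (fun n => ¬ ∃ T ∈ F, T ⊆ TJ (Icc 1 (Nj h)) n)).card = G.card := by
    exact_mod_cast hsplit
  have hIsub : ∀ j j', j ≤ j' → Icc 1 (Nj j) ⊆ Icc 1 (Nj j') := fun j j' hjj =>
    Icc_subset_Icc_right (hNmono j j' hjj)
  -- the intermediate value
  have hiv : ∀ n ∈ G.filter (fun n => ¬ ∃ T ∈ F, T ⊆ TJ (Icc 1 (Nj h)) n), ∃ j ∈ Icc 1 h,
      (TJ (Icc 1 (Nj j)) n).card = l := by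
    intro n hn
    rw [mem_filter, hG, mem_filter] at hn
    obtain ⟨⟨hq1, hq2, hq3⟩, hq4⟩ := hn
    obtain ⟨j, hj, e⟩ := ivt (fun j => (TJ (Icc 1 (Nj j)) n).card) h l (by
      simp only [hNj0]
      unfold TJ
      simp) (by
      intro j hj
      by_contra hcon
      rw [not_le] at hcon
      have hsub : TJ (Icc 1 (Nj j)) n ⊆ TJ (Icc 1 (Nj (j + 1))) n :=
        TJ_sub (hIsub _ _ (by omega))
      have h3 : 2 ≤ (TJ (Icc 1 (Nj (j + 1))) n \ TJ (Icc 1 (Nj j)) n).card := by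
        rw [card_sdiff_of_subset hsub]
        omega
      obtain ⟨T, hT1, hT2⟩ := exists_subset_card_eq h3
      apply hq4
      refine ⟨T, ?_, fun r hr => ?_⟩
      · rw [hF, mem_biUnion]
        refine ⟨j, mem_range.2 hj, ?_⟩
        rw [mem_powersetCard]
        refine ⟨fun r hr => ?_, hT2⟩
        have h4 := hT1 hr
        rw [Finset.mem_sdiff, mem_TJ, mem_TJ, mem_Icc, mem_Icc] at h4
        rw [mem_Ioc]
        obtain ⟨⟨⟨a1, a2⟩, a3⟩, a4⟩ := h4
        refine ⟨?_, a2⟩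
        by_contra h5
        exact a4 ⟨⟨a1, by omega⟩, a3⟩
      · have h4 := (Finset.mem_sdiff.1 (hT1 hr)).1
        exact TJ_sub (hIsub (j + 1) h (by omega)) h4) hq2
    have e' : (TJ (Icc 1 (Nj j)) n).card = l := e
    refine ⟨j, ?_, e'⟩
    rw [mem_Icc]
    refine ⟨?_, hj⟩
    by_contra h3
    have h4 : j = 0 := by omega
    rw [h4, hNj0] at e'
    have h5 : (TJ (Icc 1 0) n).card = 0 := by unfold TJ; simp
    omega
  by_contra hcon
  push Not at hcon
  have hlt : ∀ j ∈ Icc 1 h, ((G.filter (fun n => (TJ (Icc 1 (Nj j)) n).card = l)).card : ℝ) <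
      c / (2 * h) / 2 * x := by
    intro j hj
    rw [mem_Icc] at hj
    have h3 := hcon j hj.1 hj.2
    by_contra h4
    rw [not_lt] at h4
    refine absurd (h2 l hl le_rfl x (by omega) (Icc 1 (Nj j)) (hMJ j hj.2) R (h4.trans ?_))
      (not_le.2 h3)
    rw [Nat.cast_le]
    apply card_le_card
    intro n hn
    rw [mem_filter, hG, mem_filter] at hn
    rw [mem_filter]
    exact ⟨hn.1.1, hn.2, (TJ_sub (hIsub _ _ hj.2)).trans hn.1.2.2⟩
  have hcov : G.filter (fun n => ¬ ∃ T ∈ F, T ⊆ TJ (Icc 1 (Nj h)) n) ⊆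
      (Icc 1 h).biUnion (fun j => G.filter (fun n => (TJ (Icc 1 (Nj j)) n).card = l)) := by
    intro n hn
    obtain ⟨j, hj, e⟩ := hiv n hn
    rw [mem_biUnion]
    exact ⟨j, hj, mem_filter.2 ⟨(mem_filter.1 hn).1, e⟩⟩
  have hc1 : ((G.filter (fun n => ¬ ∃ T ∈ F, T ⊆ TJ (Icc 1 (Nj h)) n)).card : ℝ) ≤ c / 4 * x := by
    have h3 := (card_le_card hcov).trans card_biUnion_le
    calc ((G.filter (fun n => ¬ ∃ T ∈ F, T ⊆ TJ (Icc 1 (Nj h)) n)).card : ℝ) ≤
          ∑ j ∈ Icc 1 h, ((G.filter (fun n => (TJ (Icc 1 (Nj j)) n).card = l)).card : ℝ) := by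
          exact_mod_cast h3
      _ ≤ ∑ _j ∈ Icc 1 h, c / (2 * h) / 2 * (x : ℝ) := sum_le_sum fun j hj => (hlt j hj).le
      _ = _ := by
          rw [sum_const, Nat.card_Icc, Nat.add_sub_cancel, nsmul_eq_mul]
          field_simp
          ring
  have hpos : 0 < c / 4 * (x : ℝ) := by positivity
  linarith

end Pool.Agent.H533.GE
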