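import Pool.Agent.H533.GE.ShfH

/-!
Exact prime tuples `n + a` in initial segments of an arbitrary set of shifts; the singular series.
-/

set_option autoImplicit false

open Finset Filter Topology

namespace Pool.Agent.H533.GE

open Pool.Agent.H533.QM
open Pool.Agent.H533.QS
open Pool.Agent.H533.QA
open Pool.Agent.W218.MU (w loc SL)

theorem MomJ_sub {C : ℕ → ℝ} {Λ L : ℝ} {J' J : Finset ℕ} (h : J' ⊆ J) (hJ : MomJ C Λ L J) :
    MomJ C Λ L J' := by
  refine ⟨le_trans (by exact_mod_cast card_le_card h) hJ.1, fun K => ?_⟩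
  refine le_trans ?_ (hJ.2 K)
  exact sum_le_sum_of_subset_of_nonneg (offDiag_mono h) (fun _ _ _ => pow_nonneg (gg_nonneg _) _)

/-- cutting a set into `h` blocks of consecutive elements -/
theorem cutJ (J : Finset ℕ) (hJ1 : ∀ a ∈ J, 1 ≤ a) (h s : ℕ) (hs : J.card ≤ h * s) :
    ∃ N : ℕ → ℕ, (∀ j j', j ≤ j' → N j ≤ N j') ∧ (∀ a ∈ J, N 0 < a) ∧ (∀ a ∈ J, a ≤ N h) ∧
      ∀ j, (J.filter (fun a => N j < a ∧ a ≤ N (j + 1))).card ≤ s := by
  classical
  obtain ⟨f, hf⟩ : ∃ f : ℕ → ℕ, ∀ n, f n = (J.filter (fun a => a ≤ n)).card := ⟨_, fun _ => rfl⟩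
  obtain ⟨t, ht⟩ : ∃ t, t = J.sup id := ⟨_, rfl⟩
  have htop : ∀ a ∈ J, a ≤ t := fun a ha => by rw [ht]; exact le_sup (f := id) ha
  obtain ⟨N, hN⟩ : ∃ N : ℕ → ℕ, ∀ j, N j = Nat.findGreatest (fun n => f n ≤ j * s) t :=
    ⟨_, fun _ => rfl⟩
  have hf0 : f 0 = 0 := by
    rw [hf, card_eq_zero, filter_eq_empty_iff]
    intro a ha h0
    have := hJ1 a ha
    omega
  have hspec : ∀ j, f (N j) ≤ j * s := by
    intro j
    rw [hN]
    exact Nat.findGreatest_spec (P := fun n => f n ≤ j * s) (Nat.zero_le t)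
      (by show f 0 ≤ j * s; rw [hf0]; exact Nat.zero_le _)
  have hle : ∀ j, N j ≤ t := fun j => by rw [hN]; exact Nat.findGreatest_le t
  have hmono : ∀ j j', j ≤ j' → N j ≤ N j' := by
    intro j j' hjj
    rw [hN, hN]
    apply Nat.findGreatest_mono_left
    intro n hn
    exact le_trans hn (Nat.mul_le_mul_right s hjj)
  have hfstep : ∀ n, f (n + 1) ≤ f n + 1 := by
    intro n
    rw [hf, hf]
    have hsub : J.filter (fun a => a ≤ n + 1) ⊆ insert (n + 1) (J.filter (fun a => a ≤ n)) := by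
      intro a ha
      rw [mem_filter] at ha
      rw [mem_insert, mem_filter]
      by_cases h1 : a = n + 1
      · exact Or.inl h1
      · exact Or.inr ⟨ha.1, by omega⟩
    exact (card_le_card hsub).trans (card_insert_le _ _)
  have hfull : ∀ j, N j < t → f (N j) = j * s := by
    intro j hj
    have h1 : ¬ f (N j + 1) ≤ j * s := by
      have h2 := Nat.findGreatest_is_greatest (P := fun n => f n ≤ j * s) (n := t) (k := N j + 1)
        (by rw [← hN]; omega) (by omega)
      exact h2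
    have h3 := hfstep (N j)
    have h4 := hspec j
    omega
  refine ⟨N, hmono, ?_, ?_, ?_⟩
  · intro a ha
    by_contra hcon
    rw [not_lt] at hcon
    have h1 := hspec 0
    rw [zero_mul] at h1
    have h2 : 0 < f (N 0) := by
      rw [hf, card_pos]
      exact ⟨a, mem_filter.2 ⟨ha, hcon⟩⟩
    omega
  · intro a ha
    by_cases hlt : N h < t
    · have h1 := hfull h hlt
      have h2 : J.filter (fun a => a ≤ N h) = J := by
        apply eq_of_subset_of_card_le (filter_subset _ _)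
        rw [← hf, h1]
        exact hs
      rw [← h2, mem_filter] at ha
      exact ha.2
    · have h1 := hle h
      have h2 := htop a ha
      omega
  · intro j
    have hd : (J.filter (fun a => N j < a ∧ a ≤ N (j + 1))).card + f (N j) ≤ f (N (j + 1)) := by
      rw [hf, hf, ← card_union_of_disjoint]
      · apply card_le_card
        intro a ha
        rw [mem_union, mem_filter, mem_filter] at ha
        rw [mem_filter]
        rcases ha with ha | ha
        · exact ⟨ha.1, ha.2.2⟩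
        · exact ⟨ha.1, ha.2.trans (hmono _ _ (by omega))⟩
      · rw [disjoint_left]
        intro a ha hb
        rw [mem_filter] at ha hb
        omega
    by_cases hlt : N j < t
    · have h1 := hfull j hlt
      have h2 := hspec (j + 1)
      rw [Nat.add_mul, one_mul] at h2
      omega
    · have h1 : N (j + 1) ≤ N j := by
        have h2 := hle (j + 1)
        omega
      have h3 : J.filter (fun a => N j < a ∧ a ≤ N (j + 1)) = ∅ := by
        rw [filter_eq_empty_iff]
        intro a _ ha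
        omega
      rw [h3, card_empty]
      exact Nat.zero_le _

open Classical in
/-- **exact tuples of every size** -/
theorem part3J (C : ℕ → ℝ) (Λ ρ : ℝ) (hΛ : 0 < Λ) (hρ : 0 < ρ) (l : ℕ) (hl : 1 ≤ l) :
    ∃ κ : ℝ, 0 < κ ∧ ∀ B : ℕ, ∃ x₀ : ℕ, ∀ x : ℕ, x₀ ≤ x → ∀ R J : Finset ℕ, R ⊆ J →
    (∀ a ∈ J, 1 ≤ a ∧ (a : ℝ) ≤ Real.log x ^ B) → MomJ C Λ (Real.log x) J →
    ρ * Real.log x ≤ R.card → ∃ N : ℕ,
    κ * Real.log x ^ l ≤ ((GS x l κ (J.filter (fun a => a ≤ N)) R).card : ℝ) := by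
  obtain ⟨c, hc, hbase⟩ := baseS l C Λ ρ hΛ hρ
  obtain ⟨C2, hC2, x1, h1⟩ := upsumS 2 (by norm_num) C Λ hΛ
  obtain ⟨h, hh⟩ := exists_nat_ge (16 * C2 * Λ ^ 2 / c ^ 2)
  have hhr : (0 : ℝ) < h := lt_of_lt_of_le (by positivity) hh
  have hh1 : 1 ≤ h := by exact_mod_cast hhr
  obtain ⟨κ, hκ, x2, h2⟩ := coreSM l C Λ (c / (2 * h) / 2) hΛ (by positivity)
  have t1 : Tendsto (fun X : ℕ => Real.log (X : ℝ)) atTop atTop :=
    Real.tendsto_log_atTop.comp tendsto_natCast_atTop_atTop
  obtain ⟨x3, hx3⟩ := eventually_atTop.1 (t1.eventually_ge_atTop (h / Λ + 1))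
  refine ⟨κ, hκ, fun B => ?_⟩
  obtain ⟨x0, h0⟩ := hbase B
  refine ⟨x0 + x1 + x2 + x3 + 3, fun x hx R J hR hJB hMJ hRc => ?_⟩
  have hx0 : (0 : ℝ) < x := by exact_mod_cast (by omega : 0 < x)
  have hL : 0 < Real.log x := Real.log_pos (by exact_mod_cast (by omega : 1 < x))
  have hLh' := hx3 x (by omega)
  have hLh : h / Λ ≤ Real.log x := by linarith
  -- the scales
  obtain ⟨s, hs⟩ : ∃ s, s = J.card / h + 1 := ⟨_, rfl⟩
  have hsJ : J.card ≤ h * s := by
    rw [hs]
    have h3 := Nat.div_add_mod J.card h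
    have h4 := Nat.mod_lt J.card (show 0 < h by omega)
    rw [Nat.mul_add, Nat.mul_one]
    omega
  have hsr : (s : ℝ) ≤ 2 * Λ * Real.log x / h := by
    have h3 : ((J.card / h : ℕ) : ℝ) ≤ (J.card : ℝ) / h := Nat.cast_div_le
    have h4 : (J.card : ℝ) / h ≤ Λ * Real.log x / h := by
      apply div_le_div_of_nonneg_right hMJ.1 hhr.le
    have h6 : 1 ≤ Λ * Real.log x / h := by
      rw [le_div_iff₀ hhr, one_mul]
      have h8 := (div_le_iff₀ hΛ).1 hLh
      linarith
    have h7 : 2 * Λ * Real.log x / h = Λ * Real.log x / h + Λ * Real.log x / h := by ring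
    rw [h7, hs]
    push_cast
    linarith
  obtain ⟨Nj, hNmono, hNj0, hNjh, hblock⟩ := cutJ J (fun a ha => (hJB a ha).1) h s hsJ
  obtain ⟨Jj, hJj⟩ : ∃ Jj : ℕ → Finset ℕ, ∀ j, Jj j = J.filter (fun a => a ≤ Nj j) :=
    ⟨_, fun _ => rfl⟩
  have hJh : Jj h = J := by
    rw [hJj, filter_true_of_mem]
    exact hNjh
  have hJ0 : Jj 0 = ∅ := by
    rw [hJj, filter_eq_empty_iff]
    intro a ha
    exact not_le.2 (hNj0 a ha)
  have hIsub : ∀ j j', j ≤ j' → Jj j ⊆ Jj j' := by
    intro j j' hjj a ha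
    rw [hJj, mem_filter] at ha ⊢
    exact ⟨ha.1, ha.2.trans (hNmono _ _ hjj)⟩
  have hMJj : ∀ j, MomJ C Λ (Real.log x) (Jj j) := fun j =>
    MomJ_sub (by rw [hJj]; exact filter_subset _ _) hMJ
  have hb0 := h0 x (by omega) R J hR hJB hMJ hRc
  suffices hsuf : ∃ j, κ * Real.log x ^ l ≤ ((GS x l κ (Jj j) R).card : ℝ) by
    obtain ⟨j, hj⟩ := hsuf
    rw [hJj] at hj
    exact ⟨Nj j, hj⟩
  -- the close pairs
  obtain ⟨F, hF⟩ : ∃ F, F = (range h).biUnion
    (fun j => (J.filter (fun a => Nj j < a ∧ a ≤ Nj (j + 1))).powersetCard 2) := ⟨_, rfl⟩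
  have hFs : F ⊆ J.powersetCard 2 := by
    intro T hT
    rw [hF, mem_biUnion] at hT
    obtain ⟨j, hj, hT⟩ := hT
    rw [mem_powersetCard] at hT ⊢
    exact ⟨fun r hr => (mem_filter.1 (hT.1 hr)).1, hT.2⟩
  have hFc : (F.card : ℝ) ≤ 4 * Λ ^ 2 * Real.log x ^ 2 / h := by
    calc (F.card : ℝ) ≤ ∑ j ∈ range h,
          (((J.filter (fun a => Nj j < a ∧ a ≤ Nj (j + 1))).powersetCard 2).card : ℝ) := by
          rw [hF]
          exact_mod_cast card_biUnion_le
      _ ≤ ∑ j ∈ range h, (2 * Λ * Real.log x / h) ^ 2 := by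
          apply sum_le_sum
          intro j _
          rw [card_powersetCard]
          calc (((J.filter (fun a => Nj j < a ∧ a ≤ Nj (j + 1))).card.choose 2 : ℕ) : ℝ) ≤
                (((J.filter (fun a => Nj j < a ∧ a ≤ Nj (j + 1))).card : ℕ) : ℝ) ^ 2 := by
                exact_mod_cast Nat.choose_le_pow _ _
            _ ≤ (s : ℝ) ^ 2 := pow_le_pow_left₀ (Nat.cast_nonneg _) (by exact_mod_cast hblock j) 2
            _ ≤ _ := pow_le_pow_left₀ (Nat.cast_nonneg _) hsr 2
      _ = _ := by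
          rw [sum_const, card_range, nsmul_eq_mul]
          field_simp
          ring
  obtain ⟨G, hG⟩ : ∃ G, G = (Ico x (2 * x)).filter (fun n => l ≤ (TJ J n).card ∧
    TJ J n ⊆ R) := ⟨_, rfl⟩
  rw [← hG] at hb0
  have hbad : ((G.filter (fun n => ∃ T ∈ F, T ⊆ TJ J n)).card : ℝ) ≤ c / 2 * x := by
    have h3 := hitS_le x J F (G.filter (fun n => ∃ T ∈ F, T ⊆ TJ J n)) (by
      rw [hG]; exact (filter_subset _ _).trans (filter_subset _ _))
      (fun n hn => (mem_filter.1 hn).2)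
    refine h3.trans ?_
    have h4 := h1 x (by omega) J hMJ F hFs
    have h5 : (∑ T ∈ F, (NS x T : ℝ)) ^ 2 ≤ (c / 2 * x) ^ 2 := by
      refine h4.trans ?_
      calc C2 * (F.card * Real.log x ^ 2) * (x / Real.log x ^ 2) ^ 2 ≤
            C2 * ((4 * Λ ^ 2 * Real.log x ^ 2 / h) * Real.log x ^ 2) *
              (x / Real.log x ^ 2) ^ 2 := by gcongr
        _ = (x : ℝ) ^ 2 * (4 * C2 * Λ ^ 2 / h) := by field_simp
        _ ≤ (x : ℝ) ^ 2 * (c / 2) ^ 2 := by
            apply mul_le_mul_of_nonneg_left _ (by positivity)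
            rw [div_le_iff₀ hhr]
            rw [div_le_iff₀ (by positivity)] at hh
            nlinarith
        _ = _ := by ring
    exact (abs_le_of_sq_le_sq' h5 (by positivity)).2
  have hsplit := card_filter_add_card_filter_not (s := G) (fun n => ∃ T ∈ F, T ⊆ TJ J n)
  have hsplit' : ((G.filter (fun n => ∃ T ∈ F, T ⊆ TJ J n)).card : ℝ) +
      (G.filter (fun n => ¬ ∃ T ∈ F, T ⊆ TJ J n)).card = G.card := by
    exact_mod_cast hsplit
  -- the intermediate value
  have hiv : ∀ n ∈ G.filter (fun n => ¬ ∃ T ∈ F, T ⊆ TJ J n), ∃ j ∈ Icc 1 h,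
      (TJ (Jj j) n).card = l := by
    intro n hn
    rw [mem_filter, hG, mem_filter] at hn
    obtain ⟨⟨hq1, hq2, hq3⟩, hq4⟩ := hn
    have hT0 : (TJ (Jj 0) n).card = 0 := by rw [hJ0]; unfold TJ; simp
    obtain ⟨j, hj, e⟩ := ivt (fun j => (TJ (Jj j) n).card) h l hT0 (by
      intro j hj
      by_contra hcon
      rw [not_le] at hcon
      have hsub : TJ (Jj j) n ⊆ TJ (Jj (j + 1)) n := TJ_sub (hIsub _ _ (by omega))
      have h3 : 2 ≤ (TJ (Jj (j + 1)) n \ TJ (Jj j) n).card := by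
        rw [card_sdiff_of_subset hsub]
        omega
      obtain ⟨T, hT1, hT2⟩ := exists_subset_card_eq h3
      apply hq4
      refine ⟨T, ?_, fun r hr => ?_⟩
      · rw [hF, mem_biUnion]
        refine ⟨j, mem_range.2 hj, ?_⟩
        rw [mem_powersetCard]
        refine ⟨fun r hr => ?_, hT2⟩
        have h4 := hT1 hr
        rw [Finset.mem_sdiff, mem_TJ, mem_TJ, hJj, hJj, mem_filter, mem_filter] at h4
        rw [mem_filter]
        obtain ⟨⟨⟨a1, a2⟩, a3⟩, a4⟩ := h4
        refine ⟨a1, ?_, a2⟩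
        by_contra h5
        exact a4 ⟨⟨a1, by omega⟩, a3⟩
      · have h4 := (Finset.mem_sdiff.1 (hT1 hr)).1
        have h5 := TJ_sub (hIsub (j + 1) h (by omega)) h4
        rwa [hJh] at h5) (by
      show l ≤ (TJ (Jj h) n).card
      rw [hJh]
      exact hq2)
    have e' : (TJ (Jj j) n).card = l := e
    refine ⟨j, ?_, e'⟩
    rw [mem_Icc]
    refine ⟨?_, hj⟩
    by_contra h3
    have h4 : j = 0 := by omega
    rw [h4, hT0] at e'
    omega
  by_contra hcon
  push Not at hcon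
  have hlt : ∀ j ∈ Icc 1 h, ((G.filter (fun n => (TJ (Jj j) n).card = l)).card : ℝ) <
      c / (2 * h) / 2 * x := by
    intro j hj
    rw [mem_Icc] at hj
    have h3 := hcon j
    by_contra h4
    rw [not_lt] at h4
    refine absurd (h2 l hl le_rfl x (by omega) (Jj j) (hMJj j) R (h4.trans ?_)) (not_le.2 h3)
    rw [Nat.cast_le]
    apply card_le_card
    intro n hn
    rw [mem_filter, hG, mem_filter] at hn
    rw [mem_filter]
    refine ⟨hn.1.1, hn.2, (TJ_sub ?_).trans hn.1.2.2⟩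
    rw [hJj]
    exact filter_subset _ _
  have hcov : G.filter (fun n => ¬ ∃ T ∈ F, T ⊆ TJ J n) ⊆
      (Icc 1 h).biUnion (fun j => G.filter (fun n => (TJ (Jj j) n).card = l)) := by
    intro n hn
    obtain ⟨j, hj, e⟩ := hiv n hn
    rw [mem_biUnion]
    exact ⟨j, hj, mem_filter.2 ⟨(mem_filter.1 hn).1, e⟩⟩
  have hc1 : ((G.filter (fun n => ¬ ∃ T ∈ F, T ⊆ TJ J n)).card : ℝ) ≤ c / 4 * x := by
    have h3 := (card_le_card hcov).trans card_biUnion_le
    calc ((G.filter (fun n => ¬ ∃ T ∈ F, T ⊆ TJ J n)).card : ℝ) ≤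
          ∑ j ∈ Icc 1 h, ((G.filter (fun n => (TJ (Jj j) n).card = l)).card : ℝ) := by
          exact_mod_cast h3
      _ ≤ ∑ _j ∈ Icc 1 h, c / (2 * h) / 2 * (x : ℝ) := sum_le_sum fun j hj => (hlt j hj).le
      _ = _ := by
          rw [sum_const, Nat.card_Icc, Nat.add_sub_cancel, nsmul_eq_mul]
          field_simp
          ring
  have hpos : 0 < c / 4 * (x : ℝ) := by positivity
  linarith

/-- the number of classes -/
theorem w_es (T : Finset ℕ) {p : ℕ} (hp : 0 < p) :
    w (T.map es) p = (T.image (fun a => a % p)).card := by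
  classical
  unfold w
  apply card_nbij' (fun n => (p - n) % p) (fun c => (p - c) % p)
  · intro n hn
    rw [mem_coe, mem_filter, mem_range] at hn
    obtain ⟨hn1, L, hL, hd⟩ := hn
    rw [Finset.mem_map] at hL
    obtain ⟨a, ha, rfl⟩ := hL
    have hd' : p ∣ 1 * n + a := hd
    rw [one_mul] at hd'
    rw [mem_coe, mem_image]
    refine ⟨a, ha, ?_⟩
    show a % p = (p - n) % p
    have h1 : (n + a) ≡ n + (p - n) [MOD p] := by
      have e : n + (p - n) = p := by omega
      rw [e]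
      exact ((Nat.modEq_zero_iff_dvd).2 hd').trans ((Nat.modEq_zero_iff_dvd).2 dvd_rfl).symm
    exact Nat.ModEq.add_left_cancel' n h1
  · intro c hc
    rw [mem_coe, mem_image] at hc
    obtain ⟨a, ha, rfl⟩ := hc
    rw [mem_coe, mem_filter, mem_range]
    refine ⟨Nat.mod_lt _ hp, (1, a), ?_, ?_⟩
    · rw [Finset.mem_map]
      exact ⟨a, ha, rfl⟩
    · show p ∣ 1 * ((p - a % p) % p) + a
      rw [one_mul]
      apply (Nat.modEq_zero_iff_dvd).1
      have h1 : (p - a % p) % p + a ≡ (p - a % p) + a % p [MOD p] :=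
        Nat.ModEq.add (Nat.mod_modEq _ _) (Nat.mod_modEq _ _).symm
      have e : (p - a % p) + a % p = p := by
        have := Nat.mod_lt a hp
        omega
      rw [e] at h1
      exact h1.trans ((Nat.modEq_zero_iff_dvd).2 dvd_rfl)
  · intro n hn
    rw [mem_coe, mem_filter, mem_range] at hn
    have h1 := hn.1
    show (p - (p - n) % p) % p = n
    rcases Nat.eq_zero_or_pos n with h0 | h0
    · rw [h0, Nat.sub_zero, Nat.mod_self, Nat.sub_zero, Nat.mod_self]
    · rw [Nat.mod_eq_of_lt (show p - n < p by omega)]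
      have e : p - (p - n) = n := by omega
      rw [e, Nat.mod_eq_of_lt h1]
  · intro c hc
    rw [mem_coe, mem_image] at hc
    obtain ⟨a, ha, rfl⟩ := hc
    have h1 : a % p < p := Nat.mod_lt _ hp
    show (p - (p - a % p) % p) % p = a % p
    rcases Nat.eq_zero_or_pos (a % p) with h0 | h0
    · rw [h0, Nat.sub_zero, Nat.mod_self, Nat.sub_zero, Nat.mod_self]
    · rw [Nat.mod_eq_of_lt (show p - a % p < p by omega)]
      have e : p - (p - a % p) = a % p := by omega
      rw [e, Nat.mod_eq_of_lt h1]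

theorem SS_eq (T : Finset ℕ) : SS T = ∏' p : Nat.Primes,
    (1 - (((T.image (fun a => a % (p : ℕ))).card : ℕ) : ℝ) / ((p : ℕ) : ℝ)) /
      (1 - 1 / ((p : ℕ) : ℝ)) ^ T.card := by
  unfold SS SL
  apply tprod_congr
  intro p
  unfold loc
  rw [w_es T p.2.pos, card_map]

end Pool.Agent.H533.GE
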