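import Pool.Agent.H533.GE.ShfJ

/-!
The values of a quadratic polynomial have bounded moments.
-/

set_option autoImplicit false

open Finset Filter Topology

namespace Pool.Agent.H533.GE

open Pool.Agent.H533.QM
open Pool.Agent.H533.QS
open Pool.Agent.H533.QA

/-- the differences of the values of `j ^ 2 + c j` -/
theorem dist_quad (c i j : ℕ) :
    Nat.dist (i ^ 2 + c * i) (j ^ 2 + c * j) = Nat.dist i j * (i + j + c) := by
  rcases Nat.le_total i j with h | h
  · obtain ⟨d, rfl⟩ := Nat.exists_eq_add_of_le h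
    have h1 : Nat.dist i (i + d) = d := by
      rw [Nat.dist_eq_sub_of_le (by omega)]
      omega
    have h2 : (i + d) ^ 2 + c * (i + d) = (i ^ 2 + c * i) + d * (i + (i + d) + c) := by ring
    rw [h1, h2, Nat.dist_eq_sub_of_le (by omega)]
    omega
  · obtain ⟨d, rfl⟩ := Nat.exists_eq_add_of_le h
    have h1 : Nat.dist (j + d) j = d := by
      rw [Nat.dist_eq_sub_of_le_right (by omega)]
      omega
    have h2 : (j + d) ^ 2 + c * (j + d) = (j ^ 2 + c * j) + d * ((j + d) + j + c) := by ring
    rw [h1, h2, Nat.dist_eq_sub_of_le_right (by omega)]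
    omega

theorem quad_inj (c : ℕ) : Set.InjOn (fun j : ℕ => j ^ 2 + c * j) (Set.univ : Set ℕ) := by
  intro i _ j _ h
  have h' : i ^ 2 + c * i = j ^ 2 + c * j := h
  have h1 : Nat.dist (i ^ 2 + c * i) (j ^ 2 + c * j) = 0 := Nat.dist_eq_zero h'
  rw [dist_quad] at h1
  rcases Nat.mul_eq_zero.1 h1 with h2 | h2
  · exact Nat.eq_of_dist_eq_zero h2
  · omega

/-- the values of a quadratic polynomial have bounded moments -/
theorem momQ (b : ℝ) (hb : 0 < b) (c : ℕ) : ∃ C : ℕ → ℝ, ∀ (L : ℝ) (N : ℕ), 0 ≤ L →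
    (N : ℝ) ≤ b * L → MomJ C b L ((Icc 1 N).image (fun j => j ^ 2 + c * j)) := by
  classical
  choose C hC hm using gmom
  refine ⟨fun K => (C (2 * K) * (c + 4)) * b ^ 2, fun L N hL hN => ⟨?_, fun K => ?_⟩⟩
  · refine le_trans ?_ hN
    have : ((Icc 1 N).image (fun j => j ^ 2 + c * j)).card ≤ N := by
      refine card_image_le.trans ?_
      rw [Nat.card_Icc, Nat.add_sub_cancel]
    exact_mod_cast this
  rcases Nat.eq_zero_or_pos N with h0 | h0
  · subst h0
    have h1 : (Icc 1 0 : Finset ℕ) = ∅ := by simp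
    rw [h1, image_empty, offDiag_empty, sum_empty]
    have := hC (2 * K)
    positivity
  have hinj : Set.InjOn (fun j : ℕ => j ^ 2 + c * j) (Set.univ : Set ℕ) := quad_inj c
  have e3 : ∑ q ∈ ((Icc 1 N).image (fun j => j ^ 2 + c * j)).offDiag,
        gg (Nat.dist q.1 q.2) ^ K =
      ∑ i ∈ Icc 1 N, ∑ j ∈ (Icc 1 N).erase i, gg (Nat.dist i j * (i + j + c)) ^ K := by
    rw [sum_sigma']
    symm
    apply sum_bij (fun (s : Σ _ : ℕ, ℕ) _ => (s.1 ^ 2 + c * s.1, s.2 ^ 2 + c * s.2))
    · intro s hs
      rw [mem_sigma, mem_erase] at hs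
      rw [mem_offDiag]
      refine ⟨mem_image_of_mem _ hs.1, mem_image_of_mem _ hs.2.2, fun h => hs.2.1 ?_⟩
      exact (hinj (Set.mem_univ _) (Set.mem_univ _) h).symm
    · rintro ⟨i, j⟩ _ ⟨i', j'⟩ _ h
      have h1 := (Prod.mk.inj h).1
      have h2 := (Prod.mk.inj h).2
      have h3 : i = i' := hinj (Set.mem_univ _) (Set.mem_univ _) h1
      have h4 : j = j' := hinj (Set.mem_univ _) (Set.mem_univ _) h2
      rw [h3, h4]
    · rintro ⟨u, v⟩ hq
      rw [mem_offDiag] at hq
      obtain ⟨h1, h2, h3⟩ := hq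
      rw [mem_image] at h1 h2
      obtain ⟨i, hi, e1⟩ := h1
      obtain ⟨j, hj, e2⟩ := h2
      refine ⟨⟨i, j⟩, ?_, ?_⟩
      · rw [mem_sigma, mem_erase]
        refine ⟨hi, ?_, hj⟩
        intro h
        have h' : j = i := h
        apply h3
        show u = v
        have e1' : i ^ 2 + c * i = u := e1
        have e2' : j ^ 2 + c * j = v := e2
        rw [← e1', ← e2', h']
      · exact Prod.ext e1 e2
    · intro s _
      show gg (Nat.dist s.1 s.2 * (s.1 + s.2 + c)) ^ K =
        gg (Nat.dist (s.1 ^ 2 + c * s.1) (s.2 ^ 2 + c * s.2)) ^ K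
      rw [dist_quad]
  rw [e3]
  have h1 : ∀ i ∈ Icc 1 N, ∑ j ∈ (Icc 1 N).erase i, gg (Nat.dist i j * (i + j + c)) ^ K ≤
      C (2 * K) * (c + 4) * N := by
    intro i hi
    rw [mem_Icc] at hi
    calc ∑ j ∈ (Icc 1 N).erase i, gg (Nat.dist i j * (i + j + c)) ^ K ≤
          ∑ j ∈ (Icc 1 N).erase i, (gg (Nat.dist i j) ^ (2 * K) + gg (i + j + c) ^ (2 * K)) / 2 := by
          apply sum_le_sum
          intro j hj
          rw [mem_erase, mem_Icc] at hj
          have h2 : gg (Nat.dist i j * (i + j + c)) ≤ gg (Nat.dist i j) * gg (i + j + c) :=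
            gg_mul_le (dist_pos' (Ne.symm hj.1)) (by omega)
          have h3 : gg (Nat.dist i j * (i + j + c)) ^ K ≤
              (gg (Nat.dist i j) * gg (i + j + c)) ^ K := pow_le_pow_left₀ (gg_nonneg _) h2 K
          rw [mul_pow] at h3
          have h4 : gg (Nat.dist i j) ^ (2 * K) = (gg (Nat.dist i j) ^ K) ^ 2 := by
            rw [← pow_mul, mul_comm]
          have h5 : gg (i + j + c) ^ (2 * K) = (gg (i + j + c) ^ K) ^ 2 := by
            rw [← pow_mul, mul_comm]
          rw [h4, h5]
          nlinarith [sq_nonneg (gg (Nat.dist i j) ^ K - gg (i + j + c) ^ K)]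
      _ = (∑ j ∈ (Icc 1 N).erase i, gg (Nat.dist i j) ^ (2 * K) +
            ∑ j ∈ (Icc 1 N).erase i, gg (i + j + c) ^ (2 * K)) / 2 := by
          rw [← sum_div, sum_add_distrib]
      _ ≤ (2 * (C (2 * K) * N) + C (2 * K) * ((2 * N + c : ℕ) : ℝ)) / 2 := by
          apply div_le_div_of_nonneg_right _ (by norm_num)
          apply add_le_add
          · refine (sum_dist (fun n => gg n ^ (2 * K)) (fun n => pow_nonneg (gg_nonneg _) _)
              (mem_Icc.2 hi)).trans ?_
            exact mul_le_mul_of_nonneg_left (hm (2 * K) N) (by norm_num)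
          · refine le_trans ?_ (hm (2 * K) (2 * N + c))
            have h6 : ∑ j ∈ (Icc 1 N).erase i, gg (i + j + c) ^ (2 * K) =
                ∑ s ∈ ((Icc 1 N).erase i).image (fun j => i + j + c), gg s ^ (2 * K) := by
              rw [sum_image]
              intro j _ j' _ h
              have h' : i + j + c = i + j' + c := h
              omega
            rw [h6]
            apply sum_le_sum_of_subset_of_nonneg
            · intro s hs
              rw [mem_image] at hs
              obtain ⟨j, hj, rfl⟩ := hs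
              rw [mem_erase, mem_Icc] at hj
              rw [mem_Icc]
              omega
            · intro _ _ _
              exact pow_nonneg (gg_nonneg _) _
      _ ≤ _ := by
          have h7 : (1 : ℝ) ≤ N := by exact_mod_cast h0
          have h8 := hC (2 * K)
          push_cast
          have h9 : C (2 * K) * (c : ℝ) ≤ C (2 * K) * (c * N) := by
            apply mul_le_mul_of_nonneg_left _ (zero_le_one.trans h8)
            have : (0 : ℝ) ≤ c := Nat.cast_nonneg _
            nlinarith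
          have h10 : 0 ≤ C (2 * K) * (c * N) := by positivity
          have h11 : 0 ≤ C (2 * K) * (N : ℝ) := by positivity
          nlinarith
  calc ∑ i ∈ Icc 1 N, ∑ j ∈ (Icc 1 N).erase i, gg (Nat.dist i j * (i + j + c)) ^ K ≤
        ∑ _i ∈ Icc 1 N, C (2 * K) * (c + 4) * N := sum_le_sum h1
    _ = C (2 * K) * (c + 4) * (N : ℝ) ^ 2 := by
        rw [sum_const, Nat.card_Icc, Nat.add_sub_cancel, nsmul_eq_mul]
        ring
    _ ≤ C (2 * K) * (c + 4) * (b * L) ^ 2 := by
        have := hC (2 * K)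
        apply mul_le_mul_of_nonneg_left _ (by positivity)
        exact pow_le_pow_left₀ (Nat.cast_nonneg _) hN 2
    _ = _ := by ring

end Pool.Agent.H533.GE
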