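import Pool.Agent.H533.QM.Smq

/-!
Linear forms: asymptotic second and fourth moments, the large primes dividing `n + a` are those of a
given integer.  Adapted from `Pool.Agent.H533.QM.Smq`.
-/

set_option autoImplicit false

open Finset Filter Topology

namespace Pool.Agent.H533.GE

open Pool.Agent.H361R2.PP
open Pool.Agent.H410R2
open Pool.Agent.H862R2.PPSm5
open Pool.Agent.H533.QM

theorem core_g {t : ℕ} {c0 : ℝ} {K : ℕ} (h4 : BodyQ t 1 c0 K)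
    {u : Fin t → ℝ} {θ δ V d Dx : ℝ} {b X : ℕ} (hu : ∀ τ, 0 < u τ) (hsum : ∑ τ, u τ ≤ θ / 2)
    (hθ : 0 < θ) (hθ1 : θ ≤ 1 / 32) (hδ : 0 < δ) (hδ1 : δ ≤ 1 / 8)
    (hKb : K ≤ b) (hδb : δ * (K * b) ≤ θ / 4) (hV0 : 0 < V) (hV1 : V ≤ 1) (hd : d ≤ 1)
    (hX16 : 16 ≤ X) (hKH : K ≤ HH X) (hw1 : (2 : ℝ) ^ 2 ^ JJ δ X ≤ (X : ℝ) ^ δ)
    (hw2 : (X : ℝ) ^ (δ / 2) ≤ (2 : ℝ) ^ 2 ^ JJ δ X) (hw3 : HH X < 2 ^ 2 ^ JJ δ X)
    (hJ : 1 ≤ JJ δ X)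
    (hPi : ∏ p ∈ P2 (JJ δ X) X, (1 + (1 : ℝ) / ((p : ℝ) - 1)) ≤ 1 / V)
    {P1' P2' : Finset ℕ} (hP1s : P1' ⊆ P1 (HH X) (JJ δ X)) (hP2s : P2' ⊆ P2 (JJ δ X) X)
    {o : Option ℕ} {S : Finset ℕ} {Ω E : ℝ} {Er : Finset ℕ → ℝ}
    (hΩ : 0 ≤ Ω)
    (hEq : Eqd o ((P1' ∪ P2').filter (fun p : ℕ => (p : ℝ) ≤ (X : ℝ) ^ (1 / 2 : ℝ))) S Ω Er)
    (hEs : ∑ D ∈ ((P1' ∪ P2').filter (fun p : ℕ => (p : ℝ) ≤ (X : ℝ) ^ (1 / 2 : ℝ))).powerset.filter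
      (fun D : Finset ℕ => ∏ p ∈ D, (p : ℝ) ≤ (X : ℝ) ^ (1 / 2 - θ)),
      (K : ℝ) ^ D.card * Er D ≤ E)
    (D : Dat t u c0 δ X) (hDS : ∀ τ, ∀ R ∈ D.S τ, R ⊆ P2')
    {SS : Finset (Finset ℕ)}
    (hSS : ∀ R ∈ SS, R ⊆ P2' ∧ ∏ p ∈ R, (p : ℝ) ≤ (X : ℝ) ^ (1 / 4 - 2 * θ))
    {B : Finset ℕ}
    (hBV : (B.card : ℝ) * EN.V1 P1' ≤ 1 / V)
    (hdl : ∀ U ⊆ B, U.card ≤ 4 * t + 2 → EN.dl (ee o) rho (P1' ∪ P2') U ≤ d)
    (hS : ∀ n ∈ S, ∀ a ∈ B, ∃ N : ℕ, 0 < N ∧ (N : ℝ) ≤ (X : ℝ) ^ Dx ∧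
      ∀ p ∈ P2', p ∣ n + a → p ∣ N)
    (c : (Fin t → Option ℕ) → ℝ) (hc : ∀ σ, |c σ| ≤ c0) :
    |∑ n ∈ S, AC.WW B c (xq P1' D n) ^ 2 - Ω * Zv (EN.V1 P1') D B c| ≤
        c0 ^ (2 * t + 2) * EN.EF t K b (JJ δ X) B.card Ω V d E ∧
      (∀ a ∈ B, |∑ n ∈ S, (rg P1' a n * FS SS a n * AC.WW (B.erase a) c (xq P1' D n)) ^ 2 -
        Ω * (EN.V1 P1' * AC.GG SS * Zv (EN.V1 P1') D (B.erase a) c)| ≤
        c0 ^ (2 * t + 2) * EN.EF t K b (JJ δ X) B.card (Ω * EN.V1 P1') V d E) ∧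
      ∑ n ∈ S, AC.WW B c (xq P1' D n) ^ 4 ≤ c0 ^ (4 * t + 4) *
        ((K / V) ^ K * 2 ^ (4 * t * ⌊2 * Dx / δ⌋₊) *
        (Ω + (B.card + 1 : ℝ) ^ (4 * t) * (((JJ δ X : ℝ) + 2) * E))) := by
  have hXr : (16 : ℝ) ≤ X := by exact_mod_cast hX16
  have hX0 : (0 : ℝ) < X := by linarith
  have hX1 : (1 : ℝ) ≤ X := by linarith
  set J := JJ δ X with hJdef
  set M : ℕ := 2 ^ 2 ^ J with hM
  have hMr : ((2 : ℝ) ^ 2 ^ J) = (M : ℝ) := by rw [hM]; push_cast; rfl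
  rw [hMr] at hw1 hw2
  have hle : ∀ {x y : ℝ}, x ≤ y → (X : ℝ) ^ x ≤ (X : ℝ) ^ y := fun h =>
    Real.rpow_le_rpow_of_exponent_le hX1 h
  set z : ℕ := ⌊(X : ℝ) ^ (1 / 4 : ℝ)⌋₊ with hz
  obtain ⟨P2z, hP2z⟩ : ∃ P : Finset ℕ, P = P2'.filter (fun p => p ≤ z) := ⟨_, rfl⟩
  have hP2' : ∀ p ∈ P2z, p.Prime ∧ M ≤ p := by
    intro p hp
    rw [hP2z, mem_filter] at hp
    exact (mem_P2.1 (hP2s hp.1)).2
  have hP2sub : P2z ⊆ P2 J X := by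
    intro p hp
    rw [hP2z, mem_filter] at hp
    exact hP2s hp.1
  have hP1 : ∀ p ∈ P1', p.Prime ∧ HH X < p ∧ p ≤ 2 ^ 2 ^ J := by
    intro p hp
    have h1 := mem_P1.1 (hP1s hp)
    exact ⟨h1.2.1, h1.2.2, h1.1.le⟩
  have hsubPX : P1' ∪ P2z ⊆
      (P1' ∪ P2').filter (fun p : ℕ => (p : ℝ) ≤ (X : ℝ) ^ (1 / 2 : ℝ)) := by
    intro p hp
    rw [mem_filter, mem_union]
    rcases Finset.mem_union.1 hp with h | h
    · refine ⟨Or.inl h, ?_⟩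
      have h5 : p < M := (mem_P1.1 (hP1s h)).1
      have h6 : (p : ℝ) ≤ M := by exact_mod_cast h5.le
      exact h6.trans (hw1.trans (hle (by linarith)))
    · rw [hP2z, mem_filter] at h
      refine ⟨Or.inr h.1, ?_⟩
      have h6 : (p : ℝ) ≤ z := by exact_mod_cast h.2
      exact h6.trans ((Nat.floor_le (by positivity)).trans (hle (by norm_num)))
  -- sets of primes with small product
  have hfam : ∀ (x : ℝ) (R : Finset ℕ), x ≤ 1 / 4 → R ⊆ P2' →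
      ∏ p ∈ R, (p : ℝ) ≤ (X : ℝ) ^ x → R ⊆ P2z ∧ ∏ p ∈ R, p ≤ ⌊(X : ℝ) ^ x⌋₊ := by
    intro x R hx hR hprod
    refine ⟨?_, ?_⟩
    · intro p hp
      rw [hP2z, mem_filter]
      refine ⟨hR hp, ?_⟩
      have h2 : p ≤ ∏ q ∈ R, q := mem_le_prod (fun q hq =>
        (mem_P2.1 (hP2s (hR hq))).2.1.one_le) hp
      have h3 : (p : ℝ) ≤ (X : ℝ) ^ (1 / 4 : ℝ) := by
        have h5 : (p : ℝ) ≤ ∏ q ∈ R, (q : ℝ) := by
          have h6 : (p : ℝ) ≤ ((∏ q ∈ R, q : ℕ) : ℝ) := Nat.cast_le.2 h2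
          rwa [Nat.cast_prod] at h6
        exact h5.trans (hprod.trans (hle hx))
      exact Nat.le_floor h3
    · apply Nat.le_floor
      push_cast
      exact hprod
  have hu4 : ∀ τ, u τ ≤ 1 / 4 := by
    intro τ
    have h1 : u τ ≤ ∑ τ, u τ := Finset.single_le_sum (fun i _ => (hu i).le) (Finset.mem_univ τ)
    linarith
  have hone : ∀ x : ℝ, 0 ≤ x → 1 ≤ ⌊(X : ℝ) ^ x⌋₊ := by
    intro x hx
    apply Nat.le_floor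
    simpa using Real.one_le_rpow hX1 hx
  -- the main inequality for the exponents
  have hD0 : M ^ (K * b) * (⌊(X : ℝ) ^ (1 / 4 - 2 * θ)⌋₊ * ∏ τ, ⌊(X : ℝ) ^ (u τ)⌋₊) ^ 2 ≤
      ⌊(X : ℝ) ^ (1 / 2 - θ)⌋₊ := by
    apply Nat.le_floor
    push_cast
    have h1 : (M : ℝ) ^ (K * b) ≤ (X : ℝ) ^ (θ / 4) := by
      calc (M : ℝ) ^ (K * b) ≤ ((X : ℝ) ^ δ) ^ (K * b) :=
            pow_le_pow_left₀ (Nat.cast_nonneg _) hw1 _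
        _ = (X : ℝ) ^ (δ * ((K * b : ℕ) : ℝ)) := by
            rw [← Real.rpow_natCast, ← Real.rpow_mul hX0.le]
        _ ≤ (X : ℝ) ^ (θ / 4) := by
            apply hle
            push_cast
            exact hδb
    have h2 : (⌊(X : ℝ) ^ (1 / 4 - 2 * θ)⌋₊ : ℝ) ≤ (X : ℝ) ^ (1 / 4 - 2 * θ) :=
      Nat.floor_le (by positivity)
    have h3 : ∏ τ, (⌊(X : ℝ) ^ (u τ)⌋₊ : ℝ) ≤ (X : ℝ) ^ (θ / 2) := by
      calc ∏ τ, (⌊(X : ℝ) ^ (u τ)⌋₊ : ℝ) ≤ ∏ τ, (X : ℝ) ^ (u τ) := by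
            apply Finset.prod_le_prod
            · intro i _
              positivity
            · intro i _
              exact Nat.floor_le (by positivity)
        _ = (X : ℝ) ^ (∑ τ, u τ) := by rw [Real.rpow_sum_of_pos hX0]
        _ ≤ (X : ℝ) ^ (θ / 2) := hle hsum
    have h5 : (⌊(X : ℝ) ^ (1 / 4 - 2 * θ)⌋₊ : ℝ) * ∏ τ, (⌊(X : ℝ) ^ (u τ)⌋₊ : ℝ) ≤
        (X : ℝ) ^ (1 / 4 - 2 * θ) * (X : ℝ) ^ (θ / 2) :=
      mul_le_mul h2 h3 (by positivity) (by positivity)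
    calc (M : ℝ) ^ (K * b) * ((⌊(X : ℝ) ^ (1 / 4 - 2 * θ)⌋₊ : ℝ) *
          ∏ τ, (⌊(X : ℝ) ^ (u τ)⌋₊ : ℝ)) ^ 2
        ≤ (X : ℝ) ^ (θ / 4) * ((X : ℝ) ^ (1 / 4 - 2 * θ) * (X : ℝ) ^ (θ / 2)) ^ 2 :=
          mul_le_mul h1 (pow_le_pow_left₀ (by positivity) h5 _) (by positivity) (by positivity)
      _ = (X : ℝ) ^ (θ / 4 + ((1 / 4 - 2 * θ) + θ / 2) * 2) := by
          rw [Real.rpow_add hX0, ← Real.rpow_add hX0, Real.rpow_mul hX0.le]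
          norm_num
      _ ≤ (X : ℝ) ^ (1 / 2 - θ) := hle (by linarith)
  have hErsum : ∑ T ∈ (P1' ∪ P2z).powerset.filter
      (fun T : Finset ℕ => ∏ p ∈ T, p ≤ ⌊(X : ℝ) ^ (1 / 2 - θ)⌋₊), (K : ℝ) ^ T.card * Er T ≤ E := by
    refine le_trans ?_ hEs
    apply Finset.sum_le_sum_of_subset_of_nonneg
    · intro T hT
      rw [Finset.mem_filter, Finset.mem_powerset] at hT ⊢
      refine ⟨hT.1.trans hsubPX, ?_⟩
      have h1 := (Nat.le_floor_iff (by positivity)).1 hT.2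
      push_cast at h1
      exact h1
    · intro T _ _
      exact mul_nonneg (by positivity) (hEq.2.1 T)
  have hP2sub' : P1' ∪ P2z ⊆ P1' ∪ P2' := by
    apply union_subset_union_right
    rw [hP2z]
    exact filter_subset _ _
  have main := h4 o δ X b J (HH X) ⌊(X : ℝ) ^ (1 / 2 - θ)⌋₊ ⌊2 * Dx / δ⌋₊ P1' P2z S Ω Er u D B
    (fun τ => ⌊(X : ℝ) ^ (u τ)⌋₊) ⌊(X : ℝ) ^ (1 / 4 - 2 * θ)⌋₊ SS V d E hKb hKH hw3 hJ hP1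
    hP2' (by
      intro τ R hR
      obtain ⟨h1, h2⟩ := D.hS τ R hR
      refine hfam (u τ) R (hu4 τ) (hDS τ R hR) ?_
      have hpos : (0 : ℝ) < ∏ p ∈ R, (p : ℝ) := Finset.prod_pos fun p hp => by
        exact_mod_cast (Finset.mem_filter.1 (h1 hp)).2.1.pos
      rw [← Real.log_rpow hX0, Real.log_le_log_iff hpos (by positivity)] at h2
      exact h2) (fun τ => hone _ (hu τ).le) (hone _ (by linarith)) (by
      intro R hR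
      have h1 := hSS R hR
      exact hfam _ R (by linarith) h1.1 h1.2) hΩ (eqd_mono hsubPX hEq)
    hErsum hD0 hV0 hV1 hd
    ((pi1_mono hP2sub (fun p hp => (Finset.mem_filter.1 hp).2.1)).trans hPi)
    hBV
    (by
      intro U hU hUc
      refine le_trans ?_ (hdl U hU hUc)
      unfold EN.dl
      have hpos : ∀ p ∈ P1' ∪ P2', (1 : ℝ) ≤ p := by
        intro p hp
        rcases mem_union.1 hp with h | h
        · exact_mod_cast (hP1 p h).1.one_le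
        · exact_mod_cast (mem_P2.1 (hP2s h)).2.1.one_le
      apply add_le_add
      · apply Finset.sum_le_sum_of_subset_of_nonneg hP2sub'
        intro p _ _
        positivity
      · apply Finset.sum_le_sum_of_subset_of_nonneg (Finset.filter_subset_filter _ hP2sub')
        intro p hp _
        have := hpos p (mem_filter.1 hp).1
        apply div_nonneg zero_le_one
        linarith)
    (by
      intro n hn a ha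
      obtain ⟨N, hN0, hN1, hN2⟩ := hS n hn a ha
      refine le_trans (card_le_card ?_) (few_primesq (N := N) hδ (by omega) hP2' hw2 hN0 hN1)
      intro p hp
      rw [mem_filter] at hp ⊢
      refine ⟨hp.1, hN2 p ?_ hp.2⟩
      have h7 := hp.1
      rw [hP2z, mem_filter] at h7
      exact h7.1)
    c hc
  exact main

/-- asymptotic second and fourth moments -/
theorem smg (t : ℕ) (u : Fin t → ℝ) (c0 κ θ s Dx : ℝ) (hu : ∀ τ, 0 < u τ)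
    (hsum : ∑ τ, u τ ≤ θ / 2) (hθ : 0 < θ) (hθ1 : θ ≤ 1 / 32) (hc0 : 1 ≤ c0) (hκ : 0 < κ)
    (hs : 0 < s) :
    ∃ Kq Aq : ℕ, ∃ δ₀ : ℝ, 0 < δ₀ ∧ δ₀ ≤ 1 / 8 ∧ ∀ δ : ℝ, 0 < δ → δ ≤ δ₀ →
    ∃ C d : ℝ, 0 < C ∧ 0 < d ∧ ∀ Λ : ℝ, 0 < Λ → ∃ X₀ : ℕ, ∀ X : ℕ, X₀ ≤ X →
    ∀ P1' P2' : Finset ℕ, P1' ⊆ P1 (HH X) (JJ δ X) → P2' ⊆ P2 (JJ δ X) X →
    ∀ D : Dat t u c0 δ X, (∀ τ, ∀ R ∈ D.S τ, R ⊆ P2') →
    ∀ SS : Finset (Finset ℕ),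
      (∀ R ∈ SS, R ⊆ P2' ∧ ∏ p ∈ R, (p : ℝ) ≤ (X : ℝ) ^ (1 / 4 - 2 * θ)) →
    ∀ (o : Option ℕ) (S : Finset ℕ) (Ω : ℝ) (Er : Finset ℕ → ℝ), 0 ≤ Ω →
      Eqd o ((P1' ∪ P2').filter (fun p : ℕ => (p : ℝ) ≤ (X : ℝ) ^ (1 / 2 : ℝ))) S Ω Er →
      ∑ D ∈ ((P1' ∪ P2').filter
          (fun p : ℕ => (p : ℝ) ≤ (X : ℝ) ^ (1 / 2 : ℝ))).powerset.filter
        (fun D : Finset ℕ => ∏ p ∈ D, (p : ℝ) ≤ (X : ℝ) ^ (1 / 2 - θ)),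
        (Kq : ℝ) ^ D.card * Er D ≤ Ω / Real.log X ^ Aq →
    ∀ B : Finset ℕ, (B.card : ℝ) ≤ Λ * Real.log X → (B.card : ℝ) * EN.V1 P1' ≤ κ / δ →
      (∀ U ⊆ B, U.card ≤ 4 * t + 2 → EN.dl (ee o) rho (P1' ∪ P2') U ≤ d) →
      (∀ n ∈ S, ∀ a ∈ B, ∃ N : ℕ, 0 < N ∧ (N : ℝ) ≤ (X : ℝ) ^ Dx ∧
        ∀ p ∈ P2', p ∣ n + a → p ∣ N) →
    ∀ c : (Fin t → Option ℕ) → ℝ, (∀ σ, |c σ| ≤ c0) →
      |∑ n ∈ S, AC.WW B c (xq P1' D n) ^ 2 - Ω * Zv (EN.V1 P1') D B c| ≤ s * Ω ∧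
      (∀ a ∈ B, |∑ n ∈ S, (rg P1' a n * FS SS a n * AC.WW (B.erase a) c (xq P1' D n)) ^ 2 -
        Ω * (EN.V1 P1' * AC.GG SS * Zv (EN.V1 P1') D (B.erase a) c)| ≤ s * (Ω * EN.V1 P1')) ∧
      ∑ n ∈ S, AC.WW B c (xq P1' D n) ^ 4 ≤ C * Ω := by
  obtain ⟨K, hK, h4⟩ := bodyQ_of secondW_final fourthW_final Pool.Agent.H379R2.PP.sm1
    Pool.Agent.H379R2.PP.sm3 t 1 c0 le_rfl hc0
  obtain ⟨Cg, hCg, hGbd⟩ := Pool.Agent.H488R2.gbd Pool.Agent.H325R2.wtx 1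
  obtain ⟨cv, hcv, hcv1, hvv⟩ := vv_lower
  set M : ℕ := Cg + ⌈κ⌉₊ with hMdef
  have hM : 1 ≤ M := by omega
  have hMr : (1 : ℝ) ≤ M := by exact_mod_cast hM
  have hM0 : (0 : ℝ) < M := by linarith
  have hMC : κ ≤ M := by
    rw [hMdef]
    push_cast
    have := Nat.le_ceil κ
    have h2 : (0 : ℝ) ≤ Cg := Nat.cast_nonneg Cg
    linarith
  have hc00 : 0 < c0 := by linarith
  obtain ⟨δ₀, hδ₀, hδ₀8, hδ⟩ := choose_delta K M θ (s / 3) (c0 ^ (2 * t + 2)) hK hM hθ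
    (by positivity) (by positivity)
  refine ⟨K, 4 * t + 6, δ₀, hδ₀, hδ₀8, fun δ hδ0 hδle => ?_⟩
  obtain ⟨b, hKb, hδb, hb⟩ := hδ δ hδ0 hδle
  have hδ8 : δ ≤ 1 / 8 := hδle.trans hδ₀8
  have hδ1 : δ ≤ 1 := by linarith
  set V : ℝ := (δ / M) ^ M with hV
  have hV0 : 0 < V := by positivity
  have hV1 : V ≤ 1 := by
    apply pow_le_one₀ (by positivity)
    rw [div_le_one hM0]
    linarith
  have hVinv : 1 / V = ((M : ℝ) / δ) ^ M := by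
    rw [hV, div_pow, div_pow]
    field_simp
  obtain ⟨d, hd0, hd1, hd⟩ := choose_d K (c0 ^ (2 * t + 2) * (K / V ^ K)) (s / 3)
    (by positivity) (by positivity)
  refine ⟨c0 ^ (4 * t + 4) * ((K / V) ^ K * 2 ^ (4 * t * ⌊2 * Dx / δ⌋₊)) * 2, d, by positivity,
    hd0, fun Λ hΛ => ?_⟩
  obtain ⟨X₃, h3⟩ := hGbd δ hδ0 hδ8
  obtain ⟨X₄, hw⟩ := Pool.Agent.H325R2.wtx.2 δ hδ0 hδ1
  have hev : ∀ᶠ X : ℕ in atTop, (max K 2 ≤ HH X) ∧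
      (2 < (X : ℝ) ^ (δ / 2)) ∧
      (∀ (k J : ℕ), (k : ℝ) ≤ Λ * Real.log X → (J : ℝ) + 2 ≤ 4 * Real.log X →
      1 ≤ Real.log X ∧
      c0 ^ (2 * t + 2) * (K / V ^ K) *
        (((k : ℝ) + 1) ^ (4 * t + 2) * (((J : ℝ) + 2) * (1 / Real.log X ^ (4 * t + 6)))) ≤
        (s / 3 * cv) / Real.log X) ∧
      (∀ (k J : ℕ), (k : ℝ) ≤ Λ * Real.log X → (J : ℝ) + 2 ≤ 4 * Real.log X →
      1 ≤ Real.log X ∧
      1 * (((k : ℝ) + 1) ^ (4 * t + 2) * (((J : ℝ) + 2) * (1 / Real.log X ^ (4 * t + 6)))) ≤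
        1 / Real.log X) := by
    have e1 := HH_tendsto.eventually_ge_atTop (max K 2)
    have e3 : ∀ᶠ X : ℕ in atTop, 2 < (X : ℝ) ^ (δ / 2) :=
      ((tendsto_rpow_atTop (by positivity : 0 < δ / 2)).comp
        tendsto_natCast_atTop_atTop).eventually_gt_atTop 2
    have e4 := absorb t Λ (c0 ^ (2 * t + 2) * (K / V ^ K)) (s / 3 * cv) hΛ (by positivity)
      (by positivity)
    have e5 := absorb t Λ 1 1 hΛ (by norm_num) one_pos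
    filter_upwards [e1, e3, e4, e5] with X a1 a3 a4 a5
    exact ⟨a1, a3, a4, a5⟩
  obtain ⟨X₈, h8⟩ := Filter.eventually_atTop.1 hev
  refine ⟨max 16 (max X₃ (max X₄ X₈)), ?_⟩
  intro X hX P1' P2' hP1s hP2s D hDS SS hSS o S Ω Er hΩ hEq hEs B hBc hBV1 hdl hS c hc
  simp only [max_le_iff] at hX
  obtain ⟨hX16, hX3, hX4, hX8⟩ := hX
  obtain ⟨hHH, hrp, hab, hab4⟩ := h8 X hX8
  obtain ⟨hw1, hw2, hw3⟩ := hw X hX4
  have hXr : (16 : ℝ) ≤ X := by exact_mod_cast hX16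
  have hL0 : 0 < Real.log X := Real.log_pos (by linarith)
  have hKH : K ≤ HH X := (le_max_left _ _).trans hHH
  have h2H : 2 ≤ HH X := (le_max_right _ _).trans hHH
  have hJ : 1 ≤ JJ δ X := by
    by_contra h
    have h0 : JJ δ X = 0 := by omega
    rw [h0] at hw2
    norm_num at hw2
    linarith
  have hJ4 : (JJ δ X : ℝ) + 2 ≤ 4 * Real.log X := JJ_le hδ1 hX16 hw1
  have hP1p : ∀ p ∈ P1', p.Prime := fun p hp => (mem_P1.1 (hP1s hp)).2.1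
  have hVVlow : cv / Real.log X ≤ EN.V1 P1' :=
    (hvv X δ hδ0 hδ1 hX16 h2H hw1 hw3).trans
      (V1_mono hP1s (fun p hp => (mem_P1.1 hp).2.1))
  have hVVn : 0 ≤ EN.V1 P1' := V1_nonneg hP1p
  have hVV1 : EN.V1 P1' ≤ 1 := V1_le_one hP1p
  have hPi : ∏ p ∈ P2 (JJ δ X) X, (1 + (1 : ℝ) / ((p : ℝ) - 1)) ≤ 1 / V := by
    have h10 := h3 X hX3
    rw [Nat.cast_one] at h10
    refine h10.trans ?_
    rw [hVinv]
    have hCgr : (1 : ℝ) ≤ Cg := by exact_mod_cast hCg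
    have h11 : (1 : ℝ) ≤ Cg / δ := by
      rw [le_div_iff₀ hδ0]
      linarith
    have h12 : (Cg : ℝ) / δ ≤ M / δ := by
      apply div_le_div_of_nonneg_right _ hδ0.le
      rw [hMdef]
      push_cast
      have : (0 : ℝ) ≤ (⌈κ⌉₊ : ℝ) := Nat.cast_nonneg _
      linarith
    calc ((Cg : ℝ) / δ) ^ Cg ≤ ((Cg : ℝ) / δ) ^ M := pow_le_pow_right₀ h11 (by omega)
      _ ≤ ((M : ℝ) / δ) ^ M := pow_le_pow_left₀ (by positivity) h12 _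
  have hBV : (B.card : ℝ) * EN.V1 P1' ≤ 1 / V := by
    have h13 : κ / δ ≤ M / δ := div_le_div_of_nonneg_right hMC hδ0.le
    have h14 : (M : ℝ) / δ ≤ ((M : ℝ) / δ) ^ M := by
      apply le_self_pow₀
      · rw [le_div_iff₀ hδ0]
        linarith
      · omega
    rw [hVinv]
    linarith
  have hcore := core_g h4 hu hsum hθ hθ1 hδ0 hδ8 hKb hδb hV0 hV1 hd1 hX16 hKH hw1 hw2 hw3 hJ
      hPi hP1s hP2s hΩ hEq hEs D hDS hSS hBV hdl hS c hc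
  obtain ⟨hL1, hab1⟩ := hab B.card (JJ δ X) hBc hJ4
  obtain ⟨_, hab2⟩ := hab4 B.card (JJ δ X) hBc hJ4
  have hΩV : Ω * (cv / Real.log X) ≤ Ω * EN.V1 P1' := mul_le_mul_of_nonneg_left hVVlow hΩ
  have hΩV1 : Ω * EN.V1 P1' ≤ Ω := by nlinarith
  refine ⟨hcore.1.trans ?_, fun a ha => (hcore.2.1 a ha).trans ?_, hcore.2.2.trans ?_⟩
  · have := ef_le hc00.le hV0 hs hΩ hΩ hb hd hab1 (hΩV.trans hΩV1) hL0
    linarith
  · have := ef_le hc00.le hV0 hs hΩ (mul_nonneg hΩ hVVn) hb hd hab1 hΩV hL0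
    linarith
  · have h10 := four_le hΩ hL1 hab2
    calc c0 ^ (4 * t + 4) * ((K / V) ^ K * 2 ^ (4 * t * ⌊2 * Dx / δ⌋₊) *
        (Ω + ((B.card : ℝ) + 1) ^ (4 * t) * (((JJ δ X : ℝ) + 2) *
          (Ω / Real.log X ^ (4 * t + 6)))))
        ≤ c0 ^ (4 * t + 4) * ((K / V) ^ K * 2 ^ (4 * t * ⌊2 * Dx / δ⌋₊) * (2 * Ω)) := by
          gcongr
      _ = _ := by ring

end Pool.Agent.H533.GE
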