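import Pool.Agent.H533.GE.ShfQ

/-!
Moments of `n / φ(n)` in short intervals at every height up to a power of `log X`.
-/

set_option autoImplicit false

open Finset Filter Topology

namespace Pool.Agent.H533.GE

open Pool.Agent.H361R2.PP
open Pool.Agent.H533.QM
open Pool.Agent.H533.QS
open Pool.Agent.H533.QA

theorem card_dvd_Ioc (u N d : ℕ) (hd : 0 < d) :
    (((Ioc u (u + N)).filter (fun n => d ∣ n)).card : ℝ) ≤ N / d + 1 := by
  have h1 : ((Ioc u (u + N)).filter (fun n => d ∣ n)).card + u / d = (u + N) / d := by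
    rw [← Nat.Ioc_filter_dvd_card_eq_div u d, ← Nat.Ioc_filter_dvd_card_eq_div (u + N) d,
      ← card_union_of_disjoint]
    · congr 1
      ext n
      rw [mem_union, mem_filter, mem_filter, mem_filter, mem_Ioc, mem_Ioc, mem_Ioc]
      constructor
      · rintro (h | h)
        · exact ⟨⟨by omega, by omega⟩, h.2⟩
        · exact ⟨⟨by omega, by omega⟩, h.2⟩
      · rintro ⟨⟨h2, h3⟩, h4⟩
        by_cases h5 : u < n
        · exact Or.inl ⟨⟨h5, h3⟩, h4⟩
        · exact Or.inr ⟨⟨h2, by omega⟩, h4⟩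
    · rw [disjoint_left]
      intro n hn hn'
      rw [mem_filter, mem_Ioc] at hn hn'
      omega
  have h2 : (u + N) / d ≤ u / d + N / d + 1 := by
    have h3 := Nat.div_add_mod u d
    have h4 := Nat.div_add_mod N d
    have h5 := Nat.mod_lt u hd
    have h6 := Nat.mod_lt N hd
    have h7 : u + N < d * (u / d + N / d + 2) := by
      have : d * (u / d + N / d + 2) = d * (u / d) + d * (N / d) + 2 * d := by ring
      rw [this]
      omega
    have h8 : (u + N) / d < u / d + N / d + 2 := (Nat.div_lt_iff_lt_mul hd).2 (by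
      rw [mul_comm]; exact h7)
    omega
  have h9 : ((Ioc u (u + N)).filter (fun n => d ∣ n)).card ≤ N / d + 1 := by omega
  calc (((Ioc u (u + N)).filter (fun n => d ∣ n)).card : ℝ) ≤ ((N / d + 1 : ℕ) : ℝ) := by
        exact_mod_cast h9
    _ ≤ _ := by
        push_cast
        have := Nat.cast_div_le (α := ℝ) (m := N) (n := d)
        linarith

theorem prod_tele (H : ℕ) : ∏ n ∈ Icc 1 H, (1 + 1 / (n : ℝ)) = H + 1 := by
  induction H with
  | zero => simp
  | succ H ih =>
    rw [Finset.prod_Icc_succ_top (by omega), ih]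
    push_cast
    have : (H : ℝ) + 1 ≠ 0 := by positivity
    field_simp

/-- the product over the small primes is small -/
theorem prod_small0 (D : ℕ) : ∃ X₀ : ℕ, ∀ X : ℕ, X₀ ≤ X →
    ∏ p ∈ Sm X 1, (1 + (D : ℝ) / p) ≤ Real.log X := by
  have hlo : ∀ᶠ y : ℝ in atTop, ‖Real.log y ^ D‖ ≤ 1 / 3 * ‖y‖ :=
    (Real.isLittleO_pow_log_id_atTop (n := D)).def (by norm_num)
  have t1 : Tendsto (fun X : ℕ => Real.log (X : ℝ)) atTop atTop :=
    Real.tendsto_log_atTop.comp tendsto_natCast_atTop_atTop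
  have t2 : Tendsto (fun X : ℕ => Real.exp 1 * Real.log (X : ℝ)) atTop atTop :=
    Tendsto.const_mul_atTop (Real.exp_pos 1) t1
  obtain ⟨X₀, h⟩ := eventually_atTop.1 ((t2.eventually hlo).and (t1.eventually_ge_atTop 1))
  refine ⟨X₀, fun X hX => ?_⟩
  obtain ⟨h1, h2⟩ := h X hX
  have hll : 0 ≤ Real.log (Real.log X) := Real.log_nonneg h2
  have h3 : Real.log (Real.exp 1 * Real.log X) = 1 + Real.log (Real.log X) := by
    rw [Real.log_mul (Real.exp_pos 1).ne' (by linarith), Real.log_exp]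
  rw [h3] at h1
  rw [Real.norm_of_nonneg (by positivity), Real.norm_of_nonneg (by positivity)] at h1
  have hH : (HH X : ℝ) ≤ Real.log (Real.log X) := by
    unfold HH
    refine (Nat.floor_le (by positivity)).trans ?_
    linarith
  calc ∏ p ∈ Sm X 1, (1 + (D : ℝ) / p) ≤ ∏ p ∈ Icc 1 (HH X), (1 + (D : ℝ) / p) := by
        have hsub : Sm X 1 ⊆ Icc 1 (HH X) := by
          intro p hp
          rw [mem_Sm] at hp
          rw [mem_Icc]
          exact ⟨hp.2.1.one_le, hp.1⟩
        rw [← prod_sdiff hsub]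
        have hone : 1 ≤ ∏ p ∈ Icc 1 (HH X) \ Sm X 1, (1 + (D : ℝ) / p) := by
          calc (1 : ℝ) = ∏ _p ∈ Icc 1 (HH X) \ Sm X 1, (1 : ℝ) := by simp
            _ ≤ _ := Finset.prod_le_prod (fun _ _ => zero_le_one) (fun p _ => by
              have : 0 ≤ (D : ℝ) / p := by positivity
              linarith)
        exact le_mul_of_one_le_left (prod_nonneg fun p _ => by positivity) hone
    _ ≤ ∏ n ∈ Icc 1 (HH X), (1 + 1 / (n : ℝ)) ^ D := by
        apply Finset.prod_le_prod
        · intro p _; positivity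
        · intro p _
          have h4 := one_add_mul_le_pow (a := 1 / (p : ℝ)) (by
            have : 0 ≤ 1 / (p : ℝ) := by positivity
            linarith) D
          refine le_trans (le_of_eq ?_) h4
          ring
    _ = ((HH X : ℝ) + 1) ^ D := by rw [prod_pow, prod_tele]
    _ ≤ (1 + Real.log (Real.log X)) ^ D := pow_le_pow_left₀ (by positivity) (by linarith) D
    _ ≤ 1 / 3 * (Real.exp 1 * Real.log X) := h1
    _ ≤ _ := by
        have := Real.exp_one_lt_d9
        nlinarith

/-- the product over the small primes is small, for all `X` -/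
theorem prod_small (D : ℕ) : ∃ E : ℝ, 1 ≤ E ∧ ∀ X : ℕ, 3 ≤ X →
    ∏ p ∈ Sm X 1, (1 + (D : ℝ) / p) ≤ E * Real.log X := by
  obtain ⟨X₀, h⟩ := prod_small0 D
  have hnn : ∀ X : ℕ, 0 ≤ ∏ p ∈ Sm X 1, (1 + (D : ℝ) / p) := fun X =>
    prod_nonneg fun p _ => by positivity
  have hs : 0 ≤ ∑ X ∈ range X₀, ∏ p ∈ Sm X 1, (1 + (D : ℝ) / p) := sum_nonneg fun X _ => hnn X
  refine ⟨1 + ∑ X ∈ range X₀, ∏ p ∈ Sm X 1, (1 + (D : ℝ) / p), by linarith, fun X hX => ?_⟩
  have hlog1 : 1 ≤ Real.log X := by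
    rw [Real.le_log_iff_exp_le (by exact_mod_cast (by omega : 0 < X))]
    have := Real.exp_one_lt_d9
    have h4 : (3 : ℝ) ≤ X := by exact_mod_cast hX
    linarith
  rcases Nat.lt_or_ge X X₀ with h1 | h1
  · have h2 := single_le_sum (f := fun X : ℕ => ∏ p ∈ Sm X 1, (1 + (D : ℝ) / p))
      (fun X _ => hnn X) (mem_range.2 h1)
    have h3 : ∏ p ∈ Sm X 1, (1 + (D : ℝ) / p) ≤
      ∑ X ∈ range X₀, ∏ p ∈ Sm X 1, (1 + (D : ℝ) / p) := h2
    nlinarith
  · have h2 := h X h1
    nlinarith

open Classical in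
/-- the moments of `n / φ(n)` in short intervals -/
theorem gmomW0 (k : ℕ) : ∃ C : ℝ, 1 ≤ C ∧ ∀ X : ℕ, 3 ≤ X → ∀ u N : ℕ,
    (∀ n ∈ Ioc u (u + N), ∑ p ∈ Ru X n, 1 / (p : ℝ) ≤ 1 / 2) →
    ∑ n ∈ Ioc u (u + N), gg n ^ k ≤ C * (N + Real.log X) := by
  obtain ⟨D, hD⟩ : ∃ D : ℕ, D = 2 ^ (k + 1) := ⟨_, rfl⟩
  have hDr : (D : ℝ) = 2 ^ (k + 1) := by rw [hD]; push_cast; rfl
  obtain ⟨E2, hE2, h2⟩ := prod_small D
  refine ⟨2 ^ k * (Real.exp (2 ^ (k + 1) * ∑' n : ℕ, 1 / (n : ℝ) ^ 2) + E2), ?_,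
    fun X hX u N h1 => ?_⟩
  · have h1 : (1 : ℝ) ≤ 2 ^ k := one_le_pow₀ (by norm_num)
    have h2 : 1 ≤ Real.exp (2 ^ (k + 1) * ∑' n : ℕ, 1 / (n : ℝ) ^ 2) := by
      apply Real.one_le_exp
      apply mul_nonneg (by positivity)
      exact tsum_nonneg fun n => by positivity
    nlinarith
  have hlog : 0 ≤ Real.log X := Real.log_natCast_nonneg X
  obtain ⟨P, hP⟩ : ∃ P, P = Sm X 1 := ⟨_, rfl⟩
  have hPp : ∀ p ∈ P, p.Prime := fun p hp => by rw [hP, mem_Sm] at hp; exact hp.2.1
  -- pointwise bound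
  have h3 : ∀ n ∈ Ioc u (u + N), gg n ^ k ≤ 2 ^ k * ∑ s ∈ P.powerset,
      if (∏ p ∈ s, p) ∣ n then ∏ p ∈ s, ((D : ℝ) / p) else 0 := by
    intro n hn
    rw [mem_Ioc] at hn
    have hn1 : 1 ≤ n := by omega
    have h4 := le_ww (X := X) (q := 1) (f := (n, 1)) ⟨hn1, le_rfl, Nat.coprime_one_right _⟩
      (h1 n (mem_Ioc.2 hn))
    have h4' : gg n ≤ 2 * ww X 1 n := h4
    refine (pow_le_pow_left₀ (gg_nonneg n) h4' k).trans ?_
    rw [mul_pow]
    apply mul_le_mul_of_nonneg_left _ (by positivity)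
    unfold ww lf
    rw [← prod_pow, ← hP]
    calc ∏ p ∈ P, (if p ∣ n then (1 - 1 / (p : ℝ))⁻¹ else 1) ^ k
        = ∏ p ∈ P.filter (fun p => p ∣ n), ((1 - 1 / (p : ℝ))⁻¹) ^ k := by
          rw [prod_filter]
          apply prod_congr rfl
          intro p _
          split_ifs
          · rfl
          · rw [one_pow]
      _ ≤ ∏ p ∈ P.filter (fun p => p ∣ n), (1 + (D : ℝ) / p) := by
          apply Finset.prod_le_prod
          · intro p hp
            have := one_sub_pos (hPp p (mem_filter.1 hp).1)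
            positivity
          · intro p hp
            rw [hDr]
            exact loc_pow k (hPp p (mem_filter.1 hp).1)
      _ = ∑ s ∈ (P.filter (fun p => p ∣ n)).powerset, ∏ p ∈ s, ((D : ℝ) / p) := by
          rw [prod_one_add]
      _ = ∑ s ∈ P.powerset.filter (fun s => (∏ p ∈ s, p) ∣ n), ∏ p ∈ s, ((D : ℝ) / p) := by
          apply sum_congr _ (fun _ _ => rfl)
          ext s
          rw [mem_powerset, mem_filter, mem_powerset]
          constructor
          · intro hs
            refine ⟨hs.trans (filter_subset _ _), ?_⟩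
            apply Finset.prod_primes_dvd
            · intro p hp
              exact (hPp p ((filter_subset _ _) (hs hp))).prime
            · intro p hp
              exact (mem_filter.1 (hs hp)).2
          · rintro ⟨hs, hd⟩ p hp
            exact mem_filter.2 ⟨hs hp, (dvd_prod_of_mem _ hp).trans hd⟩
      _ = _ := by rw [sum_filter]
  have h5 : ∀ s ∈ P.powerset, ∑ n ∈ Ioc u (u + N),
      (if (∏ p ∈ s, p) ∣ n then ∏ p ∈ s, ((D : ℝ) / p) else 0) ≤
      N * ∏ p ∈ s, ((D : ℝ) / p / p) + ∏ p ∈ s, ((D : ℝ) / p) := by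
    intro s hs
    rw [mem_powerset] at hs
    have hpos : 0 < ∏ p ∈ s, p := prod_pos fun p hp => (hPp p (hs hp)).pos
    have h4 := card_dvd_Ioc u N (∏ p ∈ s, p) hpos
    rw [← sum_filter, sum_const, nsmul_eq_mul,
      prod_div_distrib (f := fun p : ℕ => ((D : ℝ) / (p : ℝ)))]
    have h6 : (0 : ℝ) ≤ ∏ p ∈ s, ((D : ℝ) / p) := prod_nonneg fun p _ => by positivity
    push_cast at h4
    calc _ ≤ ((N : ℝ) / ∏ p ∈ s, (p : ℝ) + 1) * ∏ p ∈ s, ((D : ℝ) / p) :=
          mul_le_mul_of_nonneg_right h4 h6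
      _ = _ := by ring
  have h6 : ∑ n ∈ Ioc u (u + N), gg n ^ k ≤ 2 ^ k * (N * ∏ p ∈ P, (1 + (D : ℝ) / p / p) +
      ∏ p ∈ P, (1 + (D : ℝ) / p)) := by
    calc ∑ n ∈ Ioc u (u + N), gg n ^ k ≤ ∑ n ∈ Ioc u (u + N), 2 ^ k * ∑ s ∈ P.powerset,
        (if (∏ p ∈ s, p) ∣ n then ∏ p ∈ s, ((D : ℝ) / p) else 0) := sum_le_sum h3
      _ = 2 ^ k * ∑ s ∈ P.powerset, ∑ n ∈ Ioc u (u + N),
        (if (∏ p ∈ s, p) ∣ n then ∏ p ∈ s, ((D : ℝ) / p) else 0) := by
          rw [← mul_sum, sum_comm]
      _ ≤ 2 ^ k * ∑ s ∈ P.powerset, (N * ∏ p ∈ s, ((D : ℝ) / p / p) +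
          ∏ p ∈ s, ((D : ℝ) / p)) := mul_le_mul_of_nonneg_left (sum_le_sum h5) (by positivity)
      _ = _ := by rw [sum_add_distrib, ← mul_sum, prod_one_add, prod_one_add]
  have h7 : ∏ p ∈ P, (1 + (D : ℝ) / p / p) ≤
      Real.exp (2 ^ (k + 1) * ∑' n : ℕ, 1 / (n : ℝ) ^ 2) := by
    calc ∏ p ∈ P, (1 + (D : ℝ) / p / p) ≤ Real.exp (∑ p ∈ P, (D : ℝ) / p / p) := by
          rw [Real.exp_sum]
          apply Finset.prod_le_prod
          · intro p _; positivity
          · intro p _
            have := Real.add_one_le_exp ((D : ℝ) / p / p)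
            linarith
      _ ≤ _ := by
          apply Real.exp_le_exp.2
          have e : ∑ p ∈ P, (D : ℝ) / p / p = 2 ^ (k + 1) * ∑ p ∈ P, 1 / (p : ℝ) ^ 2 := by
            rw [mul_sum, hDr]
            apply sum_congr rfl
            intro p _
            rw [div_div, sq]
            ring
          rw [e]
          apply mul_le_mul_of_nonneg_left _ (by positivity)
          exact Summable.sum_le_tsum P (fun _ _ => by positivity)
            (Real.summable_one_div_nat_pow.2 (by norm_num))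
  have h8 : ∏ p ∈ P, (1 + (D : ℝ) / p) ≤ E2 * Real.log X := by rw [hP]; exact h2 X hX
  obtain ⟨E, hE⟩ : ∃ E : ℝ, E = Real.exp (2 ^ (k + 1) * ∑' n : ℕ, 1 / (n : ℝ) ^ 2) := ⟨_, rfl⟩
  rw [← hE] at h7 ⊢
  have hE1 : 1 ≤ E := by
    rw [hE]
    apply Real.one_le_exp
    apply mul_nonneg (by positivity)
    exact tsum_nonneg fun n => by positivity
  calc _ ≤ 2 ^ k * (N * ∏ p ∈ P, (1 + (D : ℝ) / p / p) + ∏ p ∈ P, (1 + (D : ℝ) / p)) := h6
    _ ≤ 2 ^ k * ((E + E2) * (N + Real.log X)) := by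
        apply mul_le_mul_of_nonneg_left _ (by positivity)
        have h9 : (N : ℝ) * ∏ p ∈ P, (1 + (D : ℝ) / p / p) ≤ N * E :=
          mul_le_mul_of_nonneg_left h7 (Nat.cast_nonneg _)
        have h10 : 0 ≤ E * Real.log X := mul_nonneg (by linarith) hlog
        have h11 : 0 ≤ E2 * (N : ℝ) := mul_nonneg (by linarith) (Nat.cast_nonneg _)
        nlinarith
    _ = _ := by ring

/-- the moments of `n / φ(n)` in short intervals -/
theorem gmomW : ∃ C : ℕ → ℝ, (∀ k, 1 ≤ C k) ∧ ∀ B : ℕ, ∃ X₀ : ℕ, ∀ X : ℕ, X₀ ≤ X → ∀ u N : ℕ,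
    ((u + N : ℕ) : ℝ) ≤ Real.log X ^ B → ∀ k : ℕ,
    ∑ n ∈ Ioc u (u + N), gg n ^ k ≤ C k * (N + Real.log X) := by
  choose C hC h using gmomW0
  refine ⟨C, hC, fun B => ?_⟩
  obtain ⟨X1, h1⟩ := sum_Ru (1 / 2) B (by norm_num)
  refine ⟨X1 + 3, fun X hX u N huN k => h k X (by omega) u N fun n hn => ?_⟩
  rw [mem_Ioc] at hn
  exact h1 X (by omega) n (by omega) (le_trans (by exact_mod_cast hn.2) huN)

/-- the squares of the integers of a window have bounded moments -/
theorem momSqW (b : ℝ) (hb : 0 < b) : ∃ C : ℕ → ℝ, ∀ B : ℕ, ∃ X₀ : ℕ, ∀ X : ℕ, X₀ ≤ X →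
    ∀ y N : ℕ, (N : ℝ) ≤ b * Real.log X → ((y + N : ℕ) : ℝ) ≤ Real.log X ^ B →
    ∀ K : ℕ, ∑ i ∈ Ioc y (y + N), ∑ j ∈ (Ioc y (y + N)).erase i,
      gg (Nat.dist i j * (i + j)) ^ K ≤ C K * Real.log X ^ 2 := by
  classical
  choose C1 hC1 hm1 using gmom
  obtain ⟨C2, hC2, hm2⟩ := gmomW
  refine ⟨fun K => (C1 (2 * K) * b + C2 (2 * K) * (2 * b + 1)) * b, fun B => ?_⟩
  obtain ⟨X1, hX1⟩ := hm2 (B + 1)
  have t1 : Tendsto (fun X : ℕ => Real.log (X : ℝ)) atTop atTop :=
    Real.tendsto_log_atTop.comp tendsto_natCast_atTop_atTop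
  obtain ⟨X2, hX2⟩ := eventually_atTop.1 (t1.eventually_ge_atTop 2)
  refine ⟨X1 + X2, fun X hX y N hN hyN K => ?_⟩
  have hL2 : 2 ≤ Real.log X := hX2 X (by omega)
  have hL : 0 ≤ Real.log X := by linarith
  have h2 : ∀ i ∈ Ioc y (y + N), ∑ j ∈ (Ioc y (y + N)).erase i,
      gg (Nat.dist i j * (i + j)) ^ K ≤ (C1 (2 * K) * b + C2 (2 * K) * (2 * b + 1)) *
        Real.log X := by
    intro i hi
    have hi' := mem_Ioc.1 hi
    calc ∑ j ∈ (Ioc y (y + N)).erase i, gg (Nat.dist i j * (i + j)) ^ K ≤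
          ∑ j ∈ (Ioc y (y + N)).erase i,
            (gg (Nat.dist i j) ^ (2 * K) + gg (i + j) ^ (2 * K)) / 2 := by
          apply sum_le_sum
          intro j hj
          rw [mem_erase, mem_Ioc] at hj
          have h2 : gg (Nat.dist i j * (i + j)) ≤ gg (Nat.dist i j) * gg (i + j) :=
            gg_mul_le (dist_pos' (Ne.symm hj.1)) (by omega)
          have h3 := pow_le_pow_left₀ (gg_nonneg _) h2 K
          rw [mul_pow] at h3
          have h4 : gg (Nat.dist i j) ^ (2 * K) = (gg (Nat.dist i j) ^ K) ^ 2 := by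
            rw [← pow_mul, mul_comm]
          have h5 : gg (i + j) ^ (2 * K) = (gg (i + j) ^ K) ^ 2 := by
            rw [← pow_mul, mul_comm]
          rw [h4, h5]
          nlinarith [sq_nonneg (gg (Nat.dist i j) ^ K - gg (i + j) ^ K)]
      _ = (∑ j ∈ (Ioc y (y + N)).erase i, gg (Nat.dist i j) ^ (2 * K) +
            ∑ j ∈ (Ioc y (y + N)).erase i, gg (i + j) ^ (2 * K)) / 2 := by
          rw [← sum_div, sum_add_distrib]
      _ ≤ (2 * (C1 (2 * K) * N) + C2 (2 * K) * (((2 * N : ℕ) : ℝ) + Real.log X)) / 2 := by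
          apply div_le_div_of_nonneg_right _ (by norm_num)
          apply add_le_add
          · have e1 : ∑ j ∈ (Ioc y (y + N)).erase i, gg (Nat.dist i j) ^ (2 * K) =
                ∑ j ∈ (Icc 1 N).erase (i - y), gg (Nat.dist (i - y) j) ^ (2 * K) := by
              apply sum_bij' (fun j _ => j - y) (fun j _ => j + y)
              · intro j hj
                rw [mem_erase, mem_Ioc] at hj
                rw [mem_erase, mem_Icc]
                exact ⟨by omega, by omega, by omega⟩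
              · intro j hj
                rw [mem_erase, mem_Icc] at hj
                rw [mem_erase, mem_Ioc]
                exact ⟨by omega, by omega, by omega⟩
              · intro j hj
                rw [mem_erase, mem_Ioc] at hj
                omega
              · intro j _
                omega
              · intro j hj
                rw [mem_erase, mem_Ioc] at hj
                congr 2
                unfold Nat.dist
                omega
            rw [e1]
            refine (sum_dist (fun n => gg n ^ (2 * K)) (fun n => pow_nonneg (gg_nonneg _) _)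
              (a := i - y) (N := N) (by rw [mem_Icc]; omega)).trans ?_
            exact mul_le_mul_of_nonneg_left (hm1 (2 * K) N) (by norm_num)
          · refine le_trans ?_ (hX1 X (by omega) (2 * y) (2 * N) ?_ (2 * K))
            · have h6 : ∑ j ∈ (Ioc y (y + N)).erase i, gg (i + j) ^ (2 * K) =
                  ∑ s ∈ ((Ioc y (y + N)).erase i).image (fun j => i + j), gg s ^ (2 * K) := by
                rw [sum_image]
                intro j _ j' _ h
                have h' : i + j = i + j' := h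
                omega
              rw [h6]
              apply sum_le_sum_of_subset_of_nonneg
              · intro s hs
                rw [mem_image] at hs
                obtain ⟨j, hj, rfl⟩ := hs
                rw [mem_erase, mem_Ioc] at hj
                rw [mem_Ioc]
                omega
              · intro _ _ _
                exact pow_nonneg (gg_nonneg _) _
            · have e2 : ((2 * y + 2 * N : ℕ) : ℝ) = 2 * ((y + N : ℕ) : ℝ) := by push_cast; ring
              rw [e2, pow_succ]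
              calc 2 * ((y + N : ℕ) : ℝ) ≤ 2 * Real.log X ^ B :=
                    mul_le_mul_of_nonneg_left hyN (by norm_num)
                _ ≤ Real.log X * Real.log X ^ B :=
                    mul_le_mul_of_nonneg_right hL2 (by positivity)
                _ = _ := mul_comm _ _
      _ ≤ _ := by
          have h8 := hC1 (2 * K)
          have h9 := hC2 (2 * K)
          push_cast
          have h10 : C1 (2 * K) * N ≤ C1 (2 * K) * (b * Real.log X) :=
            mul_le_mul_of_nonneg_left hN (by linarith)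
          have h11 : C2 (2 * K) * N ≤ C2 (2 * K) * (b * Real.log X) :=
            mul_le_mul_of_nonneg_left hN (by linarith)
          have h12 : 0 ≤ C2 (2 * K) * Real.log X := mul_nonneg (by linarith) hL
          have h13 : 0 ≤ C2 (2 * K) * (b * Real.log X) := mul_nonneg (by linarith) (by positivity)
          nlinarith
  calc ∑ i ∈ Ioc y (y + N), ∑ j ∈ (Ioc y (y + N)).erase i,
        gg (Nat.dist i j * (i + j)) ^ K ≤
        ∑ _i ∈ Ioc y (y + N), (C1 (2 * K) * b + C2 (2 * K) * (2 * b + 1)) * Real.log X :=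
        sum_le_sum h2
    _ = N * ((C1 (2 * K) * b + C2 (2 * K) * (2 * b + 1)) * Real.log X) := by
        rw [sum_const, Nat.card_Ioc, Nat.add_sub_cancel_left, nsmul_eq_mul]
    _ ≤ (b * Real.log X) * ((C1 (2 * K) * b + C2 (2 * K) * (2 * b + 1)) * Real.log X) := by
        apply mul_le_mul_of_nonneg_right hN
        have h8 := hC1 (2 * K)
        have h9 := hC2 (2 * K)
        apply mul_nonneg _ hL
        apply add_nonneg
        · apply mul_nonneg (by linarith) hb.le
        · apply mul_nonneg (by linarith) (by linarith)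
    _ = _ := by ring

end Pool.Agent.H533.GE
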