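import Pool.Agent.H533.GE.Sqr1

/-!
Squares: exact patterns of the numbers `N - k ^ 2`.
-/

set_option autoImplicit false

open Finset Filter Topology

namespace Pool.Agent.H533.GE

open Pool.Agent.H533.QM
open Pool.Agent.H533.QS
open Pool.Agent.H533.QA
open Pool.Agent.W218.MU (w loc SL)

open Classical in
/-- **exact tuples of every size**, in the initial segments for an arbitrary order -/
theorem part3G (C : ℕ → ℝ) (Λ ρ : ℝ) (hΛ : 0 < Λ) (hρ : 0 < ρ) (l : ℕ) (hl : 1 ≤ l) :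
    ∃ κ : ℝ, 0 < κ ∧ ∀ B : ℕ, ∃ x₀ : ℕ, ∀ x : ℕ, x₀ ≤ x → ∀ R J : Finset ℕ, R ⊆ J →
    (∀ a ∈ J, 1 ≤ a ∧ (a : ℝ) ≤ Real.log x ^ B) → MomJ C Λ (Real.log x) J →
    ρ * Real.log x ≤ R.card → ∀ f : ℕ → ℕ, (∀ a ∈ J, 1 ≤ f a) → Set.InjOn f (J : Set ℕ) → ∃ N : ℕ,
    κ * Real.log x ^ l ≤ ((GS x l κ (J.filter (fun a => f a ≤ N)) R).card : ℝ) := by
  obtain ⟨c, hc, hbase⟩ := baseS l C Λ ρ hΛ hρ
  obtain ⟨C2, hC2, x1, h1⟩ := upsumS 2 (by norm_num) C Λ hΛ
  obtain ⟨h, hh⟩ := exists_nat_ge (16 * C2 * Λ ^ 2 / c ^ 2)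
  have hhr : (0 : ℝ) < h := lt_of_lt_of_le (by positivity) hh
  have hh1 : 1 ≤ h := by exact_mod_cast hhr
  obtain ⟨κ, hκ, x2, h2⟩ := coreSM l C Λ (c / (2 * h) / 2) hΛ (by positivity)
  have t1 : Tendsto (fun X : ℕ => Real.log (X : ℝ)) atTop atTop :=
    Real.tendsto_log_atTop.comp tendsto_natCast_atTop_atTop
  obtain ⟨x3, hx3⟩ := eventually_atTop.1 (t1.eventually_ge_atTop (h / Λ + 1))
  refine ⟨κ, hκ, fun B => ?_⟩
  obtain ⟨x0, h0⟩ := hbase B
  refine ⟨x0 + x1 + x2 + x3 + 3, fun x hx R J hR hJB hMJ hRc f hf1 hfi => ?_⟩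
  have hx0 : (0 : ℝ) < x := by exact_mod_cast (by omega : 0 < x)
  have hL : 0 < Real.log x := Real.log_pos (by exact_mod_cast (by omega : 1 < x))
  have hLh' := hx3 x (by omega)
  have hLh : h / Λ ≤ Real.log x := by linarith
  -- the scales
  obtain ⟨s, hs⟩ : ∃ s, s = J.card / h + 1 := ⟨_, rfl⟩
  have hsJ : J.card ≤ h * s := by
    rw [hs]
    have h3 := Nat.div_add_mod J.card h
    have h4 := Nat.mod_lt J.card (show 0 < h by omega)
    rw [Nat.mul_add, Nat.mul_one]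
    omega
  have hsr : (s : ℝ) ≤ 2 * Λ * Real.log x / h := by
    have h3 : ((J.card / h : ℕ) : ℝ) ≤ (J.card : ℝ) / h := Nat.cast_div_le
    have h4 : (J.card : ℝ) / h ≤ Λ * Real.log x / h := by
      apply div_le_div_of_nonneg_right hMJ.1 hhr.le
    have h6 : 1 ≤ Λ * Real.log x / h := by
      rw [le_div_iff₀ hhr, one_mul]
      have h8 := (div_le_iff₀ hΛ).1 hLh
      linarith
    have h7 : 2 * Λ * Real.log x / h = Λ * Real.log x / h + Λ * Real.log x / h := by ring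
    rw [h7, hs]
    push_cast
    linarith
  obtain ⟨Nj, hNmono, hNj0', hNjh', hblock'⟩ := cutJ (J.image f) (fun a ha => by
    rw [mem_image] at ha
    obtain ⟨a', ha', rfl⟩ := ha
    exact hf1 a' ha') h s (by rw [card_image_of_injOn hfi]; exact hsJ)
  have hNj0 : ∀ a ∈ J, Nj 0 < f a := fun a ha => hNj0' _ (mem_image_of_mem f ha)
  have hNjh : ∀ a ∈ J, f a ≤ Nj h := fun a ha => hNjh' _ (mem_image_of_mem f ha)
  have hblock : ∀ j, (J.filter (fun a => Nj j < f a ∧ f a ≤ Nj (j + 1))).card ≤ s := by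
    intro j
    refine le_trans (le_of_eq ?_) (hblock' j)
    rw [filter_image, card_image_of_injOn]
    intro a ha a' ha' e
    exact hfi (mem_filter.1 ha).1 (mem_filter.1 ha').1 e
  obtain ⟨Jj, hJj⟩ : ∃ Jj : ℕ → Finset ℕ, ∀ j, Jj j = J.filter (fun a => f a ≤ Nj j) :=
    ⟨_, fun _ => rfl⟩
  have hJh : Jj h = J := by
    rw [hJj, filter_true_of_mem]
    exact hNjh
  have hJ0 : Jj 0 = ∅ := by
    rw [hJj, filter_eq_empty_iff]
    intro a ha
    exact not_le.2 (hNj0 a ha)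
  have hIsub : ∀ j j', j ≤ j' → Jj j ⊆ Jj j' := by
    intro j j' hjj a ha
    rw [hJj, mem_filter] at ha ⊢
    exact ⟨ha.1, ha.2.trans (hNmono _ _ hjj)⟩
  have hMJj : ∀ j, MomJ C Λ (Real.log x) (Jj j) := fun j =>
    MomJ_sub (by rw [hJj]; exact filter_subset _ _) hMJ
  have hb0 := h0 x (by omega) R J hR hJB hMJ hRc
  suffices hsuf : ∃ j, κ * Real.log x ^ l ≤ ((GS x l κ (Jj j) R).card : ℝ) by
    obtain ⟨j, hj⟩ := hsuf
    rw [hJj] at hj
    exact ⟨Nj j, hj⟩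
  -- the close pairs
  obtain ⟨F, hF⟩ : ∃ F, F = (range h).biUnion
    (fun j => (J.filter (fun a => Nj j < f a ∧ f a ≤ Nj (j + 1))).powersetCard 2) := ⟨_, rfl⟩
  have hFs : F ⊆ J.powersetCard 2 := by
    intro T hT
    rw [hF, mem_biUnion] at hT
    obtain ⟨j, hj, hT⟩ := hT
    rw [mem_powersetCard] at hT ⊢
    exact ⟨fun r hr => (mem_filter.1 (hT.1 hr)).1, hT.2⟩
  have hFc : (F.card : ℝ) ≤ 4 * Λ ^ 2 * Real.log x ^ 2 / h := by
    calc (F.card : ℝ) ≤ ∑ j ∈ range h,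
          (((J.filter (fun a => Nj j < f a ∧ f a ≤ Nj (j + 1))).powersetCard 2).card : ℝ) := by
          rw [hF]
          exact_mod_cast card_biUnion_le
      _ ≤ ∑ j ∈ range h, (2 * Λ * Real.log x / h) ^ 2 := by
          apply sum_le_sum
          intro j _
          rw [card_powersetCard]
          calc (((J.filter (fun a => Nj j < f a ∧ f a ≤ Nj (j + 1))).card.choose 2 : ℕ) : ℝ) ≤
                (((J.filter (fun a => Nj j < f a ∧ f a ≤ Nj (j + 1))).card : ℕ) : ℝ) ^ 2 := by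
                exact_mod_cast Nat.choose_le_pow _ _
            _ ≤ (s : ℝ) ^ 2 := pow_le_pow_left₀ (Nat.cast_nonneg _) (by exact_mod_cast hblock j) 2
            _ ≤ _ := pow_le_pow_left₀ (Nat.cast_nonneg _) hsr 2
      _ = _ := by
          rw [sum_const, card_range, nsmul_eq_mul]
          field_simp
          ring
  obtain ⟨G, hG⟩ : ∃ G, G = (Ico x (2 * x)).filter (fun n => l ≤ (TJ J n).card ∧
    TJ J n ⊆ R) := ⟨_, rfl⟩
  rw [← hG] at hb0
  have hbad : ((G.filter (fun n => ∃ T ∈ F, T ⊆ TJ J n)).card : ℝ) ≤ c / 2 * x := by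
    have h3 := hitS_le x J F (G.filter (fun n => ∃ T ∈ F, T ⊆ TJ J n)) (by
      rw [hG]; exact (filter_subset _ _).trans (filter_subset _ _))
      (fun n hn => (mem_filter.1 hn).2)
    refine h3.trans ?_
    have h4 := h1 x (by omega) J hMJ F hFs
    have h5 : (∑ T ∈ F, (NS x T : ℝ)) ^ 2 ≤ (c / 2 * x) ^ 2 := by
      refine h4.trans ?_
      calc C2 * (F.card * Real.log x ^ 2) * (x / Real.log x ^ 2) ^ 2 ≤
            C2 * ((4 * Λ ^ 2 * Real.log x ^ 2 / h) * Real.log x ^ 2) *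
              (x / Real.log x ^ 2) ^ 2 := by gcongr
        _ = (x : ℝ) ^ 2 * (4 * C2 * Λ ^ 2 / h) := by field_simp
        _ ≤ (x : ℝ) ^ 2 * (c / 2) ^ 2 := by
            apply mul_le_mul_of_nonneg_left _ (by positivity)
            rw [div_le_iff₀ hhr]
            rw [div_le_iff₀ (by positivity)] at hh
            nlinarith
        _ = _ := by ring
    exact (abs_le_of_sq_le_sq' h5 (by positivity)).2
  have hsplit := card_filter_add_card_filter_not (s := G) (fun n => ∃ T ∈ F, T ⊆ TJ J n)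
  have hsplit' : ((G.filter (fun n => ∃ T ∈ F, T ⊆ TJ J n)).card : ℝ) +
      (G.filter (fun n => ¬ ∃ T ∈ F, T ⊆ TJ J n)).card = G.card := by
    exact_mod_cast hsplit
  -- the intermediate value
  have hiv : ∀ n ∈ G.filter (fun n => ¬ ∃ T ∈ F, T ⊆ TJ J n), ∃ j ∈ Icc 1 h,
      (TJ (Jj j) n).card = l := by
    intro n hn
    rw [mem_filter, hG, mem_filter] at hn
    obtain ⟨⟨hq1, hq2, hq3⟩, hq4⟩ := hn
    have hT0 : (TJ (Jj 0) n).card = 0 := by rw [hJ0]; unfold TJ; simp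
    obtain ⟨j, hj, e⟩ := ivt (fun j => (TJ (Jj j) n).card) h l hT0 (by
      intro j hj
      by_contra hcon
      rw [not_le] at hcon
      have hsub : TJ (Jj j) n ⊆ TJ (Jj (j + 1)) n := TJ_sub (hIsub _ _ (by omega))
      have h3 : 2 ≤ (TJ (Jj (j + 1)) n \ TJ (Jj j) n).card := by
        rw [card_sdiff_of_subset hsub]
        omega
      obtain ⟨T, hT1, hT2⟩ := exists_subset_card_eq h3
      apply hq4
      refine ⟨T, ?_, fun r hr => ?_⟩
      · rw [hF, mem_biUnion]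
        refine ⟨j, mem_range.2 hj, ?_⟩
        rw [mem_powersetCard]
        refine ⟨fun r hr => ?_, hT2⟩
        have h4 := hT1 hr
        rw [Finset.mem_sdiff, mem_TJ, mem_TJ, hJj, hJj, mem_filter, mem_filter] at h4
        rw [mem_filter]
        obtain ⟨⟨⟨a1, a2⟩, a3⟩, a4⟩ := h4
        refine ⟨a1, ?_, a2⟩
        by_contra h5
        exact a4 ⟨⟨a1, by omega⟩, a3⟩
      · have h4 := (Finset.mem_sdiff.1 (hT1 hr)).1
        have h5 := TJ_sub (hIsub (j + 1) h (by omega)) h4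
        rwa [hJh] at h5) (by
      show l ≤ (TJ (Jj h) n).card
      rw [hJh]
      exact hq2)
    have e' : (TJ (Jj j) n).card = l := e
    refine ⟨j, ?_, e'⟩
    rw [mem_Icc]
    refine ⟨?_, hj⟩
    by_contra h3
    have h4 : j = 0 := by omega
    rw [h4, hT0] at e'
    omega
  by_contra hcon
  push Not at hcon
  have hlt : ∀ j ∈ Icc 1 h, ((G.filter (fun n => (TJ (Jj j) n).card = l)).card : ℝ) <
      c / (2 * h) / 2 * x := by
    intro j hj
    rw [mem_Icc] at hj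
    have h3 := hcon j
    by_contra h4
    rw [not_lt] at h4
    refine absurd (h2 l hl le_rfl x (by omega) (Jj j) (hMJj j) R (h4.trans ?_)) (not_le.2 h3)
    rw [Nat.cast_le]
    apply card_le_card
    intro n hn
    rw [mem_filter, hG, mem_filter] at hn
    rw [mem_filter]
    refine ⟨hn.1.1, hn.2, (TJ_sub ?_).trans hn.1.2.2⟩
    rw [hJj]
    exact filter_subset _ _
  have hcov : G.filter (fun n => ¬ ∃ T ∈ F, T ⊆ TJ J n) ⊆
      (Icc 1 h).biUnion (fun j => G.filter (fun n => (TJ (Jj j) n).card = l)) := by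
    intro n hn
    obtain ⟨j, hj, e⟩ := hiv n hn
    rw [mem_biUnion]
    exact ⟨j, hj, mem_filter.2 ⟨(mem_filter.1 hn).1, e⟩⟩
  have hc1 : ((G.filter (fun n => ¬ ∃ T ∈ F, T ⊆ TJ J n)).card : ℝ) ≤ c / 4 * x := by
    have h3 := (card_le_card hcov).trans card_biUnion_le
    calc ((G.filter (fun n => ¬ ∃ T ∈ F, T ⊆ TJ J n)).card : ℝ) ≤
          ∑ j ∈ Icc 1 h, ((G.filter (fun n => (TJ (Jj j) n).card = l)).card : ℝ) := by
          exact_mod_cast h3
      _ ≤ ∑ _j ∈ Icc 1 h, c / (2 * h) / 2 * (x : ℝ) := sum_le_sum fun j hj => (hlt j hj).le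
      _ = _ := by
          rw [sum_const, Nat.card_Icc, Nat.add_sub_cancel, nsmul_eq_mul]
          field_simp
          ring
  have hpos : 0 < c / 4 * (x : ℝ) := by positivity
  linarith


/-- bounded moments for the squares -/
def MomS (C : ℕ → ℝ) (Λ L : ℝ) (J : Finset ℕ) : Prop :=
  (J.card : ℝ) ≤ Λ * L ∧ ∀ K : ℕ, ∑ q ∈ J.offDiag, gg (Nat.dist (q.1 ^ 2) (q.2 ^ 2)) ^ K ≤ C K * L ^ 2

theorem sq_inj : ∀ i j : ℕ, i ^ 2 = j ^ 2 → i = j := fun i j h =>
  Nat.pow_left_injective (by norm_num : (2 : ℕ) ≠ 0) h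

theorem pos_inj {J : Finset ℕ} {M : ℕ} (hM : ∀ k ∈ J, k ^ 2 < M) :
    Set.InjOn (fun k : ℕ => M - k ^ 2) (J : Set ℕ) := by
  intro k hk j hj h
  have h1 := hM k hk
  have h2 := hM j hj
  have h' : M - k ^ 2 = M - j ^ 2 := h
  apply sq_inj
  omega

theorem momS_pos {C : ℕ → ℝ} {Λ L : ℝ} {J : Finset ℕ} {M : ℕ} (hJ : MomS C Λ L J)
    (hM : ∀ k ∈ J, k ^ 2 < M) : MomJ C Λ L (J.image (fun k => M - k ^ 2)) := by
  refine ⟨le_trans (by exact_mod_cast card_image_le) hJ.1, fun K => ?_⟩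
  refine le_trans (le_of_eq ?_) (hJ.2 K)
  symm
  apply sum_bij (fun (q : ℕ × ℕ) _ => (M - q.1 ^ 2, M - q.2 ^ 2))
  · intro q hq
    rw [mem_offDiag] at hq
    rw [mem_offDiag]
    exact ⟨mem_image_of_mem _ hq.1, mem_image_of_mem _ hq.2.1, fun h =>
      hq.2.2 (pos_inj hM hq.1 hq.2.1 h)⟩
  · rintro ⟨i, j⟩ h1 ⟨i', j'⟩ h2 h
    rw [mem_offDiag] at h1 h2
    have e1 := pos_inj hM h1.1 h2.1 (Prod.mk.inj h).1
    have e2 := pos_inj hM h1.2.1 h2.2.1 (Prod.mk.inj h).2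
    exact Prod.ext e1 e2
  · rintro ⟨u, v⟩ hq
    rw [mem_offDiag, mem_image, mem_image] at hq
    obtain ⟨⟨i, hi, e1⟩, ⟨j, hj, e2⟩, hne⟩ := hq
    refine ⟨(i, j), ?_, Prod.ext e1 e2⟩
    rw [mem_offDiag]
    refine ⟨hi, hj, fun h => hne ?_⟩
    have h' : i = j := h
    show u = v
    have e1' : M - i ^ 2 = u := e1
    have e2' : M - j ^ 2 = v := e2
    rw [← e1', ← e2', h']
  · intro q hq
    rw [mem_offDiag] at hq
    have h1 := hM q.1 hq.1
    have h2 := hM q.2 hq.2.1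
    congr 2
    unfold Nat.dist
    omega

/-- the number of the `N` at which the `N - k ^ 2` are prime exactly for the `k ∈ T` -/
noncomputable def EN (x : ℕ) (J T : Finset ℕ) : ℕ := by
  classical exact ((Ico x (2 * x)).filter
    (fun N => ∀ k ∈ J, ((∃ p : ℕ, p.Prime ∧ p + k ^ 2 = N) ↔ k ∈ T))).card

theorem ES_le_EN {x M : ℕ} {J T : Finset ℕ} (hM : ∀ k ∈ J, k ^ 2 < M) (hT : T ⊆ J) :
    ES x (J.image (fun k => M - k ^ 2)) (T.image (fun k => M - k ^ 2)) ≤ EN x J T + M := by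
  classical
  unfold ES EN
  obtain ⟨G, hG⟩ : ∃ G, G = (Ico x (2 * x)).filter (fun n =>
    TJ (J.image (fun k => M - k ^ 2)) n = T.image (fun k => M - k ^ 2)) := ⟨_, rfl⟩
  have h1 : G.image (fun n => n + M) ⊆ ((Ico x (2 * x)).filter
      (fun N => ∀ k ∈ J, ((∃ p : ℕ, p.Prime ∧ p + k ^ 2 = N) ↔ k ∈ T))) ∪
      Ico (2 * x) (2 * x + M) := by
    intro a ha
    rw [mem_image] at ha
    obtain ⟨n, hn, rfl⟩ := ha
    rw [hG, mem_filter, mem_Ico] at hn
    rw [mem_union, mem_filter, mem_Ico, mem_Ico]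
    rcases Nat.lt_or_ge (n + M) (2 * x) with h8 | h8
    · left
      refine ⟨⟨by omega, h8⟩, fun k hk => ?_⟩
      have hkM := hM k hk
      have e1 : (∃ p : ℕ, p.Prime ∧ p + k ^ 2 = n + M) ↔ (n + (M - k ^ 2)).Prime := by
        constructor
        · rintro ⟨p, hp, e⟩
          have : n + (M - k ^ 2) = p := by omega
          rw [this]
          exact hp
        · intro hp
          exact ⟨_, hp, by omega⟩
      rw [e1]
      have e2 : (n + (M - k ^ 2)).Prime ↔ M - k ^ 2 ∈ TJ (J.image (fun k => M - k ^ 2)) n := by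
        rw [mem_TJ]
        exact ⟨fun h => ⟨mem_image_of_mem _ hk, h⟩, fun h => h.2⟩
      rw [e2, hn.2, mem_image]
      constructor
      · rintro ⟨j, hj, e⟩
        have := pos_inj hM (hT hj) hk e
        rwa [← this]
      · intro hkT
        exact ⟨k, hkT, rfl⟩
    · right
      omega
  have h2 := card_le_card h1
  rw [card_image_of_injective _ (fun _ _ h => Nat.add_right_cancel h), hG] at h2
  refine h2.trans ((card_union_le _ _).trans ?_)
  rw [Nat.card_Ico]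
  omega

/-- the singular series of the squares -/
noncomputable def SSq (T : Finset ℕ) : ℝ := ∏' p : Nat.Primes,
    (1 - (((T.image (fun k => k ^ 2 % (p : ℕ))).card : ℕ) : ℝ) / ((p : ℕ) : ℝ)) /
      (1 - 1 / ((p : ℕ) : ℝ)) ^ T.card

theorem SSq_eq {T : Finset ℕ} {M : ℕ} (hM : ∀ k ∈ T, k ^ 2 < M) :
    SS (T.image (fun k => M - k ^ 2)) = SSq T := by
  classical
  rw [SS_eq]
  unfold SSq
  apply tprod_congr
  intro p
  have hp : 0 < (p : ℕ) := p.2.pos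
  have e1 : (T.image (fun k => M - k ^ 2)).card = T.card := card_image_of_injOn (pos_inj hM)
  have e2 : ((T.image (fun k => M - k ^ 2)).image (fun a => a % (p : ℕ))).card =
      (T.image (fun k => k ^ 2 % (p : ℕ))).card := by
    rw [image_image]
    have e3 : T.image ((fun a => a % (p : ℕ)) ∘ fun k => M - k ^ 2) =
        (T.image (fun k => k ^ 2 % (p : ℕ))).image (fun c => (M + ((p : ℕ) - c)) % (p : ℕ)) := by
      rw [image_image]
      apply image_congr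
      intro k hk
      have h1 := hM k hk
      have h2 := Nat.mod_lt (k ^ 2) hp
      show (M - k ^ 2) % (p : ℕ) = (M + ((p : ℕ) - k ^ 2 % (p : ℕ))) % (p : ℕ)
      have h3 : (k ^ 2 + (M - k ^ 2)) ≡ (k ^ 2 + (M + ((p : ℕ) - k ^ 2 % (p : ℕ)))) [MOD (p : ℕ)] := by
        have h4 : k ^ 2 + (M - k ^ 2) = M := by omega
        have h5 : k ^ 2 + (M + ((p : ℕ) - k ^ 2 % (p : ℕ))) ≡
            k ^ 2 % (p : ℕ) + (M + ((p : ℕ) - k ^ 2 % (p : ℕ))) [MOD (p : ℕ)] :=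
          (Nat.mod_modEq _ _).symm.add_right _
        have h6 : k ^ 2 % (p : ℕ) + (M + ((p : ℕ) - k ^ 2 % (p : ℕ))) = M + p := by omega
        rw [h6] at h5
        rw [h4]
        refine Nat.ModEq.trans ?_ h5.symm
        exact (Nat.add_modEq_right).symm
      exact Nat.ModEq.add_left_cancel' _ h3
    rw [e3]
    apply card_image_of_injOn
    intro c hc c' hc' h
    rw [mem_coe, mem_image] at hc hc'
    obtain ⟨k, _, rfl⟩ := hc
    obtain ⟨j, _, rfl⟩ := hc'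
    have h1 := Nat.mod_lt (k ^ 2) hp
    have h2 := Nat.mod_lt (j ^ 2) hp
    have h3 : (M + ((p : ℕ) - k ^ 2 % (p : ℕ))) ≡ (M + ((p : ℕ) - j ^ 2 % (p : ℕ))) [MOD (p : ℕ)] := h
    have h4 := Nat.ModEq.add_left_cancel' M h3
    have h5 : k ^ 2 % (p : ℕ) + j ^ 2 % (p : ℕ) + ((p : ℕ) - k ^ 2 % (p : ℕ)) ≡
        k ^ 2 % (p : ℕ) + j ^ 2 % (p : ℕ) + ((p : ℕ) - j ^ 2 % (p : ℕ)) [MOD (p : ℕ)] :=
      h4.add_left _
    have h6 : k ^ 2 % (p : ℕ) + j ^ 2 % (p : ℕ) + ((p : ℕ) - k ^ 2 % (p : ℕ)) =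
        j ^ 2 % (p : ℕ) + p := by omega
    have h7 : k ^ 2 % (p : ℕ) + j ^ 2 % (p : ℕ) + ((p : ℕ) - j ^ 2 % (p : ℕ)) =
        k ^ 2 % (p : ℕ) + p := by omega
    rw [h6, h7] at h5
    have h8 := Nat.ModEq.add_right_cancel' _ h5
    have h9 : j ^ 2 % (p : ℕ) % (p : ℕ) = k ^ 2 % (p : ℕ) % (p : ℕ) := h8
    rw [Nat.mod_mod, Nat.mod_mod] at h9
    exact h9.symm
  rw [e1, e2]

open Classical in
/-- the good sets of squares -/
noncomputable def GN (x l : ℕ) (κ : ℝ) (J R : Finset ℕ) : Finset (Finset ℕ) :=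
  ((R ∩ J).powersetCard l).filter (fun T =>
      κ * max 1 (SSq T) * (x / Real.log x ^ l) ≤ (EN x J T : ℝ))

theorem GS_le_GN {x l M : ℕ} {κ : ℝ} {J R : Finset ℕ} (hκ : 0 < κ) (hx : 0 ≤ Real.log x)
    (hM : ∀ k ∈ J, k ^ 2 < M) (hRM : ∀ k ∈ R, k ^ 2 < M)
    (hMx : (M : ℝ) ≤ κ / 2 * (x / Real.log x ^ l)) :
    (GS x l κ (J.image (fun k => M - k ^ 2)) (R.image (fun k => M - k ^ 2))).card ≤
      (GN x l (κ / 2) J R).card := by
  classical
  have h1 : GS x l κ (J.image (fun k => M - k ^ 2)) (R.image (fun k => M - k ^ 2)) ⊆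
      (GN x l (κ / 2) J R).image (fun T => T.image (fun k => M - k ^ 2)) := by
    intro T' hT'
    unfold GS at hT'
    rw [mem_filter, mem_powersetCard] at hT'
    obtain ⟨⟨g1, g2⟩, g3⟩ := hT'
    obtain ⟨T, hT⟩ : ∃ T, T = (R ∩ J).filter (fun k => M - k ^ 2 ∈ T') := ⟨_, rfl⟩
    have hTJ : T ⊆ J := by
      intro k hk
      rw [hT, mem_filter, mem_inter] at hk
      exact hk.1.2
    have hTM : ∀ k ∈ T, k ^ 2 < M := fun k hk => hM k (hTJ hk)
    have hTT : T.image (fun k => M - k ^ 2) = T' := by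
      ext a
      rw [mem_image]
      constructor
      · rintro ⟨k, hk, rfl⟩
        rw [hT, mem_filter] at hk
        exact hk.2
      · intro ha
        have h2 := g1 ha
        rw [mem_filter, mem_image, mem_image] at h2
        obtain ⟨⟨k, hk, e⟩, ⟨j, hj, e'⟩⟩ := h2
        have hkj : k = j := by
          have a1 := hRM k hk
          have a2 := hM j hj
          apply sq_inj
          have e1 : M - k ^ 2 = a := e
          have e2 : M - j ^ 2 = a := e'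
          omega
        refine ⟨k, ?_, e⟩
        rw [hT, mem_filter, mem_inter]
        refine ⟨⟨hk, by rw [hkj]; exact hj⟩, ?_⟩
        have e1 : M - k ^ 2 = a := e
        rw [e1]
        exact ha
    rw [mem_image]
    refine ⟨T, ?_, hTT⟩
    unfold GN
    rw [mem_filter, mem_powersetCard]
    refine ⟨⟨?_, ?_⟩, ?_⟩
    · rw [hT]; exact filter_subset _ _
    · rw [← g2, ← hTT, card_image_of_injOn (pos_inj hTM)]
    · rw [← hTT, SSq_eq hTM] at g3
      have h3 := ES_le_EN (x := x) hM hTJ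
      have h4 : (ES x (J.image (fun k => M - k ^ 2)) (T.image (fun k => M - k ^ 2)) : ℝ) ≤
          EN x J T + M := by exact_mod_cast h3
      have h5 : (1 : ℝ) ≤ max 1 (SSq T) := le_max_left _ _
      have h6 : (0 : ℝ) ≤ x / Real.log x ^ l := by positivity
      have h7 : κ / 2 * (x / Real.log x ^ l) ≤ κ / 2 * max 1 (SSq T) * (x / Real.log x ^ l) := by
        apply mul_le_mul_of_nonneg_right _ h6
        nlinarith
      have h8 : κ * max 1 (SSq T) * (x / Real.log x ^ l) =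
          κ / 2 * max 1 (SSq T) * (x / Real.log x ^ l) +
          κ / 2 * max 1 (SSq T) * (x / Real.log x ^ l) := by ring
      linarith
  exact (card_le_card h1).trans card_image_le

/-- the choice of `M` -/
theorem choose_M (κ : ℝ) (hκ : 0 < κ) (B Mx : ℕ) : ∃ x₀ : ℕ, ∀ x : ℕ, x₀ ≤ x →
    ∃ M : ℕ, 1 ≤ Real.log x ∧ (M : ℝ) ≤ Real.log x ^ (2 * B + 1) ∧
    (∀ k : ℕ, (k : ℝ) ≤ Real.log x ^ B → k ^ 2 < M) ∧
    ∀ l : ℕ, l ≤ Mx → (M : ℝ) ≤ κ / 2 * (x / Real.log x ^ l) := by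
  have t1 : Tendsto (fun X : ℕ => Real.log (X : ℝ)) atTop atTop :=
    Real.tendsto_log_atTop.comp tendsto_natCast_atTop_atTop
  obtain ⟨x1, h1⟩ := eventually_atTop.1 (t1.eventually_ge_atTop 2)
  obtain ⟨x2, h2⟩ := Pool.Agent.H20R2.EQI.ev_large (2 / κ) (2 * B + 1 + Mx) 1 one_pos
  refine ⟨x1 + x2 + 1, fun x hx => ?_⟩
  have hL := h1 x (by omega)
  have hL1 : 1 ≤ Real.log x := by linarith
  have h3 := h2 x (by omega)
  rw [Real.rpow_one] at h3
  have hx0 : (0 : ℝ) < x := by exact_mod_cast (by omega : 0 < x)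
  have hpow : (1 : ℝ) ≤ Real.log x ^ (2 * B) := one_le_pow₀ hL1
  have hMle : ((⌊Real.log x ^ (2 * B)⌋₊ + 1 : ℕ) : ℝ) ≤ Real.log x ^ (2 * B + 1) := by
    push_cast
    have h4 := Nat.floor_le (show (0 : ℝ) ≤ Real.log x ^ (2 * B) by positivity)
    rw [pow_succ]
    nlinarith
  refine ⟨⌊Real.log x ^ (2 * B)⌋₊ + 1, hL1, hMle, fun k hk => ?_, fun l hl => ?_⟩
  · rw [Nat.lt_succ_iff]
    apply Nat.le_floor
    push_cast
    rw [mul_comm 2 B, pow_mul]
    exact pow_le_pow_left₀ (Nat.cast_nonneg _) hk 2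
  · refine hMle.trans ?_
    have hl0 : (0 : ℝ) < Real.log x ^ l := by positivity
    rw [mul_div_assoc', le_div_iff₀ hl0, ← pow_add]
    calc Real.log x ^ (2 * B + 1 + l) ≤ Real.log x ^ (2 * B + 1 + Mx) :=
          pow_le_pow_right₀ hL1 (by omega)
      _ = κ / 2 * (2 / κ * Real.log x ^ (2 * B + 1 + Mx)) := by field_simp
      _ ≤ κ / 2 * x := mul_le_mul_of_nonneg_left h3 (by positivity)

/-- **exact patterns of a bounded size** -/
theorem sqr2 (C : ℕ → ℝ) (Λ ρ : ℝ) (hΛ : 0 < Λ) (hρ : 0 < ρ) (m : ℕ) (hm : 1 ≤ m) :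
    ∃ M : ℕ, ∃ κ : ℝ, 0 < κ ∧ ∀ B : ℕ, ∃ x₀ : ℕ, ∀ x : ℕ, x₀ ≤ x → ∀ R J : Finset ℕ, R ⊆ J →
    (∀ k ∈ J, 1 ≤ k ∧ (k : ℝ) ≤ Real.log x ^ B) → MomS C Λ (Real.log x) J →
    ρ * Real.log x ≤ R.card → ∃ l : ℕ, m ≤ l ∧ l ≤ M ∧
    κ * Real.log x ^ l ≤ ((GN x l κ J R).card : ℝ) := by
  classical
  obtain ⟨Mx, κ, hκ, H⟩ := part2S C Λ ρ hΛ hρ m hm
  refine ⟨Mx, κ / 2, by positivity, fun B => ?_⟩
  obtain ⟨x1, h1⟩ := H (2 * B + 1)
  obtain ⟨x2, h2⟩ := choose_M κ hκ B Mx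
  refine ⟨x1 + x2, fun x hx R J hRJ hJ hMom hR => ?_⟩
  obtain ⟨M, hL1, hMle, hkM, hMx⟩ := h2 x (by omega)
  have hJM : ∀ k ∈ J, k ^ 2 < M := fun k hk => hkM k (hJ k hk).2
  have hRM : ∀ k ∈ R, k ^ 2 < M := fun k hk => hJM k (hRJ hk)
  obtain ⟨l, hl1, hl2, h3⟩ := h1 x (by omega) (R.image (fun k => M - k ^ 2))
    (J.image (fun k => M - k ^ 2)) (image_subset_image hRJ) (by
      intro a ha
      rw [mem_image] at ha
      obtain ⟨k, hk, rfl⟩ := ha
      have := hJM k hk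
      refine ⟨by omega, le_trans ?_ hMle⟩
      exact_mod_cast Nat.sub_le _ _) (momS_pos hMom hJM) (by
      rw [card_image_of_injOn (pos_inj hRM)]
      exact hR)
  refine ⟨l, hl1, hl2, ?_⟩
  have h4 := GS_le_GN hκ (by linarith) hJM hRM (hMx l hl2)
  have h5 : (0 : ℝ) ≤ Real.log x ^ l := by positivity
  calc κ / 2 * Real.log x ^ l ≤ κ * Real.log x ^ l :=
        mul_le_mul_of_nonneg_right (by linarith) h5
    _ ≤ _ := h3
    _ ≤ _ := by exact_mod_cast h4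

/-- **exact patterns of every size** -/
theorem sqr3 (C : ℕ → ℝ) (Λ ρ : ℝ) (hΛ : 0 < Λ) (hρ : 0 < ρ) (l : ℕ) (hl : 1 ≤ l) :
    ∃ κ : ℝ, 0 < κ ∧ ∀ B : ℕ, ∃ x₀ : ℕ, ∀ x : ℕ, x₀ ≤ x → ∀ R J : Finset ℕ, R ⊆ J →
    (∀ k ∈ J, 1 ≤ k ∧ (k : ℝ) ≤ Real.log x ^ B) → MomS C Λ (Real.log x) J →
    ρ * Real.log x ≤ R.card → ∃ t : ℕ,
    κ * Real.log x ^ l ≤ ((GN x l κ (J.filter (fun k => k ≤ t)) R).card : ℝ) := by
  classical
  obtain ⟨κ, hκ, H⟩ := part3G C Λ ρ hΛ hρ l hl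
  refine ⟨κ / 2, by positivity, fun B => ?_⟩
  obtain ⟨x1, h1⟩ := H (2 * B + 1)
  obtain ⟨x2, h2⟩ := choose_M κ hκ B l
  refine ⟨x1 + x2, fun x hx R J hRJ hJ hMom hR => ?_⟩
  obtain ⟨M, hL1, hMle, hkM, hMx⟩ := h2 x (by omega)
  have hJM : ∀ k ∈ J, k ^ 2 < M := fun k hk => hkM k (hJ k hk).2
  have hRM : ∀ k ∈ R, k ^ 2 < M := fun k hk => hJM k (hRJ hk)
  have hpos : ∀ a ∈ J.image (fun k => M - k ^ 2), a < M := by
    intro a ha
    rw [mem_image] at ha
    obtain ⟨k, hk, rfl⟩ := ha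
    have h3 := (hJ k hk).1
    have h4 : 1 ≤ k ^ 2 := Nat.one_le_pow _ _ h3
    have h5 := hJM k hk
    show M - k ^ 2 < M
    omega
  obtain ⟨N, h3⟩ := h1 x (by omega) (R.image (fun k => M - k ^ 2))
    (J.image (fun k => M - k ^ 2)) (image_subset_image hRJ) (by
      intro a ha
      rw [mem_image] at ha
      obtain ⟨k, hk, rfl⟩ := ha
      have := hJM k hk
      refine ⟨by omega, le_trans ?_ hMle⟩
      exact_mod_cast Nat.sub_le _ _) (momS_pos hMom hJM) (by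
      rw [card_image_of_injOn (pos_inj hRM)]
      exact hR) (fun a => M - a) (fun a ha => by
        have := hpos a ha
        show 1 ≤ M - a
        omega) (by
        intro a ha b hb h
        have h1 := hpos a ha
        have h2 := hpos b hb
        have h' : M - a = M - b := h
        omega)
  refine ⟨Nat.sqrt N, ?_⟩
  have hJJ : (J.image (fun k => M - k ^ 2)).filter (fun a => M - a ≤ N) =
      (J.filter (fun k => k ≤ Nat.sqrt N)).image (fun k => M - k ^ 2) := by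
    rw [filter_image]
    congr 1
    apply filter_congr
    intro k hk
    have h4 := hJM k hk
    have e : M - (M - k ^ 2) = k ^ 2 := by omega
    show M - (M - k ^ 2) ≤ N ↔ k ≤ Nat.sqrt N
    rw [e, Nat.le_sqrt, sq]
  rw [hJJ] at h3
  have h4 := GS_le_GN (J := J.filter (fun k => k ≤ Nat.sqrt N)) hκ (by linarith)
    (fun k hk => hJM k (mem_filter.1 hk).1) hRM (hMx l le_rfl)
  have h5 : (0 : ℝ) ≤ Real.log x ^ l := by positivity
  calc κ / 2 * Real.log x ^ l ≤ κ * Real.log x ^ l :=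
        mul_le_mul_of_nonneg_right (by linarith) h5
    _ ≤ _ := h3
    _ ≤ _ := by exact_mod_cast h4

/-- windows have bounded moments -/
theorem momSW (b : ℝ) (hb : 0 < b) : ∃ C : ℕ → ℝ, ∀ B : ℕ, ∃ x₀ : ℕ, ∀ x : ℕ, x₀ ≤ x →
    ∀ y N : ℕ, (N : ℝ) ≤ b * Real.log x → ((y + N : ℕ) : ℝ) ≤ Real.log x ^ B →
    ∀ J : Finset ℕ, J ⊆ Ioc y (y + N) → MomS C b (Real.log x) J := by
  classical
  obtain ⟨C, H⟩ := momSqW b hb
  refine ⟨C, fun B => ?_⟩
  obtain ⟨x0, h⟩ := H B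
  refine ⟨x0, fun x hx y N hN hyN J hJ => ⟨?_, fun K => ?_⟩⟩
  · have h1 := card_le_card hJ
    rw [Nat.card_Ioc, Nat.add_sub_cancel_left] at h1
    exact le_trans (by exact_mod_cast h1) hN
  · have h1 := h x hx y N hN hyN K
    rw [off_erase (Ioc y (y + N)) (fun i j => gg (Nat.dist i j * (i + j)) ^ K)] at h1
    refine le_trans ?_ h1
    calc ∑ q ∈ J.offDiag, gg (Nat.dist (q.1 ^ 2) (q.2 ^ 2)) ^ K
        = ∑ q ∈ J.offDiag, gg (Nat.dist q.1 q.2 * (q.1 + q.2)) ^ K := by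
          apply sum_congr rfl
          intro q _
          have h2 := dist_quad 0 q.1 q.2
          rw [zero_mul, zero_mul, add_zero, add_zero, add_zero] at h2
          rw [h2]
      _ ≤ _ := sum_le_sum_of_subset_of_nonneg (offDiag_mono hJ)
        (fun _ _ _ => pow_nonneg (gg_nonneg _) _)

end Pool.Agent.H533.GE
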