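import Pool.Agent.H533.GE.Sqr2
import Pool.Agent.H533.QA.Pol5

/-!
Squares: windows.
-/

set_option autoImplicit false

open Finset Polynomial Filter Topology

namespace Pool.Agent.H533.GE

open Pool.Agent.H361R2.PP
open Pool.Agent.H533.QM
open Pool.Agent.H533.QA

/-- `N` is the sum of a prime and `k ^ 2` -/
def Rep (N k : ℕ) : Prop := ∃ p : ℕ, p.Prime ∧ p + k ^ 2 = N

/-- the polynomial `(2 X - 1) ^ 2` -/
noncomputable def Fsq : ℤ[X] := 4 * X ^ 2 - 4 * X + 1

theorem Fsq_deg : Fsq.natDegree = 2 := by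
  unfold Fsq
  compute_degree!

theorem Fsq_eval (j : ℕ) : Fsq.eval (j : ℤ) = (2 * (j : ℤ) - 1) ^ 2 := by
  unfold Fsq
  simp
  ring

theorem Fsq_gF {j : ℕ} (hj : 1 ≤ j) : gF Fsq j = (2 * j - 1) ^ 2 := by
  unfold gF
  rw [Fsq_eval]
  have h1 : (2 * (j : ℤ) - 1) ^ 2 = (((2 * j - 1) ^ 2 : ℕ) : ℤ) := by
    rw [Nat.cast_pow, Nat.cast_sub (by omega)]
    push_cast
    ring
  rw [h1, Int.toNat_natCast]

open Classical in
/-- the `N` with many representations in a quarter of the windows and no other small representation -/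
noncomputable def WS {K : ℕ} (m : ℕ) (α : Fin K → ℝ) (ε Λ : ℝ) (N : ℕ) : Prop :=
  Even N ∧
  K ≤ 4 * ((univ : Finset (Fin K)).filter (fun i => m ≤
    ((Icc 1 ⌊Λ * Real.log N⌋₊).filter (fun k : ℕ =>
      (α i * Real.log N < k ∧ (k : ℝ) ≤ (α i + ε) * Real.log N) ∧ Rep N k)).card)).card ∧
  ∀ k ∈ Icc 1 ⌊Λ * Real.log N⌋₊, Rep N k →
    ∃ i, α i * Real.log N < k ∧ (k : ℝ) ≤ (α i + ε) * Real.log N

open Classical in
theorem sqrW (K m : ℕ) (hK : 1 ≤ K) (hm : 1 ≤ m) (α : Fin K → ℝ) (ε Λ : ℝ) (hε : 0 < ε)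
    (hΛ : 0 < Λ) (hα : ∀ i, 0 ≤ α i ∧ α i + ε ≤ Λ) :
    ∃ c : ℝ, 0 < c ∧ ∃ x₀ : ℕ, ∀ x : ℕ, x₀ ≤ x →
    c * x ≤ (((Ico x (2 * x)).filter (fun N : ℕ => WS m α ε Λ N)).card : ℝ) := by
  have hdeg := Fsq_deg
  have h0 : ∀ j : ℕ, 0 ≤ Fsq.eval (j : ℤ) := fun j => by rw [Fsq_eval]; positivity
  have hmono : ∀ i j : ℕ, 0 < i → i < j → Fsq.eval (i : ℤ) < Fsq.eval (j : ℤ) := by
    intro i j h1 h2
    rw [Fsq_eval, Fsq_eval]
    have h3 : (1 : ℤ) ≤ i := by exact_mod_cast h1
    have h4 : (i : ℤ) + 1 ≤ j := by exact_mod_cast h2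
    nlinarith
  have h1 : ∀ j : ℕ, 0 < j → 1 ≤ Fsq.eval (j : ℤ) := by
    intro j hj
    rw [Fsq_eval]
    have h3 : (1 : ℤ) ≤ j := by exact_mod_cast hj
    nlinarith
  obtain ⟨c, hc, X1, H1⟩ := polyN Fsq (by rw [hdeg]; norm_num) h0 0 hmono h1 K m
    (fun i => α i / 2 + ε / 8) (ε / 4) (Λ / 2 + ε) (by positivity) (by positivity)
    (fun i => ⟨by have := (hα i).1; positivity, by have := (hα i).2; linarith⟩)
  obtain ⟨X2, H2⟩ := gF_le Fsq (Λ / 2 + ε + 1) (by positivity)
  have t1 : Tendsto (fun X : ℕ => Real.log (X : ℝ)) atTop atTop :=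
    Real.tendsto_log_atTop.comp tendsto_natCast_atTop_atTop
  obtain ⟨X3, H3⟩ := eventually_atTop.1 (t1.eventually_ge_atTop (4 * (Λ + 1) / ε + 1))
  obtain ⟨X4, H4⟩ := Pool.Agent.H20R2.EQI.ev_large (2 / c) (Fsq.natDegree + 1) 1 one_pos
  obtain ⟨X5, H5⟩ := Pool.Agent.H20R2.EQI.ev_large (4 * Λ + 4) 1 1 one_pos
  refine ⟨c / 2, by positivity, X1 + X2 + X3 + X4 + X5 + 3, fun x hx => ?_⟩
  have hx0 : (0 : ℝ) < x := by exact_mod_cast (by omega : 0 < x)
  have hlog := H3 x (by omega)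
  have hp1 : 0 ≤ 4 * (Λ + 1) / ε := by positivity
  obtain ⟨L, hL⟩ : ∃ L : ℝ, L = Real.log x := ⟨_, rfl⟩
  rw [← hL] at hlog
  have hL1 : 4 * (Λ + 1) / ε ≤ L := by linarith
  have hL1' : 4 * (Λ + 1) ≤ L * ε := (div_le_iff₀ hε).1 hL1
  have hL3 : 1 ≤ L := by linarith
  have h4 := H4 x (by omega)
  rw [Real.rpow_one, ← hL] at h4
  have h5 := H5 x (by omega)
  rw [Real.rpow_one, ← hL, pow_one] at h5
  have hMc : L ^ (Fsq.natDegree + 1) ≤ c / 2 * x := by
    rw [div_mul_eq_mul_div, div_le_iff₀ hc] at h4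
    linarith
  obtain ⟨N₁, hN₁⟩ : ∃ N₁, N₁ = ⌊(Λ / 2 + ε) * Real.log x⌋₊ := ⟨_, rfl⟩
  obtain ⟨M, hM⟩ : ∃ M, M = gF Fsq (N₁ + 1) := ⟨_, rfl⟩
  have hN₁le : (N₁ : ℝ) ≤ (Λ / 2 + ε) * Real.log x := by
    rw [hN₁]; exact Nat.floor_le (by rw [← hL]; positivity)
  have hM1 : (M : ℝ) ≤ Real.log x ^ (Fsq.natDegree + 1) := by
    rw [hM]
    apply H2 x (by omega)
    push_cast
    rw [← hL] at hN₁le ⊢
    linarith
  have hM2 : ∀ j ∈ Ioc 0 ⌊(Λ / 2 + ε) * Real.log x⌋₊, gF Fsq j < M := by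
    intro j hj
    rw [← hN₁, mem_Ioc] at hj
    have h7 := hmono j (N₁ + 1) hj.1 (by omega)
    rw [← gF_cast h0, ← gF_cast h0] at h7
    rw [hM]
    exact_mod_cast h7
  have h6 := H1 x (by omega) M hM1 hM2
  obtain ⟨G, hG⟩ : ∃ G : Finset ℕ, G = (Ico x (2 * x)).filter (fun n =>
      K ≤ 4 * ((univ : Finset (Fin K)).filter (fun i => m ≤
        ((Ioc 0 ⌊(Λ / 2 + ε) * Real.log x⌋₊).filter (fun j =>
          CL ((fun i => α i / 2 + ε / 8) i) (ε / 4) (Real.log x) j ∧
          (n + (M - gF Fsq j)).Prime)).card)).card ∧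
      ∀ j ∈ Ioc 0 ⌊(Λ / 2 + ε) * Real.log x⌋₊, (n + (M - gF Fsq j)).Prime →
        ∃ i, CL ((fun i => α i / 2 + ε / 8) i) (ε / 4) (Real.log x) j) := ⟨_, rfl⟩
  rw [← hG] at h6
  have hGc : G.card ≤ ((Ico x (2 * x)).filter (fun N : ℕ => WS m α ε Λ N)).card + M := by
    have h7 : G.image (fun n => n + M) ⊆ ((Ico x (2 * x)).filter
        (fun N : ℕ => WS m α ε Λ N)) ∪ Ico (2 * x) (2 * x + M) := by
      intro a ha
      rw [mem_image] at ha
      obtain ⟨n, hn, rfl⟩ := ha
      rw [hG, mem_filter, mem_Ico] at hn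
      obtain ⟨⟨hn1, hn2⟩, hn3, hn4⟩ := hn
      rw [mem_union, mem_filter, mem_Ico, mem_Ico]
      rcases Nat.lt_or_ge (n + M) (2 * x) with h8 | h8
      swap
      · right
        omega
      left
      refine ⟨⟨by omega, h8⟩, ?_⟩
      obtain ⟨l1, l2⟩ := log_dyadic (a := n + M) (by omega) (by omega : x ≤ n + M) h8
      obtain ⟨La, hLa⟩ : ∃ La : ℝ, La = Real.log ((n + M : ℕ) : ℝ) := ⟨_, rfl⟩
      rw [← hLa, ← hL] at l1 l2
      have hrep : ∀ j ∈ Ioc 0 ⌊(Λ / 2 + ε) * Real.log x⌋₊, (n + (M - gF Fsq j)).Prime →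
          Rep (n + M) (2 * j - 1) := by
        intro j hj hp
        have h9 := hM2 j hj
        rw [mem_Ioc] at hj
        refine ⟨_, hp, ?_⟩
        rw [← Fsq_gF hj.1]
        omega
      have hwin : ∀ i, ∀ j : ℕ, 1 ≤ j → CL (α i / 2 + ε / 8) (ε / 4) L j →
          α i * La < ((2 * j - 1 : ℕ) : ℝ) ∧ ((2 * j - 1 : ℕ) : ℝ) ≤ (α i + ε) * La := by
        intro i j hj1 hj
        obtain ⟨g1, g2⟩ := hj
        have ha0 := (hα i).1
        have ha1 := (hα i).2
        have ej : ((2 * j - 1 : ℕ) : ℝ) = 2 * (j : ℝ) - 1 := by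
          rw [Nat.cast_sub (by omega)]
          push_cast
          ring
        rw [ej]
        constructor
        · have h10 : α i * La ≤ α i * (L + 1) := mul_le_mul_of_nonneg_left l2 ha0
          nlinarith
        · have h10 : (α i + ε) * L ≤ (α i + ε) * La :=
            mul_le_mul_of_nonneg_left l1 (by linarith)
          have h11 : 0 ≤ ε * L := by positivity
          nlinarith
      -- a representation
      have hex : ∃ j ∈ Ioc 0 ⌊(Λ / 2 + ε) * Real.log x⌋₊, (n + (M - gF Fsq j)).Prime := by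
        have h9 : 0 < ((univ : Finset (Fin K)).filter (fun i => m ≤
          ((Ioc 0 ⌊(Λ / 2 + ε) * Real.log x⌋₊).filter (fun j =>
            CL ((fun i => α i / 2 + ε / 8) i) (ε / 4) (Real.log x) j ∧
            (n + (M - gF Fsq j)).Prime)).card)).card := by omega
        rw [card_pos] at h9
        obtain ⟨i, hi⟩ := h9
        have h10 := (mem_filter.1 hi).2
        have h11 := card_pos.1 (lt_of_lt_of_le (show 0 < m by omega) h10)
        obtain ⟨j, hj⟩ := h11
        rw [mem_filter] at hj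
        exact ⟨j, hj.1, hj.2.2⟩
      have heven : Even (n + M) := by
        obtain ⟨j, hj, hp⟩ := hex
        have h9 := hM2 j hj
        rw [mem_Ioc] at hj
        have h10 := hp.odd_of_ne_two (by omega)
        have h11 := Fsq_gF hj.1
        have h12 : Odd ((2 * j - 1) ^ 2) := by
          apply Odd.pow
          rw [Nat.odd_iff]
          omega
        rw [← h11] at h12
        have h13 : n + M = (n + (M - gF Fsq j)) + gF Fsq j := by omega
        rw [h13]
        exact h10.add_odd h12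
      refine ⟨heven, ?_, ?_⟩
      · refine hn3.trans ?_
        apply Nat.mul_le_mul_left
        apply card_le_card
        intro i hi
        rw [mem_filter] at hi ⊢
        refine ⟨hi.1, hi.2.trans ?_⟩
        apply card_le_card_of_injOn (fun j => 2 * j - 1)
        · intro j hj
          rw [mem_coe, mem_filter] at hj
          obtain ⟨hj1, hj2, hj3⟩ := hj
          have hj1' := mem_Ioc.1 hj1
          rw [← hL] at hj2
          have h9 := hwin i j hj1'.1 hj2
          rw [mem_coe, mem_filter, mem_Icc, ← hLa]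
          refine ⟨⟨by show 1 ≤ 2 * j - 1; omega, ?_⟩, h9, hrep j hj1 hj3⟩
          apply Nat.le_floor
          exact h9.2.trans (mul_le_mul_of_nonneg_right (hα i).2 (by linarith))
        · intro j hj j' hj' h
          rw [mem_coe, mem_filter, mem_Ioc] at hj hj'
          have h' : 2 * j - 1 = 2 * j' - 1 := h
          omega
      · intro k hk hr
        rw [mem_Icc, ← hLa] at hk
        obtain ⟨p, hp, e⟩ := hr
        have hkΛ : (k : ℝ) ≤ Λ * La :=
          (Nat.le_floor_iff (mul_nonneg hΛ.le (by linarith))).1 hk.2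
        have hjle : (((k + 1) / 2 : ℕ) : ℝ) ≤ (Λ / 2 + ε) * L := by
          have h9 : (((k + 1) / 2 : ℕ) : ℝ) ≤ ((k + 1 : ℕ) : ℝ) / 2 := Nat.cast_div_le
          push_cast at h9
          have h10 : Λ * La ≤ Λ * (L + 1) := mul_le_mul_of_nonneg_left l2 hΛ.le
          nlinarith
        have hjmem : (k + 1) / 2 ∈ Ioc 0 ⌊(Λ / 2 + ε) * Real.log x⌋₊ := by
          rw [mem_Ioc]
          refine ⟨by omega, ?_⟩
          apply Nat.le_floor
          rw [← hL]
          exact hjle
        have h9 := hM2 _ hjmem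
        have h10 : 1 ≤ (k + 1) / 2 := by omega
        rw [Fsq_gF h10] at h9
        -- `k` is odd
        have hkM : k ^ 2 < M + 1 + 2 * k := by
          rcases Nat.even_or_odd k with h11 | h11
          · obtain ⟨r, hr⟩ := h11
            have h12 : 2 * ((k + 1) / 2) - 1 = k - 1 := by omega
            rw [h12] at h9
            have h13 : k = (k - 1) + 1 := by omega
            nlinarith
          · obtain ⟨r, hr⟩ := h11
            have h12 : 2 * ((k + 1) / 2) - 1 = k := by omega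
            rw [h12] at h9
            omega
        have hodd : Odd k := by
          rw [← Nat.not_even_iff_odd]
          intro hev
          have h11 : Even (k ^ 2) := hev.pow_of_ne_zero (by norm_num)
          have h12 : Even p := by
            have := heven
            rw [← e] at this
            exact (Nat.even_add.1 this).2 h11
          have h13 : p = 2 := (Nat.Prime.even_iff hp).1 h12
          -- size
          have h14 : (k : ℝ) ≤ Λ * (L + 1) := hkΛ.trans (mul_le_mul_of_nonneg_left l2 hΛ.le)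
          have h15 : n + M = 2 + k ^ 2 := by omega
          have h16 : n < 3 + 2 * k := by omega
          have h17 : (x : ℝ) ≤ 3 + 2 * (Λ * (L + 1)) := by
            have : (x : ℝ) ≤ n := by exact_mod_cast hn1
            have h18 : (n : ℝ) ≤ 3 + 2 * k := by exact_mod_cast h16.le
            linarith
          have h18 : Λ ≤ Λ * L := le_mul_of_one_le_right hΛ.le hL3
          nlinarith
        obtain ⟨r, hr⟩ := hodd
        have h12 : 2 * ((k + 1) / 2) - 1 = k := by omega
        rw [h12] at h9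
        have hprime : (n + (M - gF Fsq ((k + 1) / 2))).Prime := by
          rw [Fsq_gF h10, h12]
          have : n + (M - k ^ 2) = p := by omega
          rw [this]
          exact hp
        obtain ⟨i, hi⟩ := hn4 _ hjmem hprime
        refine ⟨i, ?_⟩
        rw [← hL] at hi
        have h13 := hwin i _ h10 hi
        rw [h12, hLa] at h13
        exact h13
    have h8 := card_le_card h7
    rw [card_image_of_injective _ (fun _ _ h => Nat.add_right_cancel h)] at h8
    refine h8.trans ((card_union_le _ _).trans ?_)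
    rw [Nat.card_Ico]
    omega
  have h9 : (G.card : ℝ) ≤ (((Ico x (2 * x)).filter (fun N : ℕ => WS m α ε Λ N)).card : ℝ) + M := by
    exact_mod_cast hGc
  rw [← hL] at hM1
  linarith

end Pool.Agent.H533.GE
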