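import Pool.Agent.H533.GE.Sqr2

/-!
Arbitrary integral positions: exact patterns of the numbers `N + F k`, `k ∈ J`.
-/

set_option autoImplicit false

open Finset Filter Topology

namespace Pool.Agent.H533.GE

open Pool.Agent.H533.QM
open Pool.Agent.H533.QS
open Pool.Agent.H533.QA
open Pool.Agent.W218.MU (w loc SL)

/-- the integer `z` is a prime number -/
def PZ (z : ℤ) : Prop := ∃ p : ℕ, p.Prime ∧ (p : ℤ) = z

/-- bounded moments for the positions `F k` -/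
def MomZ (C : ℕ → ℝ) (Λ L : ℝ) (F : ℕ → ℤ) (J : Finset ℕ) : Prop :=
  (J.card : ℝ) ≤ Λ * L ∧ Set.InjOn F (J : Set ℕ) ∧
    ∀ K : ℕ, ∑ q ∈ J.offDiag, gg (F q.1 - F q.2).natAbs ^ K ≤ C K * L ^ 2

/-- the positions -/
def zp (F : ℕ → ℤ) (M : ℕ) (k : ℕ) : ℕ := (F k + M).toNat

theorem zp_cast {F : ℕ → ℤ} {M k : ℕ} (h : (F k).natAbs < M) : (zp F M k : ℤ) = F k + M := by
  unfold zp
  omega

theorem zp_pos {F : ℕ → ℤ} {M k : ℕ} (h : (F k).natAbs < M) : 1 ≤ zp F M k := by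
  have := zp_cast h
  omega

theorem zp_lt {F : ℕ → ℤ} {M k : ℕ} (h : (F k).natAbs < M) : zp F M k < 2 * M := by
  have := zp_cast h
  omega

theorem zp_eq_iff {F : ℕ → ℤ} {M k j : ℕ} (hk : (F k).natAbs < M) (hj : (F j).natAbs < M) :
    zp F M k = zp F M j ↔ F k = F j := by
  have h1 := zp_cast hk
  have h2 := zp_cast hj
  omega

theorem zp_inj {F : ℕ → ℤ} {J : Finset ℕ} {M : ℕ} (hM : ∀ k ∈ J, (F k).natAbs < M)
    (hF : Set.InjOn F (J : Set ℕ)) : Set.InjOn (zp F M) (J : Set ℕ) := by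
  intro k hk j hj h
  exact hF hk hj ((zp_eq_iff (hM k hk) (hM j hj)).1 h)

theorem zp_dist {F : ℕ → ℤ} {M k j : ℕ} (hk : (F k).natAbs < M) (hj : (F j).natAbs < M) :
    Nat.dist (zp F M k) (zp F M j) = (F k - F j).natAbs := by
  have h1 := zp_cast hk
  have h2 := zp_cast hj
  unfold Nat.dist
  omega

theorem prime_zp {F : ℕ → ℤ} {M n k : ℕ} (hk : (F k).natAbs < M) :
    (n + zp F M k).Prime ↔ PZ (((n + M : ℕ) : ℤ) + F k) := by
  have h1 := zp_cast hk
  unfold PZ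
  constructor
  · intro h
    refine ⟨_, h, ?_⟩
    push_cast
    rw [h1]
    ring
  · rintro ⟨p, hp, e⟩
    have : n + zp F M k = p := by
      push_cast at e
      omega
    rw [this]
    exact hp

theorem sum_zp {F : ℕ → ℤ} {J : Finset ℕ} {M : ℕ} (hM : ∀ k ∈ J, (F k).natAbs < M)
    (hF : Set.InjOn F (J : Set ℕ)) (g : ℕ → ℝ) :
    ∑ q ∈ (J.image (zp F M)).offDiag, g (Nat.dist q.1 q.2) =
      ∑ q ∈ J.offDiag, g (F q.1 - F q.2).natAbs := by
  have hinj := zp_inj hM hF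
  symm
  apply sum_bij (fun (q : ℕ × ℕ) _ => (zp F M q.1, zp F M q.2))
  · intro q hq
    rw [mem_offDiag] at hq
    rw [mem_offDiag]
    exact ⟨mem_image_of_mem _ hq.1, mem_image_of_mem _ hq.2.1, fun h =>
      hq.2.2 (hinj hq.1 hq.2.1 h)⟩
  · rintro ⟨i, j⟩ h1 ⟨i', j'⟩ h2 h
    rw [mem_offDiag] at h1 h2
    have e1 := hinj h1.1 h2.1 (Prod.mk.inj h).1
    have e2 := hinj h1.2.1 h2.2.1 (Prod.mk.inj h).2
    exact Prod.ext e1 e2
  · rintro ⟨u, v⟩ hq
    rw [mem_offDiag, mem_image, mem_image] at hq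
    obtain ⟨⟨i, hi, e1⟩, ⟨j, hj, e2⟩, hne⟩ := hq
    refine ⟨(i, j), ?_, Prod.ext e1 e2⟩
    rw [mem_offDiag]
    refine ⟨hi, hj, fun h => hne ?_⟩
    have h' : i = j := h
    show u = v
    have e1' : zp F M i = u := e1
    have e2' : zp F M j = v := e2
    rw [← e1', ← e2', h']
  · intro q hq
    rw [mem_offDiag] at hq
    rw [zp_dist (hM q.1 hq.1) (hM q.2 hq.2.1)]

theorem momZ_pos {C : ℕ → ℝ} {Λ L : ℝ} {F : ℕ → ℤ} {J : Finset ℕ} {M : ℕ}
    (hJ : MomZ C Λ L F J) (hM : ∀ k ∈ J, (F k).natAbs < M) :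
    MomJ C Λ L (J.image (zp F M)) := by
  refine ⟨le_trans (by exact_mod_cast card_image_le) hJ.1, fun K => ?_⟩
  exact (sum_zp hM hJ.2.1 (fun n => gg n ^ K)).le.trans (hJ.2.2 K)

/-- the number of the `N` at which the `N + F k` are prime exactly for the `k ∈ T` -/
noncomputable def EZ (x : ℕ) (F : ℕ → ℤ) (J T : Finset ℕ) : ℕ := by
  classical exact ((Ico x (2 * x)).filter (fun N : ℕ => ∀ k ∈ J, (PZ ((N : ℤ) + F k) ↔ k ∈ T))).card

theorem ES_le_EZ {x M : ℕ} {F : ℕ → ℤ} {J T : Finset ℕ} (hM : ∀ k ∈ J, (F k).natAbs < M)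
    (hF : Set.InjOn F (J : Set ℕ)) (hT : T ⊆ J) :
    ES x (J.image (zp F M)) (T.image (zp F M)) ≤ EZ x F J T + M := by
  classical
  have hinj := zp_inj hM hF
  unfold ES EZ
  obtain ⟨G, hG⟩ : ∃ G, G = (Ico x (2 * x)).filter (fun n =>
    TJ (J.image (zp F M)) n = T.image (zp F M)) := ⟨_, rfl⟩
  have h1 : G.image (fun n => n + M) ⊆ ((Ico x (2 * x)).filter
      (fun N : ℕ => ∀ k ∈ J, (PZ ((N : ℤ) + F k) ↔ k ∈ T))) ∪
      Ico (2 * x) (2 * x + M) := by
    intro a ha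
    rw [mem_image] at ha
    obtain ⟨n, hn, rfl⟩ := ha
    rw [hG, mem_filter, mem_Ico] at hn
    rw [mem_union, mem_filter, mem_Ico, mem_Ico]
    rcases Nat.lt_or_ge (n + M) (2 * x) with h8 | h8
    · left
      refine ⟨⟨by omega, h8⟩, fun k hk => ?_⟩
      have hkM := hM k hk
      rw [← prime_zp hkM]
      have e2 : (n + zp F M k).Prime ↔ zp F M k ∈ TJ (J.image (zp F M)) n := by
        rw [mem_TJ]
        exact ⟨fun h => ⟨mem_image_of_mem _ hk, h⟩, fun h => h.2⟩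
      rw [e2, hn.2, mem_image]
      constructor
      · rintro ⟨j, hj, e⟩
        have := hinj (hT hj) hk e
        rwa [← this]
      · intro hkT
        exact ⟨k, hkT, rfl⟩
    · right
      omega
  have h2 := card_le_card h1
  rw [card_image_of_injective _ (fun _ _ h => Nat.add_right_cancel h), hG] at h2
  refine h2.trans ((card_union_le _ _).trans ?_)
  rw [Nat.card_Ico]
  omega

/-- the singular series of the positions `F k` -/
noncomputable def SZ (F : ℕ → ℤ) (T : Finset ℕ) : ℝ := ∏' p : Nat.Primes,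
    (1 - (((T.image (fun k => F k % ((p : ℕ) : ℤ))).card : ℕ) : ℝ) / ((p : ℕ) : ℝ)) /
      (1 - 1 / ((p : ℕ) : ℝ)) ^ T.card

theorem card_image_congr {β γ : Type*} [DecidableEq β] [DecidableEq γ] (T : Finset ℕ)
    (f : ℕ → β) (g : ℕ → γ) (h : ∀ a ∈ T, ∀ b ∈ T, f a = f b ↔ g a = g b) :
    (T.image f).card = (T.image g).card := by
  classical
  have h1 : ∀ y ∈ T.image f, ∃ a ∈ T, f a = y := fun y hy => mem_image.1 hy
  choose! s hs1 hs2 using h1
  apply card_bij (fun y _ => g (s y))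
  · intro y hy
    exact mem_image_of_mem _ (hs1 y hy)
  · intro y hy z hz e
    have := (h _ (hs1 y hy) _ (hs1 z hz)).2 e
    rw [hs2 y hy, hs2 z hz] at this
    exact this
  · intro z hz
    obtain ⟨a, ha, rfl⟩ := mem_image.1 hz
    refine ⟨f a, mem_image_of_mem _ ha, ?_⟩
    exact (h _ (hs1 _ (mem_image_of_mem _ ha)) _ ha).1 (hs2 _ (mem_image_of_mem _ ha))

theorem SZ_eq {F : ℕ → ℤ} {T : Finset ℕ} {M : ℕ} (hM : ∀ k ∈ T, (F k).natAbs < M)
    (hF : Set.InjOn F (T : Set ℕ)) :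
    SS (T.image (zp F M)) = SZ F T := by
  classical
  rw [SS_eq]
  unfold SZ
  apply tprod_congr
  intro p
  have e1 : (T.image (zp F M)).card = T.card := card_image_of_injOn (zp_inj hM hF)
  have e2 : ((T.image (zp F M)).image (fun a => a % (p : ℕ))).card =
      (T.image (fun k => F k % ((p : ℕ) : ℤ))).card := by
    rw [image_image]
    apply card_image_congr
    intro k hk j hj
    have h1 := zp_cast (hM k hk)
    have h2 := zp_cast (hM j hj)
    show zp F M k % (p : ℕ) = zp F M j % (p : ℕ) ↔ F k % ((p : ℕ) : ℤ) = F j % ((p : ℕ) : ℤ)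
    have h3 : zp F M k % (p : ℕ) = zp F M j % (p : ℕ) ↔
        ((zp F M k : ℕ) : ℤ) % ((p : ℕ) : ℤ) = ((zp F M j : ℕ) : ℤ) % ((p : ℕ) : ℤ) := by
      rw [← Int.natCast_mod, ← Int.natCast_mod]
      exact Nat.cast_inj.symm
    rw [h3, h1, h2]
    constructor
    · intro h
      have h' : F k + M ≡ F j + M [ZMOD ((p : ℕ) : ℤ)] := h
      exact Int.ModEq.add_right_cancel' _ h'
    · intro h
      have h' : F k ≡ F j [ZMOD ((p : ℕ) : ℤ)] := h
      exact h'.add_right _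
  rw [e1, e2]

open Classical in
/-- the good sets -/
noncomputable def GZ (x l : ℕ) (κ : ℝ) (F : ℕ → ℤ) (J R : Finset ℕ) : Finset (Finset ℕ) :=
  ((R ∩ J).powersetCard l).filter (fun T =>
      κ * max 1 (SZ F T) * (x / Real.log x ^ l) ≤ (EZ x F J T : ℝ))

theorem GS_le_GZ {x l M : ℕ} {κ : ℝ} {F : ℕ → ℤ} {J R I : Finset ℕ} (hκ : 0 < κ)
    (hx : 0 ≤ Real.log x) (hJI : J ⊆ I) (hRI : R ⊆ I)
    (hM : ∀ k ∈ I, (F k).natAbs < M) (hF : Set.InjOn F (I : Set ℕ))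
    (hMx : (M : ℝ) ≤ κ / 2 * (x / Real.log x ^ l)) :
    (GS x l κ (J.image (zp F M)) (R.image (zp F M))).card ≤ (GZ x l (κ / 2) F J R).card := by
  classical
  have hinj := zp_inj hM hF
  have h1 : GS x l κ (J.image (zp F M)) (R.image (zp F M)) ⊆
      (GZ x l (κ / 2) F J R).image (fun T => T.image (zp F M)) := by
    intro T' hT'
    unfold GS at hT'
    rw [mem_filter, mem_powersetCard] at hT'
    obtain ⟨⟨g1, g2⟩, g3⟩ := hT'
    obtain ⟨T, hT⟩ : ∃ T, T = (R ∩ J).filter (fun k => zp F M k ∈ T') := ⟨_, rfl⟩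
    have hTJ : T ⊆ J := by
      intro k hk
      rw [hT, mem_filter, mem_inter] at hk
      exact hk.1.2
    have hTI : T ⊆ I := hTJ.trans hJI
    have hTT : T.image (zp F M) = T' := by
      ext a
      rw [mem_image]
      constructor
      · rintro ⟨k, hk, rfl⟩
        rw [hT, mem_filter] at hk
        exact hk.2
      · intro ha
        have h2 := g1 ha
        rw [mem_filter, mem_image, mem_image] at h2
        obtain ⟨⟨k, hk, e⟩, ⟨j, hj, e'⟩⟩ := h2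
        have hkj : k = j := hinj (hRI hk) (hJI hj) (by rw [e, e'])
        refine ⟨k, ?_, e⟩
        rw [hT, mem_filter, mem_inter]
        refine ⟨⟨hk, by rw [hkj]; exact hj⟩, ?_⟩
        rw [e]
        exact ha
    rw [mem_image]
    refine ⟨T, ?_, hTT⟩
    unfold GZ
    rw [mem_filter, mem_powersetCard]
    refine ⟨⟨?_, ?_⟩, ?_⟩
    · rw [hT]; exact filter_subset _ _
    · rw [← g2, ← hTT, card_image_of_injOn (hinj.mono (by exact_mod_cast hTI))]
    · rw [← hTT, SZ_eq (fun k hk => hM k (hTI hk)) (hF.mono (by exact_mod_cast hTI))] at g3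
      have h3 := ES_le_EZ (x := x) (fun k hk => hM k (hJI hk)) (hF.mono (by exact_mod_cast hJI)) hTJ
      have h4 : (ES x (J.image (zp F M)) (T.image (zp F M)) : ℝ) ≤ EZ x F J T + M := by
        exact_mod_cast h3
      have h5 : (1 : ℝ) ≤ max 1 (SZ F T) := le_max_left _ _
      have h6 : (0 : ℝ) ≤ x / Real.log x ^ l := by positivity
      have h7 : κ / 2 * (x / Real.log x ^ l) ≤ κ / 2 * max 1 (SZ F T) * (x / Real.log x ^ l) := by
        apply mul_le_mul_of_nonneg_right _ h6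
        nlinarith
      have h8 : κ * max 1 (SZ F T) * (x / Real.log x ^ l) =
          κ / 2 * max 1 (SZ F T) * (x / Real.log x ^ l) +
          κ / 2 * max 1 (SZ F T) * (x / Real.log x ^ l) := by ring
      linarith
  exact (card_le_card h1).trans card_image_le

/-- the choice of `M` -/
theorem choose_MZ (κ : ℝ) (hκ : 0 < κ) (B Mx : ℕ) : ∃ x₀ : ℕ, ∀ x : ℕ, x₀ ≤ x →
    ∃ M : ℕ, 1 ≤ Real.log x ∧ ((2 * M : ℕ) : ℝ) ≤ Real.log x ^ (2 * B + 2) ∧
    (∀ z : ℤ, ((z.natAbs : ℕ) : ℝ) ≤ Real.log x ^ B → z.natAbs < M) ∧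
    ∀ l : ℕ, l ≤ Mx → (M : ℝ) ≤ κ / 2 * (x / Real.log x ^ l) := by
  have t1 : Tendsto (fun X : ℕ => Real.log (X : ℝ)) atTop atTop :=
    Real.tendsto_log_atTop.comp tendsto_natCast_atTop_atTop
  obtain ⟨x1, h1⟩ := eventually_atTop.1 (t1.eventually_ge_atTop 2)
  obtain ⟨x2, h2⟩ := choose_M κ hκ B Mx
  refine ⟨x1 + x2, fun x hx => ?_⟩
  obtain ⟨M, g1, g2, g3, g4⟩ := h2 x (by omega)
  have hL := h1 x (by omega)
  refine ⟨M, g1, ?_, fun z hz => ?_, g4⟩
  · push_cast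
    have h3 : Real.log x ^ (2 * B + 2) = Real.log x ^ (2 * B + 1) * Real.log x := by
      rw [← pow_succ]
    rw [h3]
    have h4 : (0 : ℝ) ≤ Real.log x ^ (2 * B + 1) := by positivity
    nlinarith
  · have h3 := g3 _ hz
    have h4 : z.natAbs ≤ z.natAbs ^ 2 := by
      rcases Nat.eq_zero_or_pos z.natAbs with h | h
      · rw [h]; norm_num
      · nlinarith
    omega

/-- **exact patterns of a bounded size** -/
theorem zf2 (C : ℕ → ℝ) (Λ ρ : ℝ) (hΛ : 0 < Λ) (hρ : 0 < ρ) (m : ℕ) (hm : 1 ≤ m) :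
    ∃ M : ℕ, ∃ κ : ℝ, 0 < κ ∧ ∀ B : ℕ, ∃ x₀ : ℕ, ∀ x : ℕ, x₀ ≤ x → ∀ F : ℕ → ℤ,
    ∀ R J : Finset ℕ, R ⊆ J → (∀ k ∈ J, (((F k).natAbs : ℕ) : ℝ) ≤ Real.log x ^ B) →
    MomZ C Λ (Real.log x) F J → ρ * Real.log x ≤ R.card → ∃ l : ℕ, m ≤ l ∧ l ≤ M ∧
    κ * Real.log x ^ l ≤ ((GZ x l κ F J R).card : ℝ) := by
  classical
  obtain ⟨Mx, κ, hκ, H⟩ := part2S C Λ ρ hΛ hρ m hm
  refine ⟨Mx, κ / 2, by positivity, fun B => ?_⟩
  obtain ⟨x1, h1⟩ := H (2 * B + 2)
  obtain ⟨x2, h2⟩ := choose_MZ κ hκ B Mx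
  refine ⟨x1 + x2, fun x hx F R J hRJ hJ hMom hR => ?_⟩
  obtain ⟨M, hL1, hMle, hkM, hMx⟩ := h2 x (by omega)
  have hJM : ∀ k ∈ J, (F k).natAbs < M := fun k hk => hkM _ (hJ k hk)
  obtain ⟨l, hl1, hl2, h3⟩ := h1 x (by omega) (R.image (zp F M))
    (J.image (zp F M)) (image_subset_image hRJ) (by
      intro a ha
      rw [mem_image] at ha
      obtain ⟨k, hk, rfl⟩ := ha
      have h4 := zp_lt (hJM k hk)
      refine ⟨zp_pos (hJM k hk), le_trans ?_ hMle⟩
      exact_mod_cast h4.le) (momZ_pos hMom hJM) (by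
      rw [card_image_of_injOn ((zp_inj hJM hMom.2.1).mono (by exact_mod_cast hRJ))]
      exact hR)
  refine ⟨l, hl1, hl2, ?_⟩
  have h4 := GS_le_GZ hκ (by linarith) subset_rfl hRJ hJM hMom.2.1 (hMx l hl2)
  have h5 : (0 : ℝ) ≤ Real.log x ^ l := by positivity
  calc κ / 2 * Real.log x ^ l ≤ κ * Real.log x ^ l :=
        mul_le_mul_of_nonneg_right (by linarith) h5
    _ ≤ _ := h3
    _ ≤ _ := by exact_mod_cast h4

/-- **exact patterns of every size** -/
theorem zf3 (C : ℕ → ℝ) (Λ ρ : ℝ) (hΛ : 0 < Λ) (hρ : 0 < ρ) (l : ℕ) (hl : 1 ≤ l) :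
    ∃ κ : ℝ, 0 < κ ∧ ∀ B : ℕ, ∃ x₀ : ℕ, ∀ x : ℕ, x₀ ≤ x → ∀ F : ℕ → ℤ,
    ∀ R J : Finset ℕ, R ⊆ J → (∀ k ∈ J, (((F k).natAbs : ℕ) : ℝ) ≤ Real.log x ^ B) →
    MomZ C Λ (Real.log x) F J → ρ * Real.log x ≤ R.card → ∃ t : ℕ,
    κ * Real.log x ^ l ≤ ((GZ x l κ F (J.filter (fun k => k ≤ t)) R).card : ℝ) := by
  classical
  obtain ⟨κ, hκ, H⟩ := part3G C Λ ρ hΛ hρ l hl
  refine ⟨κ / 2, by positivity, fun B => ?_⟩
  obtain ⟨x1, h1⟩ := H (2 * B + 2)
  obtain ⟨x2, h2⟩ := choose_MZ κ hκ B l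
  refine ⟨x1 + x2, fun x hx F R J hRJ hJ hMom hR => ?_⟩
  obtain ⟨M, hL1, hMle, hkM, hMx⟩ := h2 x (by omega)
  have hJM : ∀ k ∈ J, (F k).natAbs < M := fun k hk => hkM _ (hJ k hk)
  have hinj := zp_inj hJM hMom.2.1
  obtain ⟨f, hf⟩ : ∃ f : ℕ → ℕ, ∀ k ∈ J, f (zp F M k) = k + 1 := by
    refine ⟨fun a => Function.invFunOn (zp F M) (J : Set ℕ) a + 1, fun k hk => ?_⟩
    show Function.invFunOn (zp F M) (J : Set ℕ) (zp F M k) + 1 = k + 1
    have hex : ∃ a ∈ (J : Set ℕ), zp F M a = zp F M k := ⟨k, hk, rfl⟩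
    have h3 := Function.invFunOn_mem hex
    have h4 := Function.invFunOn_eq hex
    rw [hinj h3 hk h4]
  obtain ⟨N, h3⟩ := h1 x (by omega) (R.image (zp F M))
    (J.image (zp F M)) (image_subset_image hRJ) (by
      intro a ha
      rw [mem_image] at ha
      obtain ⟨k, hk, rfl⟩ := ha
      have h4 := zp_lt (hJM k hk)
      refine ⟨zp_pos (hJM k hk), le_trans ?_ hMle⟩
      exact_mod_cast h4.le) (momZ_pos hMom hJM) (by
      rw [card_image_of_injOn (hinj.mono (by exact_mod_cast hRJ))]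
      exact hR) f (fun a ha => by
        rw [mem_image] at ha
        obtain ⟨k, hk, rfl⟩ := ha
        rw [hf k hk]
        omega) (by
        intro a ha b hb h
        rw [mem_coe, mem_image] at ha hb
        obtain ⟨k, hk, rfl⟩ := ha
        obtain ⟨j, hj, rfl⟩ := hb
        rw [hf k hk, hf j hj] at h
        have : k = j := by omega
        rw [this])
  refine ⟨N - 1, ?_⟩
  rcases Nat.eq_zero_or_pos N with hN | hN
  · exfalso
    have hJJ : (J.image (zp F M)).filter (fun a => f a ≤ N) = ∅ := by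
      rw [filter_eq_empty_iff]
      intro a ha
      rw [mem_image] at ha
      obtain ⟨k, hk, rfl⟩ := ha
      rw [hf k hk]
      omega
    rw [hJJ] at h3
    have h4 : GS x l κ ∅ (R.image (zp F M)) = ∅ := by
      rw [Finset.eq_empty_iff_forall_notMem]
      intro T hT
      unfold GS at hT
      rw [mem_filter, mem_powersetCard] at hT
      obtain ⟨⟨g1, g2⟩, _⟩ := hT
      have h5 : T ⊆ ∅ := fun r hr => (mem_filter.1 (g1 hr)).2
      rw [Finset.subset_empty] at h5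
      rw [h5, card_empty] at g2
      omega
    rw [h4, card_empty, Nat.cast_zero] at h3
    have h5 : 0 < κ * Real.log x ^ l := by positivity
    linarith
  have hJJ : (J.image (zp F M)).filter (fun a => f a ≤ N) =
      (J.filter (fun k => k ≤ N - 1)).image (zp F M) := by
    rw [filter_image]
    congr 1
    apply filter_congr
    intro k hk
    show f (zp F M k) ≤ N ↔ k ≤ N - 1
    rw [hf k hk]
    omega
  rw [hJJ] at h3
  have h4 := GS_le_GZ (J := J.filter (fun k => k ≤ N - 1)) hκ (by linarith)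
    (filter_subset _ _) hRJ hJM hMom.2.1 (hMx l le_rfl)
  have h5 : (0 : ℝ) ≤ Real.log x ^ l := by positivity
  calc κ / 2 * Real.log x ^ l ≤ κ * Real.log x ^ l :=
        mul_le_mul_of_nonneg_right (by linarith) h5
    _ ≤ _ := h3
    _ ≤ _ := by exact_mod_cast h4

open Classical in
/-- **arbitrary sets of positions** -/
theorem zf1 (m : ℕ) (ρ Λ C : ℝ) (hρ : 0 < ρ) (hΛ : 0 < Λ) (hC : 0 < C) :
    ∃ c : ℝ, 0 < c ∧ ∀ B : ℕ, ∃ x₀ : ℕ, ∀ x : ℕ, x₀ ≤ x → ∀ F : ℕ → ℤ, ∀ A J : Finset ℕ, A ⊆ J →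
    (∀ k ∈ J, (((F k).natAbs : ℕ) : ℝ) ≤ Real.log x ^ B) → Set.InjOn F (A : Set ℕ) →
    ρ * Real.log x ≤ A.card → (J.card : ℝ) ≤ Λ * Real.log x →
    ∑ q ∈ A.offDiag, gg (F q.1 - F q.2).natAbs ≤ C * (A.card : ℝ) ^ 2 →
    c * x ≤ (((Ico x (2 * x)).filter (fun N : ℕ => m ≤ (A.filter (fun k => PZ ((N : ℤ) + F k))).card ∧
      ∀ k ∈ J, PZ ((N : ℤ) + F k) → ∃ j ∈ A, F j = F k)).card : ℝ) := by
  obtain ⟨c, hc, H⟩ := genS m ρ Λ C hρ hΛ hC
  refine ⟨c / 2, by positivity, fun B => ?_⟩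
  obtain ⟨x1, h1⟩ := H (2 * B + 2)
  obtain ⟨x2, h2⟩ := choose_MZ c hc B 0
  refine ⟨x1 + x2, fun x hx F A J hAJ hJ hF hA hJc hpair => ?_⟩
  obtain ⟨M, hL1, hMle, hkM, hMx⟩ := h2 x (by omega)
  have hJM : ∀ k ∈ J, (F k).natAbs < M := fun k hk => hkM _ (hJ k hk)
  have hAM : ∀ k ∈ A, (F k).natAbs < M := fun k hk => hJM k (hAJ hk)
  have hinj := zp_inj hAM hF
  have h3 := h1 x (by omega) (A.image (zp F M)) (J.image (zp F M)) (image_subset_image hAJ) (by
      intro a ha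
      rw [mem_image] at ha
      obtain ⟨k, hk, rfl⟩ := ha
      have h4 := zp_lt (hJM k hk)
      refine ⟨zp_pos (hJM k hk), le_trans ?_ hMle⟩
      exact_mod_cast h4.le) (by
      rw [card_image_of_injOn hinj]
      exact hA) (le_trans (by exact_mod_cast card_image_le) hJc) (by
      rw [off_erase _ (fun a b => gg (Nat.dist a b)), sum_zp hAM hF gg, card_image_of_injOn hinj]
      exact hpair)
  obtain ⟨G, hG⟩ : ∃ G, G = (Ico x (2 * x)).filter (fun n =>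
    m ≤ ((A.image (zp F M)).filter (fun a => (n + a).Prime)).card ∧
      ∀ a ∈ J.image (zp F M), (n + a).Prime → a ∈ A.image (zp F M)) := ⟨_, rfl⟩
  rw [← hG] at h3
  have h5 : G.image (fun n => n + M) ⊆ ((Ico x (2 * x)).filter (fun N : ℕ =>
      m ≤ (A.filter (fun k => PZ ((N : ℤ) + F k))).card ∧
      ∀ k ∈ J, PZ ((N : ℤ) + F k) → ∃ j ∈ A, F j = F k)) ∪ Ico (2 * x) (2 * x + M) := by
    intro a ha
    rw [mem_image] at ha
    obtain ⟨n, hn, rfl⟩ := ha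
    rw [hG, mem_filter, mem_Ico] at hn
    rw [mem_union, mem_filter, mem_Ico, mem_Ico]
    rcases Nat.lt_or_ge (n + M) (2 * x) with h8 | h8
    · left
      refine ⟨⟨by omega, h8⟩, ?_, fun k hk hp => ?_⟩
      · refine hn.2.1.trans (le_of_eq ?_)
        rw [filter_image, card_image_of_injOn]
        · congr 1
          apply filter_congr
          intro k hk
          exact prime_zp (hAM k hk)
        · intro k hk j hj e
          exact hinj (mem_filter.1 hk).1 (mem_filter.1 hj).1 e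
      · have h6 := hn.2.2 _ (mem_image_of_mem _ hk) ((prime_zp (hJM k hk)).2 hp)
        rw [mem_image] at h6
        obtain ⟨j, hj, e⟩ := h6
        exact ⟨j, hj, (zp_eq_iff (hAM j hj) (hJM k hk)).1 e⟩
    · right
      omega
  have h6 := card_le_card h5
  rw [card_image_of_injective _ (fun _ _ h => Nat.add_right_cancel h)] at h6
  have h7 := h6.trans (card_union_le _ _)
  rw [Nat.card_Ico] at h7
  have h8 : 2 * x + M - 2 * x = M := by omega
  rw [h8] at h7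
  have h9 : (G.card : ℝ) ≤ ((((Ico x (2 * x)).filter (fun N : ℕ =>
      m ≤ (A.filter (fun k => PZ ((N : ℤ) + F k))).card ∧
      ∀ k ∈ J, PZ ((N : ℤ) + F k) → ∃ j ∈ A, F j = F k)).card : ℕ) : ℝ) + M := by
    exact_mod_cast h7
  have h10 := hMx 0 le_rfl
  rw [pow_zero, div_one] at h10
  linarith

end Pool.Agent.H533.GE
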